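import Mathlib

/-!
# Matrix polynomials with accretive coefficients: kernel lemma and reduction to the core
-/

set_option autoImplicit false
set_option linter.unusedSectionVars false

namespace H669R3.Acc

open Matrix MvPolynomial

/-- The matrix polynomial `∑ k, g_k(x) A_k`, where the `g_k` are real polynomials. -/
noncomputable def matPoly {κ σ ι : Type*} [Fintype κ] (g : κ → MvPolynomial σ ℝ)
    (A : κ → Matrix ι ι ℂ) : Matrix ι ι (MvPolynomial σ ℂ) :=
  ∑ k, (map (algebraMap ℝ ℂ) (g k)) • (A k).map C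

/-- `g(x) > 0` for all points `x` with positive coordinates -/
def PosOn {σ : Type*} (g : MvPolynomial σ ℝ) : Prop := ∀ x : σ → ℝ, (∀ i, 0 < x i) → 0 < eval x g

/-- `Re (v^* B v) ≥ 0` for all `v` -/
def Accretive {ι : Type*} [Fintype ι] (B : Matrix ι ι ℂ) : Prop :=
  ∀ v : ι → ℂ, 0 ≤ (star v ⬝ᵥ B *ᵥ v).re

/-- the common kernel of the hermitian parts `A_k + A_k^*` -/
def core {κ ι : Type*} [Fintype ι] (A : κ → Matrix ι ι ℂ) : Submodule ℂ (ι → ℂ) where
  carrier := {v | ∀ k, (A k + (A k)ᴴ) *ᵥ v = 0}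
  add_mem' := by
    intro a b ha hb k
    rw [mulVec_add, ha k, hb k, add_zero]
  zero_mem' := fun k => mulVec_zero _
  smul_mem' := by
    intro c a ha k
    rw [mulVec_smul, ha k, smul_zero]

/-- the vectors of the core which are killed by the matrices `A_k` of all non-constant `g_k` -/
def core₀ {κ σ ι : Type*} [Fintype ι] (g : κ → MvPolynomial σ ℝ) (A : κ → Matrix ι ι ℂ) :
    Submodule ℂ (ι → ℂ) where
  carrier := {v | v ∈ core A ∧ ∀ k, (g k).totalDegree ≠ 0 → A k *ᵥ v = 0}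
  add_mem' := by
    intro a b ha hb
    refine ⟨(core A).add_mem ha.1 hb.1, fun k hk => ?_⟩
    rw [mulVec_add, ha.2 k hk, hb.2 k hk, add_zero]
  zero_mem' := ⟨(core A).zero_mem, fun k _ => mulVec_zero _⟩
  smul_mem' := by
    intro c a ha
    refine ⟨(core A).smul_mem c ha.1, fun k hk => ?_⟩
    rw [mulVec_smul, ha.2 k hk, smul_zero]

/-- the value `∑ k, g_k(y) A_k` -/
noncomputable def value {κ σ ι : Type*} [Fintype κ] (g : κ → MvPolynomial σ ℝ)
    (A : κ → Matrix ι ι ℂ) (y : σ → ℂ) : Matrix ι ι ℂ :=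
  ∑ k, aeval y (g k) • A k

lemma map_matPoly {κ σ ι : Type*} [Fintype κ] (g : κ → MvPolynomial σ ℝ)
    (A : κ → Matrix ι ι ℂ) (y : σ → ℂ) : (matPoly g A).map (eval y) = value g A y := by
  ext i j
  simp only [matPoly, value, Matrix.map_apply, Matrix.sum_apply, Matrix.smul_apply, smul_eq_mul,
    map_sum, map_mul, eval_C, eval_map, aeval_def]

lemma eval_det {κ σ ι : Type*} [Fintype κ] [Fintype ι] [DecidableEq ι]
    (g : κ → MvPolynomial σ ℝ) (A : κ → Matrix ι ι ℂ) (y : σ → ℂ) :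
    eval y (matPoly g A).det = (value g A y).det := by
  rw [RingHom.map_det, RingHom.mapMatrix_apply, map_matPoly]

lemma value_real {κ σ ι : Type*} [Fintype κ] (g : κ → MvPolynomial σ ℝ)
    (A : κ → Matrix ι ι ℂ) (x : σ → ℝ) :
    value g A (fun i => (x i : ℂ)) = ∑ k, ((eval x (g k) : ℝ) : ℂ) • A k := by
  rw [value]
  refine Finset.sum_congr rfl fun k _ => ?_
  have : aeval (fun i => (x i : ℂ)) (g k) = algebraMap ℝ ℂ (aeval x (g k)) :=
    aeval_algebraMap_apply ℂ x (g k)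
  rw [this]
  rfl

section kernel

open scoped ComplexOrder

variable {κ σ ι : Type*} [Fintype κ] [Fintype σ] [Fintype ι]

lemma star_form (B : Matrix ι ι ℂ) (v : ι → ℂ) :
    star v ⬝ᵥ (Bᴴ *ᵥ v) = star (star v ⬝ᵥ (B *ᵥ v)) := by
  rw [Matrix.star_dotProduct, Matrix.star_mulVec, conjTranspose_conjTranspose, dotProduct_mulVec]

lemma Accretive.posSemidef {B : Matrix ι ι ℂ} (hB : Accretive B) : (B + Bᴴ).PosSemidef := by
  refine PosSemidef.of_dotProduct_mulVec_nonneg ?_ fun v => ?_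
  · rw [Matrix.IsHermitian, conjTranspose_add, conjTranspose_conjTranspose, add_comm]
  · rw [Matrix.add_mulVec, dotProduct_add, star_form]
    have h := hB v
    rw [Complex.star_def, Complex.add_conj]
    exact_mod_cast mul_nonneg zero_le_two h

/-- kernel lemma: a nonnegative combination with positive coefficients of accretive matrices -/
lemma mem_core_of_sum {A : κ → Matrix ι ι ℂ} (hA : ∀ k, Accretive (A k)) {w : κ → ℝ}
    (hw : ∀ k, 0 < w k) {v : ι → ℂ} (hv : (∑ k, (w k : ℂ) • A k) *ᵥ v = 0) : v ∈ core A := by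
  have h1 : star v ⬝ᵥ ((∑ k, (w k : ℂ) • A k) *ᵥ v) = 0 := by rw [hv, dotProduct_zero]
  have h2 : star v ⬝ᵥ ((∑ k, (w k : ℂ) • A k)ᴴ *ᵥ v) = 0 := by
    rw [star_form, h1, star_zero]
  have h3 : ∑ k, (w k : ℂ) * (star v ⬝ᵥ ((A k + (A k)ᴴ) *ᵥ v)) = 0 := by
    have : (∑ k, (w k : ℂ) * (star v ⬝ᵥ ((A k + (A k)ᴴ) *ᵥ v))) =
        star v ⬝ᵥ ((∑ k, (w k : ℂ) • A k) *ᵥ v) + star v ⬝ᵥ ((∑ k, (w k : ℂ) • A k)ᴴ *ᵥ v) := by
      rw [← dotProduct_add, ← Matrix.add_mulVec, Matrix.conjTranspose_sum, ← Finset.sum_add_distrib,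
        Matrix.sum_mulVec, dotProduct_sum]
      refine Finset.sum_congr rfl fun k _ => ?_
      rw [Matrix.conjTranspose_smul, Complex.star_def, Complex.conj_ofReal, ← smul_add,
        Matrix.smul_mulVec, dotProduct_smul, smul_eq_mul]
    rw [this, h1, h2, add_zero]
  intro k
  have hk : ∀ k, 0 ≤ (w k : ℂ) * (star v ⬝ᵥ ((A k + (A k)ᴴ) *ᵥ v)) := by
    intro k
    refine mul_nonneg ?_ ((hA k).posSemidef.dotProduct_mulVec_nonneg v)
    exact_mod_cast (hw k).le
  have h4 := (Finset.sum_eq_zero_iff_of_nonneg fun k _ => hk k).mp h3 k (Finset.mem_univ k)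
  have h5 : star v ⬝ᵥ ((A k + (A k)ᴴ) *ᵥ v) = 0 := by
    rcases mul_eq_zero.mp h4 with h | h
    · exact absurd h (by exact_mod_cast (hw k).ne')
    · exact h
  exact ((hA k).posSemidef.dotProduct_mulVec_zero_iff v).mp h5

end kernel

section reduction

variable {κ σ : Type*} [Fintype κ] {n c : ℕ}

lemma mem_core {ι : Type*} [Fintype ι] {A : κ → Matrix ι ι ℂ} {v : ι → ℂ} :
    v ∈ core A ↔ ∀ k, (A k + (A k)ᴴ) *ᵥ v = 0 := Iff.rfl


/-- On `core₀` the value does not depend on the point. -/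
lemma value_mulVec_core₀ {ι : Type*} [Fintype ι] {g : κ → MvPolynomial σ ℝ}
    {A : κ → Matrix ι ι ℂ}
    {v : ι → ℂ} (hv : v ∈ core₀ g A) (x y : σ → ℂ) : value g A x *ᵥ v = value g A y *ᵥ v := by
  rw [value, value, Matrix.sum_mulVec, Matrix.sum_mulVec]
  refine Finset.sum_congr rfl fun k _ => ?_
  rw [Matrix.smul_mulVec, Matrix.smul_mulVec]
  by_cases hk : (g k).totalDegree = 0
  · rw [totalDegree_eq_zero_iff_eq_C.mp hk]
    simp
  · rw [hv.2 k hk, smul_zero, smul_zero]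

/-- Coordinates on the core modulo `core₀`. -/
lemma exists_coord (g : κ → MvPolynomial σ ℝ) (A : κ → Matrix (Fin n) (Fin n) ℂ)
    (hc : Module.finrank ℂ (core A) = Module.finrank ℂ (core₀ g A) + c) :
    ∃ (G : Matrix (Fin c) (Fin n) ℂ) (W : Matrix (Fin n) (Fin c) ℂ),
      (∀ a, W *ᵥ a ∈ core A) ∧ G * W = 1 ∧ (∀ v ∈ core A, G *ᵥ v = 0 → v ∈ core₀ g A) ∧
      (∀ v ∈ core₀ g A, G *ᵥ v = 0) := by
  have hle : core₀ g A ≤ core A := fun v hv => hv.1
  set U := core A with hU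
  set U0 : Submodule ℂ U := (core₀ g A).comap U.subtype with hU0
  have h1 : Module.finrank ℂ U0 = Module.finrank ℂ (core₀ g A) :=
    (Submodule.comapSubtypeEquivOfLe hle).finrank_eq
  have h2 : Module.finrank ℂ (U ⧸ U0) = Module.finrank ℂ (Fin c → ℂ) := by
    have := Submodule.finrank_quotient_add_finrank U0
    rw [Module.finrank_fin_fun]
    omega
  obtain ⟨φ⟩ := FiniteDimensional.nonempty_linearEquiv_of_finrank_eq h2
  obtain ⟨G, hG⟩ := LinearMap.exists_extend (φ.toLinearMap ∘ₗ U0.mkQ)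
  have hG' : ∀ v : U, G v = φ (U0.mkQ v) := fun v => by
    have := congrArg (fun f => f v) hG
    simpa using this
  have hsurj : ∀ i : Fin c, ∃ w : U, G w = Pi.single i 1 := by
    intro i
    obtain ⟨w, hw⟩ := U0.mkQ_surjective (φ.symm (Pi.single i 1))
    exact ⟨w, by rw [hG', hw, LinearEquiv.apply_symm_apply]⟩
  choose w hw using hsurj
  refine ⟨LinearMap.toMatrix' G, Matrix.of fun j i => (w i : Fin n → ℂ) j, ?_, ?_, ?_, ?_⟩
  · intro a
    have : (Matrix.of fun j i => (w i : Fin n → ℂ) j) *ᵥ a = ∑ i, a i • (w i : Fin n → ℂ) := by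
      ext j
      simp [Matrix.mulVec, dotProduct, mul_comm]
    rw [this]
    exact U.sum_mem fun i _ => U.smul_mem _ (w i).2
  · ext i j
    have h3 : (LinearMap.toMatrix' G * Matrix.of fun j i => (w i : Fin n → ℂ) j) i j =
        (LinearMap.toMatrix' G *ᵥ (w j : Fin n → ℂ)) i := by
      simp [Matrix.mul_apply, Matrix.mulVec, dotProduct]
    rw [h3, LinearMap.toMatrix'_mulVec, hw, Pi.single_apply, Matrix.one_apply]
  · intro v hv h0
    rw [LinearMap.toMatrix'_mulVec] at h0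
    have h4 := hG' ⟨v, hv⟩
    rw [show G (⟨v, hv⟩ : U) = G v from rfl, h0] at h4
    have h5 : U0.mkQ ⟨v, hv⟩ = 0 := by
      apply φ.injective
      rw [← h4, map_zero]
    have h6 : (⟨v, hv⟩ : U) ∈ U0 := by
      rwa [Submodule.mkQ_apply, Submodule.Quotient.mk_eq_zero] at h5
    exact h6
  · intro v hv
    rw [LinearMap.toMatrix'_mulVec]
    have h4 := hG' ⟨v, hle hv⟩
    have h6 : (⟨v, hle hv⟩ : U) ∈ U0 := hv
    have h5 : U0.mkQ ⟨v, hle hv⟩ = 0 := by
      rwa [Submodule.mkQ_apply, Submodule.Quotient.mk_eq_zero]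
    rw [h5, map_zero] at h4
    exact h4

/-- Reduction to the core: there is a determinant of a `c × c` matrix polynomial with the same
`g_k` which is not identically zero, such that `det (∑ g_k(x) A_k) ≠ 0` at every point `x` with
positive coordinates where it does not vanish. -/
theorem reduction (g : κ → MvPolynomial σ ℝ) (hg : ∀ k, PosOn (g k))
    (A : κ → Matrix (Fin n) (Fin n) ℂ)
    (hA : ∀ k, Accretive (A k))
    (hc : Module.finrank ℂ (core A) = Module.finrank ℂ (core₀ g A) + c)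
    (hne : (matPoly g A).det ≠ 0) :
    ∃ B : κ → Matrix (Fin c) (Fin c) ℂ, (matPoly g B).det ≠ 0 ∧
      ∀ x : σ → ℝ, (∀ i, 0 < x i) → (value g B fun i => (x i : ℂ)).det ≠ 0 →
        (value g A fun i => (x i : ℂ)).det ≠ 0 := by
  obtain ⟨y, hy⟩ : ∃ y : σ → ℂ, (value g A y).det ≠ 0 := by
    by_contra! h
    apply hne
    refine MvPolynomial.funext fun y => ?_
    rw [eval_det, h y, map_zero]
  obtain ⟨G, W, hW, hGW, hG1, hG0⟩ := exists_coord g A hc
  set M := value g A y with hM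
  have hMi : M⁻¹ * M = 1 := Matrix.nonsing_inv_mul _ (isUnit_iff_ne_zero.mpr hy)
  set B : κ → Matrix (Fin c) (Fin c) ℂ := fun k => G * M⁻¹ * A k * W with hB
  have hval : ∀ x : σ → ℂ, value g B x = G * M⁻¹ * value g A x * W := by
    intro x
    rw [value, value, Matrix.mul_sum, Matrix.sum_mul]
    refine Finset.sum_congr rfl fun k _ => ?_
    rw [hB, Matrix.mul_smul, Matrix.smul_mul]
  have hBy : value g B y = 1 := by
    rw [hval, ← hM, Matrix.mul_assoc G, hMi, Matrix.mul_one, hGW]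
  have hBne : (matPoly g B).det ≠ 0 := by
    intro h0
    have := eval_det g B y
    rw [h0, hBy, map_zero, det_one] at this
    exact zero_ne_one this
  refine ⟨B, hBne, fun x hx hdet h0 => ?_⟩
  set z : σ → ℂ := fun i => (x i : ℂ) with hz
  obtain ⟨v, hv0, hv⟩ := Matrix.exists_mulVec_eq_zero_iff.mpr h0
  have hvU : v ∈ core A := by
    refine mem_core_of_sum hA (w := fun k => eval x (g k)) (fun k => hg k x hx) ?_
    rw [hz, value_real] at hv
    exact hv
  set a := G *ᵥ v with ha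
  set u := v - W *ᵥ a with hu
  have huU : u ∈ core A := (core A).sub_mem hvU (hW a)
  have hGu : G *ᵥ u = 0 := by
    rw [hu, mulVec_sub, mulVec_mulVec, hGW, one_mulVec, ← ha, sub_self]
  have hu0 : u ∈ core₀ g A := hG1 u huU hGu
  have hvu : v = W *ᵥ a + u := by rw [hu]; abel
  have hBa : value g B z *ᵥ a = 0 := by
    have h1 : (G * M⁻¹) *ᵥ (value g A z *ᵥ v) = 0 := by rw [hv, mulVec_zero]
    rw [hvu, mulVec_add, mulVec_add, value_mulVec_core₀ hu0 z y, ← hM,
      mulVec_mulVec u, Matrix.mul_assoc G, hMi, Matrix.mul_one, hGu, add_zero, mulVec_mulVec,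
      mulVec_mulVec, ← hval] at h1
    exact h1
  have ha0 : a = 0 := by
    by_contra hne'
    exact hdet (Matrix.exists_mulVec_eq_zero_iff.mp ⟨a, hne', hBa⟩)
  rw [ha0, mulVec_zero, zero_add] at hvu
  rw [hvu, value_mulVec_core₀ hu0 z y] at hv
  have : u = 0 := by
    have h2 := congrArg (fun t => M⁻¹ *ᵥ t) hv
    rw [← hM, mulVec_mulVec, hMi, one_mulVec, mulVec_zero] at h2
    exact h2
  exact hv0 (hvu.trans this)

end reduction

end H669R3.Acc
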