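import Mathlib
import Pool.Agent.H669R3.AccA

/-!
# Determinants with accretive coefficient matrices: degree bounds, explicit points, points sets
-/

set_option autoImplicit false
set_option linter.unusedSectionVars false

namespace H669R3.Acc

open Matrix MvPolynomial

variable {κ σ : Type*} [Fintype κ] {n c : ℕ}

lemma totalDegree_map_real_le (g : MvPolynomial σ ℝ) :
    (map (algebraMap ℝ ℂ) g).totalDegree ≤ g.totalDegree := by
  rw [totalDegree, totalDegree]
  exact Finset.sup_mono (support_map_subset _ _)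

lemma totalDegree_det_le (g : κ → MvPolynomial σ ℝ) (D : ℕ) (hD : ∀ k, (g k).totalDegree ≤ D)
    (B : κ → Matrix (Fin c) (Fin c) ℂ) : (matPoly g B).det.totalDegree ≤ D * c := by
  have hentry : ∀ i j, (matPoly g B i j).totalDegree ≤ D := by
    intro i j
    simp only [matPoly, Matrix.sum_apply, Matrix.smul_apply, Matrix.map_apply, smul_eq_mul]
    refine totalDegree_finsetSum_le fun k _ => ?_
    refine (totalDegree_mul _ _).trans ?_
    rw [totalDegree_C, add_zero]
    exact (totalDegree_map_real_le _).trans (hD k)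
  rw [det_apply]
  refine totalDegree_finsetSum_le fun s _ => ?_
  have h1 : (∏ i, matPoly g B (s i) i).totalDegree ≤ D * c := by
    refine (totalDegree_finsetProd _ _).trans ?_
    refine (Finset.sum_le_card_nsmul _ _ D fun i _ => hentry _ _).trans ?_
    rw [Finset.card_univ, Fintype.card_fin, smul_eq_mul, mul_comm]
  rcases Int.units_eq_one_or (Equiv.Perm.sign s) with hs | hs
  · rw [hs, one_smul]; exact h1
  · rw [hs, Units.neg_smul, one_smul, totalDegree_neg]; exact h1

lemma exists_nat_point [Fintype σ] {f : MvPolynomial σ ℂ} (hf : f ≠ 0) {d : ℕ}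
    (hd : f.totalDegree ≤ d) :
    ∃ z : σ → ℕ, ∑ i, z i ≤ d ∧ eval (fun i => (((1 + z i : ℕ) : ℝ) : ℂ)) f ≠ 0 := by
  classical
  obtain ⟨t, ht, htd⟩ := Finset.exists_mem_eq_sup f.support (support_nonempty.mpr hf)
    (fun s => s.sum fun _ e => e)
  have htd' : f.totalDegree = t.degree := by
    rw [totalDegree, htd, Finsupp.degree_eq_sum, Finsupp.sum_fintype _ _ (fun i => rfl)]
  obtain ⟨s, hs, hne⟩ := combinatorial_nullstellensatz_exists_eval_nonzero f t
    (mem_support_iff.mp ht) htd'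
    (fun i => (Finset.range (t i + 1)).image fun a : ℕ => (((1 + a : ℕ) : ℝ) : ℂ)) (by
      intro i
      rw [Finset.card_image_of_injective, Finset.card_range]
      · exact Nat.lt_succ_self _
      · intro a b hab
        simp only [Complex.ofReal_natCast, Nat.cast_inj] at hab
        omega)
  have hz : ∀ i, ∃ a : ℕ, a ≤ t i ∧ (((1 + a : ℕ) : ℝ) : ℂ) = s i := by
    intro i
    obtain ⟨a, ha, hab⟩ := Finset.mem_image.mp (hs i)
    exact ⟨a, Nat.lt_succ_iff.mp (Finset.mem_range.mp ha), hab⟩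
  choose z hz1 hz2 using hz
  refine ⟨z, ?_, ?_⟩
  · calc ∑ i, z i ≤ ∑ i, t i := Finset.sum_le_sum fun i _ => hz1 i
      _ = f.totalDegree := by rw [htd', Finsupp.degree_eq_sum]
      _ ≤ d := hd
  · rwa [show (fun i => (((1 + z i : ℕ) : ℝ) : ℂ)) = s from funext hz2]

lemma value_mul (g : κ → MvPolynomial σ ℝ) (A : κ → Matrix (Fin n) (Fin n) ℂ)
    (P Q : Matrix (Fin n) (Fin n) ℂ) (y : σ → ℂ) :
    value g (fun k => P * A k * Q) y = P * value g A y * Q := by
  rw [value, value, Matrix.mul_sum, Matrix.sum_mul]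
  refine Finset.sum_congr rfl fun k _ => ?_
  rw [Matrix.mul_smul, Matrix.smul_mul]

lemma det_value_mul (g : κ → MvPolynomial σ ℝ) (A : κ → Matrix (Fin n) (Fin n) ℂ)
    {P Q : Matrix (Fin n) (Fin n) ℂ} (hP : P.det ≠ 0) (hQ : Q.det ≠ 0) (y : σ → ℂ) :
    (value g (fun k => P * A k * Q) y).det ≠ 0 ↔ (value g A y).det ≠ 0 := by
  rw [value_mul, det_mul, det_mul]
  simp [hP, hQ]

lemma det_ne_zero_iff (g : κ → MvPolynomial σ ℝ) (A : κ → Matrix (Fin n) (Fin n) ℂ) :
    (matPoly g A).det ≠ 0 ↔ ∃ y : σ → ℂ, (value g A y).det ≠ 0 := by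
  constructor
  · intro hne
    by_contra! h
    apply hne
    refine MvPolynomial.funext fun y => ?_
    rw [eval_det, h y, map_zero]
  · rintro ⟨y, hy⟩ h0
    rw [← eval_det, h0, map_zero] at hy
    exact hy rfl

lemma det_ne_zero_mul (g : κ → MvPolynomial σ ℝ) (A : κ → Matrix (Fin n) (Fin n) ℂ)
    {P Q : Matrix (Fin n) (Fin n) ℂ} (hP : P.det ≠ 0) (hQ : Q.det ≠ 0)
    (hne : (matPoly g A).det ≠ 0) : (matPoly g fun k => P * A k * Q).det ≠ 0 := by
  obtain ⟨y, hy⟩ := (det_ne_zero_iff g A).mp hne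
  exact (det_ne_zero_iff g _).mpr ⟨y, (det_value_mul g A hP hQ y).mpr hy⟩

/-- Reduction in unknown coordinates. -/
theorem reduction' (g : κ → MvPolynomial σ ℝ) (hg : ∀ k, PosOn (g k))
    (A : κ → Matrix (Fin n) (Fin n) ℂ)
    {P Q : Matrix (Fin n) (Fin n) ℂ} (hP : P.det ≠ 0) (hQ : Q.det ≠ 0)
    (hA : ∀ k, Accretive (P * A k * Q))
    (hc : Module.finrank ℂ (core fun k => P * A k * Q) =
      Module.finrank ℂ (core₀ g fun k => P * A k * Q) + c)
    (hne : (matPoly g A).det ≠ 0) :
    ∃ B : κ → Matrix (Fin c) (Fin c) ℂ, (matPoly g B).det ≠ 0 ∧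
      ∀ x : σ → ℝ, (∀ i, 0 < x i) → (value g B fun i => (x i : ℂ)).det ≠ 0 →
        (value g A fun i => (x i : ℂ)).det ≠ 0 := by
  obtain ⟨B, hB, h⟩ := reduction g hg _ hA hc (det_ne_zero_mul g A hP hQ hne)
  exact ⟨B, hB, fun x hx hdet => (det_value_mul g A hP hQ _).mp (h x hx hdet)⟩

/-- `f` is zero, or does not vanish at the points with positive coordinates at which some nonzero
polynomial of degree at most `d` does not vanish. -/
def Tame (d : ℕ) (f : MvPolynomial σ ℂ) : Prop :=
  f = 0 ∨ ∃ h : MvPolynomial σ ℂ, h ≠ 0 ∧ h.totalDegree ≤ d ∧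
    ∀ x : σ → ℝ, (∀ i, 0 < x i) → eval (fun i => (x i : ℂ)) h ≠ 0 →
      eval (fun i => (x i : ℂ)) f ≠ 0

theorem tame_accretive (g : κ → MvPolynomial σ ℝ) (hg : ∀ k, PosOn (g k)) (D : ℕ)
    (hD : ∀ k, (g k).totalDegree ≤ D)
    (A : κ → Matrix (Fin n) (Fin n) ℂ)
    {P Q : Matrix (Fin n) (Fin n) ℂ} (hP : P.det ≠ 0) (hQ : Q.det ≠ 0)
    (hA : ∀ k, Accretive (P * A k * Q))
    (hc : Module.finrank ℂ (core fun k => P * A k * Q) ≤
      Module.finrank ℂ (core₀ g fun k => P * A k * Q) + c) :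
    Tame (D * c) (matPoly g A).det := by
  by_cases hne : (matPoly g A).det = 0
  · exact Or.inl hne
  · right
    have hle : core₀ g (fun k => P * A k * Q) ≤ core (fun k => P * A k * Q) := fun v hv => hv.1
    have hle' := Submodule.finrank_mono hle
    obtain ⟨c', hc'⟩ := Nat.exists_eq_add_of_le hle'
    have hcc : c' ≤ c := by omega
    obtain ⟨B, hB, h⟩ := reduction' g hg A hP hQ hA hc' hne
    refine ⟨_, hB, (totalDegree_det_le g D hD B).trans (Nat.mul_le_mul_left D hcc), ?_⟩
    intro x hx hdet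
    rw [eval_det] at hdet ⊢
    exact h x hx hdet

theorem Tame.exists_point [Fintype σ] {d : ℕ} {f : MvPolynomial σ ℂ} (h : Tame d f) (hf : f ≠ 0) :
    ∃ z : σ → ℕ, ∑ i, z i ≤ d ∧ eval (fun i => (((1 + z i : ℕ) : ℝ) : ℂ)) f ≠ 0 := by
  obtain ⟨g, hg, hd, hx⟩ := h.resolve_left hf
  obtain ⟨z, hz, hz'⟩ := exists_nat_point hg hd
  exact ⟨z, hz, hx _ (fun i => by positivity) hz'⟩

lemma Tame.mono {d d' : ℕ} (hd : d ≤ d') {f : MvPolynomial σ ℂ} (h : Tame d f) : Tame d' f := by
  rcases h with h | ⟨g, hg, hgd, hx⟩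
  · exact Or.inl h
  · exact Or.inr ⟨g, hg, hgd.trans hd, hx⟩

lemma Tame.mul {d d' : ℕ} {f f' : MvPolynomial σ ℂ} (h : Tame d f) (h' : Tame d' f') :
    Tame (d + d') (f * f') := by
  rcases h with h | ⟨g, hg, hgd, hx⟩
  · left; rw [h, zero_mul]
  rcases h' with h' | ⟨g', hg', hgd', hx'⟩
  · left; rw [h', mul_zero]
  refine Or.inr ⟨g * g', mul_ne_zero hg hg', (totalDegree_mul _ _).trans (add_le_add hgd hgd'), ?_⟩
  intro x hpos hne
  rw [map_mul] at hne ⊢
  exact mul_ne_zero (hx x hpos (left_ne_zero_of_mul hne)) (hx' x hpos (right_ne_zero_of_mul hne))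

lemma Tame.pow {d : ℕ} {f : MvPolynomial σ ℂ} (h : Tame d f) (N : ℕ) : Tame d (f ^ N) := by
  rcases h with h | ⟨g, hg, hgd, hx⟩
  · rcases Nat.eq_zero_or_pos N with hN | hN
    · right
      refine ⟨1, one_ne_zero, by simp, fun x _ _ => ?_⟩
      rw [hN, pow_zero, map_one]
      exact one_ne_zero
    · left; rw [h, zero_pow hN.ne']
  · refine Or.inr ⟨g, hg, hgd, fun x hpos hne => ?_⟩
    rw [map_pow]
    exact pow_ne_zero _ (hx x hpos hne)

lemma Tame.factor {d : ℕ} {f h : MvPolynomial σ ℂ} (ht : Tame d h) (h0 : h ≠ 0) (hf : f ∣ h) :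
    Tame d f := by
  obtain ⟨q, rfl⟩ := hf
  obtain ⟨g, hg, hgd, hx⟩ := ht.resolve_left h0
  refine Or.inr ⟨g, hg, hgd, fun x hpos hne => ?_⟩
  have := hx x hpos hne
  rw [map_mul] at this
  exact left_ne_zero_of_mul this

/-- `f(x)` is a nonnegative real number for all points `x` with positive coordinates -/
def NonnegOn (f : MvPolynomial σ ℂ) : Prop :=
  ∀ x : σ → ℝ, (∀ i, 0 < x i) → ∃ r : ℝ, 0 ≤ r ∧ eval (fun i => (x i : ℂ)) f = r

lemma Tame.add {d : ℕ} {f f' : MvPolynomial σ ℂ} (h : Tame d f) (h' : Tame d f')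
    (hf : NonnegOn f) (hf' : NonnegOn f') : Tame d (f + f') := by
  rcases h with h | ⟨g, hg, hgd, hx⟩
  · rw [h, zero_add]; exact h'
  refine Or.inr ⟨g, hg, hgd, fun x hpos hne => ?_⟩
  obtain ⟨r, hr, hr'⟩ := hf x hpos
  obtain ⟨s, hs, hs'⟩ := hf' x hpos
  have h1 := hx x hpos hne
  rw [map_add, hr', hs']
  rw [hr'] at h1
  have h2 : r ≠ 0 := fun h => h1 (by rw [h, Complex.ofReal_zero])
  have h3 : 0 < r + s := add_pos_of_pos_of_nonneg (lt_of_le_of_ne hr (Ne.symm h2)) hs
  exact_mod_cast h3.ne'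

lemma tame_low {d : ℕ} {f : MvPolynomial σ ℂ} (h : f.totalDegree ≤ d) : Tame d f := by
  by_cases hf : f = 0
  · exact Or.inl hf
  · exact Or.inr ⟨f, hf, h, fun _ _ h => h⟩

lemma tame_zero_of_forall {f : MvPolynomial σ ℂ}
    (h : ∀ x : σ → ℝ, (∀ i, 0 < x i) → eval (fun i => (x i : ℂ)) f ≠ 0) : Tame 0 f :=
  Or.inr ⟨1, one_ne_zero, by simp, fun x hx _ => h x hx⟩

/-- The points `1 + z`, `z ∈ ℕ^m`, `∑ z_i ≤ d`. -/
def points (m d : ℕ) : Finset (Fin m → ℤ) :=
  ((Fintype.piFinset fun _ : Fin m => Finset.range (d + 1)).filter fun z => ∑ i, z i ≤ d).image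
    fun z i => 1 + (z i : ℤ)

lemma points_card (m d : ℕ) : (points m d).card ≤ (m + d).choose d := by
  classical
  refine Finset.card_image_le.trans ?_
  have h : (((Finset.univ : Finset (Option (Fin m))).finsuppAntidiag d)).card =
      (m + d).choose d := by
    rw [Finset.card_finsuppAntidiag_nat_eq_choose, Finset.card_univ, Fintype.card_option,
      Fintype.card_fin]
    congr 1
    omega
  rw [← h]
  refine Finset.card_le_card_of_injOn
    (fun z => Finsupp.equivFunOnFinite.symm fun o : Option (Fin m) =>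
      o.elim (d - ∑ i, z i) z) ?_ ?_
  · intro z hz
    have hz' := (Finset.mem_filter.mp hz).2
    rw [Finset.mem_coe, Finset.mem_finsuppAntidiag]
    refine ⟨?_, Finset.subset_univ _⟩
    rw [Fintype.sum_option]
    simp
    omega
  · intro z _ z' _ hzz
    have := Finsupp.equivFunOnFinite.symm.injective hzz
    funext i
    exact congrFun this (some i)

lemma mem_points {m d : ℕ} {x : Fin m → ℤ} :
    x ∈ points m d ↔ ∃ z : Fin m → ℕ, ∑ i, z i ≤ d ∧ x = fun i => 1 + (z i : ℤ) := by
  simp only [points, Finset.mem_image, Finset.mem_filter, Fintype.mem_piFinset, Finset.mem_range]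
  constructor
  · rintro ⟨z, ⟨-, hz⟩, rfl⟩
    exact ⟨z, hz, rfl⟩
  · rintro ⟨z, hz, rfl⟩
    refine ⟨z, ⟨fun i => ?_, hz⟩, rfl⟩
    have := Finset.single_le_sum (f := z) (fun i _ => Nat.zero_le _) (Finset.mem_univ i)
    omega

/-- the coefficient polynomials `1, x_k` of an affine matrix polynomial -/
noncomputable def affG (σ : Type*) : Option σ → MvPolynomial σ ℝ
  | none => 1
  | some k => X k

/-- Hermitian families with a semidefinite element of corank `≤ c`. -/
theorem hermitian [Fintype σ] (A : σ → Matrix (Fin n) (Fin n) ℂ)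
    {P Q : Matrix (Fin n) (Fin n) ℂ} (hP : P.det ≠ 0) (hQ : Q.det ≠ 0)
    (hA : ∀ k, (P * A k * Q).IsHermitian) (p : σ → ℤ)
    (hp : Accretive (∑ k, (p k : ℂ) • (P * A k * Q)))
    (hc : n ≤ (∑ k, (p k : ℂ) • (P * A k * Q)).rank + c) :
    (matPoly (fun k : σ => (X k : MvPolynomial σ ℝ)) A).det ≠ 0 ↔ ∃ z : σ → ℕ, ∃ t : ℕ,
      ∑ i, z i ≤ c ∧ t ≤ n ∧ (∑ k, ((p k + t * (1 + z k) : ℤ) : ℂ) • A k).det ≠ 0 := by
  classical
  have heval : ∀ y : σ → ℂ, eval y (matPoly (fun k : σ => (X k : MvPolynomial σ ℝ)) A).det =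
      (∑ k, y k • A k).det := by
    intro y
    rw [eval_det, value]
    simp only [aeval_X]
  constructor
  · intro hne
    obtain ⟨y, hy⟩ : ∃ y : σ → ℂ, (∑ k, y k • A k).det ≠ 0 := by
      by_contra! h
      apply hne
      refine MvPolynomial.funext fun y => ?_
      rw [heval, h y, map_zero]
    -- the auxiliary family
    set P0 : Matrix (Fin n) (Fin n) ℂ := ∑ k, (p k : ℂ) • A k with hP0
    set A' : Option σ → Matrix (Fin n) (Fin n) ℂ := fun o => o.elim P0 fun k => Complex.I • A k
      with hA'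
    have hval : ∀ x : σ → ℂ, value (affG σ) A' x = ∑ k, (p k + Complex.I * x k) • A k := by
      intro x
      rw [value, Fintype.sum_option]
      simp only [affG, aeval_X, map_one, one_smul, hA', Option.elim]
      rw [hP0, ← Finset.sum_add_distrib]
      refine Finset.sum_congr rfl fun k _ => ?_
      rw [smul_smul, ← add_smul, mul_comm (x k)]
    have hPP0 : P * P0 * Q = ∑ k, (p k : ℂ) • (P * A k * Q) := by
      rw [hP0, Matrix.mul_sum, Matrix.sum_mul]
      refine Finset.sum_congr rfl fun k _ => ?_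
      rw [Matrix.mul_smul, Matrix.smul_mul]
    have hherm0 : (P * P0 * Q)ᴴ = P * P0 * Q := by
      rw [hPP0, Matrix.conjTranspose_sum]
      refine Finset.sum_congr rfl fun k _ => ?_
      rw [Matrix.conjTranspose_smul, (hA k).eq]
      simp
    have hacc : ∀ o, Accretive (P * A' o * Q) := by
      rintro (_ | k)
      · show Accretive (P * P0 * Q)
        rw [hPP0]; exact hp
      · show Accretive (P * (Complex.I • A k) * Q)
        intro v
        have h2 : (P * (Complex.I • A k) * Q) = Complex.I • (P * A k * Q) := by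
          rw [Matrix.mul_smul, Matrix.smul_mul]
        rw [h2, Matrix.smul_mulVec, dotProduct_smul, smul_eq_mul]
        have h3 : star (star v ⬝ᵥ ((P * A k * Q) *ᵥ v)) = star v ⬝ᵥ ((P * A k * Q) *ᵥ v) := by
          rw [← star_form, (hA k).eq]
        have h4 : (star v ⬝ᵥ ((P * A k * Q) *ᵥ v)).im = 0 := by
          have := congrArg Complex.im h3
          rw [Complex.star_def, Complex.conj_im] at this
          linarith
        rw [Complex.mul_re, h4]
        simp
    have hker : core (fun o => P * A' o * Q) ≤ LinearMap.ker (P * P0 * Q).mulVecLin := by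
      intro v hv
      have h5 := hv none
      have h6 : (P * A' none * Q) = P * P0 * Q := rfl
      simp only [h6] at h5
      rw [hherm0, Matrix.add_mulVec, ← two_smul ℂ] at h5
      rw [LinearMap.mem_ker, Matrix.mulVecLin_apply]
      exact (smul_eq_zero.mp h5).resolve_left two_ne_zero
    have hcore : Module.finrank ℂ (core fun o => P * A' o * Q) ≤
        Module.finrank ℂ (core₀ (affG σ) fun o => P * A' o * Q) + c := by
      have h7 := Submodule.finrank_mono hker
      have h8 := LinearMap.finrank_range_add_finrank_ker (P * P0 * Q).mulVecLin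
      rw [Module.finrank_fin_fun] at h8
      rw [← hPP0, Matrix.rank] at hc
      omega
    have hne' : (matPoly (affG σ) A').det ≠ 0 := by
      rw [det_ne_zero_iff]
      refine ⟨fun k => -Complex.I * (y k - p k), ?_⟩
      rw [hval]
      convert hy using 4 with k
      rw [← mul_assoc, mul_neg, Complex.I_mul_I]
      ring
    obtain ⟨z, hz, hdet⟩ := (tame_accretive (affG σ) (by
      rintro (_ | k) x hx
      · simp [affG]
      · simpa [affG] using hx k) 1 (by
      rintro (_ | k)
      · simp [affG]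
      · simp [affG]) A' hP hQ hacc hcore).exists_point hne'
    rw [eval_det, hval] at hdet
    set N : Matrix (Fin n) (Fin n) ℂ := ∑ k, ((1 + z k : ℕ) : ℂ) • A k with hN
    set q : Polynomial ℂ := ((Polynomial.X : Polynomial ℂ) • N.map Polynomial.C +
      P0.map Polynomial.C).det with hq
    have hqe : ∀ s : ℂ, q.eval s = (∑ k, ((p k : ℂ) + s * ((1 + z k : ℕ) : ℂ)) • A k).det := by
      intro s
      have h12 : ((Polynomial.X : Polynomial ℂ) • N.map Polynomial.C +
          P0.map Polynomial.C).map (Polynomial.evalRingHom s) = s • N + P0 := by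
        ext i j
        simp only [Matrix.map_apply, Matrix.add_apply, Matrix.smul_apply, smul_eq_mul,
          Polynomial.coe_evalRingHom]
        rw [Polynomial.eval_add, Polynomial.eval_mul, Polynomial.eval_X, Polynomial.eval_C,
          Polynomial.eval_C]
      rw [hq, ← Polynomial.coe_evalRingHom, RingHom.map_det, RingHom.mapMatrix_apply, h12, hN, hP0,
        Finset.smul_sum, ← Finset.sum_add_distrib]
      congr 1
      refine Finset.sum_congr rfl fun k _ => ?_
      rw [smul_smul, ← add_smul, add_comm]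
    have hqn : q ≠ 0 := by
      intro h0
      apply hdet
      have h13 := hqe Complex.I
      rw [h0, Polynomial.eval_zero] at h13
      rw [h13]
      simp only [Complex.ofReal_natCast]
    have hqd : q.natDegree ≤ n := by
      have := Polynomial.natDegree_det_X_add_C_le N P0
      rwa [Fintype.card_fin] at this
    obtain ⟨t, ht, hqt⟩ : ∃ t : ℕ, t ≤ n ∧ q.eval (t : ℂ) ≠ 0 := by
      by_contra! h
      have h9 : (Finset.range (n + 1)).image (fun a : ℕ => (a : ℂ)) ⊆ q.roots.toFinset := by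
        intro s hs
        obtain ⟨a, ha, rfl⟩ := Finset.mem_image.mp hs
        rw [Multiset.mem_toFinset, Polynomial.mem_roots hqn]
        exact h a (Nat.lt_succ_iff.mp (Finset.mem_range.mp ha))
      have h10 := Finset.card_le_card h9
      rw [Finset.card_image_of_injective _ Nat.cast_injective, Finset.card_range] at h10
      have h11 := (Multiset.toFinset_card_le q.roots).trans (Polynomial.card_roots' q)
      omega
    refine ⟨z, t, by simpa using hz, ht, ?_⟩
    rw [hqe] at hqt
    convert hqt using 4 with k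
    push_cast
    ring
  · rintro ⟨z, t, -, -, hdet⟩ h0
    apply hdet
    rw [← heval, h0, map_zero]

end H669R3.Acc
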