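import Mathlib
import Pool.Agent.H669R3.AccB

/-!
# Matrix polynomials with diagonally dominant coefficients
-/

set_option autoImplicit false
set_option linter.unusedSectionVars false

namespace H669R3.Acc

open Matrix MvPolynomial

variable {κ σ : Type*} [Fintype κ] {n : ℕ}

/-- `B` is weakly diagonally dominant by rows, with real (hence nonnegative) diagonal. -/
def Dominant {n : ℕ} (B : Matrix (Fin n) (Fin n) ℂ) : Prop :=
  ∀ i, (B i i).im = 0 ∧ ∑ j ∈ Finset.univ.erase i, ‖B i j‖ ≤ (B i i).re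

/-- The equality case at an index where `‖v‖` is maximal. -/
lemma dominant_key {B : Matrix (Fin n) (Fin n) ℂ} (hB : Dominant B) {v : Fin n → ℂ} {i : Fin n}
    (hmax : ∀ j, ‖v j‖ ≤ ‖v i‖) :
    0 ≤ (star (v i) * (B *ᵥ v) i).re ∧
    (v i ≠ 0 → (star (v i) * (B *ᵥ v) i).re = 0 →
      (B *ᵥ v) i = 0 ∧ ∀ j, ‖v j‖ ≠ ‖v i‖ → B i j = 0) := by
  have hexp : star (v i) * (B *ᵥ v) i =
      B i i * ((‖v i‖ ^ 2 : ℝ) : ℂ) + ∑ j ∈ Finset.univ.erase i, star (v i) * (B i j * v j) := by
    rw [Matrix.mulVec, dotProduct, ← Finset.add_sum_erase _ _ (Finset.mem_univ i), mul_add,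
      Finset.mul_sum]
    congr 1
    rw [mul_left_comm, Complex.star_def, Complex.conj_mul']
    push_cast
    rfl
  have hterm : ∀ j, ‖star (v i) * (B i j * v j)‖ = ‖B i j‖ * (‖v i‖ * ‖v j‖) := by
    intro j
    rw [norm_mul, norm_mul, norm_star]
    ring
  have hre : (star (v i) * (B *ᵥ v) i).re = (B i i).re * ‖v i‖ ^ 2 +
      ∑ j ∈ Finset.univ.erase i, (star (v i) * (B i j * v j)).re := by
    rw [hexp, Complex.add_re, Complex.re_mul_ofReal, Complex.re_sum]
  have h1 : ∀ j, 0 ≤ (star (v i) * (B i j * v j)).re + ‖B i j‖ * (‖v i‖ * ‖v j‖) := by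
    intro j
    have := (Complex.abs_re_le_norm (star (v i) * (B i j * v j)))
    rw [hterm] at this
    have := neg_le_of_abs_le this
    linarith
  have h2 : ∀ j, 0 ≤ ‖B i j‖ * (‖v i‖ * (‖v i‖ - ‖v j‖)) := fun j =>
    mul_nonneg (norm_nonneg _) (mul_nonneg (norm_nonneg _) (sub_nonneg.mpr (hmax j)))
  have hsplit : (star (v i) * (B *ᵥ v) i).re =
      ((B i i).re - ∑ j ∈ Finset.univ.erase i, ‖B i j‖) * ‖v i‖ ^ 2 +
      (∑ j ∈ Finset.univ.erase i, ((star (v i) * (B i j * v j)).re +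
        ‖B i j‖ * (‖v i‖ * ‖v j‖)) +
      ∑ j ∈ Finset.univ.erase i, ‖B i j‖ * (‖v i‖ * (‖v i‖ - ‖v j‖))) := by
    rw [hre, ← Finset.sum_add_distrib, sub_mul, Finset.sum_mul, add_comm_sub,
      ← Finset.sum_sub_distrib]
    congr 1
    refine Finset.sum_congr rfl fun j _ => ?_
    ring
  have hd := (hB i).2
  have n1 : 0 ≤ ((B i i).re - ∑ j ∈ Finset.univ.erase i, ‖B i j‖) * ‖v i‖ ^ 2 :=
    mul_nonneg (sub_nonneg.mpr hd) (sq_nonneg _)
  have n2 : 0 ≤ ∑ j ∈ Finset.univ.erase i, ((star (v i) * (B i j * v j)).re +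
        ‖B i j‖ * (‖v i‖ * ‖v j‖)) := Finset.sum_nonneg fun j _ => h1 j
  have n3 : 0 ≤ ∑ j ∈ Finset.univ.erase i, ‖B i j‖ * (‖v i‖ * (‖v i‖ - ‖v j‖)) :=
    Finset.sum_nonneg fun j _ => h2 j
  refine ⟨by rw [hsplit]; positivity, fun hv h0 => ?_⟩
  rw [hsplit] at h0
  have z1 : ((B i i).re - ∑ j ∈ Finset.univ.erase i, ‖B i j‖) * ‖v i‖ ^ 2 = 0 := by linarith
  have z2 : ∑ j ∈ Finset.univ.erase i, ((star (v i) * (B i j * v j)).re +
        ‖B i j‖ * (‖v i‖ * ‖v j‖)) = 0 := by linarith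
  have z3 : ∑ j ∈ Finset.univ.erase i, ‖B i j‖ * (‖v i‖ * (‖v i‖ - ‖v j‖)) = 0 := by linarith
  have hvn : 0 < ‖v i‖ := norm_pos_iff.mpr hv
  have hfar : ∀ j, ‖v j‖ ≠ ‖v i‖ → B i j = 0 := by
    intro j hj
    have hji : j ∈ Finset.univ.erase i := by
      rw [Finset.mem_erase]
      exact ⟨fun h => hj (by rw [h]), Finset.mem_univ _⟩
    have := (Finset.sum_eq_zero_iff_of_nonneg fun j _ => h2 j).mp z3 j hji
    have h4 : ‖v i‖ * (‖v i‖ - ‖v j‖) ≠ 0 :=
      mul_ne_zero hvn.ne' (sub_ne_zero.mpr (Ne.symm hj))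
    exact norm_eq_zero.mp ((mul_eq_zero.mp this).resolve_right h4)
  refine ⟨?_, hfar⟩
  -- each term is real
  have hreal : ∀ j ∈ Finset.univ.erase i, star (v i) * (B i j * v j) =
      ((-(‖B i j‖ * (‖v i‖ * ‖v j‖)) : ℝ) : ℂ) := by
    intro j hj
    have h5 := (Finset.sum_eq_zero_iff_of_nonneg fun j _ => h1 j).mp z2 j hj
    have h6 : (star (v i) * (B i j * v j)).re = -‖star (v i) * (B i j * v j)‖ := by
      rw [hterm]; linarith
    have h7 : (star (v i) * (B i j * v j)).im = 0 := by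
      have h8 := Complex.sq_norm (star (v i) * (B i j * v j))
      rw [Complex.normSq_apply, h6] at h8
      have : (star (v i) * (B i j * v j)).im * (star (v i) * (B i j * v j)).im = 0 := by
        nlinarith
      exact mul_self_eq_zero.mp this
    apply Complex.ext
    · rw [Complex.ofReal_re, h6, hterm]
    · rw [Complex.ofReal_im, h7]
  have him : (star (v i) * (B *ᵥ v) i).im = 0 := by
    rw [hexp, Complex.add_im, Complex.im_mul_ofReal, (hB i).1, zero_mul, zero_add, Complex.im_sum]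
    refine Finset.sum_eq_zero fun j hj => ?_
    rw [hreal j hj, Complex.ofReal_im]
  have hzero : star (v i) * (B *ᵥ v) i = 0 := by
    apply Complex.ext
    · rw [hsplit, h0, Complex.zero_re]
    · rw [him, Complex.zero_im]
  exact (mul_eq_zero.mp hzero).resolve_left (star_ne_zero.mpr hv)

/-- If the `A_k` are diagonally dominant and the determinant does not vanish identically,
then it does not vanish at any point with positive coordinates. -/
theorem dominant_pos (g : κ → MvPolynomial σ ℝ) (hg : ∀ k, PosOn (g k))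
    (A : κ → Matrix (Fin n) (Fin n) ℂ)
    (hA : ∀ k, Dominant (A k)) (hne : (matPoly g A).det ≠ 0) (x : σ → ℝ) (hx : ∀ i, 0 < x i) :
    (value g A fun i => (x i : ℂ)).det ≠ 0 := by
  classical
  intro h0
  obtain ⟨y, hy⟩ := (det_ne_zero_iff g A).mp hne
  apply hy
  obtain ⟨v, hv0, hv⟩ := Matrix.exists_mulVec_eq_zero_iff.mpr h0
  have hn : (Finset.univ : Finset (Fin n)).Nonempty := by
    by_contra h
    rw [Finset.not_nonempty_iff_eq_empty] at h
    apply hv0
    funext i
    exact absurd (Finset.mem_univ i) (by rw [h]; exact Finset.notMem_empty i)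
  obtain ⟨i0, -, hi0⟩ := Finset.exists_max_image Finset.univ (fun i => ‖v i‖) hn
  have hvi0 : v i0 ≠ 0 := by
    intro h
    apply hv0
    funext i
    have := hi0 i (Finset.mem_univ i)
    rw [h, norm_zero] at this
    exact norm_le_zero_iff.mp this
  have hkey : ∀ i, ‖v i‖ = ‖v i0‖ → ∀ k, (A k *ᵥ v) i = 0 ∧ ∀ j, ‖v j‖ ≠ ‖v i0‖ → A k i j = 0 := by
    intro i hi k
    have hmax : ∀ j, ‖v j‖ ≤ ‖v i‖ := fun j => by rw [hi]; exact hi0 j (Finset.mem_univ j)
    have hvi : v i ≠ 0 := by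
      rw [← norm_ne_zero_iff, hi]; exact norm_ne_zero_iff.mpr hvi0
    have hsum : ∑ k, eval x (g k) * (star (v i) * (A k *ᵥ v) i).re = 0 := by
      have h1 : star (v i) * (value g A (fun i => (x i : ℂ)) *ᵥ v) i = 0 := by
        rw [hv, Pi.zero_apply, mul_zero]
      have h2 := congrArg Complex.re h1
      rw [value_real, Matrix.sum_mulVec, Finset.sum_apply, Finset.mul_sum, Complex.re_sum,
        Complex.zero_re] at h2
      rw [← h2]
      refine Finset.sum_congr rfl fun k _ => ?_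
      rw [Matrix.smul_mulVec, Pi.smul_apply, smul_eq_mul, mul_left_comm, Complex.re_ofReal_mul]
    have h4 := (Finset.sum_eq_zero_iff_of_nonneg fun k _ =>
      mul_nonneg (hg k x hx).le (dominant_key (hA k) hmax).1).mp hsum k (Finset.mem_univ k)
    have h5 := (mul_eq_zero.mp h4).resolve_left (hg k x hx).ne'
    obtain ⟨h6, h7⟩ := (dominant_key (hA k) hmax).2 hvi h5
    exact ⟨h6, fun j hj => h7 j (by rw [hi]; exact hj)⟩
  set p : Fin n → Prop := fun i => ‖v i‖ = ‖v i0‖ with hp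
  have hblock : ∀ i, p i → ∀ j, ¬ p j → value g A y i j = 0 := by
    intro i hi j hj
    rw [value, Matrix.sum_apply]
    refine Finset.sum_eq_zero fun k _ => ?_
    rw [Matrix.smul_apply, (hkey i hi k).2 j hj, smul_zero]
  rw [Matrix.twoBlockTriangular_det' _ p hblock]
  have hz : (toSquareBlockProp (value g A y) p).det = 0 := by
    apply Matrix.exists_mulVec_eq_zero_iff.mp
    refine ⟨fun i => v i, ?_, ?_⟩
    · intro h
      exact hvi0 (congrFun h ⟨i0, rfl⟩)
    · funext i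
      have h8 : (value g A y *ᵥ v) i = 0 := by
        rw [value, Matrix.sum_mulVec, Finset.sum_apply]
        refine Finset.sum_eq_zero fun k _ => ?_
        rw [Matrix.smul_mulVec, Pi.smul_apply, (hkey i i.2 k).1, smul_zero]
      rw [Matrix.mulVec, dotProduct] at h8 ⊢
      rw [Pi.zero_apply, ← h8, ← Fintype.sum_subtype_add_sum_subtype p]
      have h9 : ∑ j : {j // ¬ p j}, value g A y i j * v j = 0 :=
        Finset.sum_eq_zero fun j _ => by rw [hblock i i.2 j j.2, zero_mul]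
      rw [h9, add_zero]
      rfl
  rw [hz, zero_mul]

theorem tame_dominant (g : κ → MvPolynomial σ ℝ) (hg : ∀ k, PosOn (g k))
    (A : κ → Matrix (Fin n) (Fin n) ℂ)
    {P Q : Matrix (Fin n) (Fin n) ℂ} (hP : P.det ≠ 0) (hQ : Q.det ≠ 0)
    (hA : ∀ k, Dominant (P * A k * Q)) : Tame 0 (matPoly g A).det := by
  by_cases hne : (matPoly g A).det = 0
  · exact Or.inl hne
  · refine tame_zero_of_forall fun x hx => ?_
    rw [eval_det]
    exact (det_value_mul g A hP hQ _).mp
      (dominant_pos g hg _ hA (det_ne_zero_mul g A hP hQ hne) x hx)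

end H669R3.Acc
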