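import Mathlib
import Pool.Agent.H669R3.AccB

/-!
# Generic rank of matrix polynomials with accretive coefficients
-/

set_option autoImplicit false
set_option linter.unusedSectionVars false

namespace H669R3.Acc

open Matrix MvPolynomial

section linalg

/-- a matrix of rank `r` has an invertible `r × r` compression -/
lemma exists_compression {n c r : ℕ} (N : Matrix (Fin n) (Fin c) ℂ) (hr : r = N.rank) :
    ∃ (E : Matrix (Fin r) (Fin n) ℂ) (F : Matrix (Fin c) (Fin r) ℂ), E * N * F = 1 := by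
  subst hr
  set R := LinearMap.range N.mulVecLin with hR
  have h1 : Module.finrank ℂ R = N.rank := rfl
  have h2 : Module.finrank ℂ R = Module.finrank ℂ (Fin N.rank → ℂ) := by
    rw [Module.finrank_fin_fun, h1]
  obtain ⟨φ⟩ := FiniteDimensional.nonempty_linearEquiv_of_finrank_eq h2
  obtain ⟨G, hG⟩ := LinearMap.exists_extend φ.toLinearMap
  have hG' : ∀ v : R, G v = φ v := fun v => by
    have := congrArg (fun f => f v) hG
    simpa using this
  have hsurj : ∀ i : Fin N.rank, ∃ w : Fin c → ℂ, N *ᵥ w = (φ.symm (Pi.single i 1) : R) := by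
    intro i
    obtain ⟨w, hw⟩ := (φ.symm (Pi.single i 1)).2
    exact ⟨w, hw⟩
  choose w hw using hsurj
  refine ⟨LinearMap.toMatrix' G, Matrix.of fun j i => w i j, ?_⟩
  ext i j
  have h3 : (LinearMap.toMatrix' G * N * Matrix.of fun j i => w i j) i j =
      (LinearMap.toMatrix' G *ᵥ (N *ᵥ w j)) i := by
    rw [Matrix.mulVec_mulVec]
    simp [Matrix.mul_apply, Matrix.mulVec, dotProduct]
  rw [h3, LinearMap.toMatrix'_mulVec, hw, hG', LinearEquiv.apply_symm_apply, Pi.single_apply,
    Matrix.one_apply]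

lemma rank_ge_of_det {n c r : ℕ} {N : Matrix (Fin n) (Fin c) ℂ} {E : Matrix (Fin r) (Fin n) ℂ}
    {F : Matrix (Fin c) (Fin r) ℂ} (h : (E * N * F).det ≠ 0) : r ≤ N.rank := by
  have h1 : (E * N * F).rank = r := by
    rw [Matrix.rank_of_isUnit _ ((Matrix.isUnit_iff_isUnit_det _).mpr (isUnit_iff_ne_zero.mpr h)),
      Fintype.card_fin]
  calc r = (E * N * F).rank := h1.symm
    _ ≤ (E * N).rank := Matrix.rank_mul_le_left _ _
    _ ≤ N.rank := Matrix.rank_mul_le_right _ _

/-- `W` has trivial kernel and range `U`. -/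
structure IsFrame {n c : ℕ} (W : Matrix (Fin n) (Fin c) ℂ) (U : Submodule ℂ (Fin n → ℂ)) :
    Prop where
  inj : Function.Injective W.mulVec
  range : LinearMap.range W.mulVecLin = U

lemma exists_frame {n : ℕ} (U : Submodule ℂ (Fin n → ℂ)) :
    ∃ W : Matrix (Fin n) (Fin (Module.finrank ℂ U)) ℂ, IsFrame W U := by
  have h2 : Module.finrank ℂ (Fin (Module.finrank ℂ U) → ℂ) = Module.finrank ℂ U := by
    rw [Module.finrank_fin_fun]
  obtain ⟨φ⟩ := FiniteDimensional.nonempty_linearEquiv_of_finrank_eq h2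
  refine ⟨LinearMap.toMatrix' (U.subtype ∘ₗ φ.toLinearMap), ?_, ?_⟩
  · intro a b hab
    rw [LinearMap.toMatrix'_mulVec, LinearMap.toMatrix'_mulVec] at hab
    exact φ.injective (Subtype.ext hab)
  · have h3 : (LinearMap.toMatrix' (U.subtype ∘ₗ φ.toLinearMap)).mulVecLin =
        U.subtype ∘ₗ φ.toLinearMap := by
      rw [← Matrix.toLin'_apply', Matrix.toLin'_toMatrix']
    rw [h3, LinearMap.range_comp, LinearEquiv.range, Submodule.map_top, Submodule.range_subtype]

lemma finrank_ker_mul {n c : ℕ} {W : Matrix (Fin n) (Fin c) ℂ} {U : Submodule ℂ (Fin n → ℂ)}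
    (hW : IsFrame W U) (M : Matrix (Fin n) (Fin n) ℂ) :
    Module.finrank ℂ (LinearMap.ker (M * W).mulVecLin) =
      Module.finrank ℂ (LinearMap.ker M.mulVecLin ⊓ U : Submodule ℂ (Fin n → ℂ)) := by
  have h1 : (LinearMap.ker (M * W).mulVecLin).map W.mulVecLin =
      LinearMap.ker M.mulVecLin ⊓ U := by
    ext v
    rw [Submodule.mem_map, Submodule.mem_inf]
    constructor
    · rintro ⟨a, ha, rfl⟩
      rw [LinearMap.mem_ker, Matrix.mulVecLin_apply, ← Matrix.mulVec_mulVec] at ha
      refine ⟨ha, ?_⟩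
      rw [← hW.range]
      exact ⟨a, rfl⟩
    · rintro ⟨hv, hvU⟩
      rw [← hW.range] at hvU
      obtain ⟨a, rfl⟩ := hvU
      refine ⟨a, ?_, rfl⟩
      rw [LinearMap.mem_ker, Matrix.mulVecLin_apply, ← Matrix.mulVec_mulVec]
      exact hv
  rw [← h1]
  exact (Submodule.equivMapOfInjective W.mulVecLin hW.inj _).finrank_eq

lemma rank_add_ker {n c : ℕ} (N : Matrix (Fin n) (Fin c) ℂ) :
    N.rank + Module.finrank ℂ (LinearMap.ker N.mulVecLin) = c := by
  have := LinearMap.finrank_range_add_finrank_ker N.mulVecLin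
  rwa [Module.finrank_fin_fun] at this

/-- upper bound for the rank by the restriction to `U` -/
lemma rank_le_restrict {n c : ℕ} {W : Matrix (Fin n) (Fin c) ℂ} {U : Submodule ℂ (Fin n → ℂ)}
    (hW : IsFrame W U) (M : Matrix (Fin n) (Fin n) ℂ) : M.rank + c ≤ n + (M * W).rank := by
  have h1 := rank_add_ker M
  have h2 := rank_add_ker (M * W)
  rw [finrank_ker_mul hW] at h2
  have h3 := Submodule.finrank_mono
    (inf_le_left : LinearMap.ker M.mulVecLin ⊓ U ≤ LinearMap.ker M.mulVecLin)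
  omega

/-- equality if the kernel is contained in `U` -/
lemma rank_eq_restrict {n c : ℕ} {W : Matrix (Fin n) (Fin c) ℂ} {U : Submodule ℂ (Fin n → ℂ)}
    (hW : IsFrame W U) (M : Matrix (Fin n) (Fin n) ℂ) (hM : LinearMap.ker M.mulVecLin ≤ U) :
    M.rank + c = n + (M * W).rank := by
  have h1 := rank_add_ker M
  have h2 := rank_add_ker (M * W)
  rw [finrank_ker_mul hW, inf_eq_left.mpr hM] at h2
  omega

end linalg

variable {κ σ : Type*} [Fintype κ] {n : ℕ}

/-- **Generic rank of an accretive family.** -/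
theorem generic_rank [Fintype σ] (g : κ → MvPolynomial σ ℝ) (hg : ∀ k, PosOn (g k)) (D : ℕ)
    (hD : ∀ k, (g k).totalDegree ≤ D) (A : κ → Matrix (Fin n) (Fin n) ℂ)
    (hA : ∀ k, Accretive (A k)) {c : ℕ} {W : Matrix (Fin n) (Fin c) ℂ} (hW : IsFrame W (core A)) :
    ∃ z : σ → ℕ,
      ∑ i, z i ≤ D * (value g A (fun i => (((1 + z i : ℕ) : ℝ) : ℂ)) * W).rank ∧
      (∀ y : σ → ℂ, (value g A y * W).rank ≤
        (value g A (fun i => (((1 + z i : ℕ) : ℝ) : ℂ)) * W).rank) ∧
      (value g A (fun i => (((1 + z i : ℕ) : ℝ) : ℂ))).rank + c =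
        n + (value g A (fun i => (((1 + z i : ℕ) : ℝ) : ℂ)) * W).rank ∧
      ∀ y : σ → ℂ, (value g A y).rank ≤
        (value g A (fun i => (((1 + z i : ℕ) : ℝ) : ℂ))).rank := by
  -- a point where the rank of the restriction is maximal
  obtain ⟨y0, hy0⟩ : ∃ y0 : σ → ℂ, ∀ y : σ → ℂ,
      (value g A y * W).rank ≤ (value g A y0 * W).rank := by
    have hfin : (Set.range fun y : σ → ℂ => (value g A y * W).rank).Finite := by
      refine (Set.finite_Iic c).subset ?_
      rintro _ ⟨y, rfl⟩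
      exact (Matrix.rank_le_card_width _).trans (by rw [Fintype.card_fin])
    obtain ⟨m, ⟨y0, hm⟩, hmax⟩ := Set.exists_max_image _ id hfin ⟨_, ⟨0, rfl⟩⟩
    refine ⟨y0, fun y => ?_⟩
    have := hmax _ ⟨y, rfl⟩
    rw [← hm] at this
    exact this
  obtain ⟨r, hr⟩ : ∃ r, r = (value g A y0 * W).rank := ⟨_, rfl⟩
  obtain ⟨E, F, hEF⟩ := exists_compression (value g A y0 * W) hr
  have hrc : r ≤ c := by
    rw [hr]
    exact (Matrix.rank_le_card_width _).trans (by rw [Fintype.card_fin])
  set B : κ → Matrix (Fin r) (Fin r) ℂ := fun k => E * (A k * W) * F with hB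
  have hval : ∀ y : σ → ℂ, value g B y = E * (value g A y * W) * F := by
    intro y
    rw [value, value, Matrix.sum_mul, Matrix.mul_sum, Matrix.sum_mul]
    refine Finset.sum_congr rfl fun k _ => ?_
    rw [hB, Matrix.smul_mul, Matrix.mul_smul, Matrix.smul_mul]
  have hBne : (matPoly g B).det ≠ 0 := by
    rw [det_ne_zero_iff]
    refine ⟨y0, ?_⟩
    rw [hval, hEF, det_one]
    exact one_ne_zero
  obtain ⟨z, hz, hz'⟩ := exists_nat_point hBne (totalDegree_det_le g D hD B)
  rw [eval_det, hval] at hz'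
  have hrank := rank_ge_of_det hz'
  set x : σ → ℂ := fun i => (((1 + z i : ℕ) : ℝ) : ℂ) with hx
  have hker : LinearMap.ker (value g A x).mulVecLin ≤ core A := by
    intro v hv
    rw [LinearMap.mem_ker, Matrix.mulVecLin_apply] at hv
    refine mem_core_of_sum hA (w := fun k => eval (fun i => ((1 + z i : ℕ) : ℝ)) (g k))
      (fun k => hg k _ fun i => by positivity) ?_
    rw [hx, value_real] at hv
    exact hv
  have heq := rank_eq_restrict hW (value g A x) hker
  rw [hr] at hrank
  refine ⟨z, ?_, fun y => (hy0 y).trans hrank, heq, fun y => ?_⟩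
  · refine hz.trans (Nat.mul_le_mul_left D ?_)
    rw [hr]
    exact hrank
  have h1 := rank_le_restrict hW (value g A y)
  have h2 := hy0 y
  change (value g A y).rank ≤ (value g A x).rank
  omega

end H669R3.Acc
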