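import Mathlib
import Pool.Agent.H669R3.AccR

/-!
# Shrunk subspaces for accretive families with a core of dimension at most two
-/

set_option autoImplicit false
set_option linter.unusedSectionVars false

namespace H669R3.Acc

open Matrix MvPolynomial

section linalg

variable {σ : Type*} [Fintype σ] {n c : ℕ}

lemma mem_span_of_rank_le_one {N : Matrix (Fin n) (Fin c) ℂ} (h : N.rank ≤ 1) {v : Fin c → ℂ}
    (hv : N *ᵥ v ≠ 0) (x : Fin c → ℂ) : ∃ a : ℂ, N *ᵥ x = a • (N *ᵥ v) := by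
  have h1 : Module.finrank ℂ (LinearMap.range N.mulVecLin) ≤ 1 := h
  obtain ⟨g, hg⟩ := finrank_le_one_iff.mp h1
  obtain ⟨a, ha⟩ := hg ⟨N *ᵥ v, ⟨v, rfl⟩⟩
  obtain ⟨b, hb⟩ := hg ⟨N *ᵥ x, ⟨x, rfl⟩⟩
  have ha' : a • (g : Fin n → ℂ) = N *ᵥ v := congrArg Subtype.val ha
  have hb' : b • (g : Fin n → ℂ) = N *ᵥ x := congrArg Subtype.val hb
  have ha0 : a ≠ 0 := by
    rintro rfl
    rw [zero_smul] at ha'
    exact hv ha'.symm
  refine ⟨b / a, ?_⟩
  rw [← ha', ← hb', smul_smul, div_mul_cancel₀ _ ha0]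

lemma eq_zero_of_rank {N : Matrix (Fin n) (Fin c) ℂ} (h : N.rank = 0) : N = 0 := by
  have h1 : LinearMap.range N.mulVecLin = ⊥ := Submodule.finrank_eq_zero.mp h
  have h2 : N.mulVecLin = 0 := LinearMap.range_eq_bot.mp h1
  ext i j
  have h3 : N *ᵥ Pi.single j 1 = 0 := by
    rw [← Matrix.mulVecLin_apply, h2, LinearMap.zero_apply]
  have := congrFun h3 i
  simpa using this

lemma lin_add (C : σ → Matrix (Fin n) (Fin c) ℂ) (y y' : σ → ℂ) :
    ∑ k, (y + y') k • C k = ∑ k, y k • C k + ∑ k, y' k • C k := by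
  rw [← Finset.sum_add_distrib]
  exact Finset.sum_congr rfl fun k _ => by rw [Pi.add_apply, add_smul]

lemma lin_sub (C : σ → Matrix (Fin n) (Fin c) ℂ) (y y' : σ → ℂ) :
    ∑ k, (y - y') k • C k = ∑ k, y k • C k - ∑ k, y' k • C k := by
  rw [← Finset.sum_sub_distrib]
  exact Finset.sum_congr rfl fun k _ => by rw [Pi.sub_apply, sub_smul]

lemma lin_single [DecidableEq σ] (C : σ → Matrix (Fin n) (Fin c) ℂ) (l : σ) :
    ∑ k, (Pi.single l (1 : ℂ) : σ → ℂ) k • C k = C l := by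
  rw [Finset.sum_eq_single l]
  · rw [Pi.single_eq_same, one_smul]
  · intro k _ hk
    rw [Pi.single_eq_of_ne hk, zero_smul]
  · intro h; exact absurd (Finset.mem_univ l) h

lemma image_key (C : σ → Matrix (Fin n) (Fin c) ℂ) (h1 : ∀ y : σ → ℂ, (∑ k, y k • C k).rank ≤ 1)
    (y0 : σ → ℂ) {v u : Fin c → ℂ} (hv : (∑ k, y0 k • C k) *ᵥ v = 0)
    (hu : (∑ k, y0 k • C k) *ᵥ u ≠ 0) (y : σ → ℂ) (hy : (∑ k, y k • C k) *ᵥ v ≠ 0)
    (x : Fin c → ℂ) : ∃ a : ℂ, (∑ k, y k • C k) *ᵥ x = a • ((∑ k, y0 k • C k) *ᵥ u) := by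
  set B := ∑ k, y0 k • C k with hB
  set Y := ∑ k, y k • C k with hY
  have hp : (B + Y).rank ≤ 1 := by rw [hB, hY, ← lin_add]; exact h1 _
  have hm : (B - Y).rank ≤ 1 := by rw [hB, hY, ← lin_sub]; exact h1 _
  have hpv : (B + Y) *ᵥ v = Y *ᵥ v := by rw [Matrix.add_mulVec, hv, zero_add]
  have hmv : (B - Y) *ᵥ v = -(Y *ᵥ v) := by rw [Matrix.sub_mulVec, hv, zero_sub]
  have key : ∀ x : Fin c → ℂ, ∃ a b : ℂ, B *ᵥ x + Y *ᵥ x = a • (Y *ᵥ v) ∧
      B *ᵥ x - Y *ᵥ x = b • (Y *ᵥ v) := by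
    intro x
    obtain ⟨a, ha⟩ := mem_span_of_rank_le_one hp (v := v) (by rw [hpv]; exact hy) x
    obtain ⟨b, hb⟩ := mem_span_of_rank_le_one hm (v := v)
      (by rw [hmv]; exact neg_ne_zero.mpr hy) x
    rw [hpv, Matrix.add_mulVec] at ha
    rw [hmv, Matrix.sub_mulVec, smul_neg, ← neg_smul] at hb
    exact ⟨a, -b, ha, hb⟩
  obtain ⟨a, b, ha, hb⟩ := key u
  obtain ⟨a', b', ha', hb'⟩ := key x
  have h2 : B *ᵥ u = ((a + b) / 2) • (Y *ᵥ v) := by
    have : (2 : ℂ) • (B *ᵥ u) = (a + b) • (Y *ᵥ v) := by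
      rw [add_smul, ← ha, ← hb, two_smul]
      abel
    rw [div_eq_inv_mul, ← smul_smul, ← this, smul_smul, inv_mul_cancel₀ two_ne_zero, one_smul]
  have h3 : Y *ᵥ x = ((a' - b') / 2) • (Y *ᵥ v) := by
    have : (2 : ℂ) • (Y *ᵥ x) = (a' - b') • (Y *ᵥ v) := by
      rw [sub_smul, ← ha', ← hb', two_smul]
      abel
    rw [div_eq_inv_mul, ← smul_smul, ← this, smul_smul, inv_mul_cancel₀ two_ne_zero, one_smul]
  have h4 : (a + b) / 2 ≠ 0 := by
    intro h
    rw [h, zero_smul] at h2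
    exact hu h2
  refine ⟨((a' - b') / 2) * ((a + b) / 2)⁻¹, ?_⟩
  rw [h2, h3, smul_smul, mul_assoc, inv_mul_cancel₀ h4, mul_one]

/-- the Edmonds-Rado property for spaces of matrices with at most two columns -/
theorem er_two (hc : c ≤ 2) (C : σ → Matrix (Fin n) (Fin c) ℂ) (y0 : σ → ℂ)
    (hmax : ∀ y : σ → ℂ, (∑ k, y k • C k).rank ≤ (∑ k, y0 k • C k).rank) :
    ∃ T : Submodule ℂ (Fin c → ℂ), (∑ k, y0 k • C k).rank + Module.finrank ℂ T =
      c + Module.finrank ℂ (⨆ k, T.map (C k).mulVecLin : Submodule ℂ (Fin n → ℂ)) := by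
  classical
  set B := ∑ k, y0 k • C k with hB
  have hBc : B.rank ≤ c := (Matrix.rank_le_card_width _).trans (by rw [Fintype.card_fin])
  by_cases h1 : B.rank = c
  · refine ⟨⊥, ?_⟩
    have : (⨆ k, (⊥ : Submodule ℂ (Fin c → ℂ)).map (C k).mulVecLin) =
        (⊥ : Submodule ℂ (Fin n → ℂ)) := by
      rw [iSup_eq_bot]
      intro k
      exact Submodule.map_bot _
    rw [this, finrank_bot, finrank_bot, h1]
  by_cases h0 : B.rank = 0
  · refine ⟨⊤, ?_⟩
    have hC : ∀ k, C k = 0 := by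
      intro k
      have := hmax (Pi.single k 1)
      rw [lin_single, h0, Nat.le_zero] at this
      exact eq_zero_of_rank this
    have : (⨆ k, (⊤ : Submodule ℂ (Fin c → ℂ)).map (C k).mulVecLin) = ⊥ := by
      rw [iSup_eq_bot]
      intro k
      rw [hC k, Matrix.mulVecLin_zero, Submodule.map_zero]
    rw [this, finrank_bot, finrank_top, h0, Module.finrank_fin_fun, zero_add, add_zero]
  have hc2 : c = 2 := by omega
  have hr1 : B.rank = 1 := by omega
  subst hc2
  have hle : ∀ y : σ → ℂ, (∑ k, y k • C k).rank ≤ 1 := fun y => by rw [← hr1]; exact hmax y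
  have hker := rank_add_ker B
  have hker1 : Module.finrank ℂ (LinearMap.ker B.mulVecLin) = 1 := by omega
  obtain ⟨v, hv, hv0⟩ : ∃ v ∈ LinearMap.ker B.mulVecLin, v ≠ 0 := by
    apply Submodule.exists_mem_ne_zero_of_ne_bot
    intro h
    rw [h, finrank_bot] at hker1
    exact zero_ne_one hker1
  rw [LinearMap.mem_ker, Matrix.mulVecLin_apply] at hv
  obtain ⟨u, hu⟩ : ∃ u, B *ᵥ u ≠ 0 := by
    by_contra! h
    have : B = 0 := by
      ext i j
      have := congrFun (h (Pi.single j 1)) i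
      simpa using this
    rw [this, Matrix.rank_zero] at hr1
    exact zero_ne_one hr1
  by_cases hall : ∀ k, C k *ᵥ v = 0
  · refine ⟨ℂ ∙ v, ?_⟩
    have : (⨆ k, (ℂ ∙ v).map (C k).mulVecLin) = ⊥ := by
      rw [iSup_eq_bot]
      intro k
      rw [Submodule.map_span, Set.image_singleton, Matrix.mulVecLin_apply, hall k,
        Submodule.span_zero_singleton]
    rw [this, finrank_bot, finrank_span_singleton hv0, hr1]
  · obtain ⟨k0, hk0⟩ := not_forall.mp hall
    have himg : ∀ k x, ∃ a : ℂ, C k *ᵥ x = a • (B *ᵥ u) := by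
      intro k x
      by_cases hk : C k *ᵥ v = 0
      · have hs : (∑ l, (Pi.single k0 1 + Pi.single k 1 : σ → ℂ) l • C l) = C k0 + C k := by
          rw [lin_add, lin_single, lin_single]
        obtain ⟨a, ha⟩ := image_key C hle y0 hv hu (Pi.single k0 1 + Pi.single k 1)
          (by rw [hs, Matrix.add_mulVec, hk, add_zero]; exact hk0) x
        obtain ⟨b, hb⟩ := image_key C hle y0 hv hu (Pi.single k0 1)
          (by rw [lin_single]; exact hk0) x
        rw [hs, Matrix.add_mulVec] at ha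
        rw [lin_single] at hb
        refine ⟨a - b, ?_⟩
        rw [sub_smul, ← ha, ← hb]
        abel
      · obtain ⟨b, hb⟩ := image_key C hle y0 hv hu (Pi.single k 1)
          (by rw [lin_single]; exact hk) x
        rw [lin_single] at hb
        exact ⟨b, hb⟩
    refine ⟨⊤, ?_⟩
    have hS : (⨆ k, (⊤ : Submodule ℂ (Fin 2 → ℂ)).map (C k).mulVecLin) = ℂ ∙ (B *ᵥ u) := by
      apply le_antisymm
      · refine iSup_le fun k => ?_
        rintro _ ⟨x, -, rfl⟩
        obtain ⟨a, ha⟩ := himg k x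
        rw [Matrix.mulVecLin_apply, ha]
        exact Submodule.smul_mem _ _ (Submodule.mem_span_singleton_self _)
      · rw [Submodule.span_singleton_le_iff_mem, hB, Matrix.sum_mulVec]
        refine Submodule.sum_mem _ fun k _ => ?_
        rw [Matrix.smul_mulVec]
        refine Submodule.smul_mem _ _ (Submodule.mem_iSup_of_mem k ?_)
        exact ⟨u, Submodule.mem_top, rfl⟩
    rw [hS, finrank_top, Module.finrank_fin_fun, finrank_span_singleton hu, hr1]

/-- the rank is at most `n - dim V + dim ∑ A_k V` -/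
lemma rank_add_le (A : σ → Matrix (Fin n) (Fin n) ℂ) (y : σ → ℂ)
    (V : Submodule ℂ (Fin n → ℂ)) : (∑ k, y k • A k).rank + Module.finrank ℂ V ≤
      n + Module.finrank ℂ (⨆ k, V.map (A k).mulVecLin : Submodule ℂ (Fin n → ℂ)) := by
  set M := ∑ k, y k • A k with hM
  have h1 := rank_add_ker M
  have h2 := LinearMap.finrank_range_add_finrank_ker (M.mulVecLin.domRestrict V)
  rw [LinearMap.range_domRestrict, LinearMap.ker_domRestrict] at h2
  have h3 : V.map M.mulVecLin ≤ ⨆ k, V.map (A k).mulVecLin := by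
    rintro _ ⟨x, hx, rfl⟩
    rw [Matrix.mulVecLin_apply, hM, Matrix.sum_mulVec]
    refine Submodule.sum_mem _ fun k _ => ?_
    rw [Matrix.smul_mulVec]
    exact Submodule.smul_mem _ _ (Submodule.mem_iSup_of_mem k ⟨x, hx, rfl⟩)
  have h4 := Submodule.finrank_mono h3
  have h5 : Module.finrank ℂ ((LinearMap.ker M.mulVecLin).comap V.subtype) ≤
      Module.finrank ℂ (LinearMap.ker M.mulVecLin) := by
    rw [(Submodule.equivMapOfInjective V.subtype V.injective_subtype _).finrank_eq]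
    exact Submodule.finrank_mono (Submodule.map_comap_le _ _)
  omega

end linalg

end H669R3.Acc
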