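import Mathlib
import Pool.Agent.H669R3.AccS

/-!
# Generic rank and shrunk subspaces in unknown coordinates
-/

set_option autoImplicit false
set_option linter.unusedSectionVars false

namespace H669R3.Acc

open Matrix MvPolynomial

section

variable {n c : ℕ}

lemma rank_mul_mul {P Q : Matrix (Fin n) (Fin n) ℂ} (hP : P.det ≠ 0) (hQ : Q.det ≠ 0)
    (M : Matrix (Fin n) (Fin n) ℂ) : (P * M * Q).rank = M.rank := by
  rw [Matrix.rank_mul_eq_left_of_isUnit_det _ _ (isUnit_iff_ne_zero.mpr hQ),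
    Matrix.rank_mul_eq_right_of_isUnit_det _ _ (isUnit_iff_ne_zero.mpr hP)]

lemma mulVec_injective {P : Matrix (Fin n) (Fin n) ℂ} (hP : P.det ≠ 0) :
    Function.Injective P.mulVecLin := by
  intro a b hab
  have h : P⁻¹ *ᵥ (P *ᵥ a) = P⁻¹ *ᵥ (P *ᵥ b) := by
    rw [← Matrix.mulVecLin_apply P a, ← Matrix.mulVecLin_apply P b, hab]
  rwa [mulVec_mulVec, mulVec_mulVec, Matrix.nonsing_inv_mul _ (isUnit_iff_ne_zero.mpr hP),
    one_mulVec, one_mulVec] at h

lemma finrank_map_of_inj {a b : ℕ} {f : (Fin a → ℂ) →ₗ[ℂ] (Fin b → ℂ)}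
    (hf : Function.Injective f) (S : Submodule ℂ (Fin a → ℂ)) :
    Module.finrank ℂ (S.map f) = Module.finrank ℂ S :=
  (Submodule.equivMapOfInjective f hf S).finrank_eq.symm

/-- the rank of `N W` is the dimension of the image of the subspace with frame `W` -/
lemma rank_mul_frame {W : Matrix (Fin n) (Fin c) ℂ} {U : Submodule ℂ (Fin n → ℂ)}
    (hW : IsFrame W U) (N : Matrix (Fin n) (Fin n) ℂ) :
    (N * W).rank = Module.finrank ℂ (U.map N.mulVecLin) := by
  rw [← hW.range, ← LinearMap.range_comp, ← Matrix.mulVecLin_mul]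
  rfl

variable {κ σ : Type*} [Fintype κ] [Fintype σ]

/-- **Generic rank in unknown coordinates.** -/
theorem generic_rank' (g : κ → MvPolynomial σ ℝ) (hg : ∀ k, PosOn (g k)) (D : ℕ)
    (hD : ∀ k, (g k).totalDegree ≤ D) (A : κ → Matrix (Fin n) (Fin n) ℂ)
    {P Q : Matrix (Fin n) (Fin n) ℂ} (hP : P.det ≠ 0) (hQ : Q.det ≠ 0)
    (hA : ∀ k, Accretive (P * A k * Q)) (U : Submodule ℂ (Fin n → ℂ))
    (hU : U = (core fun k => P * A k * Q).map Q.mulVecLin) :
    ∃ z : σ → ℕ, ∑ i, z i ≤ D * Module.finrank ℂ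
        (U.map (value g A (fun i => (((1 + z i : ℕ) : ℝ) : ℂ))).mulVecLin) ∧
      (∀ y : σ → ℂ, (value g A y).rank ≤
        (value g A (fun i => (((1 + z i : ℕ) : ℝ) : ℂ))).rank) ∧
      (∀ y : σ → ℂ, Module.finrank ℂ (U.map (value g A y).mulVecLin) ≤ Module.finrank ℂ
        (U.map (value g A (fun i => (((1 + z i : ℕ) : ℝ) : ℂ))).mulVecLin)) ∧
      (value g A (fun i => (((1 + z i : ℕ) : ℝ) : ℂ))).rank + Module.finrank ℂ U =
        n + Module.finrank ℂ
          (U.map (value g A (fun i => (((1 + z i : ℕ) : ℝ) : ℂ))).mulVecLin) := by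
  obtain ⟨W, hW⟩ := exists_frame (core fun k => P * A k * Q)
  obtain ⟨z, hz, h1, h2, h3⟩ := generic_rank g hg D hD _ hA hW
  have hUc : Module.finrank ℂ U = Module.finrank ℂ (core fun k => P * A k * Q) := by
    rw [hU, finrank_map_of_inj (mulVec_injective hQ)]
  have hres : ∀ y : σ → ℂ, (value g (fun k => P * A k * Q) y * W).rank =
      Module.finrank ℂ (U.map (value g A y).mulVecLin) := by
    intro y
    rw [rank_mul_frame hW, value_mul, hU, ← Submodule.map_comp, ← Matrix.mulVecLin_mul,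
      Matrix.mul_assoc, Matrix.mulVecLin_mul, Submodule.map_comp,
      finrank_map_of_inj (mulVec_injective hP)]
  have hrk : ∀ y : σ → ℂ, (value g (fun k => P * A k * Q) y).rank = (value g A y).rank := by
    intro y
    rw [value_mul, rank_mul_mul hP hQ]
  refine ⟨z, by rw [← hres]; exact hz, fun y => ?_, fun y => ?_, ?_⟩
  · rw [← hrk, ← hrk]; exact h3 y
  · rw [← hres, ← hres]; exact h1 y
  · rw [← hrk, ← hres, hUc]; exact h2

/-- **Shrunk subspace certificates** for linear accretive families whose core has dimension at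
most two modulo the common kernel. -/
theorem shrunk (A : σ → Matrix (Fin n) (Fin n) ℂ)
    {P Q : Matrix (Fin n) (Fin n) ℂ} (hP : P.det ≠ 0) (hQ : Q.det ≠ 0)
    (hA : ∀ k, Accretive (P * A k * Q))
    (hc : Module.finrank ℂ (core fun k => P * A k * Q) ≤ Module.finrank ℂ
      (core₀ (fun k : σ => (X k : MvPolynomial σ ℝ)) fun k => P * A k * Q) + 2) :
    ∃ (y0 : σ → ℂ) (V : Submodule ℂ (Fin n → ℂ)),
      (∑ k, y0 k • A k).rank + Module.finrank ℂ V =
        n + Module.finrank ℂ (⨆ k, V.map (A k).mulVecLin : Submodule ℂ (Fin n → ℂ)) := by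
  set g : σ → MvPolynomial σ ℝ := fun k => X k with hg
  set C : σ → Matrix (Fin n) (Fin n) ℂ := fun k => P * A k * Q with hC
  obtain ⟨W', hW'⟩ := exists_frame (core C)
  obtain ⟨z, hz, h1, h2, h3⟩ := generic_rank g
    (fun k x hx => by simpa [hg] using hx k) 1 (fun k => (totalDegree_X k).le) C hA hW'
  have hle : core₀ g C ≤ core C := fun v hv => hv.1
  obtain ⟨c', hc'⟩ := Nat.exists_eq_add_of_le (Submodule.finrank_mono hle)
  have hc2 : c' ≤ 2 := by omega
  obtain ⟨G, W, hWU, hGW, hG1, hG0⟩ := exists_coord g C hc'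
  have hval : ∀ y : σ → ℂ, value g C y = ∑ k, y k • C k := by
    intro y
    rw [value]
    simp only [hg, aeval_X]
  have hkill : ∀ v ∈ core₀ g C, ∀ k, C k *ᵥ v = 0 := by
    intro v hv k
    refine hv.2 k ?_
    rw [hg, totalDegree_X]
    exact one_ne_zero
  have hGWv : ∀ a, G *ᵥ (W *ᵥ a) = a := fun a => by rw [mulVec_mulVec, hGW, one_mulVec]
  have hWinj : Function.Injective W.mulVecLin := by
    intro a b hab
    rw [← hGWv a, ← hGWv b, ← Matrix.mulVecLin_apply W a, hab]
    rfl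
  have hdec : ∀ v ∈ core C, v - W *ᵥ (G *ᵥ v) ∈ core₀ g C := by
    intro v hv
    refine hG1 _ ((core C).sub_mem hv (hWU _)) ?_
    rw [mulVec_sub, hGWv, sub_self]
  have hres : ∀ y : σ → ℂ, (value g C y * W').rank = (value g C y * W).rank := by
    intro y
    have hF : IsFrame W (LinearMap.range W.mulVecLin) := ⟨hWinj, rfl⟩
    rw [rank_mul_frame hW', rank_mul_frame hF]
    suffices hsub : (core C).map (value g C y).mulVecLin =
        (LinearMap.range W.mulVecLin).map (value g C y).mulVecLin by rw [hsub]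
    apply le_antisymm
    · rintro _ ⟨v, hv, rfl⟩
      refine ⟨W *ᵥ (G *ᵥ v), ⟨_, rfl⟩, ?_⟩
      have h4 : value g C y *ᵥ (v - W *ᵥ (G *ᵥ v)) = 0 := by
        rw [hval, Matrix.sum_mulVec]
        refine Finset.sum_eq_zero fun k _ => ?_
        rw [Matrix.smul_mulVec, hkill _ (hdec v hv) k, smul_zero]
      rw [mulVec_sub, sub_eq_zero] at h4
      rw [Matrix.mulVecLin_apply, Matrix.mulVecLin_apply]
      exact h4.symm
    · apply Submodule.map_mono
      rintro _ ⟨a, rfl⟩
      exact hWU a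
  have hvalW : ∀ y : σ → ℂ, value g C y * W = ∑ k, y k • (C k * W) := by
    intro y
    rw [hval, Matrix.sum_mul]
    refine Finset.sum_congr rfl fun k _ => ?_
    rw [Matrix.smul_mul]
  set y0 : σ → ℂ := fun i => (((1 + z i : ℕ) : ℝ) : ℂ) with hy0
  obtain ⟨T, hT⟩ := er_two hc2 (fun k => C k * W) y0 (fun y => by
    have := h1 y
    rw [hres, hres, hvalW, hvalW] at this
    exact this)
  rw [hres, hvalW, hval] at h2
  have hrank : (∑ k, y0 k • C k).rank = (∑ k, y0 k • A k).rank := by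
    have : ∑ k, y0 k • C k = P * (∑ k, y0 k • A k) * Q := by
      rw [Matrix.mul_sum, Matrix.sum_mul]
      refine Finset.sum_congr rfl fun k _ => ?_
      rw [hC, Matrix.mul_smul, Matrix.smul_mul]
    rw [this, rank_mul_mul hP hQ]
  refine ⟨y0, (T.map W.mulVecLin ⊔ core₀ g C).map Q.mulVecLin, ?_⟩
  have hdisj : T.map W.mulVecLin ⊓ core₀ g C = ⊥ := by
    rw [Submodule.eq_bot_iff]
    rintro v ⟨⟨a, -, rfl⟩, hv⟩
    have h5 := hG0 _ hv
    rw [Matrix.mulVecLin_apply, hGWv] at h5
    rw [h5, map_zero]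
  have hfin : Module.finrank ℂ (T.map W.mulVecLin ⊔ core₀ g C : Submodule ℂ (Fin n → ℂ)) =
      Module.finrank ℂ T + Module.finrank ℂ (core₀ g C) := by
    have h6 := Submodule.finrank_sup_add_finrank_inf_eq (T.map W.mulVecLin) (core₀ g C)
    rw [hdisj, finrank_bot, add_zero, finrank_map_of_inj hWinj] at h6
    exact h6
  rw [finrank_map_of_inj (mulVec_injective hQ), hfin]
  have hS : (⨆ k, T.map (C k * W).mulVecLin : Submodule ℂ (Fin n → ℂ)) =
      (⨆ k, ((T.map W.mulVecLin ⊔ core₀ g C).map Q.mulVecLin).map (A k).mulVecLin).map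
        P.mulVecLin := by
    rw [Submodule.map_iSup]
    refine iSup_congr fun k => ?_
    have h7 : ((T.map W.mulVecLin ⊔ core₀ g C).map Q.mulVecLin).map (A k).mulVecLin =
        ((T.map W.mulVecLin ⊔ core₀ g C).map (A k * Q).mulVecLin) := by
      rw [Matrix.mulVecLin_mul, Submodule.map_comp]
    rw [h7, ← Submodule.map_comp, ← Matrix.mulVecLin_mul, ← Matrix.mul_assoc, Submodule.map_sup,
      ← Submodule.map_comp, ← Matrix.mulVecLin_mul]
    have h8 : (core₀ g C).map (P * A k * Q).mulVecLin = ⊥ := by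
      rw [Submodule.eq_bot_iff]
      rintro _ ⟨v, hv, rfl⟩
      exact hkill v hv k
    rw [h8, sup_bot_eq]
  rw [hS, finrank_map_of_inj (mulVec_injective hP)] at hT
  rw [hrank] at h2
  omega

end

end H669R3.Acc
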