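import Mathlib
import Pool.Agent.H669R3.AccT

/-!
# Hermitian families with a semidefinite element of corank two, and a family with core of dimension
three
-/

set_option autoImplicit false
set_option linter.unusedSectionVars false

namespace H669R3.Acc

open Matrix MvPolynomial

section

variable {n : ℕ} {σ : Type*} [Fintype σ]

/-- Hermitian families (in unknown coordinates) which contain a semidefinite matrix of corank at
most two have shrunk subspace certificates. -/
theorem hermitian_shrunk (A : σ → Matrix (Fin n) (Fin n) ℂ)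
    {P Q : Matrix (Fin n) (Fin n) ℂ} (hP : P.det ≠ 0) (hQ : Q.det ≠ 0)
    (hA : ∀ k, (P * A k * Q).IsHermitian) (p : σ → ℝ)
    (hp : Accretive (∑ k, (p k : ℂ) • (P * A k * Q)))
    (hc : n ≤ (∑ k, (p k : ℂ) • (P * A k * Q)).rank + 2) :
    ∃ (y0 : σ → ℂ) (V : Submodule ℂ (Fin n → ℂ)),
      (∑ k, y0 k • A k).rank + Module.finrank ℂ V =
        n + Module.finrank ℂ (⨆ k, V.map (A k).mulVecLin : Submodule ℂ (Fin n → ℂ)) := by
  set P0 : Matrix (Fin n) (Fin n) ℂ := ∑ k, (p k : ℂ) • A k with hP0
  set A' : Option σ → Matrix (Fin n) (Fin n) ℂ := fun o => o.elim P0 fun k => Complex.I • A k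
    with hA'
  have hPP0 : P * P0 * Q = ∑ k, (p k : ℂ) • (P * A k * Q) := by
    rw [hP0, Matrix.mul_sum, Matrix.sum_mul]
    refine Finset.sum_congr rfl fun k _ => ?_
    rw [Matrix.mul_smul, Matrix.smul_mul]
  have hherm0 : (P * P0 * Q)ᴴ = P * P0 * Q := by
    rw [hPP0, Matrix.conjTranspose_sum]
    refine Finset.sum_congr rfl fun k _ => ?_
    rw [Matrix.conjTranspose_smul, (hA k).eq]
    simp
  have hacc : ∀ o, Accretive (P * A' o * Q) := by
    rintro (_ | k)
    · show Accretive (P * P0 * Q)
      rw [hPP0]; exact hp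
    · show Accretive (P * (Complex.I • A k) * Q)
      intro v
      have h2 : (P * (Complex.I • A k) * Q) = Complex.I • (P * A k * Q) := by
        rw [Matrix.mul_smul, Matrix.smul_mul]
      rw [h2, Matrix.smul_mulVec, dotProduct_smul, smul_eq_mul]
      have h3 : star (star v ⬝ᵥ ((P * A k * Q) *ᵥ v)) = star v ⬝ᵥ ((P * A k * Q) *ᵥ v) := by
        rw [← star_form, (hA k).eq]
      have h4 : (star v ⬝ᵥ ((P * A k * Q) *ᵥ v)).im = 0 := by
        have := congrArg Complex.im h3
        rw [Complex.star_def, Complex.conj_im] at this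
        linarith
      rw [Complex.mul_re, h4]
      simp
  have hker : core (fun o => P * A' o * Q) ≤ LinearMap.ker (P * P0 * Q).mulVecLin := by
    intro v hv
    have h5 := hv none
    have h6 : (P * A' none * Q) = P * P0 * Q := rfl
    simp only [h6] at h5
    rw [hherm0, Matrix.add_mulVec, ← two_smul ℂ] at h5
    rw [LinearMap.mem_ker, Matrix.mulVecLin_apply]
    exact (smul_eq_zero.mp h5).resolve_left two_ne_zero
  have hcore : Module.finrank ℂ (core fun o => P * A' o * Q) ≤ 2 := by
    have h7 := Submodule.finrank_mono hker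
    have h8 := rank_add_ker (P * P0 * Q)
    rw [← hPP0] at hc
    omega
  obtain ⟨y, V, hV⟩ := shrunk A' hP hQ hacc (hcore.trans (Nat.le_add_left _ _))
  refine ⟨fun k => y none * p k + y (some k) * Complex.I, V, ?_⟩
  have h1 : ∑ o, y o • A' o = ∑ k, (y none * p k + y (some k) * Complex.I) • A k := by
    rw [Fintype.sum_option]
    simp only [hA', Option.elim]
    rw [hP0, Finset.smul_sum, ← Finset.sum_add_distrib]
    refine Finset.sum_congr rfl fun k _ => ?_
    rw [smul_smul, smul_smul, ← add_smul]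
  have h2 : (⨆ o, V.map (A' o).mulVecLin : Submodule ℂ (Fin n → ℂ)) =
      ⨆ k, V.map (A k).mulVecLin := by
    apply le_antisymm
    · refine iSup_le ?_
      rintro (_ | k)
      · rintro _ ⟨v, hv, rfl⟩
        show P0 *ᵥ v ∈ _
        rw [hP0, Matrix.sum_mulVec]
        refine Submodule.sum_mem _ fun k _ => ?_
        rw [Matrix.smul_mulVec]
        exact Submodule.smul_mem _ _ (Submodule.mem_iSup_of_mem k ⟨v, hv, rfl⟩)
      · rintro _ ⟨v, hv, rfl⟩
        show (Complex.I • A k) *ᵥ v ∈ _
        rw [Matrix.smul_mulVec]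
        exact Submodule.smul_mem _ _ (Submodule.mem_iSup_of_mem k ⟨v, hv, rfl⟩)
    · refine iSup_le fun k => ?_
      rintro _ ⟨v, hv, rfl⟩
      have h3 : (A k).mulVecLin v = (-Complex.I) • ((A' (some k)) *ᵥ v) := by
        show A k *ᵥ v = (-Complex.I) • ((Complex.I • A k) *ᵥ v)
        rw [Matrix.smul_mulVec, smul_smul, neg_mul, Complex.I_mul_I, neg_neg, one_smul]
      rw [h3]
      exact Submodule.smul_mem _ _ (Submodule.mem_iSup_of_mem (some k) ⟨v, hv, rfl⟩)
  rw [h1, h2] at hV
  exact hV

/-- the three `3 × 3` matrices of the vector product -/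
def cross : Fin 3 → Matrix (Fin 3) (Fin 3) ℂ :=
  ![!![0, 0, 0; 0, 0, -1; 0, 1, 0], !![0, 0, 1; 0, 0, 0; -1, 0, 0],
    !![0, -1, 0; 1, 0, 0; 0, 0, 0]]

lemma cross_accretive (k : Fin 3) : Accretive (cross k) := by
  intro v
  fin_cases k <;>
    simp [cross, Matrix.mulVec, dotProduct, Fin.sum_univ_three] <;> ring_nf <;> rfl

lemma cross_rank (y : Fin 3 → ℂ) : (∑ k, y k • cross k).rank ≤ 2 := by
  have hdet : (∑ k, y k • cross k).det = 0 := by
    rw [Fin.sum_univ_three]
    simp [cross, Matrix.det_fin_three]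
    ring
  by_contra h
  have h1 := Matrix.rank_le_card_width (∑ k, y k • cross k)
  rw [Fintype.card_fin] at h1
  have h2 := rank_add_ker (∑ k, y k • cross k)
  obtain ⟨v, hv0, hv⟩ := Matrix.exists_mulVec_eq_zero_iff.mpr hdet
  have h3 : Module.finrank ℂ (LinearMap.ker (∑ k, y k • cross k).mulVecLin) = 0 := by omega
  rw [Submodule.finrank_eq_zero] at h3
  have h4 : v ∈ LinearMap.ker (∑ k, y k • cross k).mulVecLin := hv
  rw [h3, Submodule.mem_bot] at h4
  exact hv0 h4

lemma cross_apply (v : Fin 3 → ℂ) : cross 0 *ᵥ v = ![0, -v 2, v 1] ∧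
    cross 1 *ᵥ v = ![v 2, 0, -v 0] ∧ cross 2 *ᵥ v = ![-v 1, v 0, 0] := by
  refine ⟨?_, ?_, ?_⟩ <;>
  · ext i
    fin_cases i <;> simp [cross, Matrix.mulVec, dotProduct, Fin.sum_univ_three]

lemma two_le_finrank {S : Submodule ℂ (Fin 3 → ℂ)} {x y : Fin 3 → ℂ} (hx : x ∈ S) (hy : y ∈ S)
    (h : ∀ s t : ℂ, s • x + t • y = 0 → s = 0 ∧ t = 0) : 2 ≤ Module.finrank ℂ S := by
  have hli : LinearIndependent ℂ ![(⟨x, hx⟩ : S), ⟨y, hy⟩] := by
    rw [LinearIndependent.pair_iff]
    intro s t hst
    exact h s t (congrArg Subtype.val hst)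
  have := hli.fintype_card_le_finrank
  rwa [Fintype.card_fin] at this

/-- no subspace is shrunk by the matrices `cross k` -/
lemma cross_no_shrunk (V : Submodule ℂ (Fin 3 → ℂ)) : Module.finrank ℂ V ≤
    Module.finrank ℂ (⨆ k, V.map (cross k).mulVecLin : Submodule ℂ (Fin 3 → ℂ)) := by
  set S : Submodule ℂ (Fin 3 → ℂ) := ⨆ k, V.map (cross k).mulVecLin with hS
  have hmem : ∀ k, ∀ v ∈ V, cross k *ᵥ v ∈ S := fun k v hv =>
    Submodule.mem_iSup_of_mem k ⟨v, hv, rfl⟩
  by_cases hV : V = ⊥
  · rw [hV, finrank_bot]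
    exact Nat.zero_le _
  obtain ⟨v, hv, hv0⟩ := Submodule.exists_mem_ne_zero_of_ne_bot hV
  have hm0 := hmem 0 v hv
  have hm1 := hmem 1 v hv
  have hm2 := hmem 2 v hv
  rw [(cross_apply v).1] at hm0
  rw [(cross_apply v).2.1] at hm1
  rw [(cross_apply v).2.2] at hm2
  have h2 : 2 ≤ Module.finrank ℂ S := by
    by_cases h0 : v 0 = 0
    · by_cases h1 : v 1 = 0
      · have h22 : v 2 ≠ 0 := by
          intro h
          apply hv0
          funext i
          fin_cases i
          · exact h0
          · exact h1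
          · exact h
        refine two_le_finrank hm0 hm1 fun s t hst => ?_
        have e0 := congrFun hst 0
        have e1 := congrFun hst 1
        simp at e0 e1
        exact ⟨e1.resolve_right h22, e0.resolve_right h22⟩
      · refine two_le_finrank hm0 hm2 fun s t hst => ?_
        have e0 := congrFun hst 0
        have e2 := congrFun hst 2
        simp at e0 e2
        exact ⟨e2.resolve_right h1, e0.resolve_right h1⟩
    · refine two_le_finrank hm1 hm2 fun s t hst => ?_
      have e1 := congrFun hst 1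
      have e2 := congrFun hst 2
      simp at e1 e2
      exact ⟨e2.resolve_right h0, e1.resolve_right h0⟩
  have h3 : Module.finrank ℂ V ≤ 3 := by
    have := Submodule.finrank_le V
    rwa [Module.finrank_fin_fun] at this
  by_cases h4 : Module.finrank ℂ V ≤ 2
  · exact h4.trans h2
  · have hVtop : V = ⊤ := by
      apply Submodule.eq_top_of_finrank_eq
      rw [Module.finrank_fin_fun]
      omega
    have hStop : S = ⊤ := by
      rw [Submodule.eq_top_iff']
      intro x
      have h5 := hmem 0 (Pi.single 1 (x 2)) (by rw [hVtop]; exact Submodule.mem_top)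
      have h6 := hmem 1 (Pi.single 2 (x 0)) (by rw [hVtop]; exact Submodule.mem_top)
      have h7 := hmem 2 (Pi.single 0 (x 1)) (by rw [hVtop]; exact Submodule.mem_top)
      rw [(cross_apply _).1] at h5
      rw [(cross_apply _).2.1] at h6
      rw [(cross_apply _).2.2] at h7
      have h8 := S.add_mem (S.add_mem h5 h6) h7
      convert h8 using 1
      funext i
      fin_cases i <;> simp
    rw [hStop, finrank_top, Module.finrank_fin_fun]
    exact h3

end

end H669R3.Acc
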