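import Mathlib

/-!
# Polynomials whose coefficient signs follow a pattern with few changes and few exceptions

Univariate part (Descartes' rule) and the passage from several variables to one variable.
-/

set_option autoImplicit false

namespace Pool.Agent.H669R3.FewNeg

open Polynomial

section Univ

variable {K : Type*} [CommRing K] [LinearOrder K] [IsStrictOrderedRing K]

/-- the sign prescribed by a Boolean -/
def sg (b : Bool) : SignType := if b then 1 else -1

theorem sg_neg {a b : Bool} (h : sg a = - sg b) : a ≠ b := by
  rintro rfl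
  cases a <;> revert h <;> decide

/-- exponents at which the coefficient has the wrong sign -/
noncomputable def exc (σ : ℕ → Bool) (p : K[X]) : Finset ℕ :=
  p.support.filter fun e => SignType.sign (p.coeff e) ≠ sg (σ e)

theorem exists_change (σ : ℕ → Bool) (a b : ℕ) (hab : a < b) (h : σ a ≠ σ b) :
    ∃ j, a ≤ j ∧ j < b ∧ σ j ≠ σ (j + 1) := by
  by_contra hcon
  push Not at hcon
  apply h
  have : ∀ d, a + d ≤ b → σ a = σ (a + d) := by
    intro d
    induction d with
    | zero => intro _; rfl
    | succ d ih =>
      intro hd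
      rw [ih (by omega)]
      exact hcon (a + d) (by omega) (by omega)
  have h2 := this (b - a) (by omega)
  rwa [show a + (b - a) = b by omega] at h2

theorem sv_le (σ : ℕ → Bool) (J : Finset ℕ) (hJ : ∀ j, σ j ≠ σ (j + 1) → j ∈ J) :
    ∀ (m : ℕ) (p : K[X]), p.support.card = m →
    p.signVariations +
      (if p ≠ 0 ∧ SignType.sign p.leadingCoeff ≠ sg (σ p.natDegree) then 1 else 0) ≤
      2 * (exc σ p).card + (J.filter (· < p.natDegree)).card := by
  intro m
  induction m with
  | zero =>
    intro p hp
    have h0 : p = 0 := by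
      rwa [Finset.card_eq_zero, Polynomial.support_eq_empty] at hp
    subst h0
    simp
  | succ m ih =>
    intro p hp
    have hp0 : p ≠ 0 := by
      rintro rfl
      simp at hp
    set q := p.eraseLead with hq
    have hqc : q.support.card = m := by
      have := Polynomial.card_support_eraseLead_add_one hp0
      rw [← hq] at this
      omega
    have hIH := ih q hqc
    have hsupp : q.support = p.support.erase p.natDegree := Polynomial.eraseLead_support p
    have hlead : p.coeff p.natDegree ≠ 0 := by
      rw [Polynomial.coeff_natDegree]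
      exact Polynomial.leadingCoeff_ne_zero.2 hp0
    have hexc : (exc σ p).card = (exc σ q).card +
        (if SignType.sign p.leadingCoeff ≠ sg (σ p.natDegree) then 1 else 0) := by
      have h1 : exc σ q = (exc σ p).erase p.natDegree := by
        ext e
        unfold exc
        rw [Finset.mem_filter, hsupp, Finset.mem_erase, Finset.mem_erase, Finset.mem_filter]
        constructor
        · rintro ⟨⟨h1, h2⟩, h3⟩
          refine ⟨h1, h2, ?_⟩
          rwa [hq, Polynomial.eraseLead_coeff_of_ne e h1] at h3
        · rintro ⟨h1, h2, h3⟩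
          refine ⟨⟨h1, h2⟩, ?_⟩
          rwa [hq, Polynomial.eraseLead_coeff_of_ne e h1]
      by_cases hl : SignType.sign p.leadingCoeff ≠ sg (σ p.natDegree)
      · rw [if_pos hl, h1]
        have hmem : p.natDegree ∈ exc σ p := by
          unfold exc
          rw [Finset.mem_filter, Polynomial.mem_support_iff]
          exact ⟨hlead, by rwa [Polynomial.coeff_natDegree]⟩
        rw [Finset.card_erase_of_mem hmem]
        have := Finset.card_pos.2 ⟨_, hmem⟩
        omega
      · rw [if_neg hl, h1]
        have hmem : p.natDegree ∉ exc σ p := by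
          unfold exc
          rw [Finset.mem_filter]
          rintro ⟨_, h⟩
          exact hl (by rwa [Polynomial.coeff_natDegree] at h)
        rw [Finset.erase_eq_of_notMem hmem]
        omega
    have hsv := Polynomial.signVariations_eq_eraseLead_add_ite hp0
    rw [← hq] at hsv
    by_cases hq0 : q = 0
    · -- a single term
      have h1 : q.signVariations = 0 := by rw [hq0]; simp
      have h2 : ¬ (SignType.sign p.leadingCoeff = -SignType.sign q.leadingCoeff) := by
        rw [hq0]
        simp [hp0]
      rw [if_neg h2, h1] at hsv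
      rw [hsv, hexc]
      by_cases hl : SignType.sign p.leadingCoeff ≠ sg (σ p.natDegree)
      · rw [if_pos ⟨hp0, hl⟩, if_pos hl]; omega
      · rw [if_neg (fun h => hl h.2), if_neg hl]; omega
    · have hdeg : q.natDegree < p.natDegree := by
        have h2 : 2 ≤ p.support.card := by
          have : 0 < q.support.card :=
            Finset.card_pos.2 (Polynomial.support_nonempty.2 hq0)
          omega
        exact Polynomial.eraseLead_natDegree_lt h2
      have hmono : (J.filter (· < q.natDegree)).card ≤ (J.filter (· < p.natDegree)).card := by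
        apply Finset.card_le_card
        intro j hj
        rw [Finset.mem_filter] at hj ⊢
        exact ⟨hj.1, lt_trans hj.2 hdeg⟩
      by_cases hl : SignType.sign p.leadingCoeff ≠ sg (σ p.natDegree)
      · rw [if_pos hl] at hexc
        rw [if_pos ⟨hp0, hl⟩, hexc, hsv]
        split_ifs <;> split_ifs at hIH <;> omega
      · rw [if_neg hl] at hexc
        rw [if_neg (fun h => hl h.2), hexc, hsv]
        by_cases hc : SignType.sign p.leadingCoeff = -SignType.sign q.leadingCoeff
        · rw [if_pos hc]
          by_cases hb : SignType.sign q.leadingCoeff ≠ sg (σ q.natDegree)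
          · rw [if_pos ⟨hq0, hb⟩] at hIH
            omega
          · rw [if_neg (fun h => hb h.2)] at hIH
            push Not at hl hb
            rw [hl, hb] at hc
            have hne := sg_neg hc
            obtain ⟨j, hj1, hj2, hj3⟩ := exists_change σ _ _ hdeg (Ne.symm hne)
            have hlt : (J.filter (· < q.natDegree)).card < (J.filter (· < p.natDegree)).card := by
              apply Finset.card_lt_card
              refine ⟨?_, ?_⟩
              · intro i hi
                rw [Finset.mem_filter] at hi ⊢
                exact ⟨hi.1, lt_trans hi.2 hdeg⟩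
              · intro hsub
                have h5 := hsub (Finset.mem_filter.2 ⟨hJ j hj3, hj2⟩)
                rw [Finset.mem_filter] at h5
                omega
            omega
        · rw [if_neg hc]
          split_ifs at hIH <;> omega

theorem sv_le' (σ : ℕ → Bool) (J : Finset ℕ) (hJ : ∀ j, σ j ≠ σ (j + 1) → j ∈ J) (p : K[X]) :
    p.signVariations ≤ 2 * (exc σ p).card + J.card := by
  have h := sv_le σ J hJ _ p rfl
  have h2 : (J.filter (· < p.natDegree)).card ≤ J.card := Finset.card_filter_le _ _
  omega

theorem roots_le (p : K[X]) (hp : p ≠ 0) (T : Finset ℕ)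
    (hT : ∀ t ∈ T, 0 < t ∧ p.eval (t : K) = 0) : T.card ≤ p.signVariations := by
  classical
  refine le_trans ?_ (Polynomial.roots_countP_pos_le_signVariations p)
  have hinj : Function.Injective (fun t : ℕ => (t : K)) := Nat.cast_injective
  rw [← Finset.card_image_of_injective T hinj, Multiset.countP_eq_card_filter]
  refine le_trans (Finset.card_le_card (t := (Multiset.filter (0 < ·) p.roots).toFinset) ?_)
    (Multiset.toFinset_card_le _)
  intro y hy
  rw [Finset.mem_image] at hy
  obtain ⟨t, ht, rfl⟩ := hy
  rw [Multiset.mem_toFinset, Multiset.mem_filter, Polynomial.mem_roots hp]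
  obtain ⟨h1, h2⟩ := hT t ht
  refine ⟨h2, ?_⟩
  show (0 : K) < (t : K)
  exact_mod_cast h1

end Univ

section Multi

variable {K : Type*} [CommRing K] [LinearOrder K] [IsStrictOrderedRing K] {n : ℕ}

/-- substitute powers of one variable -/
noncomputable def ev (v : Fin n → ℕ) (f : MvPolynomial (Fin n) K) : K[X] :=
  MvPolynomial.aeval (fun i => (X : K[X]) ^ v i) f

/-- weight of an exponent vector -/
def wt (v : Fin n → ℕ) (α : Fin n →₀ ℕ) : ℕ := ∑ i, v i * α i

theorem ev_eq (v : Fin n → ℕ) (f : MvPolynomial (Fin n) K) :
    ev v f = ∑ α ∈ f.support, Polynomial.monomial (wt v α) (f.coeff α) := by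
  unfold ev
  rw [MvPolynomial.aeval_def, MvPolynomial.eval₂_eq']
  apply Finset.sum_congr rfl
  intro α _
  rw [← Polynomial.C_mul_X_pow_eq_monomial]
  congr 1
  unfold wt
  rw [← Finset.prod_pow_eq_pow_sum]
  apply Finset.prod_congr rfl
  intro i _
  rw [← pow_mul]

theorem ev_coeff (v : Fin n → ℕ) (f : MvPolynomial (Fin n) K) (e : ℕ) :
    (ev v f).coeff e = ∑ α ∈ f.support.filter (fun α => wt v α = e), f.coeff α := by
  rw [ev_eq, Polynomial.finsetSum_coeff, Finset.sum_filter]
  apply Finset.sum_congr rfl
  intro α _
  rw [Polynomial.coeff_monomial]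

theorem ev_eval (v : Fin n → ℕ) (f : MvPolynomial (Fin n) K) (t : K) :
    (ev v f).eval t = MvPolynomial.eval (fun i => t ^ v i) f := by
  rw [ev_eq, Polynomial.eval_finsetSum, MvPolynomial.eval_eq']
  apply Finset.sum_congr rfl
  intro α _
  rw [Polynomial.eval_monomial]
  congr 1
  unfold wt
  rw [← Finset.prod_pow_eq_pow_sum]
  apply Finset.prod_congr rfl
  intro i _
  rw [← pow_mul]

/-- All exponents are at most `D`, and the signs of the coefficients are given by a sign function
of the weight `∑ i, u i * α i` with at most `l` changes, with at most `k` exceptional monomials. -/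
def Leaf (u : Fin n → ℕ) (k l D : ℕ) (f : MvPolynomial (Fin n) K) : Prop :=
  (∀ α ∈ f.support, ∀ i, α i ≤ D) ∧
  ∃ (σ : ℕ → Bool) (J : Finset ℕ) (E : Finset (Fin n →₀ ℕ)), J.card ≤ l ∧ E.card ≤ k ∧
    (∀ j, σ j ≠ σ (j + 1) → j ∈ J) ∧
    ∀ α ∈ f.support, α ∉ E →
      (σ (∑ i, u i * α i) = true → 0 < f.coeff α) ∧ (σ (∑ i, u i * α i) = false → f.coeff α < 0)

theorem wt_add (w u : Fin n → ℕ) (M : ℕ) (α : Fin n →₀ ℕ) :
    wt (fun i => w i + M * u i) α = wt w α + M * wt u α := by
  unfold wt
  rw [Finset.mul_sum, ← Finset.sum_add_distrib]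
  apply Finset.sum_congr rfl
  intro i _
  ring

theorem sum_sign (S : Finset (Fin n →₀ ℕ)) (c : (Fin n →₀ ℕ) → K) (b : Bool)
    (h : ∀ α ∈ S, (b = true → 0 < c α) ∧ (b = false → c α < 0)) (hne : S.Nonempty) :
    SignType.sign (∑ α ∈ S, c α) = sg b := by
  cases b
  · have : ∑ α ∈ S, c α < 0 := Finset.sum_neg (fun α hα => (h α hα).2 rfl) hne
    rw [sign_neg this]; rfl
  · have : 0 < ∑ α ∈ S, c α := Finset.sum_pos (fun α hα => (h α hα).1 rfl) hne
    rw [sign_pos this]; rfl

theorem leaf_main (u : Fin n → ℕ) (k l D : ℕ) (f : MvPolynomial (Fin n) K) (hf : f ≠ 0)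
    (hL : Leaf u k l D f) :
    ∃ (α₀ : Fin n →₀ ℕ) (B : Finset (Fin n →₀ ℕ)), B.card ≤ k ∧ (∀ i, α₀ i ≤ D) ∧
      (∀ β ∈ B, β ≠ α₀ ∧ ∀ i, β i ≤ D) ∧
      ∀ (w : Fin n → ℕ) (M : ℕ), (∀ α ∈ f.support, wt w α < M) →
        (∀ β ∈ B, wt w α₀ ≠ wt w β) →
        ev (fun i => w i + M * u i) f ≠ 0 ∧
        (ev (fun i => w i + M * u i) f).signVariations ≤ l + 2 * k := by
  classical
  obtain ⟨hD, σ, J, E, hJ, hE, hσ, hpat⟩ := hL
  have hsne : f.support.Nonempty := MvPolynomial.support_nonempty.2 hf
  -- the choice of the distinguished monomial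
  obtain ⟨α₀, hα₀, hcase⟩ : ∃ α₀ ∈ f.support, (α₀ ∉ E ∨ f.support ⊆ E) := by
    by_cases h : f.support ⊆ E
    · obtain ⟨a, ha⟩ := hsne
      exact ⟨a, ha, Or.inr h⟩
    · rw [Finset.not_subset] at h
      obtain ⟨a, ha, ha2⟩ := h
      exact ⟨a, ha, Or.inl ha2⟩
  refine ⟨α₀, (E ∩ f.support).erase α₀, ?_, hD α₀ hα₀, ?_, ?_⟩
  · exact le_trans (Finset.card_le_card ((Finset.erase_subset _ _).trans Finset.inter_subset_left))
      hE
  · intro β hβ
    rw [Finset.mem_erase, Finset.mem_inter] at hβ
    exact ⟨hβ.1, hD β hβ.2.2⟩
  · intro w M hM hsep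
    set v : Fin n → ℕ := fun i => w i + M * u i with hv
    have hMpos : 0 < M := lt_of_le_of_lt (Nat.zero_le _) (hM α₀ hα₀)
    have hwv : ∀ α, wt v α = wt w α + M * wt u α := fun α => wt_add w u M α
    have hdiv : ∀ α ∈ f.support, wt v α / M = wt u α := by
      intro α hα
      rw [hwv, Nat.add_mul_div_left _ _ hMpos, Nat.div_eq_of_lt (hM α hα), zero_add]
    have hmod : ∀ α ∈ f.support, wt v α % M = wt w α := by
      intro α hα
      rw [hwv, Nat.add_mul_mod_self_left, Nat.mod_eq_of_lt (hM α hα)]
    set g := ev v f with hg
    constructor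
    · -- nonvanishing
      intro h0
      have h1 : g.coeff (wt v α₀) = 0 := by rw [h0]; simp
      rw [hg, ev_coeff] at h1
      have hothers : ∀ β ∈ f.support.filter (fun α => wt v α = wt v α₀), β ≠ α₀ → β ∉ E := by
        intro β hβ hne hβE
        rw [Finset.mem_filter] at hβ
        have h2 : β ∈ (E ∩ f.support).erase α₀ := by
          rw [Finset.mem_erase, Finset.mem_inter]
          exact ⟨hne, hβE, hβ.1⟩
        apply hsep β h2
        rw [← hmod α₀ hα₀, ← hmod β hβ.1, hβ.2]
      rcases hcase with hc | hc
      · have h3 : SignType.sign (∑ α ∈ f.support.filter (fun α => wt v α = wt v α₀),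
            f.coeff α) = sg (σ (wt u α₀)) := by
          apply sum_sign
          · intro β hβ
            have hβE : β ∉ E := by
              by_cases hne : β = α₀
              · rw [hne]; exact hc
              · exact hothers β hβ hne
            rw [Finset.mem_filter] at hβ
            have h4 : wt u β = wt u α₀ := by
              rw [← hdiv β hβ.1, ← hdiv α₀ hα₀, hβ.2]
            rw [← h4]
            exact hpat β hβ.1 hβE
          · exact ⟨α₀, Finset.mem_filter.2 ⟨hα₀, rfl⟩⟩
        rw [h1] at h3
        cases hb : σ (wt u α₀) <;> rw [hb] at h3 <;> simp [sg] at h3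
      · have h3 : f.support.filter (fun α => wt v α = wt v α₀) = {α₀} := by
          ext β
          rw [Finset.mem_singleton]
          constructor
          · intro hβ
            by_contra hne
            exact hothers β hβ hne (hc (Finset.mem_filter.1 hβ).1)
          · rintro rfl
            exact Finset.mem_filter.2 ⟨hα₀, rfl⟩
        rw [h3, Finset.sum_singleton] at h1
        exact (MvPolynomial.mem_support_iff.1 hα₀) h1
    · -- sign variations
      set σ' : ℕ → Bool := fun e => σ (e / M) with hσ'
      set J' : Finset ℕ := J.image fun q => M * (q + 1) - 1 with hJ'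
      have h1 : ∀ j, σ' j ≠ σ' (j + 1) → j ∈ J' := by
        intro j hj
        have h2 : (j + 1) / M = j / M + 1 ∧ j + 1 = M * (j / M + 1) := by
          have h3 : (j + 1) / M = j / M + if M ∣ j + 1 then 1 else 0 := Nat.succ_div
          by_cases hd : M ∣ j + 1
          · rw [if_pos hd] at h3
            refine ⟨h3, ?_⟩
            rw [← h3, Nat.mul_div_cancel' hd]
          · rw [if_neg hd, add_zero] at h3
            exfalso
            apply hj
            show σ (j / M) = σ ((j + 1) / M)
            rw [h3]
        rw [hJ', Finset.mem_image]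
        refine ⟨j / M, ?_, ?_⟩
        · apply hσ
          rw [← h2.1]
          exact hj
        · omega
      have h2 := sv_le' σ' J' h1 g
      have h3 : J'.card ≤ l := le_trans Finset.card_image_le hJ
      have h4 : (exc σ' g).card ≤ k := by
        refine le_trans ?_ hE
        refine le_trans (Finset.card_le_card (t := E.image (wt v)) ?_) Finset.card_image_le
        intro e he
        by_contra hcon
        unfold exc at he
        rw [Finset.mem_filter, Polynomial.mem_support_iff] at he
        obtain ⟨he1, he2⟩ := he
        apply he2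
        rw [hg, ev_coeff] at he1 ⊢
        apply sum_sign
        · intro β hβ
          rw [Finset.mem_filter] at hβ
          have hβE : β ∉ E := by
            intro h
            apply hcon
            rw [Finset.mem_image]
            exact ⟨β, h, hβ.2⟩
          show (σ (e / M) = true → _) ∧ (σ (e / M) = false → _)
          rw [← hβ.2, hdiv β hβ.1]
          exact hpat β hβ.1 hβE
        · by_contra hemp
          rw [Finset.not_nonempty_iff_eq_empty] at hemp
          apply he1
          rw [hemp, Finset.sum_empty]
      omega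

end Multi

end Pool.Agent.H669R3.FewNeg
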