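import Mathlib
import Pool.Agent.H669R3.FewNegA

/-!
# Hitting sets for positive combinations and products of polynomials with patterned signs
-/

set_option autoImplicit false

namespace Pool.Agent.H669R3.FewNeg

open Polynomial

/-- For a prime `p` two exponent vectors not congruent mod `p` are separated by the weights
`r ^ i % p`, for all but at most `n` residues `r`. -/
theorem sep_card {n : ℕ} (p : ℕ) (hp : p.Prime) (α β : Fin n →₀ ℕ)
    (h : ∃ i, ¬ (α i ≡ β i [MOD p])) :
    ((Finset.range p).filter fun r =>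
      wt (fun i : Fin n => r ^ (i : ℕ) % p) α = wt (fun i : Fin n => r ^ (i : ℕ) % p) β).card
      ≤ n := by
  classical
  haveI : Fact p.Prime := ⟨hp⟩
  set Q : (ZMod p)[X] :=
    ∑ i : Fin n, Polynomial.monomial (i : ℕ) ((α i : ZMod p) - (β i : ZMod p)) with hQ
  have hcoeff : ∀ j : Fin n, Q.coeff (j : ℕ) = (α j : ZMod p) - (β j : ZMod p) := by
    intro j
    rw [hQ, Polynomial.finsetSum_coeff, Finset.sum_eq_single j]
    · simp
    · intro b _ hb
      rw [Polynomial.coeff_monomial, if_neg]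
      exact fun hh => hb (Fin.ext hh)
    · intro hh
      exact absurd (Finset.mem_univ j) hh
  have hQ0 : Q ≠ 0 := by
    obtain ⟨i, hi⟩ := h
    intro h0
    apply hi
    have h1 := hcoeff i
    rw [h0, Polynomial.coeff_zero] at h1
    have h2 : (α i : ZMod p) = (β i : ZMod p) := by
      have := sub_eq_zero.1 h1.symm
      exact this
    exact (ZMod.natCast_eq_natCast_iff _ _ _).1 h2
  have hdeg : Q.natDegree ≤ n := by
    rw [hQ]
    refine Polynomial.natDegree_sum_le_of_forall_le _ _ ?_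
    intro i _
    exact le_trans (Polynomial.natDegree_monomial_le _) (le_of_lt i.2)
  have hinj : Set.InjOn (fun r : ℕ => (r : ZMod p)) (Finset.range p : Set ℕ) := by
    intro a ha b hb hab
    rw [Finset.mem_coe, Finset.mem_range] at ha hb
    have := (ZMod.natCast_eq_natCast_iff _ _ _).1 hab
    exact Nat.ModEq.eq_of_lt_of_lt this ha hb
  rw [← Finset.card_image_of_injOn (f := fun r : ℕ => (r : ZMod p))
    (hinj.mono (fun r hr => (Finset.mem_filter.1 hr).1))]
  refine le_trans (Finset.card_le_card (t := Q.roots.toFinset) ?_)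
    (le_trans (Multiset.toFinset_card_le _) (le_trans (Polynomial.card_roots' Q) hdeg))
  intro y hy
  rw [Finset.mem_image] at hy
  obtain ⟨r, hr, rfl⟩ := hy
  rw [Finset.mem_filter] at hr
  rw [Multiset.mem_toFinset, Polynomial.mem_roots hQ0, Polynomial.IsRoot.def, hQ,
    Polynomial.eval_finsetSum]
  have h1 : ((wt (fun i : Fin n => r ^ (i : ℕ) % p) α : ℕ) : ZMod p) =
      ((wt (fun i : Fin n => r ^ (i : ℕ) % p) β : ℕ) : ZMod p) := by rw [hr.2]
  have h2 : ∀ γ : Fin n →₀ ℕ, ((wt (fun i : Fin n => r ^ (i : ℕ) % p) γ : ℕ) : ZMod p) =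
      ∑ i : Fin n, (r : ZMod p) ^ (i : ℕ) * (γ i : ZMod p) := by
    intro γ
    unfold wt
    push_cast
    apply Finset.sum_congr rfl
    intro i _
    rw [ZMod.natCast_mod]
    push_cast
    rfl
  rw [h2, h2, ← sub_eq_zero, ← Finset.sum_sub_distrib] at h1
  rw [← h1]
  apply Finset.sum_congr rfl
  intro i _
  rw [Polynomial.eval_monomial]
  ring

/-- a good choice exists when the bad sets are small -/
theorem exists_good {ι τ : Type*} (S : Finset ι) (L : List τ) (B : τ → Finset ι) (c : ℕ)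
    (hB : ∀ a ∈ L, (B a).card ≤ c) (h : L.length * c < S.card) : ∃ x ∈ S, ∀ a ∈ L, x ∉ B a := by
  classical
  by_contra hcon
  push Not at hcon
  have hsub : S ⊆ L.toFinset.biUnion B := by
    intro x hx
    obtain ⟨a, ha, hxa⟩ := hcon x hx
    exact Finset.mem_biUnion.2 ⟨a, List.mem_toFinset.2 ha, hxa⟩
  have h1 : S.card ≤ L.toFinset.card * c :=
    le_trans (Finset.card_le_card hsub)
      (Finset.card_biUnion_le_card_mul _ _ _ (fun a ha => hB a (List.mem_toFinset.1 ha)))
  have h2 : L.toFinset.card * c ≤ L.length * c :=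
    Nat.mul_le_mul_right _ (List.toFinset_card_le _)
  omega

section

variable {K : Type*} [CommRing K] [LinearOrder K] [IsStrictOrderedRing K] {n : ℕ}

/-- The class: the index `s` bounds the number of leaves along products (sums do not increase it);
the flag `true` marks polynomials that are nonnegative at all positive points. -/
inductive Cls (u : Fin n → ℕ) (k l D : ℕ) : ℕ → Bool → MvPolynomial (Fin n) K → Prop
  | leaf {f : MvPolynomial (Fin n) K} : Leaf u k l D f → Cls u k l D 1 false f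
  | pos {f : MvPolynomial (Fin n) K} :
      (∀ x : Fin n → K, (∀ i, 0 < x i) → 0 < MvPolynomial.eval x f) → Cls u k l D 0 true f
  | mul {s t : ℕ} {a b : Bool} {f g : MvPolynomial (Fin n) K} :
      Cls u k l D s a f → Cls u k l D t b g → Cls u k l D (s + t) (a && b) (f * g)
  | pow {s : ℕ} {a : Bool} {f : MvPolynomial (Fin n) K} (e : ℕ) :
      Cls u k l D s a f → Cls u k l D s a (f ^ e)
  | evenPow {s : ℕ} {a : Bool} {f : MvPolynomial (Fin n) K} (e : ℕ) :
      Cls u k l D s a f → Cls u k l D s true (f ^ (2 * e))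
  | sum {s : ℕ} (I : Finset ℕ) (F : ℕ → MvPolynomial (Fin n) K) :
      (∀ i ∈ I, Cls u k l D s true (F i)) → Cls u k l D s true (∑ i ∈ I, F i)
  | neg {s : ℕ} {a : Bool} {f : MvPolynomial (Fin n) K} :
      Cls u k l D s a f → Cls u k l D s false (-f)
  | mono {s t : ℕ} {a : Bool} {f : MvPolynomial (Fin n) K} :
      s ≤ t → Cls u k l D s a f → Cls u k l D t a f

theorem Cls.sem {u : Fin n → ℕ} {k l D s : ℕ} {b : Bool} {f : MvPolynomial (Fin n) K}
    (h : Cls u k l D s b f) :
    (b = true → ∀ x : Fin n → K, (∀ i, 0 < x i) → 0 ≤ MvPolynomial.eval x f) ∧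
    (f ≠ 0 → ∃ L : List (MvPolynomial (Fin n) K), L.length ≤ s ∧
      (∀ g ∈ L, g ≠ 0 ∧ Leaf u k l D g) ∧
      ∀ x : Fin n → K, (∀ i, 0 < x i) → (∀ g ∈ L, MvPolynomial.eval x g ≠ 0) →
        MvPolynomial.eval x f ≠ 0) := by
  induction h with
  | @leaf f hf =>
    refine ⟨fun h => by simp at h, fun hf0 => ⟨[f], by simp, ?_, ?_⟩⟩
    · intro g hg
      rw [List.mem_singleton] at hg
      subst hg
      exact ⟨hf0, hf⟩
    · intro x _ hx
      exact hx f (by simp)
  | @pos f hf =>
    refine ⟨fun _ x hx => (hf x hx).le, fun _ => ⟨[], by simp, by simp, ?_⟩⟩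
    intro x hx _
    exact (hf x hx).ne'
  | @mul s t a b f g _ _ ihf ihg =>
    constructor
    · intro hab x hx
      rw [Bool.and_eq_true] at hab
      rw [map_mul]
      exact mul_nonneg (ihf.1 hab.1 x hx) (ihg.1 hab.2 x hx)
    · intro hfg
      obtain ⟨L1, h1, h2, h3⟩ := ihf.2 (left_ne_zero_of_mul hfg)
      obtain ⟨L2, h4, h5, h6⟩ := ihg.2 (right_ne_zero_of_mul hfg)
      refine ⟨L1 ++ L2, by rw [List.length_append]; omega, ?_, ?_⟩
      · intro q hq
        rw [List.mem_append] at hq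
        rcases hq with hq | hq
        · exact h2 q hq
        · exact h5 q hq
      · intro x hx hq
        rw [map_mul]
        exact mul_ne_zero (h3 x hx fun q h => hq q (List.mem_append_left _ h))
          (h6 x hx fun q h => hq q (List.mem_append_right _ h))
  | @pow s a f e _ ih =>
    constructor
    · intro ha x hx
      rw [map_pow]
      exact pow_nonneg (ih.1 ha x hx) _
    · intro hf
      by_cases he : e = 0
      · refine ⟨[], by simp, by simp, ?_⟩
        intro x _ _
        rw [he, pow_zero, map_one]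
        exact one_ne_zero
      · have hf0 : f ≠ 0 := by
          rintro rfl
          exact hf (zero_pow he)
        obtain ⟨L, h1, h2, h3⟩ := ih.2 hf0
        refine ⟨L, h1, h2, ?_⟩
        intro x hx hq
        rw [map_pow]
        exact pow_ne_zero _ (h3 x hx hq)
  | @evenPow s a f e _ ih =>
    constructor
    · intro _ x hx
      rw [map_pow]
      exact (even_two_mul e).pow_nonneg _
    · intro hf
      by_cases he : e = 0
      · refine ⟨[], by simp, by simp, ?_⟩
        intro x _ _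
        rw [he, mul_zero, pow_zero, map_one]
        exact one_ne_zero
      · have hf0 : f ≠ 0 := by
          rintro rfl
          exact hf (zero_pow (by omega))
        obtain ⟨L, h1, h2, h3⟩ := ih.2 hf0
        refine ⟨L, h1, h2, ?_⟩
        intro x hx hq
        rw [map_pow]
        exact pow_ne_zero _ (h3 x hx hq)
  | @sum s I F _ ih =>
    constructor
    · intro _ x hx
      rw [map_sum]
      exact Finset.sum_nonneg fun i hi => (ih i hi).1 rfl x hx
    · intro hf
      obtain ⟨i, hi, hFi⟩ : ∃ i ∈ I, F i ≠ 0 := by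
        by_contra hcon
        push Not at hcon
        exact hf (Finset.sum_eq_zero hcon)
      obtain ⟨L, h1, h2, h3⟩ := (ih i hi).2 hFi
      refine ⟨L, h1, h2, ?_⟩
      intro x hx hq
      rw [map_sum]
      apply ne_of_gt
      apply Finset.sum_pos'
      · intro j hj
        exact (ih j hj).1 rfl x hx
      · exact ⟨i, hi, lt_of_le_of_ne ((ih i hi).1 rfl x hx) (Ne.symm (h3 x hx hq))⟩
  | @neg s a f _ ih =>
    refine ⟨fun h => by simp at h, fun hf => ?_⟩
    obtain ⟨L, h1, h2, h3⟩ := ih.2 (neg_ne_zero.1 hf)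
    refine ⟨L, h1, h2, ?_⟩
    intro x hx hq
    rw [map_neg]
    exact neg_ne_zero.2 (h3 x hx hq)
  | @mono s t a f hst _ ih =>
    refine ⟨ih.1, fun hf => ?_⟩
    obtain ⟨L, h1, h2, h3⟩ := ih.2 hf
    exact ⟨L, le_trans h1 hst, h2, h3⟩

end

/-- the points `(t ^ (r ^ i % p + (n p D + 1) u i))_i`, `1 ≤ t ≤ s (l + 2 k) + 1`, `r < p`,
`p ∈ P` -/
def H {n : ℕ} (u : Fin n → ℕ) (k l D s : ℕ) (P : Finset ℕ) : Finset (Fin n → ℕ) :=
  P.biUnion fun p => (Finset.range p).biUnion fun r =>
    (Finset.range (s * (l + 2 * k) + 1)).image fun t =>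
      fun i => (t + 1) ^ (r ^ (i : ℕ) % p + (n * p * D + 1) * u i)

theorem H_card {n : ℕ} (u : Fin n → ℕ) (k l D s : ℕ) (P : Finset ℕ) :
    (H u k l D s P).card ≤ (∑ p ∈ P, p) * (s * (l + 2 * k) + 1) := by
  unfold H
  refine le_trans Finset.card_biUnion_le ?_
  rw [Finset.sum_mul]
  apply Finset.sum_le_sum
  intro p _
  refine le_trans (Finset.card_biUnion_le_card_mul _ _ (s * (l + 2 * k) + 1) ?_) ?_
  · intro r _
    exact le_trans Finset.card_image_le (by rw [Finset.card_range])
  · rw [Finset.card_range]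

theorem H_bound {n : ℕ} (u : Fin n → ℕ) (k l D s : ℕ) (P : Finset ℕ) (x : Fin n → ℕ)
    (hx : x ∈ H u k l D s P) : ∃ p ∈ P, ∀ i, 0 < x i ∧
      x i ≤ (s * (l + 2 * k) + 1) ^ (p + (n * p * D + 1) * u i) := by
  unfold H at hx
  rw [Finset.mem_biUnion] at hx
  obtain ⟨p, hp, hx⟩ := hx
  rw [Finset.mem_biUnion] at hx
  obtain ⟨r, hr, hx⟩ := hx
  rw [Finset.mem_image] at hx
  obtain ⟨t, ht, rfl⟩ := hx
  rw [Finset.mem_range] at hr ht
  refine ⟨p, hp, fun i => ⟨by positivity, ?_⟩⟩
  calc (t + 1) ^ (r ^ (i : ℕ) % p + (n * p * D + 1) * u i)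
      ≤ (s * (l + 2 * k) + 1) ^ (r ^ (i : ℕ) % p + (n * p * D + 1) * u i) :=
        Nat.pow_le_pow_left (by omega) _
    _ ≤ _ := by
        apply Nat.pow_le_pow_right (by omega)
        have : r ^ (i : ℕ) % p < p := Nat.mod_lt _ (by omega)
        omega

section

variable {K : Type*} [CommRing K] [LinearOrder K] [IsStrictOrderedRing K] {n : ℕ}

theorem hit (u : Fin n → ℕ) (k l D s : ℕ) (P : Finset ℕ) (c : ℕ)
    (hP : ∀ p ∈ P, p.Prime ∧ s * k * n < p)
    (hc : ∀ m, 0 < m → m ≤ D → (P.filter (· ∣ m)).card ≤ c) (hcard : s * k * c < P.card)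
    (b : Bool) (f : MvPolynomial (Fin n) K) (hf : Cls u k l D s b f) (hf0 : f ≠ 0) :
    ∃ x ∈ H u k l D s P, MvPolynomial.eval (fun i => ((x i : ℕ) : K)) f ≠ 0 := by
  classical
  obtain ⟨L, hL1, hL2, hL3⟩ := hf.sem.2 hf0
  -- data of the leaves
  have hdata : ∀ g : MvPolynomial (Fin n) K, ∃ (α₀ : Fin n →₀ ℕ) (B : Finset (Fin n →₀ ℕ)),
      g ∈ L → B.card ≤ k ∧ (∀ i, α₀ i ≤ D) ∧
      (∀ β ∈ B, β ≠ α₀ ∧ ∀ i, β i ≤ D) ∧
      ∀ (w : Fin n → ℕ) (M : ℕ), (∀ α ∈ g.support, wt w α < M) →
        (∀ β ∈ B, wt w α₀ ≠ wt w β) →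
        ev (fun i => w i + M * u i) g ≠ 0 ∧
        (ev (fun i => w i + M * u i) g).signVariations ≤ l + 2 * k := by
    intro g
    by_cases hg : g ∈ L
    · obtain ⟨α₀, B, h⟩ := leaf_main u k l D g (hL2 g hg).1 (hL2 g hg).2
      exact ⟨α₀, B, fun _ => h⟩
    · exact ⟨0, ∅, fun h => absurd h hg⟩
  choose A B hAB using hdata
  -- the choice of p
  obtain ⟨p, hpP, hp⟩ : ∃ p ∈ P, ∀ g ∈ L,
      p ∉ (B g).biUnion fun β => P.filter fun p => ∀ i, A g i ≡ β i [MOD p] := by
    apply exists_good P L _ (k * c)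
    · intro g hg
      obtain ⟨h1, h2, h3, -⟩ := hAB g hg
      refine le_trans (Finset.card_biUnion_le_card_mul _ _ c ?_) (Nat.mul_le_mul_right _ h1)
      intro β hβ
      obtain ⟨h4, h5⟩ := h3 β hβ
      obtain ⟨i, hi⟩ : ∃ i, A g i ≠ β i := by
        by_contra hcon
        push Not at hcon
        exact h4 (Finsupp.ext fun i => (hcon i).symm)
      have hm : 0 < (A g i - β i) + (β i - A g i) ∧ (A g i - β i) + (β i - A g i) ≤ D := by
        have := h2 i
        have := h5 i
        omega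
      refine le_trans (Finset.card_le_card ?_) (hc _ hm.1 hm.2)
      intro q hq
      rw [Finset.mem_filter] at hq ⊢
      refine ⟨hq.1, ?_⟩
      have h6 := hq.2 i
      rcases le_total (A g i) (β i) with h7 | h7
      · rw [Nat.sub_eq_zero_of_le h7, zero_add]
        exact (Nat.modEq_iff_dvd' h7).1 h6
      · rw [Nat.sub_eq_zero_of_le h7, add_zero]
        exact (Nat.modEq_iff_dvd' h7).1 h6.symm
    · refine lt_of_le_of_lt ?_ hcard
      rw [mul_assoc]
      exact Nat.mul_le_mul_right _ hL1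
  obtain ⟨hpp, hpn⟩ := hP p hpP
  -- the choice of r
  obtain ⟨r, hr1, hr2⟩ : ∃ r ∈ Finset.range p, ∀ g ∈ L,
      r ∉ (B g).biUnion fun β => (Finset.range p).filter fun r =>
        wt (fun i : Fin n => r ^ (i : ℕ) % p) (A g) = wt (fun i : Fin n => r ^ (i : ℕ) % p) β := by
    apply exists_good (Finset.range p) L _ (k * n)
    · intro g hg
      obtain ⟨h1, h2, h3, -⟩ := hAB g hg
      refine le_trans (Finset.card_biUnion_le_card_mul _ _ n ?_) (Nat.mul_le_mul_right _ h1)
      intro β hβ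
      apply sep_card p hpp
      by_contra hcon
      push Not at hcon
      apply hp g hg
      rw [Finset.mem_biUnion]
      exact ⟨β, hβ, Finset.mem_filter.2 ⟨hpP, hcon⟩⟩
    · rw [Finset.card_range]
      refine lt_of_le_of_lt ?_ hpn
      rw [mul_assoc]
      exact Nat.mul_le_mul_right _ hL1
  set w : Fin n → ℕ := fun i => r ^ (i : ℕ) % p with hw
  set M : ℕ := n * p * D + 1 with hM
  have hlow : ∀ g ∈ L, ∀ α ∈ g.support, wt w α < M := by
    intro g hg α hα
    have h1 : wt w α ≤ ∑ _i : Fin n, p * D := by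
      unfold wt
      apply Finset.sum_le_sum
      intro i _
      exact Nat.mul_le_mul (Nat.mod_lt _ hpp.pos).le ((hL2 g hg).2.1 α hα i)
    rw [Finset.sum_const, Finset.card_univ, Fintype.card_fin, smul_eq_mul] at h1
    rw [hM, mul_assoc]
    omega
  have hgood : ∀ g ∈ L, ev (fun i => w i + M * u i) g ≠ 0 ∧
      (ev (fun i => w i + M * u i) g).signVariations ≤ l + 2 * k := by
    intro g hg
    obtain ⟨h1, h2, h3, h4⟩ := hAB g hg
    apply h4 w M (hlow g hg)
    intro β hβ heq
    apply hr2 g hg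
    rw [Finset.mem_biUnion]
    exact ⟨β, hβ, Finset.mem_filter.2 ⟨hr1, heq⟩⟩
  -- the choice of t
  obtain ⟨t, ht1, ht2⟩ : ∃ t ∈ Finset.range (s * (l + 2 * k) + 1), ∀ g ∈ L,
      t ∉ (Finset.range (s * (l + 2 * k) + 1)).filter fun t =>
        (ev (fun i => w i + M * u i) g).eval (((t + 1 : ℕ)) : K) = 0 := by
    apply exists_good _ L _ (l + 2 * k)
    · intro g hg
      obtain ⟨h1, h2⟩ := hgood g hg
      refine le_trans ?_ h2
      rw [← Finset.card_image_of_injective _ (add_left_injective 1)]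
      apply roots_le _ h1
      intro y hy
      rw [Finset.mem_image] at hy
      obtain ⟨t, ht, rfl⟩ := hy
      exact ⟨Nat.succ_pos _, (Finset.mem_filter.1 ht).2⟩
    · rw [Finset.card_range]
      exact Nat.lt_succ_of_le (Nat.mul_le_mul_right _ hL1)
  refine ⟨fun i => (t + 1) ^ (w i + M * u i), ?_, ?_⟩
  · unfold H
    rw [Finset.mem_biUnion]
    refine ⟨p, hpP, ?_⟩
    rw [Finset.mem_biUnion]
    refine ⟨r, hr1, ?_⟩
    rw [Finset.mem_image]
    exact ⟨t, ht1, rfl⟩
  · apply hL3
    · intro i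
      have : 0 < (t + 1) ^ (w i + M * u i) := by positivity
      exact_mod_cast this
    · intro g hg h0
      apply ht2 g hg
      rw [Finset.mem_filter]
      refine ⟨ht1, ?_⟩
      rw [ev_eval]
      rw [← h0]
      congr 2
      funext i
      push_cast
      rfl

end

end Pool.Agent.H669R3.FewNeg
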