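import Mathlib
import Pool.Agent.H669R3.AccC
import Pool.Agent.H669R3.FewNegB

/-!
# Determinants of sparse matrix polynomials with accretive coefficients
-/

set_option autoImplicit false
set_option linter.unusedSectionVars false

namespace H669R3.Acc

open Matrix MvPolynomial
open scoped Pointwise

section support

variable {σ : Type*} [DecidableEq σ]

lemma support_prod_subset {ι : Type*} (s : Finset ι) (p : ι → MvPolynomial σ ℂ)
    (S : Finset (σ →₀ ℕ)) (h : ∀ i, (p i).support ⊆ S) : (∏ i ∈ s, p i).support ⊆ s.card • S := by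
  classical
  induction s using Finset.induction_on with
  | empty =>
    rw [Finset.prod_empty, Finset.card_empty, zero_nsmul]
    intro a ha
    rw [mem_support_iff, coeff_one] at ha
    by_cases h0 : 0 = a
    · rw [← h0]; exact Finset.zero_mem_zero
    · rw [if_neg h0] at ha; exact absurd rfl ha
  | insert i s hi ih =>
    rw [Finset.prod_insert hi, Finset.card_insert_of_notMem hi, succ_nsmul']
    exact (support_mul _ _).trans (Finset.add_subset_add (h i) ih)

lemma support_det_subset {c : ℕ} (M : Matrix (Fin c) (Fin c) (MvPolynomial σ ℂ))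
    (S : Finset (σ →₀ ℕ)) (h : ∀ i j, (M i j).support ⊆ S) : M.det.support ⊆ c • S := by
  classical
  rw [det_apply]
  refine (support_sum).trans ?_
  rw [Finset.biUnion_subset]
  intro τ _
  have h1 : (∏ i, M (τ i) i).support ⊆ c • S := by
    have := support_prod_subset Finset.univ (fun i => M (τ i) i) S fun i => h _ _
    rwa [Finset.card_univ, Fintype.card_fin] at this
  rcases Int.units_eq_one_or (Equiv.Perm.sign τ) with hs | hs
  · rw [hs, one_smul]; exact h1
  · rw [hs, Units.neg_smul, one_smul, support_neg]; exact h1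

lemma nsmul_le {S : Finset (σ →₀ ℕ)} {D : ℕ} (hD : ∀ a ∈ S, ∀ i, a i ≤ D) (c : ℕ) :
    ∀ a ∈ c • S, ∀ i, a i ≤ D * c := by
  induction c with
  | zero =>
    intro a ha i
    rw [zero_nsmul, Finset.mem_zero] at ha
    rw [ha]; simp
  | succ c ih =>
    intro a ha i
    rw [succ_nsmul', Finset.mem_add] at ha
    obtain ⟨b, hb, d, hd, rfl⟩ := ha
    rw [Finsupp.add_apply]
    have h1 := hD b hb i
    have h2 := ih d hd i
    rw [Nat.mul_succ]
    omega

end support

section reim

variable {n : ℕ}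

/-- the polynomial of the values `φ c` of the coefficients `c` -/
noncomputable def part (φ : ℂ →+ ℝ) (f : MvPolynomial (Fin n) ℂ) : MvPolynomial (Fin n) ℝ :=
  ∑ a ∈ f.support, monomial a (φ (f.coeff a))

lemma part_coeff (φ : ℂ →+ ℝ) (f : MvPolynomial (Fin n) ℂ) (a : Fin n →₀ ℕ) :
    (part φ f).coeff a = φ (f.coeff a) := by
  classical
  rw [part, coeff_sum]
  simp only [coeff_monomial]
  rw [Finset.sum_ite_eq' f.support a]
  split_ifs with h
  · rfl
  · rw [notMem_support_iff.mp h, map_zero]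

lemma part_support (φ : ℂ →+ ℝ) (f : MvPolynomial (Fin n) ℂ) :
    (part φ f).support ⊆ f.support := by
  intro a ha
  rw [mem_support_iff, part_coeff] at ha
  rw [mem_support_iff]
  intro h
  exact ha (by rw [h, map_zero])

lemma part_eval (φ : ℂ →+ ℝ) (hφ : ∀ (c : ℂ) (r : ℝ), φ (c * r) = φ c * r)
    (f : MvPolynomial (Fin n) ℂ) (x : Fin n → ℝ) :
    eval x (part φ f) = φ (eval (fun i => (x i : ℂ)) f) := by
  rw [part, map_sum, eval_eq', map_sum]
  refine Finset.sum_congr rfl fun a _ => ?_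
  rw [eval_monomial, Finsupp.prod_fintype _ _ (fun i => pow_zero _)]
  have : (∏ i, (x i : ℂ) ^ a i) = ((∏ i, x i ^ a i : ℝ) : ℂ) := by push_cast; rfl
  rw [this, hφ]

/-- a nonzero complex polynomial does not vanish where a suitable nonzero real polynomial with
smaller support does not vanish -/
lemma exists_real_part {f : MvPolynomial (Fin n) ℂ} (hf : f ≠ 0) :
    ∃ g : MvPolynomial (Fin n) ℝ, g ≠ 0 ∧ g.support ⊆ f.support ∧
      ∀ x : Fin n → ℝ, eval x g ≠ 0 → eval (fun i => (x i : ℂ)) f ≠ 0 := by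
  obtain ⟨a, ha⟩ := ne_zero_iff.mp hf
  have key : ∀ φ : ℂ →+ ℝ, (∀ (c : ℂ) (r : ℝ), φ (c * r) = φ c * r) → φ (f.coeff a) ≠ 0 →
      ∃ g : MvPolynomial (Fin n) ℝ, g ≠ 0 ∧ g.support ⊆ f.support ∧
      ∀ x : Fin n → ℝ, eval x g ≠ 0 → eval (fun i => (x i : ℂ)) f ≠ 0 := by
    intro φ hφ h
    refine ⟨part φ f, ?_, part_support φ f, fun x hx h0 => ?_⟩
    · rw [ne_zero_iff]
      exact ⟨a, by rw [part_coeff]; exact h⟩
    · rw [part_eval φ hφ, h0, map_zero] at hx
      exact hx rfl
  by_cases hre : (f.coeff a).re = 0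
  · refine key Complex.imAddGroupHom (fun c r => by simp) ?_
    intro him
    exact ha (Complex.ext hre him)
  · exact key Complex.reAddGroupHom (fun c r => by simp) hre

end reim

section tame

variable {n : ℕ}

/-- `f` is zero, or does not vanish at the points with positive coordinates at which none of at most
`s` real polynomials with at most `N` monomials and exponents at most `D` vanishes. -/
def STame (N D s : ℕ) (f : MvPolynomial (Fin n) ℂ) : Prop :=
  f = 0 ∨ ∃ L : List (MvPolynomial (Fin n) ℝ), L.length ≤ s ∧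
    (∀ g ∈ L, g ≠ 0 ∧ g.support.card ≤ N ∧ ∀ a ∈ g.support, ∀ i, a i ≤ D) ∧
    ∀ x : Fin n → ℝ, (∀ i, 0 < x i) → (∀ g ∈ L, eval x g ≠ 0) →
      eval (fun i => (x i : ℂ)) f ≠ 0

lemma stame_sparse {N D : ℕ} {f : MvPolynomial (Fin n) ℂ} (hN : f.support.card ≤ N)
    (hD : ∀ a ∈ f.support, ∀ i, a i ≤ D) : STame N D 1 f := by
  by_cases hf : f = 0
  · exact Or.inl hf
  · obtain ⟨g, hg, hgs, hx⟩ := exists_real_part hf
    refine Or.inr ⟨[g], le_refl _, ?_, ?_⟩
    · intro g' hg'
      rw [List.mem_singleton] at hg'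
      subst hg'
      exact ⟨hg, (Finset.card_le_card hgs).trans hN, fun a ha => hD a (hgs ha)⟩
    · intro x _ h
      exact hx x (h g (List.mem_singleton_self g))

lemma STame.of_tame {N D s : ℕ} {f h : MvPolynomial (Fin n) ℂ} (ht : STame N D s h)
    (h0 : h ≠ 0)
    (hx : ∀ x : Fin n → ℝ, (∀ i, 0 < x i) → eval (fun i => (x i : ℂ)) h ≠ 0 →
      eval (fun i => (x i : ℂ)) f ≠ 0) : STame N D s f := by
  obtain ⟨L, hL, hg, hxL⟩ := ht.resolve_left h0
  exact Or.inr ⟨L, hL, hg, fun x hpos hne => hx x hpos (hxL x hpos hne)⟩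

lemma STame.mono {N D s s' : ℕ} (hs : s ≤ s') {f : MvPolynomial (Fin n) ℂ} (h : STame N D s f) :
    STame N D s' f := by
  rcases h with h | ⟨L, hL, hg, hx⟩
  · exact Or.inl h
  · exact Or.inr ⟨L, hL.trans hs, hg, hx⟩

lemma STame.mul {N D s s' : ℕ} {f f' : MvPolynomial (Fin n) ℂ} (h : STame N D s f)
    (h' : STame N D s' f') : STame N D (s + s') (f * f') := by
  rcases h with h | ⟨L, hL, hg, hx⟩
  · left; rw [h, zero_mul]
  rcases h' with h' | ⟨L', hL', hg', hx'⟩
  · left; rw [h', mul_zero]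
  refine Or.inr ⟨L ++ L', by rw [List.length_append]; omega, ?_, ?_⟩
  · intro g hgm
    rcases List.mem_append.mp hgm with hm | hm
    · exact hg g hm
    · exact hg' g hm
  · intro x hpos hne
    rw [map_mul]
    exact mul_ne_zero (hx x hpos fun g hm => hne g (List.mem_append_left _ hm))
      (hx' x hpos fun g hm => hne g (List.mem_append_right _ hm))

lemma STame.pow {N D s : ℕ} {f : MvPolynomial (Fin n) ℂ} (h : STame N D s f) (e : ℕ) :
    STame N D s (f ^ e) := by
  rcases h with h | ⟨L, hL, hg, hx⟩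
  · rcases Nat.eq_zero_or_pos e with he | he
    · right
      refine ⟨[], Nat.zero_le _, by simp, fun x _ _ => ?_⟩
      rw [he, pow_zero, map_one]
      exact one_ne_zero
    · left; rw [h, zero_pow he.ne']
  · refine Or.inr ⟨L, hL, hg, fun x hpos hne => ?_⟩
    rw [map_pow]
    exact pow_ne_zero _ (hx x hpos hne)

lemma STame.factor {N D s : ℕ} {f h : MvPolynomial (Fin n) ℂ} (ht : STame N D s h)
    (h0 : h ≠ 0) (hf : f ∣ h) : STame N D s f := by
  obtain ⟨q, rfl⟩ := hf
  refine ht.of_tame h0 fun x _ hne => ?_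
  rw [map_mul] at hne
  exact left_ne_zero_of_mul hne

lemma STame.add {N D s : ℕ} {f f' : MvPolynomial (Fin n) ℂ} (h : STame N D s f)
    (h' : STame N D s f') (hf : NonnegOn f) (hf' : NonnegOn f') : STame N D s (f + f') := by
  by_cases h0 : f = 0
  · rw [h0, zero_add]; exact h'
  refine h.of_tame h0 fun x hpos h1 => ?_
  obtain ⟨r, hr, hr'⟩ := hf x hpos
  obtain ⟨t, ht, ht'⟩ := hf' x hpos
  rw [map_add, hr', ht']
  rw [hr'] at h1
  have h2 : r ≠ 0 := fun h => h1 (by rw [h, Complex.ofReal_zero])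
  have h3 : 0 < r + t := add_pos_of_pos_of_nonneg (lt_of_le_of_ne hr (Ne.symm h2)) ht
  exact_mod_cast h3.ne'

theorem stame_accretive {κ : Type*} [Fintype κ] {q c N D : ℕ}
    (g : κ → MvPolynomial (Fin n) ℝ) (hg : ∀ k, PosOn (g k)) (S : Finset (Fin n →₀ ℕ))
    (hS : ∀ k, (g k).support ⊆ S) (hSD : ∀ a ∈ S, ∀ i, a i * c ≤ D) (hN : S.card ^ c ≤ N)
    (A : κ → Matrix (Fin q) (Fin q) ℂ)
    {P Q : Matrix (Fin q) (Fin q) ℂ} (hP : P.det ≠ 0) (hQ : Q.det ≠ 0)
    (hA : ∀ k, Accretive (P * A k * Q))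
    (hc : Module.finrank ℂ (core fun k => P * A k * Q) =
      Module.finrank ℂ (core₀ g fun k => P * A k * Q) + c) :
    STame N D 1 (matPoly g A).det := by
  classical
  by_cases hne : (matPoly g A).det = 0
  · exact Or.inl hne
  obtain ⟨B, hB, h⟩ := reduction' g hg A hP hQ hA hc hne
  have hent : ∀ i j, (matPoly g B i j).support ⊆ S := by
    intro i j
    simp only [matPoly, Matrix.sum_apply, Matrix.smul_apply, Matrix.map_apply, smul_eq_mul]
    refine (support_sum).trans ?_
    rw [Finset.biUnion_subset]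
    intro k _
    rw [mul_comm]
    intro a ha
    rw [mem_support_iff, coeff_C_mul] at ha
    have h1 : a ∈ (map (algebraMap ℝ ℂ) (g k)).support :=
      mem_support_iff.mpr (right_ne_zero_of_mul ha)
    exact hS k (support_map_subset _ _ h1)
  have hsup := support_det_subset _ S hent
  have hst : STame N D 1 (matPoly g B).det := by
    refine stame_sparse ?_ ?_
    · exact (Finset.card_le_card hsup).trans (Finset.card_nsmul_le.trans hN)
    · intro a ha i
      obtain ⟨D', hD'⟩ : ∃ D', ∀ b ∈ S, b i ≤ D' ∧ D' * c ≤ D := by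
        by_cases hSe : S.Nonempty
        · obtain ⟨b0, hb0, hmax⟩ := Finset.exists_max_image S (fun b => b i) hSe
          exact ⟨b0 i, fun b hb => ⟨hmax b hb, hSD b0 hb0 i⟩⟩
        · refine ⟨0, fun b hb => absurd ⟨b, hb⟩ hSe⟩
      have : ∀ (m : ℕ), ∀ a ∈ m • S, a i ≤ D' * m := by
        intro m
        induction m with
        | zero =>
          intro a ha
          rw [zero_nsmul, Finset.mem_zero] at ha
          rw [ha]; simp
        | succ m ih =>
          intro a ha
          rw [succ_nsmul', Finset.mem_add] at ha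
          obtain ⟨b, hb, d, hd, rfl⟩ := ha
          rw [Finsupp.add_apply]
          have h1 := (hD' b hb).1
          have h2 := ih d hd
          rw [Nat.mul_succ]
          omega
      have h3 := this c a (hsup ha)
      rcases Finset.eq_empty_or_nonempty S with hSe | ⟨b, hb⟩
      · rcases Nat.eq_zero_or_pos c with hc0 | hc0
        · rw [hc0, mul_zero] at h3
          omega
        · exfalso
          have h4 := hsup ha
          rw [hSe, Finset.nsmul_empty hc0.ne'] at h4
          exact Finset.notMem_empty _ h4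
      · exact h3.trans (hD' b hb).2
  refine hst.of_tame hB fun x hx hdet => ?_
  rw [eval_det] at hdet ⊢
  exact h x hx hdet

/-- The hitting set for the class. -/
theorem STame.hit {N D s : ℕ} {f : MvPolynomial (Fin n) ℂ} (h : STame N D s f) (hf : f ≠ 0)
    (P : Finset ℕ) (c : ℕ) (hP : ∀ p ∈ P, p.Prime ∧ s * N * n < p)
    (hc : ∀ m, 0 < m → m ≤ D → (P.filter (· ∣ m)).card ≤ c) (hcard : s * N * c < P.card) :
    ∃ x ∈ Pool.Agent.H669R3.FewNeg.H (fun _ : Fin n => 0) N 0 D s P,
      eval (fun i => ((x i : ℕ) : ℂ)) f ≠ 0 := by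
  obtain ⟨L, hL, hg, hx⟩ := h.resolve_left hf
  have hcls : ∀ L : List (MvPolynomial (Fin n) ℝ),
      (∀ g ∈ L, g ≠ 0 ∧ g.support.card ≤ N ∧ ∀ a ∈ g.support, ∀ i, a i ≤ D) →
      ∃ b, Pool.Agent.H669R3.FewNeg.Cls (fun _ : Fin n => 0) N 0 D L.length b L.prod := by
    intro L
    induction L with
    | nil =>
      intro _
      exact ⟨true, Pool.Agent.H669R3.FewNeg.Cls.pos (by intro x _; simp)⟩
    | cons g L ih =>
      intro hg
      obtain ⟨b, hb⟩ := ih fun g' hg' => hg g' (List.mem_cons_of_mem _ hg')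
      obtain ⟨-, h2, h3⟩ := hg g List.mem_cons_self
      have hleaf : Pool.Agent.H669R3.FewNeg.Leaf (fun _ : Fin n => 0) N 0 D g :=
        ⟨h3, fun _ => true, ∅, g.support, by simp, h2, fun j hj => absurd rfl hj,
          fun α hα hαE => absurd hα hαE⟩
      have h4 := Pool.Agent.H669R3.FewNeg.Cls.mul
        (Pool.Agent.H669R3.FewNeg.Cls.leaf hleaf) hb
      refine ⟨false && b, ?_⟩
      rw [List.length_cons, List.prod_cons, add_comm]
      exact h4
  obtain ⟨b, hb⟩ := hcls L hg
  have hprod : L.prod ≠ 0 := by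
    apply List.prod_ne_zero
    intro h0
    exact (hg 0 h0).1 rfl
  obtain ⟨x, hxH, hxe⟩ := Pool.Agent.H669R3.FewNeg.hit (fun _ : Fin n => 0) N 0 D s P c hP hc
    hcard b L.prod (Pool.Agent.H669R3.FewNeg.Cls.mono hL hb) hprod
  obtain ⟨p, -, hpos⟩ := Pool.Agent.H669R3.FewNeg.H_bound _ N 0 D s P x hxH
  refine ⟨x, hxH, ?_⟩
  have h5 := hx (fun i => ((x i : ℕ) : ℝ)) (fun i => by exact_mod_cast (hpos i).1) (by
    intro g hgL h0
    apply hxe
    obtain ⟨q, hq⟩ := List.dvd_prod hgL
    rw [hq, map_mul, h0, zero_mul])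
  simpa only [Complex.ofReal_natCast] using h5

end tame

end H669R3.Acc
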