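import Mathlib

/-!
Definitions for the domino problem and the monadic second-order theory of Schreier graphs of
self-similar groups.
-/

namespace SchreierMSO

variable {X : Type}

/-- The word formed by the first `n` letters of `ξ`. -/
def pre (ξ : ℕ → X) (n : ℕ) : List X := (List.range n).map ξ

/-- `g` is an automorphism of the rooted tree of finite words. -/
def IsTreeAut (g : Equiv.Perm (List X)) : Prop :=
  (∀ u, (g u).length = u.length) ∧ ∀ u v, g u <+: g v ↔ u <+: v

/-- `h` is the section `g|_v`: `g (v w) = g(v) h(w)` for all words `w`. -/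
def IsSection (g : Equiv.Perm (List X)) (v : List X) (h : Equiv.Perm (List X)) : Prop :=
  ∀ w, g (v ++ w) = g v ++ h w

/-- A self-similar group of automorphisms of the tree of finite words. -/
def SelfSimilar (G : Subgroup (Equiv.Perm (List X))) : Prop :=
  (∀ g ∈ G, IsTreeAut g) ∧
    ∀ g ∈ G, ∀ x : X, ∃ y : X, ∃ h ∈ G, ∀ w, g (x :: w) = y :: h w

/-- Contracting: there is a finite set `N ⊆ G` which contains `g|_v` for all long words `v`. -/
def Contracting (G : Subgroup (Equiv.Perm (List X))) : Prop :=
  ∃ N : Set (Equiv.Perm (List X)), N.Finite ∧ N ⊆ G ∧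
    ∀ g ∈ G, ∃ n : ℕ, ∀ v : List X, n ≤ v.length → ∃ h ∈ N, IsSection g v h

/-- Bounded: for each `g` in the group the number of words `v` of length `n` with `g|_v ≠ 1` is
bounded independently of `n`. -/
def BoundedAct (G : Subgroup (Equiv.Perm (List X))) : Prop :=
  ∀ g ∈ G, ∃ C : ℕ, ∀ n : ℕ,
    ({v : List X | v.length = n ∧ ¬ IsSection g v 1} : Set (List X)).encard ≤ C

/-- Transitive on every level of the tree. -/
def LevelTransitive (G : Subgroup (Equiv.Perm (List X))) : Prop :=
  ∀ u v : List X, u.length = v.length → ∃ g ∈ G, g u = v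

/-- Self-replicating: for every letter `x`, every element of `G` is the section at `x` of an
element of `G` that fixes `x`. -/
def SelfReplicating (G : Subgroup (Equiv.Perm (List X))) : Prop :=
  ∀ x : X, ∀ h ∈ G, ∃ g ∈ G, ∀ w, g (x :: w) = x :: h w

/-- `g` maps the boundary point `ξ` to `η`. -/
def Moves (g : Equiv.Perm (List X)) (ξ η : ℕ → X) : Prop := ∀ n, g (pre ξ n) = pre η n

/-- The orbit of `ξ`, the vertex set of the Schreier graph `Γ_ξ`. -/
def orb (G : Subgroup (Equiv.Perm (List X))) (ξ : ℕ → X) : Set (ℕ → X) :=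
  {η | ∃ g ∈ G, Moves g ξ η}

/-- The edge relations of the Schreier graph `Γ_ξ` for the generators `s`. -/
def schreier {k : ℕ} (G : Subgroup (Equiv.Perm (List X))) (s : Fin k → Equiv.Perm (List X))
    (ξ : ℕ → X) : Fin k → orb G ξ → orb G ξ → Prop :=
  fun i v v' => Moves (s i) v v'

/-- An input of the domino problem: the number `n` of tiles (the tiles are the numbers `< n`), and
a list of triples; `(i, p, q)` in the list means that `(p, q)` is in the relation `R_i`. -/
abbrev DominoInput := ℕ × List (ℕ × ℕ × ℕ)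

/-- There is a tiling of the graph with edge relations `E` for the given input. -/
def Tileable {k : ℕ} {V : Type} (E : Fin k → V → V → Prop) (I : DominoInput) : Prop :=
  ∃ τ : V → ℕ, (∀ v, τ v < I.1) ∧
    ∀ (i : Fin k) (v v' : V), E i v v' → ((i : ℕ), τ v, τ v') ∈ I.2

/-- The domino problem of the graph is decidable. -/
def DominoDecidable {k : ℕ} {V : Type} (E : Fin k → V → V → Prop) : Prop :=
  ComputablePred (Tileable E)

/-- Monadic second-order formulas with `k` binary relation symbols; element variables and set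
variables are numbered by the natural numbers. -/
inductive MSO (k : ℕ) : Type
  | eq (i j : ℕ) : MSO k
  | rel (s : Fin k) (i j : ℕ) : MSO k
  | mem (i j : ℕ) : MSO k
  | neg (φ : MSO k) : MSO k
  | and (φ ψ : MSO k) : MSO k
  | exE (i : ℕ) (φ : MSO k) : MSO k
  | exS (j : ℕ) (φ : MSO k) : MSO k

namespace MSO

/-- Satisfaction: `v` assigns elements to the element variables, `W` assigns sets to the set
variables; `mem i j` says that element variable `i` lies in set variable `j`. -/
def Sat {k : ℕ} {V : Type} (E : Fin k → V → V → Prop) :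
    MSO k → (ℕ → V) → (ℕ → Set V) → Prop
  | eq i j, v, _ => v i = v j
  | rel s i j, v, _ => E s (v i) (v j)
  | mem i j, v, W => v i ∈ W j
  | neg φ, v, W => ¬ Sat E φ v W
  | and φ ψ, v, W => Sat E φ v W ∧ Sat E ψ v W
  | exE i φ, v, W => ∃ x : V, Sat E φ (Function.update v i x) W
  | exS j φ, v, W => ∃ Y : Set V, Sat E φ v (Function.update W j Y)

/-- Free element variables. -/
def fvE {k : ℕ} : MSO k → Finset ℕ
  | eq i j => {i, j}
  | rel _ i j => {i, j}
  | mem i _ => {i}
  | neg φ => fvE φ
  | and φ ψ => fvE φ ∪ fvE ψ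
  | exE i φ => (fvE φ).erase i
  | exS _ φ => fvE φ

/-- Free set variables. -/
def fvS {k : ℕ} : MSO k → Finset ℕ
  | eq _ _ => ∅
  | rel _ _ _ => ∅
  | mem _ j => {j}
  | neg φ => fvS φ
  | and φ ψ => fvS φ ∪ fvS ψ
  | exE _ φ => fvS φ
  | exS j φ => (fvS φ).erase j

/-- The Gödel number of a formula. -/
def code {k : ℕ} : MSO k → ℕ
  | eq i j => 7 * Nat.pair i j
  | rel s i j => 7 * Nat.pair s (Nat.pair i j) + 1
  | mem i j => 7 * Nat.pair i j + 2
  | neg φ => 7 * code φ + 3
  | and φ ψ => 7 * Nat.pair (code φ) (code ψ) + 4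
  | exE i φ => 7 * Nat.pair i (code φ) + 5
  | exS j φ => 7 * Nat.pair j (code φ) + 6

theorem code_injective {k : ℕ} : Function.Injective (code (k := k)) := by
  intro φ
  induction φ with
  | eq i j =>
    intro ψ h
    cases ψ <;> simp only [code] at h <;> try omega
    rename_i a b
    have := Nat.pair_eq_pair.1 (by omega : Nat.pair i j = Nat.pair a b)
    rw [this.1, this.2]
  | rel s i j =>
    intro ψ h
    cases ψ <;> simp only [code] at h <;> try omega
    rename_i t a b
    have h1 := Nat.pair_eq_pair.1 (by omega : Nat.pair s (Nat.pair i j) = Nat.pair t (Nat.pair a b))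
    have h2 := Nat.pair_eq_pair.1 h1.2
    rw [Fin.ext h1.1, h2.1, h2.2]
  | mem i j =>
    intro ψ h
    cases ψ <;> simp only [code] at h <;> try omega
    rename_i a b
    have := Nat.pair_eq_pair.1 (by omega : Nat.pair i j = Nat.pair a b)
    rw [this.1, this.2]
  | neg φ ih =>
    intro ψ h
    cases ψ <;> simp only [code] at h <;> try omega
    rename_i χ
    rw [ih (by omega : code φ = code χ)]
  | and φ₁ φ₂ ih₁ ih₂ =>
    intro ψ h
    cases ψ <;> simp only [code] at h <;> try omega
    rename_i a b
    have := Nat.pair_eq_pair.1 (by omega : Nat.pair (code φ₁) (code φ₂) = Nat.pair (code a) (code b))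
    rw [ih₁ this.1, ih₂ this.2]
  | exE i φ ih =>
    intro ψ h
    cases ψ <;> simp only [code] at h <;> try omega
    rename_i a b
    have := Nat.pair_eq_pair.1 (by omega : Nat.pair i (code φ) = Nat.pair a (code b))
    rw [this.1, ih this.2]
  | exS i φ ih =>
    intro ψ h
    cases ψ <;> simp only [code] at h <;> try omega
    rename_i a b
    have := Nat.pair_eq_pair.1 (by omega : Nat.pair i (code φ) = Nat.pair a (code b))
    rw [this.1, ih this.2]

end MSO

/-- The set of Gödel numbers of the monadic second-order sentences that are true in the graph. -/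
def MSOTheory {k : ℕ} {V : Type} (E : Fin k → V → V → Prop) : ℕ → Prop :=
  fun c => ∃ φ : MSO k, φ.code = c ∧ φ.fvE = ∅ ∧ φ.fvS = ∅ ∧
    ∀ (v : ℕ → V) (W : ℕ → Set V), φ.Sat E v W

end SchreierMSO
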