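import Mathlib
import Pool.Agent.H669R3.SMDefs

/-!
A bounded self-similar group on the alphabet `Fin 4` with tree-like Schreier graphs.
-/

namespace SchreierMSO

open Equiv

section General

variable {X : Type}

theorem pai {Y : Type} (g : Perm Y) (y : Y) : g (g⁻¹ y) = y := g.apply_symm_apply y

theorem pia {Y : Type} (g : Perm Y) (y : Y) : g⁻¹ (g y) = y := g.symm_apply_apply y

theorem pre_zero (ξ : ℕ → X) : pre ξ 0 = [] := rfl

theorem pre_length (ξ : ℕ → X) (n : ℕ) : (pre ξ n).length = n := by simp [pre]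

theorem pre_succ (ξ : ℕ → X) (n : ℕ) : pre ξ (n + 1) = pre ξ n ++ [ξ n] := by
  simp [pre, List.range_succ]

theorem pre_succ' (ξ : ℕ → X) (n : ℕ) : pre ξ (n + 1) = ξ 0 :: pre (fun i => ξ (i + 1)) n := by
  simp [pre, List.range_succ_eq_map, Function.comp_def]

theorem pre_getElem (ξ : ℕ → X) (n i : ℕ) (h : i < (pre ξ n).length) : (pre ξ n)[i] = ξ i := by
  simp [pre]

theorem pre_prefix (ξ : ℕ → X) {m n : ℕ} (h : m ≤ n) : pre ξ m <+: pre ξ n := by
  induction n, h using Nat.le_induction with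
  | base => exact List.prefix_rfl
  | succ n _ ih => rw [pre_succ]; exact ih.trans (List.prefix_append _ _)

theorem pre_eq_iff (ξ η : ℕ → X) (n : ℕ) : pre ξ n = pre η n ↔ ∀ i < n, ξ i = η i := by
  constructor
  · intro h i hi
    have h1 := pre_getElem ξ n i (by rw [pre_length]; exact hi)
    have h2 := pre_getElem η n i (by rw [pre_length]; exact hi)
    rw [← h1, ← h2]
    simp only [h]
  · intro h
    apply List.map_congr_left
    intro i hi
    exact h i (List.mem_range.1 hi)

theorem pre_inj {ξ η : ℕ → X} (h : ∀ n, pre ξ n = pre η n) : ξ = η := by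
  funext i
  exact (pre_eq_iff ξ η (i + 1)).1 (h _) i (Nat.lt_succ_self i)

/-- The word `u` followed by the sequence `η`. -/
def cat (u : List X) (η : ℕ → X) : ℕ → X := fun n => if h : n < u.length then u[n] else η (n - u.length)

theorem cat_lt (u : List X) (η : ℕ → X) {n : ℕ} (h : n < u.length) : cat u η n = u[n] := by
  simp [cat, h]

theorem cat_ge (u : List X) (η : ℕ → X) {n : ℕ} (h : u.length ≤ n) :
    cat u η n = η (n - u.length) := by
  simp [cat, Nat.not_lt.2 h]

theorem cat_pre (ξ : ℕ → X) (m : ℕ) : cat (pre ξ m) (fun n => ξ (n + m)) = ξ := by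
  funext n
  by_cases h : n < m
  · rw [cat_lt _ _ (by rw [pre_length]; exact h), pre_getElem]
  · rw [cat_ge _ _ (by rw [pre_length]; omega), pre_length]
    congr 1
    omega

theorem pre_cat (u : List X) (η : ℕ → X) (n : ℕ) : pre (cat u η) (u.length + n) = u ++ pre η n := by
  apply List.ext_getElem
  · simp [pre_length]
  · intro i h1 h2
    rw [pre_getElem]
    by_cases h : i < u.length
    · rw [cat_lt _ _ h, List.getElem_append_left h]
    · rw [cat_ge _ _ (Nat.not_lt.1 h), List.getElem_append_right (Nat.not_lt.1 h), pre_getElem]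

theorem pre_cat_self (u : List X) (η : ℕ → X) : pre (cat u η) u.length = u := by
  have := pre_cat u η 0
  simpa [pre_zero] using this

theorem IsTreeAut.mul {g h : Perm (List X)} (hg : IsTreeAut g) (hh : IsTreeAut h) :
    IsTreeAut (g * h) :=
  ⟨fun u => by rw [Perm.mul_apply, hg.1, hh.1], fun u v => by
    rw [Perm.mul_apply, Perm.mul_apply, hg.2, hh.2]⟩

theorem IsTreeAut.one : IsTreeAut (1 : Perm (List X)) := ⟨fun _ => rfl, fun _ _ => Iff.rfl⟩

theorem IsTreeAut.inv {g : Perm (List X)} (hg : IsTreeAut g) : IsTreeAut g⁻¹ :=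
  ⟨fun u => by
    have := hg.1 (g⁻¹ u)
    rw [pai] at this
    exact this.symm, fun u v => by
    have := hg.2 (g⁻¹ u) (g⁻¹ v)
    rw [pai, pai] at this
    exact this.symm⟩

theorem moves_of_ge {g : Perm (List X)} (hg : IsTreeAut g) {ξ η : ℕ → X} {N : ℕ}
    (h : ∀ n, N ≤ n → g (pre ξ n) = pre η n) : Moves g ξ η := by
  intro n
  by_cases hn : N ≤ n
  · exact h n hn
  · have h1 : g (pre ξ n) <+: pre η N := by
      rw [← h N le_rfl, hg.2]
      exact pre_prefix ξ (by omega)
    have h2 : pre η n <+: pre η N := pre_prefix η (by omega)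
    have h3 := List.prefix_of_prefix_length_le h1 h2 (by rw [hg.1, pre_length, pre_length])
    exact h3.eq_of_length (by rw [hg.1, pre_length, pre_length])

theorem moves_unique {g : Perm (List X)} {ξ η η' : ℕ → X} (h : Moves g ξ η) (h' : Moves g ξ η') :
    η = η' := pre_inj fun n => by rw [← h n, ← h' n]

theorem moves_exists {g : Perm (List X)} (hg : IsTreeAut g) (ξ : ℕ → X) : ∃ η, Moves g ξ η := by
  have hl : ∀ n, n < (g (pre ξ (n + 1))).length := fun n => by rw [hg.1, pre_length]; omega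
  refine ⟨fun n => (g (pre ξ (n + 1)))[n]'(hl n), ?_⟩
  intro n
  induction n with
  | zero =>
    have := hg.1 (pre ξ 0)
    rw [pre_length] at this
    exact List.eq_nil_of_length_eq_zero this
  | succ n ih =>
    rw [pre_succ (fun n => (g (pre ξ (n + 1)))[n]'(hl n)) n, ← ih]
    have hp : g (pre ξ n) <+: g (pre ξ (n + 1)) := by rw [hg.2]; exact pre_prefix ξ (by omega)
    obtain ⟨t, ht⟩ := hp
    have hlt : t.length = 1 := by
      have := congrArg List.length ht
      rw [List.length_append, hg.1, hg.1, pre_length, pre_length] at this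
      omega
    obtain ⟨z, rfl⟩ := List.length_eq_one_iff.1 hlt
    have hz : (g (pre ξ (n + 1)))[n]'(hl n) = z := by
      have hlen : (g (pre ξ n)).length = n := by rw [hg.1, pre_length]
      simp only [← ht]
      rw [List.getElem_append_right (by omega)]
      simp [hlen]
    exact ht.symm.trans (congrArg (fun t => g (pre ξ n) ++ [t]) hz.symm)

theorem Moves.mul {g h : Perm (List X)} {ξ η ζ : ℕ → X} (h1 : Moves h ξ η) (h2 : Moves g η ζ) :
    Moves (g * h) ξ ζ := fun n => by rw [Perm.mul_apply, h1 n, h2 n]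

theorem Moves.inv {g : Perm (List X)} {ξ η : ℕ → X} (h : Moves g ξ η) : Moves g⁻¹ η ξ := fun n => by
  rw [← h n, pia]

theorem Moves.one (ξ : ℕ → X) : Moves 1 ξ ξ := fun _ => rfl

theorem IsSection.mul {g g' h h' : Perm (List X)} {v : List X} (h1 : IsSection g' v h')
    (h2 : IsSection g (g' v) h) : IsSection (g * g') v (h * h') := fun w => by
  rw [Perm.mul_apply, h1 w, h2, Perm.mul_apply, Perm.mul_apply]

theorem IsSection.trans {g h k : Perm (List X)} {v w : List X} (h1 : IsSection g v h)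
    (h2 : IsSection h w k) : IsSection g (v ++ w) k := fun u => by
  rw [List.append_assoc, h1, h2, h1, List.append_assoc]

theorem IsSection.inv {g h : Perm (List X)} {v : List X} (h1 : IsSection g v h) :
    IsSection g⁻¹ (g v) h⁻¹ := fun w => by
  rw [pia, Perm.inv_eq_iff_eq, h1, pai]

theorem moves_of_section {g : Perm (List X)} (hg : IsTreeAut g) {ξ η : ℕ → X} {m : ℕ}
    (h1 : IsSection g (pre ξ m) 1) (h2 : g (pre ξ m) = pre η m) (h3 : ∀ n, m ≤ n → ξ n = η n) :
    Moves g ξ η := by
  apply moves_of_ge hg (N := m)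
  intro n hn
  have e1 : pre ξ n = pre ξ m ++ (pre (fun i => ξ (i + m)) (n - m)) := by
    have := pre_cat (pre ξ m) (fun i => ξ (i + m)) (n - m)
    rw [cat_pre, pre_length, show m + (n - m) = n by omega] at this
    exact this
  have e2 : pre η n = pre η m ++ (pre (fun i => η (i + m)) (n - m)) := by
    have := pre_cat (pre η m) (fun i => η (i + m)) (n - m)
    rw [cat_pre, pre_length, show m + (n - m) = n by omega] at this
    exact this
  have e3 : pre (fun i => ξ (i + m)) (n - m) = pre (fun i => η (i + m)) (n - m) := by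
    rw [pre_eq_iff]
    intro i _
    exact h3 _ (by omega)
  rw [e1, h1, h2, e2, e3]
  rfl

end General

/-! ### The group -/

/-- The alphabet. -/
abbrev A4 := Fin 4

/-- Act on the first letter. -/
def aF (σ : Perm A4) : List A4 → List A4
  | [] => []
  | x :: w => σ x :: w

/-- The directed elements: `b = (b, a, 1, 1)`. -/
def bF (σ : Perm A4) : List A4 → List A4
  | [] => []
  | x :: w => if x = 0 then 0 :: bF σ w else if x = 1 then 1 :: aF σ w else x :: w

theorem aF_mul (σ τ : Perm A4) (w : List A4) : aF (σ * τ) w = aF σ (aF τ w) := by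
  cases w <;> rfl

theorem aF_one (w : List A4) : aF 1 w = w := by
  cases w <;> rfl

theorem bF_mul (σ τ : Perm A4) (w : List A4) : bF (σ * τ) w = bF σ (bF τ w) := by
  induction w with
  | nil => rfl
  | cons x w ih =>
    simp only [bF]
    by_cases h0 : x = 0
    · simp [h0, bF, ih]
    · by_cases h1 : x = 1
      · simp [h1, bF, aF_mul]
      · simp [h0, h1, bF]

theorem bF_one (w : List A4) : bF 1 w = w := by
  induction w with
  | nil => rfl
  | cons x w ih =>
    simp only [bF]
    by_cases h0 : x = 0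
    · simp [h0, ih]
    · by_cases h1 : x = 1
      · simp [h1, aF_one]
      · simp [h0, h1]

/-- The rooted permutations. -/
def aP (σ : Perm A4) : Perm (List A4) where
  toFun := aF σ
  invFun := aF σ⁻¹
  left_inv w := by rw [← aF_mul, inv_mul_cancel, aF_one]
  right_inv w := by rw [← aF_mul, mul_inv_cancel, aF_one]

/-- The directed permutations. -/
def bP (σ : Perm A4) : Perm (List A4) where
  toFun := bF σ
  invFun := bF σ⁻¹
  left_inv w := by rw [← bF_mul, inv_mul_cancel, bF_one]
  right_inv w := by rw [← bF_mul, mul_inv_cancel, bF_one]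

theorem aP_apply (σ : Perm A4) (w : List A4) : aP σ w = aF σ w := rfl
theorem bP_apply (σ : Perm A4) (w : List A4) : bP σ w = bF σ w := rfl

theorem aP_mul (σ τ : Perm A4) : aP (σ * τ) = aP σ * aP τ := by
  ext1 w; exact aF_mul σ τ w
theorem bP_mul (σ τ : Perm A4) : bP (σ * τ) = bP σ * bP τ := by
  ext1 w; exact bF_mul σ τ w
theorem aP_one : aP 1 = 1 := by ext1 w; exact aF_one w
theorem bP_one : bP 1 = 1 := by ext1 w; exact bF_one w
theorem aP_inv (σ : Perm A4) : (aP σ)⁻¹ = aP σ⁻¹ := by
  rw [inv_eq_iff_mul_eq_one, ← aP_mul, mul_inv_cancel, aP_one]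
theorem bP_inv (σ : Perm A4) : (bP σ)⁻¹ = bP σ⁻¹ := by
  rw [inv_eq_iff_mul_eq_one, ← bP_mul, mul_inv_cancel, bP_one]

/-- The three transpositions at the letter 1. -/
def ρ : Fin 3 → Perm A4 := ![swap 0 1, swap 1 2, swap 1 3]

/-- The generators. -/
def gen : Fin 6 → Perm (List A4) := ![aP (ρ 0), aP (ρ 1), aP (ρ 2), bP (ρ 0), bP (ρ 1), bP (ρ 2)]

/-- The group. -/
def GG : Subgroup (Perm (List A4)) := Subgroup.closure (Set.range gen)

theorem rho_closure : Subgroup.closure (Set.range ρ) = ⊤ := by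
  rw [eq_top_iff, ← Perm.closure_isSwap, Subgroup.closure_le]
  have h0 : ρ 0 ∈ Subgroup.closure (Set.range ρ) := Subgroup.subset_closure ⟨0, rfl⟩
  have h1 : ρ 1 ∈ Subgroup.closure (Set.range ρ) := Subgroup.subset_closure ⟨1, rfl⟩
  have h2 : ρ 2 ∈ Subgroup.closure (Set.range ρ) := Subgroup.subset_closure ⟨2, rfl⟩
  have key : ∀ x y : A4, swap x y = 1 ∨ swap x y = ρ 0 ∨ swap x y = ρ 1 ∨ swap x y = ρ 2 ∨
      swap x y = ρ 0 * ρ 1 * ρ 0 ∨ swap x y = ρ 0 * ρ 2 * ρ 0 ∨ swap x y = ρ 1 * ρ 2 * ρ 1 := by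
    decide
  rintro _ ⟨x, y, _, rfl⟩
  rcases key x y with h | h | h | h | h | h | h <;> rw [h]
  · exact Subgroup.one_mem _
  · exact h0
  · exact h1
  · exact h2
  · exact Subgroup.mul_mem _ (Subgroup.mul_mem _ h0 h1) h0
  · exact Subgroup.mul_mem _ (Subgroup.mul_mem _ h0 h2) h0
  · exact Subgroup.mul_mem _ (Subgroup.mul_mem _ h1 h2) h1

theorem aP_mem (σ : Perm A4) : aP σ ∈ GG := by
  have h : σ ∈ Subgroup.closure (Set.range ρ) := by rw [rho_closure]; trivial
  induction h using Subgroup.closure_induction with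
  | mem x hx =>
    obtain ⟨i, rfl⟩ := hx
    apply Subgroup.subset_closure
    fin_cases i
    · exact ⟨0, rfl⟩
    · exact ⟨1, rfl⟩
    · exact ⟨2, rfl⟩
  | one => rw [aP_one]; exact Subgroup.one_mem _
  | mul x y _ _ hx hy => rw [aP_mul]; exact Subgroup.mul_mem _ hx hy
  | inv x _ hx => rw [← aP_inv]; exact Subgroup.inv_mem _ hx

theorem bP_mem (σ : Perm A4) : bP σ ∈ GG := by
  have h : σ ∈ Subgroup.closure (Set.range ρ) := by rw [rho_closure]; trivial
  induction h using Subgroup.closure_induction with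
  | mem x hx =>
    obtain ⟨i, rfl⟩ := hx
    apply Subgroup.subset_closure
    fin_cases i
    · exact ⟨3, rfl⟩
    · exact ⟨4, rfl⟩
    · exact ⟨5, rfl⟩
  | one => rw [bP_one]; exact Subgroup.one_mem _
  | mul x y _ _ hx hy => rw [bP_mul]; exact Subgroup.mul_mem _ hx hy
  | inv x _ hx => rw [← bP_inv]; exact Subgroup.inv_mem _ hx

/-- Induction over the group. -/
theorem GG_induction {p : (g : Perm (List A4)) → g ∈ GG → Prop} (ha : ∀ σ, p (aP σ) (aP_mem σ))
    (hb : ∀ σ, p (bP σ) (bP_mem σ))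
    (hmul : ∀ x y (hx : x ∈ GG) (hy : y ∈ GG), p x hx → p y hy → p (x * y) (Subgroup.mul_mem _ hx hy))
    (hinv : ∀ x (hx : x ∈ GG), p x hx → p x⁻¹ (Subgroup.inv_mem _ hx))
    {g : Perm (List A4)} (hg : g ∈ GG) : p g hg := by
  induction hg using Subgroup.closure_induction with
  | mem x hx =>
    obtain ⟨i, rfl⟩ := hx
    fin_cases i
    · exact ha _
    · exact ha _
    · exact ha _
    · exact hb _
    · exact hb _
    · exact hb _
  | one => simpa only [aP_one] using ha 1
  | mul x y hx hy h1 h2 => exact hmul x y hx hy h1 h2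
  | inv x hx h => exact hinv x hx h

theorem aF_length (σ : Perm A4) (w : List A4) : (aF σ w).length = w.length := by cases w <;> rfl

theorem bF_length (σ : Perm A4) (w : List A4) : (bF σ w).length = w.length := by
  induction w with
  | nil => rfl
  | cons x w ih =>
    simp only [bF]
    split_ifs <;> simp [ih, aF_length]

theorem aF_prefix (σ : Perm A4) {u v : List A4} (h : u <+: v) : aF σ u <+: aF σ v := by
  obtain ⟨w, rfl⟩ := h
  cases u with
  | nil => exact List.nil_prefix
  | cons x u => exact ⟨w, rfl⟩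

theorem bF_prefix (σ : Perm A4) {u v : List A4} (h : u <+: v) : bF σ u <+: bF σ v := by
  induction u generalizing v with
  | nil => exact List.nil_prefix
  | cons x u ih =>
    obtain ⟨w, rfl⟩ := h
    simp only [List.cons_append, bF]
    by_cases h0 : x = 0
    · simp only [h0, if_true]
      exact List.cons_prefix_cons.2 ⟨rfl, ih ⟨w, rfl⟩⟩
    · by_cases h1 : x = 1
      · simp only [h1, if_true]
        exact List.cons_prefix_cons.2 ⟨rfl, aF_prefix σ ⟨w, rfl⟩⟩
      · simp only [h0, h1, if_false]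
        exact ⟨w, rfl⟩

theorem aP_treeAut (σ : Perm A4) : IsTreeAut (aP σ) :=
  ⟨aF_length σ, fun u v => ⟨fun h => by
    have := aF_prefix σ⁻¹ h
    rw [aP_apply, aP_apply, ← aF_mul, ← aF_mul, inv_mul_cancel, aF_one, aF_one] at this
    exact this, aF_prefix σ⟩⟩

theorem bP_treeAut (σ : Perm A4) : IsTreeAut (bP σ) :=
  ⟨bF_length σ, fun u v => ⟨fun h => by
    have := bF_prefix σ⁻¹ h
    rw [bP_apply, bP_apply, ← bF_mul, ← bF_mul, inv_mul_cancel, bF_one, bF_one] at this
    exact this, bF_prefix σ⟩⟩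

theorem treeAut_of_mem {g : Perm (List A4)} (hg : g ∈ GG) : IsTreeAut g :=
  GG_induction (p := fun g _ => IsTreeAut g) aP_treeAut bP_treeAut
    (fun _ _ _ _ h1 h2 => h1.mul h2) (fun _ _ h => h.inv) hg

theorem aP_section (σ : Perm A4) {v : List A4} (hv : v ≠ []) : IsSection (aP σ) v 1 := by
  intro w
  cases v with
  | nil => exact absurd rfl hv
  | cons x v => rfl

theorem bP_section_zero (σ : Perm A4) : IsSection (bP σ) [0] (bP σ) := fun w => by
  simp [bP_apply, bF]

theorem bP_section_one (σ : Perm A4) : IsSection (bP σ) [1] (aP σ) := fun w => by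
  simp [bP_apply, aP_apply, bF, aF]

theorem bP_section_other (σ : Perm A4) {x : A4} (h0 : x ≠ 0) (h1 : x ≠ 1) :
    IsSection (bP σ) [x] 1 := fun w => by
  simp [bP_apply, bF, h0, h1]

/-- The nucleus. -/
def NN : Set (Perm (List A4)) := Set.range aP ∪ Set.range bP

theorem NN_finite : NN.Finite := (Set.finite_range aP).union (Set.finite_range bP)

theorem NN_sub : NN ⊆ GG := by
  rintro _ (⟨σ, rfl⟩ | ⟨σ, rfl⟩)
  · exact aP_mem σ
  · exact bP_mem σ

theorem one_mem_NN : (1 : Perm (List A4)) ∈ NN := Or.inl ⟨1, aP_one⟩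

theorem NN_inv {g : Perm (List A4)} (hg : g ∈ NN) : g⁻¹ ∈ NN := by
  rcases hg with ⟨σ, rfl⟩ | ⟨σ, rfl⟩
  · exact Or.inl ⟨σ⁻¹, (aP_inv σ).symm⟩
  · exact Or.inr ⟨σ⁻¹, (bP_inv σ).symm⟩

theorem NN_section {g : Perm (List A4)} (hg : g ∈ NN) (x : A4) : ∃ h ∈ NN, IsSection g [x] h := by
  rcases hg with ⟨σ, rfl⟩ | ⟨σ, rfl⟩
  · exact ⟨1, one_mem_NN, aP_section σ (by simp)⟩
  · by_cases h0 : x = 0
    · exact ⟨bP σ, Or.inr ⟨σ, rfl⟩, h0 ▸ bP_section_zero σ⟩
    · by_cases h1 : x = 1
      · exact ⟨aP σ, Or.inl ⟨σ, rfl⟩, h1 ▸ bP_section_one σ⟩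
      · exact ⟨1, one_mem_NN, bP_section_other σ h0 h1⟩

theorem NN_section_list {g : Perm (List A4)} (hg : g ∈ NN) (v : List A4) :
    ∃ h ∈ NN, IsSection g v h := by
  induction v using List.reverseRecOn with
  | nil =>
    refine ⟨g, hg, fun w => ?_⟩
    have : g [] = [] := by
      have := (treeAut_of_mem (NN_sub hg)).1 []
      exact List.eq_nil_of_length_eq_zero this
    rw [this]; rfl
  | append_singleton v x ih =>
    obtain ⟨h, hh, h1⟩ := ih
    obtain ⟨k, hk, h2⟩ := NN_section hh x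
    exact ⟨k, hk, h1.trans h2⟩

theorem len_one_eq {g : Perm (List A4)} (hg : IsTreeAut g) (x : A4) : ∃ y, g [x] = [y] := by
  have := hg.1 [x]
  exact List.length_eq_one_iff.1 this

theorem NN_mul_section {g g' : Perm (List A4)} (hg : g ∈ NN) (hg' : g' ∈ NN) (x : A4) :
    ∃ h ∈ NN, IsSection (g * g') [x] h := by
  rcases hg with ⟨σ, rfl⟩ | ⟨σ, rfl⟩ <;> rcases hg' with ⟨τ, rfl⟩ | ⟨τ, rfl⟩
  · rw [← aP_mul]; exact NN_section (Or.inl ⟨_, rfl⟩) x
  · obtain ⟨h, hh, h1⟩ := NN_section (Or.inr ⟨τ, rfl⟩ : bP τ ∈ NN) x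
    obtain ⟨y, hy⟩ := len_one_eq (bP_treeAut τ) x
    refine ⟨1 * h, by rw [one_mul]; exact hh, h1.mul (aP_section σ (by rw [hy]; simp))⟩
  · obtain ⟨y, hy⟩ := len_one_eq (aP_treeAut τ) x
    obtain ⟨h, hh, h1⟩ := NN_section (Or.inr ⟨σ, rfl⟩ : bP σ ∈ NN) y
    refine ⟨h * 1, by rw [mul_one]; exact hh, (aP_section τ (by simp)).mul (by rw [hy]; exact h1)⟩
  · rw [← bP_mul]; exact NN_section (Or.inr ⟨_, rfl⟩) x

theorem contracting : Contracting GG := by
  refine ⟨NN, NN_finite, NN_sub, fun g hg => ?_⟩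
  induction hg using GG_induction with
  | ha σ => exact ⟨0, fun v _ => NN_section_list (Or.inl ⟨σ, rfl⟩) v⟩
  | hb σ => exact ⟨0, fun v _ => NN_section_list (Or.inr ⟨σ, rfl⟩) v⟩
  | hmul x y hx hy h1 h2 =>
    obtain ⟨n1, h1⟩ := h1
    obtain ⟨n2, h2⟩ := h2
    refine ⟨max n1 n2 + 1, fun v hv => ?_⟩
    rcases List.eq_nil_or_concat v with rfl | ⟨u, z, rfl⟩
    · simp at hv
    · rw [List.concat_eq_append] at hv ⊢
      rw [List.length_append, List.length_singleton] at hv
      have hty := treeAut_of_mem hy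
      obtain ⟨k1, hk1, s1⟩ := h2 u (by omega)
      obtain ⟨k2, hk2, s2⟩ := h1 (y u) (by rw [hty.1]; omega)
      obtain ⟨k, hk, s⟩ := NN_mul_section hk2 hk1 z
      exact ⟨k, hk, (s1.mul s2).trans s⟩
  | hinv x hx h =>
    obtain ⟨n, h⟩ := h
    have htx := treeAut_of_mem hx
    refine ⟨n, fun v hv => ?_⟩
    obtain ⟨k, hk, s⟩ := h (x⁻¹ v) (by rw [htx.inv.1]; exact hv)
    refine ⟨k⁻¹, NN_inv hk, ?_⟩
    have := s.inv
    rwa [pai] at this

theorem section_of_mem {g : Perm (List A4)} (hg : g ∈ GG) (x : A4) :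
    ∃ h ∈ GG, IsSection g [x] h := by
  induction hg using GG_induction generalizing x with
  | ha σ => exact ⟨1, Subgroup.one_mem _, aP_section σ (by simp)⟩
  | hb σ =>
    obtain ⟨h, hh, s⟩ := NN_section (Or.inr ⟨σ, rfl⟩ : bP σ ∈ NN) x
    exact ⟨h, NN_sub hh, s⟩
  | hmul g g' hg hg' h1 h2 =>
    obtain ⟨y, hy⟩ := len_one_eq (treeAut_of_mem hg') x
    obtain ⟨k1, hk1, s1⟩ := h2 x
    obtain ⟨k2, hk2, s2⟩ := h1 y
    exact ⟨k2 * k1, Subgroup.mul_mem _ hk2 hk1, s1.mul (by rw [hy]; exact s2)⟩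
  | hinv g hg h =>
    obtain ⟨y, hy⟩ := len_one_eq (treeAut_of_mem (Subgroup.inv_mem _ hg)) x
    obtain ⟨k, hk, s⟩ := h y
    refine ⟨k⁻¹, Subgroup.inv_mem _ hk, ?_⟩
    have := s.inv
    rwa [← hy, pai] at this

theorem selfSimilar : SelfSimilar GG := by
  refine ⟨fun g hg => treeAut_of_mem hg, fun g hg x => ?_⟩
  obtain ⟨y, hy⟩ := len_one_eq (treeAut_of_mem hg) x
  obtain ⟨h, hh, s⟩ := section_of_mem hg x
  refine ⟨y, h, hh, fun w => ?_⟩
  have := s w
  rwa [hy] at this

theorem bounded : BoundedAct GG := by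
  intro g hg
  induction hg using GG_induction with
  | ha σ =>
    refine ⟨1, fun n => ?_⟩
    refine le_trans (Set.encard_le_encard (t := {[]}) ?_) (by simp)
    rintro v ⟨_, hv⟩
    by_contra h
    exact hv (aP_section σ h)
  | hb σ =>
    refine ⟨2, fun n => ?_⟩
    have key : ∀ v : List A4, ¬ IsSection (bP σ) v 1 →
        v = List.replicate v.length 0 ∨ v = List.replicate (v.length - 1) 0 ++ [1] := by
      intro v
      induction v with
      | nil => intro _; exact Or.inl rfl
      | cons x v ih =>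
        intro hv
        by_cases h0 : x = 0
        · subst h0
          have hv' : ¬ IsSection (bP σ) v 1 := fun h => hv (fun w => by
            have := h w
            simp only [bP_apply] at this
            simp only [List.cons_append, bP_apply, bF, if_true, this])
          rcases ih hv' with h | h
          · left
            rw [List.length_cons, List.replicate_succ, ← h]
          · by_cases hvn : v = []
            · left; subst hvn; rfl
            · right
              have hpos : 0 < v.length := List.length_pos_iff.2 hvn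
              rw [List.length_cons, show v.length + 1 - 1 = (v.length - 1) + 1 by omega,
                List.replicate_succ, List.cons_append, ← h]
        · by_cases h1 : x = 1
          · subst h1
            by_cases hvn : v = []
            · right; subst hvn; rfl
            · exact absurd (IsSection.trans (v := [1]) (w := v) (bP_section_one σ)
                (aP_section σ hvn)) hv
          · exfalso
            apply hv
            intro w
            simp [bP_apply, bF, h0, h1]
    refine le_trans (Set.encard_le_encard (t := {List.replicate n 0, List.replicate (n - 1) 0 ++ [1]}) ?_)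
      ((Set.encard_insert_le _ _).trans (by rw [Set.encard_singleton]; norm_num))
    rintro v ⟨rfl, hv⟩
    rcases key v hv with h | h
    · left; exact h
    · right; exact h
  | hmul x y hx hy h1 h2 =>
    obtain ⟨C1, h1⟩ := h1
    obtain ⟨C2, h2⟩ := h2
    refine ⟨C1 + C2, fun n => ?_⟩
    have hty := treeAut_of_mem hy
    have hsub : ({v : List A4 | v.length = n ∧ ¬ IsSection (x * y) v 1} : Set (List A4)) ⊆
        (y⁻¹ : Perm (List A4)) '' {v : List A4 | v.length = n ∧ ¬ IsSection x v 1} ∪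
          {v : List A4 | v.length = n ∧ ¬ IsSection y v 1} := by
      rintro v ⟨hn, hv⟩
      by_cases hy1 : IsSection y v 1
      · left
        refine ⟨y v, ⟨by rw [hty.1]; exact hn, fun hx1 => hv ?_⟩, by rw [pia]⟩
        have := hy1.mul hx1
        rwa [one_mul] at this
      · exact Or.inr ⟨hn, hy1⟩
    refine (Set.encard_le_encard hsub).trans ((Set.encard_union_le _ _).trans ?_)
    rw [Function.Injective.encard_image (y⁻¹).injective]
    push_cast
    exact add_le_add (h1 n) (h2 n)
  | hinv x hx h =>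
    obtain ⟨C, h⟩ := h
    refine ⟨C, fun n => ?_⟩
    have htx := treeAut_of_mem hx
    have hsub : ({v : List A4 | v.length = n ∧ ¬ IsSection x⁻¹ v 1} : Set (List A4)) ⊆
        x '' {v : List A4 | v.length = n ∧ ¬ IsSection x v 1} := by
      rintro v ⟨hn, hv⟩
      refine ⟨x⁻¹ v, ⟨by rw [htx.inv.1]; exact hn, fun h1 => hv ?_⟩, by rw [pai]⟩
      have := h1.inv
      rwa [pai, inv_one] at this
    refine (Set.encard_le_encard hsub).trans ?_
    rw [Function.Injective.encard_image x.injective]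
    exact h n

/-- The word `0^n 1`. -/
def ex (n : ℕ) : List A4 := List.replicate n 0 ++ [1]

theorem bF_ex (σ : Perm A4) (n : ℕ) (w : List A4) : bF σ (ex n ++ w) = ex n ++ aF σ w := by
  induction n with
  | zero => simp [ex, bF]
  | succ n ih =>
    simp only [ex, List.replicate_succ, List.cons_append, bF, if_true] at ih ⊢
    rw [ih]

theorem bP_ex_apply (σ : Perm A4) (n : ℕ) (z : A4) : bP σ (ex n ++ [z]) = ex n ++ [σ z] := by
  rw [bP_apply, bF_ex]; rfl

theorem bP_ex_section (σ : Perm A4) (n : ℕ) (z : A4) : IsSection (bP σ) (ex n ++ [z]) 1 := fun w => by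
  rw [bP_apply, List.append_assoc, bF_ex, bP_ex_apply]
  simp [aF]

theorem ex_length (n : ℕ) : (ex n).length = n + 1 := by simp [ex]

/-- Transitivity on levels with trivial sections. -/
theorem trans_triv (n : ℕ) : ∀ u v : List A4, u.length = n + 1 → v.length = n + 1 →
    ∃ g ∈ GG, g u = v ∧ IsSection g u 1 := by
  induction n with
  | zero =>
    intro u v hu hv
    obtain ⟨x, rfl⟩ := List.length_eq_one_iff.1 hu
    obtain ⟨y, rfl⟩ := List.length_eq_one_iff.1 hv
    exact ⟨aP (swap x y), aP_mem _, by simp [aP_apply, aF], aP_section _ (by simp)⟩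
  | succ n ih =>
    intro u v hu hv
    obtain ⟨u', z, rfl⟩ : ∃ u' z, u = u' ++ [z] := by
      rcases List.eq_nil_or_concat u with rfl | h
      · simp at hu
      · simpa using h
    obtain ⟨v', y, rfl⟩ : ∃ u' z, v = u' ++ [z] := by
      rcases List.eq_nil_or_concat v with rfl | h
      · simp at hv
      · simpa using h
    simp only [List.length_append, List.length_singleton] at hu hv
    obtain ⟨g1, hg1, e1, s1⟩ := ih u' (ex n) (by omega) (ex_length n)
    obtain ⟨g2, hg2, e2, s2⟩ := ih (ex n) v' (ex_length n) (by omega)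
    have t1 : g1 (u' ++ [z]) = ex n ++ [z] := by rw [s1, e1]; rfl
    have t2 : bP (swap z y) (ex n ++ [z]) = ex n ++ [y] := by rw [bP_ex_apply, swap_apply_left]
    have t3 : g2 (ex n ++ [y]) = v' ++ [y] := by rw [s2, e2]; rfl
    have triv : ∀ v : List A4, IsSection (1 : Perm (List A4)) v 1 := fun v w => rfl
    refine ⟨g2 * (bP (swap z y) * g1), Subgroup.mul_mem _ hg2 (Subgroup.mul_mem _ (bP_mem _) hg1),
      ?_, ?_⟩
    · rw [Perm.mul_apply, Perm.mul_apply, t1, t2, t3]
    · have s1' : IsSection g1 (u' ++ [z]) 1 := s1.trans (triv _)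
      have s2' : IsSection (bP (swap z y)) (g1 (u' ++ [z])) 1 := by rw [t1]; exact bP_ex_section _ _ _
      have s3 := s1'.mul s2'
      have s4 : IsSection g2 ((bP (swap z y) * g1) (u' ++ [z])) 1 := by
        rw [Perm.mul_apply, t1, t2]; exact s2.trans (triv _)
      have s5 := s3.mul s4
      simpa using s5

theorem levelTransitive : LevelTransitive GG := by
  intro u v h
  rcases Nat.eq_zero_or_pos u.length with h0 | h0
  · have h1 := List.eq_nil_of_length_eq_zero h0
    have h2 := List.eq_nil_of_length_eq_zero (h ▸ h0)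
    subst h1 h2
    exact ⟨1, Subgroup.one_mem _, rfl⟩
  · obtain ⟨g, hg, e, _⟩ := trans_triv (u.length - 1) u v (by omega) (by omega)
    exact ⟨g, hg, e⟩

theorem selfReplicating : SelfReplicating GG := by
  have key0 : ∀ h ∈ GG, ∃ g ∈ GG, ∀ w, g (0 :: w) = 0 :: h w := by
    intro h hh
    induction hh using GG_induction with
    | ha σ =>
      refine ⟨aP (swap 0 1) * (bP σ * aP (swap 0 1)),
        Subgroup.mul_mem _ (aP_mem _) (Subgroup.mul_mem _ (bP_mem _) (aP_mem _)), fun w => ?_⟩
      simp [Perm.mul_apply, aP_apply, bP_apply, aF, bF]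
    | hb σ => exact ⟨bP σ, bP_mem _, fun w => by simp [bP_apply, bF]⟩
    | hmul x y hx hy h1 h2 =>
      obtain ⟨g1, hg1, e1⟩ := h1
      obtain ⟨g2, hg2, e2⟩ := h2
      exact ⟨g1 * g2, Subgroup.mul_mem _ hg1 hg2, fun w => by
        rw [Perm.mul_apply, e2, e1, Perm.mul_apply]⟩
    | hinv x hx h =>
      obtain ⟨g, hg, e⟩ := h
      refine ⟨g⁻¹, Subgroup.inv_mem _ hg, fun w => ?_⟩
      rw [Perm.inv_eq_iff_eq, e, pai]
  intro x h hh
  obtain ⟨g, hg, e⟩ := key0 h hh
  refine ⟨aP (swap x 0) * (g * aP (swap x 0)),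
    Subgroup.mul_mem _ (aP_mem _) (Subgroup.mul_mem _ hg (aP_mem _)), fun w => ?_⟩
  have e1 : aP (swap x 0) (x :: w) = 0 :: w := by simp [aP_apply, aF]
  have e2 : ∀ w, aP (swap x 0) (0 :: w) = x :: w := fun w => by simp [aP_apply, aF]
  rw [Perm.mul_apply, Perm.mul_apply, e1, e, e2]

end SchreierMSO
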