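import Mathlib
import Pool.Agent.H669R3.SMGroup

/-!
The action on the boundary, orbits, and compactness for tilings.
-/

namespace SchreierMSO

open Equiv

/-- `ξ = 0^k 1 ...`. -/
def Idx (ξ : ℕ → A4) (k : ℕ) : Prop := (∀ i < k, ξ i = 0) ∧ ξ k = 1

theorem pre_idx {ξ : ℕ → A4} {k : ℕ} (h : Idx ξ k) : pre ξ (k + 1) = ex k := by
  have h0 : pre ξ k = List.replicate k 0 := by
    rw [List.eq_replicate_iff]
    refine ⟨pre_length _ _, fun b hb => ?_⟩
    simp only [pre, List.mem_map, List.mem_range] at hb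
    obtain ⟨i, hi, rfl⟩ := hb
    exact h.1 i hi
  rw [pre_succ, h0, h.2, ex]

theorem pre_append (ξ : ℕ → A4) {m n : ℕ} (h : m ≤ n) : ∃ w, pre ξ n = pre ξ m ++ w := by
  obtain ⟨w, hw⟩ := pre_prefix ξ h
  exact ⟨w, hw.symm⟩

theorem section_append {g : Perm (List A4)} {u : List A4} (h : IsSection g u 1) (w : List A4) :
    IsSection g (u ++ w) 1 := h.trans (fun _ => rfl)

theorem moves_a (σ : Perm A4) (ξ : ℕ → A4) :
    Moves (aP σ) ξ (Function.update ξ 0 (σ (ξ 0))) := by
  apply moves_of_section (aP_treeAut σ) (m := 1)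
  · exact aP_section σ (by simp [pre])
  · simp [pre, aP_apply, aF]
  · intro n hn
    rw [Function.update_of_ne (by omega)]

theorem moves_b_idx (σ : Perm A4) {ξ : ℕ → A4} {k : ℕ} (h : Idx ξ k) :
    Moves (bP σ) ξ (Function.update ξ (k + 1) (σ (ξ (k + 1)))) := by
  have h1 : pre ξ (k + 2) = ex k ++ [ξ (k + 1)] := by rw [pre_succ, pre_idx h]
  apply moves_of_section (bP_treeAut σ) (m := k + 2)
  · rw [h1]; exact bP_ex_section _ _ _
  · rw [h1, bP_ex_apply, pre_succ, Function.update_self]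
    congr 1
    rw [← pre_idx h, pre_eq_iff]
    intro i hi
    rw [Function.update_of_ne (by omega)]
  · intro n hn
    rw [Function.update_of_ne (by omega)]

theorem moves_b_none (σ : Perm A4) {ξ : ℕ → A4} (h : ∀ k, ¬ Idx ξ k) : Moves (bP σ) ξ ξ := by
  intro n
  induction n generalizing ξ with
  | zero => rfl
  | succ n ih =>
    rw [pre_succ', bP_apply]
    simp only [bF]
    by_cases h0 : ξ 0 = 0
    · have : ∀ k, ¬ Idx (fun i => ξ (i + 1)) k := by
        intro k hk
        apply h (k + 1)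
        refine ⟨fun i hi => ?_, hk.2⟩
        rcases i with _ | i
        · exact h0
        · exact hk.1 i (by omega)
      have h2 := ih this
      rw [bP_apply] at h2
      rw [if_pos h0, h2, h0]
    · by_cases h1 : ξ 0 = 1
      · exact absurd ⟨fun i hi => absurd hi (Nat.not_lt_zero i), h1⟩ (h 0)
      · rw [if_neg h0, if_neg h1]

/-- Two sequences agree eventually. -/
def Cof (ξ η : ℕ → A4) : Prop := ∃ N, ∀ n, N ≤ n → ξ n = η n

theorem Cof.refl (ξ : ℕ → A4) : Cof ξ ξ := ⟨0, fun _ _ => rfl⟩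
theorem Cof.symm {ξ η : ℕ → A4} (h : Cof ξ η) : Cof η ξ := by
  obtain ⟨N, h⟩ := h
  exact ⟨N, fun n hn => (h n hn).symm⟩
theorem Cof.trans {ξ η ζ : ℕ → A4} (h : Cof ξ η) (h' : Cof η ζ) : Cof ξ ζ := by
  obtain ⟨N, h⟩ := h
  obtain ⟨M, h'⟩ := h'
  exact ⟨max N M, fun n hn => (h n (by omega)).trans (h' n (by omega))⟩

theorem cof_update (ξ : ℕ → A4) (k : ℕ) (x : A4) : Cof ξ (Function.update ξ k x) :=
  ⟨k + 1, fun n hn => by rw [Function.update_of_ne (by omega)]⟩

theorem cof_of_moves {g : Perm (List A4)} (hg : g ∈ GG) : ∀ {ξ η : ℕ → A4}, Moves g ξ η → Cof ξ η := by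
  induction hg using GG_induction with
  | ha σ =>
    intro ξ η h
    rw [moves_unique h (moves_a σ ξ)]
    exact cof_update _ _ _
  | hb σ =>
    intro ξ η h
    by_cases hk : ∃ k, Idx ξ k
    · obtain ⟨k, hk⟩ := hk
      rw [moves_unique h (moves_b_idx σ hk)]
      exact cof_update _ _ _
    · push Not at hk
      rw [moves_unique h (moves_b_none σ hk)]
      exact Cof.refl _
  | hmul x y hx hy h1 h2 =>
    intro ξ η h
    obtain ⟨ζ, hζ⟩ := moves_exists (treeAut_of_mem hy) ξ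
    obtain ⟨η', hη⟩ := moves_exists (treeAut_of_mem hx) ζ
    rw [moves_unique h (hζ.mul hη)]
    exact (h2 hζ).trans (h1 hη)
  | hinv x hx h0 =>
    intro ξ η h
    have := h.inv
    rw [inv_inv] at this
    exact (h0 this).symm

theorem mem_orb_iff {ξ η : ℕ → A4} : η ∈ orb GG ξ ↔ Cof ξ η := by
  constructor
  · rintro ⟨g, hg, h⟩
    exact cof_of_moves hg h
  · rintro ⟨N, h⟩
    obtain ⟨g, hg, e, s⟩ := trans_triv N (pre ξ (N + 1)) (pre η (N + 1)) (pre_length _ _) (pre_length _ _)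
    exact ⟨g, hg, moves_of_section (treeAut_of_mem hg) s e (fun n hn => h n (by omega))⟩

theorem gen_mem (i : Fin 6) : gen i ∈ GG := Subgroup.subset_closure ⟨i, rfl⟩

theorem gen_a (j : Fin 3) : gen (j.castAdd 3) = aP (ρ j) := by fin_cases j <;> rfl

theorem gen_b (j : Fin 3) : gen (j.natAdd 3) = bP (ρ j) := by fin_cases j <;> rfl

theorem gen_cases (i : Fin 6) : (∃ j : Fin 3, i = j.castAdd 3) ∨ (∃ j : Fin 3, i = j.natAdd 3) := by
  revert i
  decide

/-- The constant sequence 0. -/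
def Z : ℕ → A4 := fun _ => 0

theorem moves_b_Z (σ : Perm A4) : Moves (bP σ) Z Z := by
  apply moves_b_none
  intro k hk
  exact absurd hk.2 (by simp [Z])

theorem bP_section_rep (σ : Perm A4) (k : ℕ) : IsSection (bP σ) (List.replicate k 0) (bP σ) := by
  induction k with
  | zero => intro w; rfl
  | succ k ih =>
    rw [List.replicate_succ]
    exact (bP_section_zero σ).trans ih

theorem pre_zeros {ξ : ℕ → A4} {k : ℕ} (h : ∀ i < k, ξ i = 0) : pre ξ k = List.replicate k 0 := by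
  rw [List.eq_replicate_iff]
  refine ⟨pre_length _ _, fun b hb => ?_⟩
  simp only [pre, List.mem_map, List.mem_range] at hb
  obtain ⟨i, hi, rfl⟩ := hb
  exact h i hi

theorem section_eventually {v : ℕ → A4} (hv : v ≠ Z) :
    ∃ M, ∀ m, M ≤ m → ∀ σ : Perm A4, IsSection (bP σ) (pre v m) 1 := by
  have hex : ∃ k, v k ≠ 0 := by
    by_contra h
    push Not at h
    exact hv (funext h)
  classical
  let k := Nat.find hex
  have hk : v k ≠ 0 := Nat.find_spec hex
  have hlt : ∀ i < k, v i = 0 := fun i hi => by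
    by_contra h
    exact Nat.find_min hex hi h
  refine ⟨k + 2, fun m hm σ => ?_⟩
  obtain ⟨w, hw⟩ := pre_append v hm
  rw [hw]
  apply section_append
  by_cases h1 : v k = 1
  · rw [pre_succ, pre_idx ⟨hlt, h1⟩]
    exact bP_ex_section _ _ _
  · rw [pre_succ]
    apply section_append
    rw [pre_succ, pre_zeros hlt]
    exact (bP_section_rep σ k).trans (bP_section_other σ hk h1)

/-- Partial tilings of the words of length `m`. -/
def PT (I : DominoInput) (m : ℕ) (θ : List A4 → ℕ) : Prop :=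
  (∀ u, u.length = m → θ u < I.1) ∧
    ∀ (i : Fin 6) (u : List A4), u.length = m → IsSection (gen i) u 1 →
      ((i : ℕ), θ u, θ (gen i u)) ∈ I.2

/-- Tileability phrased with sets. -/
def Tile' (V : Set (ℕ → A4)) (I : DominoInput) : Prop :=
  ∃ τ : (ℕ → A4) → ℕ, (∀ v ∈ V, τ v < I.1) ∧
    ∀ (i : Fin 6), ∀ v ∈ V, ∀ v' ∈ V, Moves (gen i) v v' → ((i : ℕ), τ v, τ v') ∈ I.2

theorem tileable_iff (ξ : ℕ → A4) (I : DominoInput) :
    Tileable (schreier GG gen ξ) I ↔ Tile' (orb GG ξ) I := by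
  constructor
  · rintro ⟨τ, h1, h2⟩
    classical
    refine ⟨fun v => if h : v ∈ orb GG ξ then τ ⟨v, h⟩ else 0, fun v hv => ?_, fun i v hv v' hv' h => ?_⟩
    · simp only [hv, dif_pos]; exact h1 _
    · simp only [hv, hv', dif_pos]; exact h2 i ⟨v, hv⟩ ⟨v', hv'⟩ h
  · rintro ⟨τ, h1, h2⟩
    exact ⟨fun v => τ v, fun v => h1 v v.2, fun i v v' h => h2 i v v.2 v' v'.2 h⟩

/-- The loop condition at the word `0^m`. -/
def Loops (I : DominoInput) (p : ℕ) : Prop := ∀ j : Fin 3, (3 + (j : ℕ), p, p) ∈ I.2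

theorem pt_of_tile {ξ : ℕ → A4} {I : DominoInput} (h : Tile' (orb GG ξ) I) (m : ℕ) :
    ∃ θ, PT I (m + 1) θ ∧ (ξ = Z → Loops I (θ (List.replicate (m + 1) 0))) := by
  obtain ⟨τ, h1, h2⟩ := h
  have hmem : ∀ u : List A4, u.length = m + 1 → cat u (fun n => ξ (n + (m + 1))) ∈ orb GG ξ := by
    intro u hu
    rw [mem_orb_iff]
    refine ⟨m + 1, fun n hn => ?_⟩
    rw [cat_ge _ _ (by omega)]
    congr 1
    omega
  refine ⟨fun u => τ (cat u (fun n => ξ (n + (m + 1)))), ⟨fun u hu => h1 _ (hmem u hu), ?_⟩, ?_⟩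
  · intro i u hu hs
    have hl : (gen i u).length = m + 1 := by rw [(treeAut_of_mem (gen_mem i)).1, hu]
    apply h2 i _ (hmem u hu) _ (hmem _ hl)
    apply moves_of_section (treeAut_of_mem (gen_mem i)) (m := m + 1)
    · rw [← hu, pre_cat_self]; exact hs
    · conv_lhs => rw [← hu, pre_cat_self]
      conv_rhs => rw [← hl, pre_cat_self]
    · intro n hn
      rw [cat_ge _ _ (by omega), cat_ge _ _ (by omega), hu, hl]
  · rintro rfl j
    have hz : cat (List.replicate (m + 1) 0) (fun n => Z (n + (m + 1))) = Z := by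
      funext n
      by_cases hn : n < m + 1
      · rw [cat_lt _ _ (by simpa using hn)]
        simp [Z]
      · rw [cat_ge _ _ (by simpa using hn)]
        simp [Z]
    have hZ : Z ∈ orb GG Z := mem_orb_iff.2 (Cof.refl _)
    have := h2 (j.natAdd 3) Z hZ Z hZ (by rw [gen_b]; exact moves_b_Z _)
    simp only [hz]
    exact this

theorem exists_ulim {n : ℕ} (f : ℕ → ℕ) (hf : ∀ m, f m < n) :
    ∃ p < n, ∀ᶠ m in (Filter.hyperfilter ℕ : Filter ℕ), f m = p := by
  obtain ⟨a, ha⟩ := Ultrafilter.eq_pure_of_finite ((Filter.hyperfilter ℕ).map (fun m => (⟨f m, hf m⟩ : Fin n)))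
  refine ⟨a, a.2, ?_⟩
  have h1 : ({a} : Set (Fin n)) ∈ (Filter.hyperfilter ℕ).map (fun m => (⟨f m, hf m⟩ : Fin n)) := by
    rw [ha]; exact rfl
  rw [Ultrafilter.mem_map] at h1
  refine Filter.mem_of_superset h1 ?_
  intro m hm
  exact congrArg Fin.val hm

theorem tile_of_pt {ξ : ℕ → A4} {I : DominoInput}
    (h : ∀ m, ∃ θ, PT I (m + 1) θ ∧ (Cof ξ Z → Loops I (θ (List.replicate (m + 1) 0)))) :
    Tile' (orb GG ξ) I := by
  choose θ hθ hL using h
  have hlim := fun v : ℕ → A4 => exists_ulim (n := I.1) (fun m => θ m (pre v (m + 1)))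
    (fun m => (hθ m).1 _ (pre_length _ _))
  choose τ hτ hev using hlim
  refine ⟨τ, fun v _ => hτ v, fun i v hv v' hv' hmv => ?_⟩
  have hlarge : ∀ M : ℕ, ∀ᶠ m in (Filter.hyperfilter ℕ : Filter ℕ), M ≤ m := fun M => by
    have : ∀ᶠ m in Filter.atTop, M ≤ m := Filter.eventually_ge_atTop M
    rw [← Nat.cofinite_eq_atTop] at this
    exact Filter.hyperfilter_le_cofinite this
  by_cases hs : ∃ M, ∀ m, M ≤ m → IsSection (gen i) (pre v (m + 1)) 1
  · obtain ⟨M, hM⟩ := hs
    obtain ⟨m, hm1, hm2, hm3⟩ := ((hlarge M).and ((hev v).and (hev v'))).exists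
    have := (hθ m).2 i (pre v (m + 1)) (pre_length _ _) (hM m hm1)
    rw [hmv (m + 1)] at this
    rwa [hm2, hm3] at this
  · rcases gen_cases i with ⟨j, rfl⟩ | ⟨j, rfl⟩
    · exfalso
      apply hs
      refine ⟨0, fun m _ => ?_⟩
      rw [gen_a]
      apply aP_section
      intro h0
      have := congrArg List.length h0
      rw [pre_length] at this
      simp at this
    · by_cases hvZ : v = Z
      · subst hvZ
        rw [gen_b] at hmv
        have hv'Z : v' = Z := moves_unique hmv (moves_b_Z _)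
        subst hv'Z
        obtain ⟨m, hm⟩ := (hev Z).exists
        have hz : pre Z (m + 1) = List.replicate (m + 1) 0 := pre_zeros (fun _ _ => rfl)
        have := hL m (mem_orb_iff.1 hv) j
        simp only [hz] at hm
        rw [hm] at this
        exact this
      · exfalso
        apply hs
        obtain ⟨M, hM⟩ := section_eventually hvZ
        refine ⟨M, fun m hm => ?_⟩
        rw [gen_b]
        exact hM (m + 1) (by omega) _

theorem orb_eq_of_cof {ξ η : ℕ → A4} (h : Cof ξ η) : orb GG ξ = orb GG η := by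
  ext v
  rw [mem_orb_iff, mem_orb_iff]
  exact ⟨fun h1 => h.symm.trans h1, fun h1 => h.trans h1⟩

/-- Main semantic statement, sequences not cofinal with 0. -/
theorem tileable_generic {ξ : ℕ → A4} (hξ : ¬ Cof ξ Z) (I : DominoInput) :
    Tileable (schreier GG gen ξ) I ↔ ∀ m, ∃ θ, PT I (m + 1) θ := by
  rw [tileable_iff]
  constructor
  · intro h m
    obtain ⟨θ, h1, _⟩ := pt_of_tile h m
    exact ⟨θ, h1⟩
  · intro h
    apply tile_of_pt
    intro m
    obtain ⟨θ, h1⟩ := h m
    exact ⟨θ, h1, fun h => absurd h hξ⟩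

/-- Main semantic statement, sequences cofinal with 0. -/
theorem tileable_singular {ξ : ℕ → A4} (hξ : Cof ξ Z) (I : DominoInput) :
    Tileable (schreier GG gen ξ) I ↔
      ∀ m, ∃ θ, PT I (m + 1) θ ∧ Loops I (θ (List.replicate (m + 1) 0)) := by
  rw [tileable_iff, orb_eq_of_cof hξ]
  constructor
  · intro h m
    obtain ⟨θ, h1, h2⟩ := pt_of_tile h m
    exact ⟨θ, h1, h2 rfl⟩
  · intro h
    apply tile_of_pt
    intro m
    obtain ⟨θ, h1, h2⟩ := h m
    exact ⟨θ, h1, fun _ => h2⟩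

end SchreierMSO
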