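import Mathlib
import Pool.Agent.H669R3.SMBound

/-!
The domino problem is decidable on every Schreier graph of the group.
-/

namespace SchreierMSO

open Equiv

theorem section_unique {g h h' : Perm (List A4)} {v : List A4} (h1 : IsSection g v h)
    (h2 : IsSection g v h') : h = h' := by
  ext1 w
  have := (h1 w).symm.trans (h2 w)
  exact List.append_cancel_left this

theorem rho_one_ne (j : Fin 3) : ρ j 1 ≠ 1 := by revert j; decide

theorem aP_rho_ne (j : Fin 3) : aP (ρ j) ≠ 1 := by
  intro h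
  have : aP (ρ j) [1] = [1] := by rw [h]; rfl
  rw [aP_apply, aF] at this
  exact rho_one_ne j (by simpa using this)

theorem bP_rho_ne (j : Fin 3) : bP (ρ j) ≠ 1 := by
  intro h
  have : bP (ρ j) [1, 1] = [1, 1] := by rw [h]; rfl
  rw [bP_apply] at this
  simp only [bF, aF] at this
  exact rho_one_ne j (by simpa using this)

theorem bP_ex_section_self (σ : Perm A4) (k : ℕ) : IsSection (bP σ) (ex k) (aP σ) := by
  have h := (bP_section_rep σ k).trans (bP_section_one σ)
  exact h

theorem not_section_rep (j : Fin 3) (k : ℕ) : ¬ IsSection (bP (ρ j)) (List.replicate k 0) 1 :=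
  fun h => bP_rho_ne j (section_unique (bP_section_rep _ k) h)

theorem not_section_ex (j : Fin 3) (k : ℕ) : ¬ IsSection (bP (ρ j)) (ex k) 1 :=
  fun h => aP_rho_ne j (section_unique (bP_ex_section_self _ k) h)

theorem section_bP_cases (σ : Perm A4) (v : List A4) : ¬ IsSection (bP σ) v 1 →
    v = List.replicate v.length 0 ∨ ∃ k, v = ex k := by
  induction v with
  | nil => intro _; exact Or.inl rfl
  | cons x v ih =>
    intro hv
    by_cases h0 : x = 0
    · subst h0
      have hv' : ¬ IsSection (bP σ) v 1 := fun h => hv ((bP_section_zero σ).trans h)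
      rcases ih hv' with h | ⟨k, h⟩
      · left
        rw [List.length_cons, List.replicate_succ, ← h]
      · right
        exact ⟨k + 1, by rw [h]; rfl⟩
    · by_cases h1 : x = 1
      · subst h1
        by_cases hvn : v = []
        · right; exact ⟨0, by subst hvn; rfl⟩
        · exact absurd ((bP_section_one σ).trans (aP_section σ hvn)) hv
      · exact absurd (section_append (bP_section_other σ h0 h1) v) hv

theorem bP_other_apply (σ : Perm A4) (m : ℕ) {z : A4} (h0 : z ≠ 0) (h1 : z ≠ 1) :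
    bP σ (List.replicate m 0 ++ [z]) = List.replicate m 0 ++ [z] := by
  have e1 := bP_section_rep σ m [z]
  have e2 := bP_section_rep σ m []
  have e3 : bP σ [] = [] := rfl
  have e4 : bP σ [z] = [z] := by simp [bP_apply, bF, h0, h1]
  have e5 : bP σ (List.replicate m 0) = List.replicate m 0 := by
    clear e1 e2
    induction m with
    | zero => rfl
    | succ m ih =>
      rw [List.replicate_succ, bP_apply, bF, if_pos rfl, ← bP_apply, ih]
  rw [e1, e4, e5]

theorem bP_rep_apply (σ : Perm A4) (m : ℕ) :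
    bP σ (List.replicate m 0) = List.replicate m 0 := by
  induction m with
  | zero => rfl
  | succ m ih =>
    rw [List.replicate_succ, bP_apply, bF, if_pos rfl, ← bP_apply, ih]

theorem bP_other_section (σ : Perm A4) (m : ℕ) {z : A4} (h0 : z ≠ 0) (h1 : z ≠ 1) :
    IsSection (bP σ) (List.replicate m 0 ++ [z]) 1 :=
  (bP_section_rep σ m).trans (bP_section_other σ h0 h1)

theorem nil_of_mem {g : Perm (List A4)} (hg : g ∈ GG) : g [] = [] :=
  List.eq_nil_of_length_eq_zero ((treeAut_of_mem hg).1 [])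

/-- Splitting a partial tiling by the last letter. -/
theorem PT_succ (I : DominoInput) (m : ℕ) (θ : List A4 → ℕ) :
    PT I (m + 2) θ ↔ (∀ z : A4, PT I (m + 1) (fun u => θ (u ++ [z]))) ∧
      (∀ (j : Fin 3) (z : A4), (3 + (j : ℕ), θ (ex m ++ [z]), θ (ex m ++ [ρ j z])) ∈ I.2) ∧
      (∀ z : A4, z ≠ 0 → z ≠ 1 → Loops I (θ (List.replicate (m + 1) 0 ++ [z]))) := by
  constructor
  · rintro ⟨h1, h2⟩
    refine ⟨fun z => ⟨fun u hu => h1 _ (by simp [hu]), fun i u hu hs => ?_⟩, fun j z => ?_,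
      fun z h0 h1 j => ?_⟩
    · have := h2 i (u ++ [z]) (by simp [hu]) (section_append hs _)
      rw [hs] at this
      exact this
    · have := h2 (j.natAdd 3) (ex m ++ [z]) (by simp [ex_length]) (by rw [gen_b]; exact bP_ex_section _ _ _)
      rw [gen_b, bP_ex_apply] at this
      exact this
    · have := h2 (j.natAdd 3) (List.replicate (m + 1) 0 ++ [z]) (by simp)
        (by rw [gen_b]; exact bP_other_section _ _ h0 h1)
      rw [gen_b, bP_other_apply _ _ h0 h1] at this
      exact this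
  · rintro ⟨h1, h2, h3⟩
    have hsplit : ∀ u : List A4, u.length = m + 2 → ∃ u' z, u'.length = m + 1 ∧ u = u' ++ [z] := by
      intro u hu
      rcases List.eq_nil_or_concat u with rfl | ⟨u', z, rfl⟩
      · simp at hu
      · rw [List.concat_eq_append] at hu ⊢
        exact ⟨u', z, by simpa using hu, rfl⟩
    refine ⟨fun u hu => ?_, fun i u hu hs => ?_⟩
    · obtain ⟨u', z, hu', rfl⟩ := hsplit u hu
      exact (h1 z).1 u' hu'
    · obtain ⟨u', z, hu', rfl⟩ := hsplit u hu
      by_cases hs' : IsSection (gen i) u' 1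
      · have := (h1 z).2 i u' hu' hs'
        rw [hs']
        exact this
      · rcases gen_cases i with ⟨j, rfl⟩ | ⟨j, rfl⟩
        · exfalso
          apply hs'
          rw [gen_a]
          apply aP_section
          intro h0
          rw [h0] at hu'
          simp at hu'
        · rw [gen_b] at hs' hs ⊢
          rcases section_bP_cases _ _ hs' with h | ⟨k, rfl⟩
          · rw [hu'] at h
            subst h
            by_cases hz0 : z = 0
            · subst hz0
              rw [← List.replicate_succ'] at hs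
              exact absurd hs (not_section_rep _ _)
            · by_cases hz1 : z = 1
              · subst hz1
                exact absurd hs (not_section_ex _ _)
              · rw [bP_other_apply _ _ hz0 hz1]
                exact h3 z hz0 hz1 j
          · have : k = m := by
              rw [ex_length] at hu'
              omega
            subst this
            rw [bP_ex_apply]
            exact h2 j z

theorem PT_one (I : DominoInput) (θ : List A4 → ℕ) :
    PT I 1 θ ↔ (∀ z : A4, θ [z] < I.1) ∧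
      (∀ (j : Fin 3) (z : A4), ((j : ℕ), θ [z], θ [ρ j z]) ∈ I.2) ∧
      (∀ z : A4, z ≠ 0 → z ≠ 1 → Loops I (θ [z])) := by
  constructor
  · rintro ⟨h1, h2⟩
    refine ⟨fun z => h1 _ rfl, fun j z => ?_, fun z h0 h1 j => ?_⟩
    · have := h2 (j.castAdd 3) [z] rfl (by rw [gen_a]; exact aP_section _ (by simp))
      rw [gen_a] at this
      exact this
    · have := h2 (j.natAdd 3) [z] rfl (by rw [gen_b]; exact bP_section_other _ h0 h1)
      rw [gen_b, bP_apply] at this
      simp only [bF, h0, h1, if_false] at this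
      exact this
  · rintro ⟨h1, h2, h3⟩
    refine ⟨fun u hu => ?_, fun i u hu hs => ?_⟩
    · obtain ⟨z, rfl⟩ := List.length_eq_one_iff.1 hu
      exact h1 z
    · obtain ⟨z, rfl⟩ := List.length_eq_one_iff.1 hu
      rcases gen_cases i with ⟨j, rfl⟩ | ⟨j, rfl⟩
      · rw [gen_a]
        exact h2 j z
      · rw [gen_b] at hs ⊢
        by_cases hz0 : z = 0
        · subst hz0
          exact absurd hs (not_section_rep j 1)
        · by_cases hz1 : z = 1
          · subst hz1
            exact absurd hs (not_section_ex j 0)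
          · rw [bP_apply]
            simp only [bF, hz0, hz1, if_false]
            exact h3 z hz0 hz1 j

/-- The list of the constraints of a cell. -/
def cellT (o q0 q1 q2 q3 : ℕ) : List (ℕ × ℕ × ℕ) :=
  [(o, q0, q1), (o, q1, q0), (o, q2, q2), (o, q3, q3),
   (o + 1, q0, q0), (o + 1, q1, q2), (o + 1, q2, q1), (o + 1, q3, q3),
   (o + 2, q0, q0), (o + 2, q1, q3), (o + 2, q2, q2), (o + 2, q3, q1)]

/-- The list of the loop constraints. -/
def loopT (p : ℕ) : List (ℕ × ℕ × ℕ) := [(3, p, p), (4, p, p), (5, p, p)]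

theorem loopT_iff (I : DominoInput) (p : ℕ) : (∀ t ∈ loopT p, t ∈ I.2) ↔ Loops I p := by
  simp [loopT, Loops, Fin.forall_fin_succ]

theorem cellT_iff (R : List (ℕ × ℕ × ℕ)) (o : ℕ) (q : A4 → ℕ) :
    (∀ t ∈ cellT o (q 0) (q 1) (q 2) (q 3), t ∈ R) ↔
      ∀ (j : Fin 3) (z : A4), (o + (j : ℕ), q z, q (ρ j z)) ∈ R := by
  have r00 : ρ 0 0 = 1 := by decide
  have r01 : ρ 0 1 = 0 := by decide
  have r02 : ρ 0 2 = 2 := by decide
  have r03 : ρ 0 3 = 3 := by decide
  have r10 : ρ 1 0 = 0 := by decide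
  have r11 : ρ 1 1 = 2 := by decide
  have r12 : ρ 1 2 = 1 := by decide
  have r13 : ρ 1 3 = 3 := by decide
  have r20 : ρ 2 0 = 0 := by decide
  have r21 : ρ 2 1 = 3 := by decide
  have r22 : ρ 2 2 = 2 := by decide
  have r23 : ρ 2 3 = 1 := by decide
  constructor
  · intro h j z
    simp only [cellT, List.mem_cons, List.not_mem_nil, or_false, forall_eq_or_imp, forall_eq] at h
    obtain ⟨h1, h2, h3, h4, h5, h6, h7, h8, h9, h10, h11, h12⟩ := h
    fin_cases j <;> fin_cases z <;>
      simp only [Fin.mk_zero, Fin.mk_one, Fin.reduceFinMk, Fin.isValue,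
        r00, r01, r02, r03, r10, r11, r12, r13, r20, r21, r22, r23] <;> assumption
  · intro h
    simp only [cellT, List.mem_cons, List.not_mem_nil, or_false, forall_eq_or_imp, forall_eq]
    have a0 := fun z => h 0 z
    have a1 := fun z => h 1 z
    have a2 := fun z => h 2 z
    refine ⟨?_, ?_, ?_, ?_, ?_, ?_, ?_, ?_, ?_, ?_, ?_, ?_⟩
    · simpa [r00] using a0 0
    · simpa [r01] using a0 1
    · simpa [r02] using a0 2
    · simpa [r03] using a0 3
    · simpa [r10] using a1 0
    · simpa [r11] using a1 1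
    · simpa [r12] using a1 2
    · simpa [r13] using a1 3
    · simpa [r20] using a2 0
    · simpa [r21] using a2 1
    · simpa [r22] using a2 2
    · simpa [r23] using a2 3

/-- All quadruples of elements of a list. -/
def quad {α : Type} (L : List α) : List (α × α × α × α) :=
  L.flatMap fun a => L.flatMap fun b => L.flatMap fun c => L.map fun d => (a, b, c, d)

theorem mem_quad {α : Type} (L : List α) (a b c d : α) :
    (a, b, c, d) ∈ quad L ↔ a ∈ L ∧ b ∈ L ∧ c ∈ L ∧ d ∈ L := by
  simp only [quad, List.mem_flatMap, List.mem_map, Prod.mk.injEq]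
  constructor
  · rintro ⟨a', ha, b', hb, c', hc, d', hd, rfl, rfl, rfl, rfl⟩
    exact ⟨ha, hb, hc, hd⟩
  · rintro ⟨ha, hb, hc, hd⟩
    exact ⟨a, ha, b, hb, c, hc, d, hd, rfl, rfl, rfl, rfl⟩

/-- Constraints at level one. -/
def baseT (c : ℕ × ℕ × ℕ × ℕ) : List (ℕ × ℕ × ℕ) :=
  cellT 0 c.1 c.2.1 c.2.2.1 c.2.2.2 ++ (loopT c.2.2.1 ++ loopT c.2.2.2)

/-- Constraints when passing to the next level. -/
def stepT (x : (ℕ × ℕ) × (ℕ × ℕ) × (ℕ × ℕ) × (ℕ × ℕ)) : List (ℕ × ℕ × ℕ) :=
  cellT 3 x.1.2 x.2.1.2 x.2.2.1.2 x.2.2.2.2 ++ (loopT x.2.2.1.1 ++ loopT x.2.2.2.1)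

/-- The possible colours of the two exits at level `m + 1`. -/
def Θ (I : DominoInput) : ℕ → List (ℕ × ℕ)
  | 0 => (quad (List.range I.1)).filterMap
      fun c => if ∀ t ∈ baseT c, t ∈ I.2 then some (c.1, c.2.1) else none
  | m + 1 => (quad (Θ I m)).filterMap
      fun x => if ∀ t ∈ stepT x, t ∈ I.2 then some (x.1.1, x.2.1.1) else none

theorem mem_Θ_zero (I : DominoInput) (p q : ℕ) : (p, q) ∈ Θ I 0 ↔
    ∃ c : A4 → ℕ, (∀ z, c z < I.1) ∧ (∀ (j : Fin 3) (z : A4), ((j : ℕ), c z, c (ρ j z)) ∈ I.2) ∧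
      (∀ z : A4, z ≠ 0 → z ≠ 1 → Loops I (c z)) ∧ c 0 = p ∧ c 1 = q := by
  simp only [Θ, List.mem_filterMap]
  constructor
  · rintro ⟨⟨c0, c1, c2, c3⟩, hmem, h⟩
    rw [mem_quad] at hmem
    simp only [List.mem_range] at hmem
    split_ifs at h with hc
    simp only [Option.some.injEq, Prod.mk.injEq] at h
    obtain ⟨rfl, rfl⟩ := h
    simp only [baseT, List.mem_append] at hc
    let c : A4 → ℕ := ![c0, c1, c2, c3]
    refine ⟨c, ?_, ?_, ?_, rfl, rfl⟩
    · intro z
      fin_cases z
      · exact hmem.1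
      · exact hmem.2.1
      · exact hmem.2.2.1
      · exact hmem.2.2.2
    · have := (cellT_iff I.2 0 c).1 (fun t ht => hc t (Or.inl ht))
      intro j z
      simpa using this j z
    · intro z h0 h1
      rw [← loopT_iff]
      intro t ht
      apply hc
      right
      fin_cases z
      · exact absurd rfl h0
      · exact absurd rfl h1
      · exact Or.inl ht
      · exact Or.inr ht
  · rintro ⟨c, h1, h2, h3, rfl, rfl⟩
    refine ⟨(c 0, c 1, c 2, c 3), ?_, ?_⟩
    · rw [mem_quad]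
      simp only [List.mem_range]
      exact ⟨h1 0, h1 1, h1 2, h1 3⟩
    · rw [if_pos]
      intro t ht
      simp only [baseT, List.mem_append] at ht
      rcases ht with ht | ht | ht
      · exact (cellT_iff I.2 0 c).2 (fun j z => by simpa using h2 j z) t ht
      · exact (loopT_iff I (c 2)).2 (h3 2 (by decide) (by decide)) t ht
      · exact (loopT_iff I (c 3)).2 (h3 3 (by decide) (by decide)) t ht

theorem mem_Θ_succ (I : DominoInput) (m p q : ℕ) : (p, q) ∈ Θ I (m + 1) ↔
    ∃ x : A4 → ℕ × ℕ, (∀ z, x z ∈ Θ I m) ∧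
      (∀ (j : Fin 3) (z : A4), (3 + (j : ℕ), (x z).2, (x (ρ j z)).2) ∈ I.2) ∧
      (∀ z : A4, z ≠ 0 → z ≠ 1 → Loops I (x z).1) ∧ (x 0).1 = p ∧ (x 1).1 = q := by
  rw [Θ]
  simp only [List.mem_filterMap]
  constructor
  · rintro ⟨⟨c0, c1, c2, c3⟩, hmem, h⟩
    rw [mem_quad] at hmem
    split_ifs at h with hc
    simp only [Option.some.injEq, Prod.mk.injEq] at h
    obtain ⟨rfl, rfl⟩ := h
    simp only [stepT, List.mem_append] at hc
    let c : A4 → ℕ × ℕ := ![c0, c1, c2, c3]
    refine ⟨c, ?_, ?_, ?_, rfl, rfl⟩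
    · intro z
      fin_cases z
      · exact hmem.1
      · exact hmem.2.1
      · exact hmem.2.2.1
      · exact hmem.2.2.2
    · exact (cellT_iff I.2 3 (fun z => (c z).2)).1 (fun t ht => hc t (Or.inl ht))
    · intro z h0 h1
      rw [← loopT_iff]
      intro t ht
      apply hc
      right
      fin_cases z
      · exact absurd rfl h0
      · exact absurd rfl h1
      · exact Or.inl ht
      · exact Or.inr ht
  · rintro ⟨c, h1, h2, h3, rfl, rfl⟩
    refine ⟨(c 0, c 1, c 2, c 3), ?_, ?_⟩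
    · rw [mem_quad]
      exact ⟨h1 0, h1 1, h1 2, h1 3⟩
    · rw [if_pos]
      intro t ht
      simp only [stepT, List.mem_append] at ht
      rcases ht with ht | ht | ht
      · exact (cellT_iff I.2 3 (fun z => (c z).2)).2 h2 t ht
      · exact (loopT_iff I (c 2).1).2 (h3 2 (by decide) (by decide)) t ht
      · exact (loopT_iff I (c 3).1).2 (h3 3 (by decide) (by decide)) t ht

/-- Semantics of `Θ`. -/
theorem mem_Θ (I : DominoInput) (m : ℕ) : ∀ p q : ℕ, (p, q) ∈ Θ I m ↔
    ∃ θ, PT I (m + 1) θ ∧ θ (List.replicate (m + 1) 0) = p ∧ θ (ex m) = q := by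
  induction m with
  | zero =>
    intro p q
    rw [mem_Θ_zero]
    constructor
    · rintro ⟨c, h1, h2, h3, rfl, rfl⟩
      refine ⟨fun u => c (u.headD 0), (PT_one I _).2 ⟨h1, h2, h3⟩, rfl, rfl⟩
    · rintro ⟨θ, h, rfl, rfl⟩
      obtain ⟨h1, h2, h3⟩ := (PT_one I _).1 h
      exact ⟨fun z => θ [z], h1, h2, h3, rfl, rfl⟩
  | succ m ih =>
    intro p q
    rw [mem_Θ_succ]
    constructor
    · rintro ⟨x, h1, h2, h3, rfl, rfl⟩
      have h4 := fun z => (ih (x z).1 (x z).2).1 (h1 z)
      choose θ hθ e1 e2 using h4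
      let Θ' : List A4 → ℕ := fun u => θ (u.getLastD 0) u.dropLast
      have hΘ' : ∀ u z, Θ' (u ++ [z]) = θ z u := by
        intro u z
        simp only [Θ', List.getLastD_concat, List.dropLast_concat]
      refine ⟨Θ', (PT_succ I m _).2 ⟨?_, ?_, ?_⟩, ?_, ?_⟩
      · intro z
        simp only [hΘ']
        exact hθ z
      · intro j z
        rw [hΘ', hΘ', e2, e2]
        exact h2 j z
      · intro z h0 h1
        rw [hΘ', e1]
        exact h3 z h0 h1
      · rw [List.replicate_succ', hΘ', e1]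
      · rw [ex, hΘ', e1]
    · rintro ⟨θ, h, rfl, rfl⟩
      obtain ⟨h1, h2, h3⟩ := (PT_succ I m _).1 h
      refine ⟨fun z => (θ (List.replicate (m + 1) 0 ++ [z]), θ (ex m ++ [z])), ?_, h2, h3, ?_, ?_⟩
      · intro z
        exact (ih _ _).2 ⟨_, h1 z, rfl, rfl⟩
      · simp only [← List.replicate_succ']
      · rfl

theorem Θ_bound (I : DominoInput) (m : ℕ) {x : ℕ × ℕ} (hx : x ∈ Θ I m) : x.1 < I.1 ∧ x.2 < I.1 := by
  obtain ⟨p, q⟩ := x
  rw [mem_Θ] at hx
  obtain ⟨θ, h, rfl, rfl⟩ := hx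
  exact ⟨h.1 _ (by simp), h.1 _ (ex_length _)⟩

theorem Θ_congr (I : DominoInput) {m m' : ℕ} (h : ∀ x, x ∈ Θ I m ↔ x ∈ Θ I m') :
    ∀ x, x ∈ Θ I (m + 1) ↔ x ∈ Θ I (m' + 1) := by
  rintro ⟨p, q⟩
  rw [mem_Θ_succ, mem_Θ_succ]
  simp only [h]

/-- If a property of the sets holds up to the bound then it holds always. -/
theorem Θ_periodic (I : DominoInput) {P : List (ℕ × ℕ) → Prop}
    (hP : ∀ L L' : List (ℕ × ℕ), (∀ x, x ∈ L ↔ x ∈ L') → P L → P L')
    (h : ∀ m < 2 ^ (I.1 * I.1) + 1, P (Θ I m)) : ∀ m, P (Θ I m) := by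
  classical
  have hmaps : ∀ m ∈ Finset.range (2 ^ (I.1 * I.1) + 1), (Θ I m).toFinset ∈
      (Finset.range I.1 ×ˢ Finset.range I.1).powerset := by
    intro m _
    rw [Finset.mem_powerset]
    intro x hx
    rw [List.mem_toFinset] at hx
    rw [Finset.mem_product, Finset.mem_range, Finset.mem_range]
    exact Θ_bound I m hx
  have hcard : ((Finset.range I.1 ×ˢ Finset.range I.1).powerset).card <
      (Finset.range (2 ^ (I.1 * I.1) + 1)).card := by
    rw [Finset.card_powerset, Finset.card_product, Finset.card_range, Finset.card_range]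
    omega
  obtain ⟨i', hi', j', hj', hne, heq⟩ := Finset.exists_ne_map_eq_of_card_lt_of_maps_to hcard hmaps
  obtain ⟨i, j, hij, hj, he⟩ : ∃ i j, i < j ∧ j < 2 ^ (I.1 * I.1) + 1 ∧
      (Θ I i).toFinset = (Θ I j).toFinset := by
    rw [Finset.mem_range] at hi' hj'
    rcases Nat.lt_or_gt_of_ne hne with h | h
    · exact ⟨i', j', h, hj', heq⟩
    · exact ⟨j', i', h, hi', heq.symm⟩
  have hmem : ∀ t x, x ∈ Θ I (i + t) ↔ x ∈ Θ I (j + t) := by
    intro t
    induction t with
    | zero =>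
      intro x
      rw [Nat.add_zero, Nat.add_zero, ← List.mem_toFinset, he, List.mem_toFinset]
    | succ t ih => exact Θ_congr I ih
  intro m
  induction m using Nat.strong_induction_on with
  | _ m ih =>
    by_cases hm : m < 2 ^ (I.1 * I.1) + 1
    · exact h m hm
    · have h1 := ih (m - (j - i)) (by omega)
      have h2 := hmem (m - j)
      rw [show i + (m - j) = m - (j - i) by omega, show j + (m - j) = m by omega] at h2
      exact hP _ _ h2 h1

theorem generic_iff (I : DominoInput) : (∀ m, ∃ θ, PT I (m + 1) θ) ↔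
    ∀ m < 2 ^ (I.1 * I.1) + 1, ∃ x ∈ Θ I m, x = x := by
  constructor
  · intro h m _
    obtain ⟨θ, hθ⟩ := h m
    exact ⟨_, (mem_Θ I m _ _).2 ⟨θ, hθ, rfl, rfl⟩, rfl⟩
  · intro h
    have := Θ_periodic I (P := fun L => ∃ x ∈ L, x = x) (fun L L' hL ⟨x, hx, _⟩ => ⟨x, (hL x).1 hx, rfl⟩) h
    intro m
    obtain ⟨⟨p, q⟩, hx, _⟩ := this m
    obtain ⟨θ, hθ, _⟩ := (mem_Θ I m p q).1 hx
    exact ⟨θ, hθ⟩

theorem singular_iff (I : DominoInput) :
    (∀ m, ∃ θ, PT I (m + 1) θ ∧ Loops I (θ (List.replicate (m + 1) 0))) ↔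
    ∀ m < 2 ^ (I.1 * I.1) + 1, ∃ x ∈ Θ I m, ∀ t ∈ loopT x.1, t ∈ I.2 := by
  constructor
  · intro h m _
    obtain ⟨θ, hθ, hl⟩ := h m
    exact ⟨_, (mem_Θ I m _ _).2 ⟨θ, hθ, rfl, rfl⟩, (loopT_iff I _).2 hl⟩
  · intro h
    have := Θ_periodic I (P := fun L => ∃ x ∈ L, ∀ t ∈ loopT x.1, t ∈ I.2)
      (fun L L' hL ⟨x, hx, hx'⟩ => ⟨x, (hL x).1 hx, hx'⟩) h
    intro m
    obtain ⟨⟨p, q⟩, hx, hl⟩ := this m
    obtain ⟨θ, hθ, h1, _⟩ := (mem_Θ I m p q).1 hx
    refine ⟨θ, hθ, ?_⟩
    rw [h1]
    exact (loopT_iff I _).1 hl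

/-! ### Computability -/

theorem quad_primrec {α : Type} [Primcodable α] : Primrec (fun L : List α => quad L) := by
  unfold quad
  refine Primrec.list_flatMap Primrec.id ?_
  refine Primrec.list_flatMap Primrec.fst ?_
  refine Primrec.list_flatMap (Primrec.fst.comp Primrec.fst) ?_
  refine Primrec.list_map (Primrec.fst.comp (Primrec.fst.comp Primrec.fst)) ?_
  exact Primrec.pair (Primrec.snd.comp (Primrec.fst.comp (Primrec.fst.comp Primrec.fst)))
    (Primrec.pair (Primrec.snd.comp (Primrec.fst.comp Primrec.fst))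
      (Primrec.pair (Primrec.snd.comp Primrec.fst) Primrec.snd))

theorem memR_primrec : PrimrecRel (fun (t : ℕ × ℕ × ℕ) (R : List (ℕ × ℕ × ℕ)) => t ∈ R) := by
  have h := PrimrecRel.exists_mem_list (R := fun (a b : ℕ × ℕ × ℕ) => a = b) Primrec.eq
  have h2 : PrimrecPred (fun p : (ℕ × ℕ × ℕ) × List (ℕ × ℕ × ℕ) => ∃ a ∈ p.2, a = p.1) :=
    h.comp Primrec.snd Primrec.fst
  exact h2.of_eq (fun p => by simp)

theorem subR_primrec :
    PrimrecRel (fun (L R : List (ℕ × ℕ × ℕ)) => ∀ t ∈ L, t ∈ R) :=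
  PrimrecRel.forall_mem_list memR_primrec

theorem cellT_primrec {α : Type} [Primcodable α] {o q0 q1 q2 q3 : α → ℕ} (ho : Primrec o)
    (h0 : Primrec q0) (h1 : Primrec q1) (h2 : Primrec q2) (h3 : Primrec q3) :
    Primrec (fun a => cellT (o a) (q0 a) (q1 a) (q2 a) (q3 a)) := by
  have t : ∀ {x y z : α → ℕ}, Primrec x → Primrec y → Primrec z →
      Primrec (fun a => (x a, y a, z a)) := fun hx hy hz => Primrec.pair hx (Primrec.pair hy hz)
  have c : ∀ {x : α → ℕ × ℕ × ℕ} {l : α → List (ℕ × ℕ × ℕ)}, Primrec x → Primrec l →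
      Primrec (fun a => x a :: l a) := fun hx hl => Primrec.list_cons.comp hx hl
  have o1 : Primrec (fun a => o a + 1) := Primrec.succ.comp ho
  have o2 : Primrec (fun a => o a + 2) := Primrec.succ.comp o1
  unfold cellT
  exact c (t ho h0 h1) (c (t ho h1 h0) (c (t ho h2 h2) (c (t ho h3 h3)
    (c (t o1 h0 h0) (c (t o1 h1 h2) (c (t o1 h2 h1) (c (t o1 h3 h3)
    (c (t o2 h0 h0) (c (t o2 h1 h3) (c (t o2 h2 h2) (c (t o2 h3 h1) (Primrec.const [])))))))))))) 

theorem loopT_primrec {α : Type} [Primcodable α] {p : α → ℕ} (hp : Primrec p) :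
    Primrec (fun a => loopT (p a)) := by
  have t : ∀ n : ℕ, Primrec (fun a => (n, p a, p a)) := fun n =>
    Primrec.pair (Primrec.const n) (Primrec.pair hp hp)
  unfold loopT
  exact Primrec.list_cons.comp (t 3) (Primrec.list_cons.comp (t 4)
    (Primrec.list_cons.comp (t 5) (Primrec.const [])))

theorem baseT_primrec : Primrec baseT := by
  unfold baseT
  have a : Primrec (fun c : ℕ × ℕ × ℕ × ℕ => c.1) := Primrec.fst
  have b : Primrec (fun c : ℕ × ℕ × ℕ × ℕ => c.2.1) := Primrec.fst.comp Primrec.snd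
  have c : Primrec (fun c : ℕ × ℕ × ℕ × ℕ => c.2.2.1) :=
    Primrec.fst.comp (Primrec.snd.comp Primrec.snd)
  have d : Primrec (fun c : ℕ × ℕ × ℕ × ℕ => c.2.2.2) :=
    Primrec.snd.comp (Primrec.snd.comp Primrec.snd)
  exact Primrec.list_append.comp (cellT_primrec (Primrec.const 0) a b c d)
    (Primrec.list_append.comp (loopT_primrec c) (loopT_primrec d))

theorem stepT_primrec : Primrec stepT := by
  unfold stepT
  have a : Primrec (fun c : (ℕ × ℕ) × (ℕ × ℕ) × (ℕ × ℕ) × (ℕ × ℕ) => c.1) := Primrec.fst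
  have b : Primrec (fun c : (ℕ × ℕ) × (ℕ × ℕ) × (ℕ × ℕ) × (ℕ × ℕ) => c.2.1) :=
    Primrec.fst.comp Primrec.snd
  have c : Primrec (fun c : (ℕ × ℕ) × (ℕ × ℕ) × (ℕ × ℕ) × (ℕ × ℕ) => c.2.2.1) :=
    Primrec.fst.comp (Primrec.snd.comp Primrec.snd)
  have d : Primrec (fun c : (ℕ × ℕ) × (ℕ × ℕ) × (ℕ × ℕ) × (ℕ × ℕ) => c.2.2.2) :=
    Primrec.snd.comp (Primrec.snd.comp Primrec.snd)
  exact Primrec.list_append.comp (cellT_primrec (Primrec.const 3) (Primrec.snd.comp a)
    (Primrec.snd.comp b) (Primrec.snd.comp c) (Primrec.snd.comp d))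
    (Primrec.list_append.comp (loopT_primrec (Primrec.fst.comp c)) (loopT_primrec (Primrec.fst.comp d)))

theorem Θ_primrec : Primrec₂ Θ := by
  have hbase : Primrec (fun I : DominoInput => (quad (List.range I.1)).filterMap
      fun c => if ∀ t ∈ baseT c, t ∈ I.2 then some (c.1, c.2.1) else none) := by
    refine Primrec.listFilterMap (quad_primrec.comp (Primrec.list_range.comp Primrec.fst)) ?_
    refine Primrec.ite ?_ ?_ (Primrec.const none)
    · exact subR_primrec.comp (baseT_primrec.comp Primrec.snd) (Primrec.snd.comp Primrec.fst)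
    · exact Primrec.option_some.comp (Primrec.pair (Primrec.fst.comp Primrec.snd)
        (Primrec.fst.comp (Primrec.snd.comp Primrec.snd)))
  have hstep : Primrec₂ (fun (I : DominoInput) (p : ℕ × List (ℕ × ℕ)) => (quad p.2).filterMap
      fun x => if ∀ t ∈ stepT x, t ∈ I.2 then some (x.1.1, x.2.1.1) else none) := by
    refine Primrec.listFilterMap (quad_primrec.comp (Primrec.snd.comp Primrec.snd)) ?_
    refine Primrec.ite ?_ ?_ (Primrec.const none)
    · exact subR_primrec.comp (stepT_primrec.comp Primrec.snd)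
        (Primrec.snd.comp (Primrec.fst.comp Primrec.fst))
    · exact Primrec.option_some.comp (Primrec.pair
        (Primrec.fst.comp (Primrec.fst.comp Primrec.snd))
        (Primrec.fst.comp (Primrec.fst.comp (Primrec.snd.comp Primrec.snd))))
  refine (Primrec.nat_rec hbase hstep).of_eq (fun I m => ?_)
  induction m with
  | zero => rfl
  | succ m ih => 
    simp only [ih, Θ]

theorem bound_primrec : Primrec (fun I : DominoInput => 2 ^ (I.1 * I.1) + 1) := by
  have hpow : Primrec (fun n : ℕ => 2 ^ n) := by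
    have := Primrec.nat_rec' (α := ℕ) (f := id) (g := fun _ => 1) (h := fun _ p => p.2 * 2)
      Primrec.id (Primrec.const 1)
      ((Primrec.nat_mul.comp (Primrec.snd.comp Primrec.snd) (Primrec.const 2)))
    refine this.of_eq (fun n => ?_)
    simp only [id]
    induction n with
    | zero => rfl
    | succ n ih => simp only [ih, pow_succ]
  exact Primrec.succ.comp (hpow.comp (Primrec.nat_mul.comp Primrec.fst Primrec.fst))

theorem pred_of_step {P : DominoInput → (ℕ × ℕ) → Prop} (hP : PrimrecRel P) :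
    ComputablePred (fun I : DominoInput =>
      ∀ m < 2 ^ (I.1 * I.1) + 1, ∃ x ∈ Θ I m, P I x) := by
  have h1 : PrimrecRel (fun (L : List (ℕ × ℕ)) (I : DominoInput) => ∃ x ∈ L, P I x) := by
    apply PrimrecRel.exists_mem_list (R := fun (x : ℕ × ℕ) (I : DominoInput) => P I x)
    exact hP.comp Primrec.snd Primrec.fst
  have h2 : PrimrecRel (fun (m : ℕ) (I : DominoInput) => ∃ x ∈ Θ I m, P I x) :=
    h1.comp (Θ_primrec.comp Primrec.snd Primrec.fst) Primrec.snd
  have h3 := PrimrecRel.forall_mem_list h2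
  have h4 : PrimrecPred (fun I : DominoInput => ∀ m < 2 ^ (I.1 * I.1) + 1, ∃ x ∈ Θ I m, P I x) :=
    (h3.comp (Primrec.list_range.comp bound_primrec) Primrec.id).of_eq (fun I => by
      simp only [List.mem_range, id])
  obtain ⟨inst, h⟩ := h4
  exact ⟨inst, h.to_comp⟩

theorem domino_decidable (ξ : ℕ → A4) : DominoDecidable (schreier GG gen ξ) := by
  unfold DominoDecidable
  by_cases hξ : Cof ξ Z
  · refine (pred_of_step (P := fun I x => ∀ t ∈ loopT x.1, t ∈ I.2) ?_).of_eq (fun I => ?_)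
    · exact subR_primrec.comp (loopT_primrec (Primrec.fst.comp Primrec.snd))
        (Primrec.snd.comp Primrec.fst)
    · rw [tileable_singular hξ, singular_iff]
  · refine (pred_of_step (P := fun I x => x = x) ?_).of_eq (fun I => ?_)
    · exact Primrec.eq.comp Primrec.snd Primrec.snd
    · rw [tileable_generic hξ, generic_iff]

end SchreierMSO
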