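import Mathlib
import Pool.Agent.H669R3.SMDomino

/-!
Undecidable monadic second-order theories of Schreier graphs.
-/

namespace SchreierMSO

open Equiv Relation

/-! ### Formulas -/

namespace MSO

variable {k : ℕ} {V : Type} (E : Fin k → V → V → Prop)

def or (φ ψ : MSO k) : MSO k := neg (and (neg φ) (neg ψ))
def imp (φ ψ : MSO k) : MSO k := neg (and φ (neg ψ))
def allE (i : ℕ) (φ : MSO k) : MSO k := neg (exE i (neg φ))
def allS (i : ℕ) (φ : MSO k) : MSO k := neg (exS i (neg φ))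

theorem sat_or (φ ψ : MSO k) (v W) : Sat E (or φ ψ) v W ↔ (Sat E φ v W ∨ Sat E ψ v W) := by
  simp only [or, Sat]; tauto
theorem sat_imp (φ ψ : MSO k) (v W) : Sat E (imp φ ψ) v W ↔ (Sat E φ v W → Sat E ψ v W) := by
  simp only [imp, Sat]; tauto
theorem sat_allE (i : ℕ) (φ : MSO k) (v W) :
    Sat E (allE i φ) v W ↔ ∀ x, Sat E φ (Function.update v i x) W := by
  simp only [allE, Sat]; push Not; rfl
theorem sat_allS (i : ℕ) (φ : MSO k) (v W) :
    Sat E (allS i φ) v W ↔ ∀ Y, Sat E φ v (Function.update W i Y) := by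
  simp only [allS, Sat]; push Not; rfl

end MSO

open MSO

def fE1 (i j : ℕ) : MSO 6 := (MSO.rel 0 i j).or ((MSO.rel 1 i j).or ((MSO.rel 2 i j).or (MSO.rel 3 i j)))
def fI2 (i : ℕ) : MSO 6 := (MSO.rel 3 i i).and (MSO.rel 4 i i).neg
def fI3 (i : ℕ) : MSO 6 := (MSO.rel 3 i i).and (MSO.rel 5 i i).neg
def fUp (i j : ℕ) : MSO 6 := ((fI2 i).and (MSO.rel 4 i j)).or ((fI3 i).and (MSO.rel 5 i j))
def fStep (i j : ℕ) : MSO 6 := (fE1 i j).or (fUp i j)
/-- `j` can be reached from `i` by steps; the step formula has the free variables 8, 9. -/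
def fReach (st : MSO 6) (i j : ℕ) : MSO 6 :=
  allS 0 (((MSO.mem i 0).and (allE 8 (allE 9 (((MSO.mem 8 0).and st).imp (MSO.mem 9 0))))).imp
    (MSO.mem j 0))
def fNext : MSO 6 :=
  MSO.exE 2 ((fUp 0 2).and ((fReach (fE1 8 9) 2 1).and ((fI2 1).or (fI3 1))))
def fQ : ℕ → MSO 6
  | 0 => fI3 0
  | n + 1 => (fI2 0).and (MSO.exE 1 (fNext.and (MSO.exE 0 ((MSO.eq 0 1).and (fQ n)))))
def fΦ (n : ℕ) : MSO 6 :=
  allE 3 (MSO.exE 0 ((fReach (fStep 8 9) 3 0).and ((fI3 0).and
    (MSO.exE 1 (fNext.and (MSO.exE 0 ((MSO.eq 0 1).and (fQ n))))))))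

theorem fvE_fNext : fNext.fvE = {0, 1} := by decide
theorem fvS_fNext : fNext.fvS = ∅ := by decide

theorem fvE_fQ (n : ℕ) : (fQ n).fvE = {0} := by
  induction n with
  | zero => decide
  | succ n ih =>
    have h2 : (fI2 0).fvE = {0} := by decide
    simp only [fQ, MSO.fvE, ih, fvE_fNext, h2]
    decide

theorem fvS_fQ (n : ℕ) : (fQ n).fvS = ∅ := by
  induction n with
  | zero => decide
  | succ n ih =>
    have h2 : (fI2 0).fvS = ∅ := by decide
    simp only [fQ, MSO.fvS, ih, fvS_fNext, h2]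
    decide

theorem fvE_fΦ (n : ℕ) : (fΦ n).fvE = ∅ := by
  have h1 : (fReach (fStep 8 9) 3 0).fvE = {3, 0} := by decide
  have h2 : (fI3 0).fvE = {0} := by decide
  simp only [fΦ, allE, MSO.fvE, h1, h2, fvE_fNext, fvE_fQ]
  decide

theorem fvS_fΦ (n : ℕ) : (fΦ n).fvS = ∅ := by
  have h1 : (fReach (fStep 8 9) 3 0).fvS = ∅ := by decide
  have h2 : (fI3 0).fvS = ∅ := by decide
  simp only [fΦ, allE, MSO.fvS, h1, h2, fvS_fNext, fvS_fQ]
  decide

/-! ### Semantics in an arbitrary structure -/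

section Sem

variable {V : Type} (E : Fin 6 → V → V → Prop)

def E1 (x y : V) : Prop := E 0 x y ∨ E 1 x y ∨ E 2 x y ∨ E 3 x y
def I2 (x : V) : Prop := E 3 x x ∧ ¬ E 4 x x
def I3 (x : V) : Prop := E 3 x x ∧ ¬ E 5 x x
def Up (x y : V) : Prop := (I2 E x ∧ E 4 x y) ∨ (I3 E x ∧ E 5 x y)
def Step (x y : V) : Prop := E1 E x y ∨ Up E x y
def Next (x y : V) : Prop := ∃ x', Up E x x' ∧ ReflTransGen (E1 E) x' y ∧ (I2 E y ∨ I3 E y)
def Q : ℕ → V → Prop
  | 0, x => I3 E x
  | n + 1, x => I2 E x ∧ ∃ y, Next E x y ∧ Q n y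
def Φ (n : ℕ) : Prop := ∀ v, ∃ x, ReflTransGen (Step E) v x ∧ I3 E x ∧ ∃ y, Next E x y ∧ Q E n y

theorem sat_fE1 (i j : ℕ) (v W) : Sat E (fE1 i j) v W ↔ E1 E (v i) (v j) := by
  simp only [fE1, sat_or, Sat, E1]
theorem sat_fI2 (i : ℕ) (v W) : Sat E (fI2 i) v W ↔ I2 E (v i) := by
  simp only [fI2, Sat, I2]
theorem sat_fI3 (i : ℕ) (v W) : Sat E (fI3 i) v W ↔ I3 E (v i) := by
  simp only [fI3, Sat, I3]
theorem sat_fUp (i j : ℕ) (v W) : Sat E (fUp i j) v W ↔ Up E (v i) (v j) := by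
  simp only [fUp, sat_or, Sat, Up, sat_fI2, sat_fI3]
theorem sat_fStep (i j : ℕ) (v W) : Sat E (fStep i j) v W ↔ Step E (v i) (v j) := by
  simp only [fStep, sat_or, sat_fE1, sat_fUp, Step]

theorem reach_iff (R : V → V → Prop) (x y : V) :
    (∀ Y : Set V, (x ∈ Y ∧ ∀ a b, a ∈ Y ∧ R a b → b ∈ Y) → y ∈ Y) ↔ ReflTransGen R x y := by
  constructor
  · intro h
    exact h {z | ReflTransGen R x z} ⟨ReflTransGen.refl, fun a b ⟨ha, hab⟩ => ha.tail hab⟩
  · intro h Y ⟨hx, hY⟩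
    induction h with
    | refl => exact hx
    | tail _ hab ih => exact hY _ _ ⟨ih, hab⟩

theorem sat_fReach (st : MSO 6) (R : V → V → Prop)
    (hst : ∀ v W, Sat E st v W ↔ R (v 8) (v 9)) (i j : ℕ) (v W) :
    Sat E (fReach st i j) v W ↔ ReflTransGen R (v i) (v j) := by
  rw [← reach_iff]
  have h8 : (8 : ℕ) ≠ 9 := by decide
  simp only [fReach, sat_allS, sat_imp, Sat, sat_allE, hst, Function.update_self,
    Function.update_of_ne h8]

theorem sat_fNext (v W) : Sat E fNext v W ↔ Next E (v 0) (v 1) := by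
  simp only [fNext, Sat, sat_fUp, sat_fReach E (fE1 8 9) (E1 E) (fun v W => sat_fE1 E 8 9 v W) 2 1,
    sat_or, sat_fI2, sat_fI3, Next]
  simp

theorem sat_fQ (n : ℕ) : ∀ v W, Sat E (fQ n) v W ↔ Q E n (v 0) := by
  induction n with
  | zero => intro v W; simp only [fQ, sat_fI3, Q]
  | succ n ih =>
    intro v W
    simp only [fQ, Sat, sat_fI2, sat_fNext, ih, Q]
    simp

theorem sat_fΦ (n : ℕ) (v W) : Sat E (fΦ n) v W ↔ Φ E n := by
  simp only [fΦ, sat_allE, Sat, sat_fReach E (fStep 8 9) (Step E) (fun v W => sat_fStep E 8 9 v W) 3 0,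
    sat_fI3, sat_fNext, sat_fQ, Φ]
  simp

theorem theory_code (n : ℕ) : MSOTheory E (fΦ n).code ↔ Φ E n := by
  constructor
  · rintro ⟨φ, hc, _, _, h⟩
    rw [code_injective hc] at h
    by_contra hn
    rcases isEmpty_or_nonempty V with hV | ⟨⟨x⟩⟩
    · exact hn (fun v => (hV.false v).elim)
    · exact hn ((sat_fΦ E n _ _).1 (h (fun _ => x) (fun _ => ∅)))
  · intro h
    exact ⟨fΦ n, rfl, fvE_fΦ n, fvS_fΦ n, fun v W => (sat_fΦ E n v W).2 h⟩

end Sem

/-! ### Computability of the codes -/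

/-- The effect of one step on the code. -/
def sc (c : ℕ) : ℕ :=
  7 * Nat.pair (fI2 0).code (7 * Nat.pair 1 (7 * Nat.pair fNext.code
      (7 * Nat.pair 0 (7 * Nat.pair (MSO.eq (k := 6) 0 1).code c + 4) + 5) + 4) + 5) + 4

theorem code_fQ_succ (n : ℕ) : (fQ (n + 1)).code = sc (fQ n).code := by
  rw [fQ]
  simp only [MSO.code, sc]

theorem sc_primrec : Primrec sc := by
  have pairc : ∀ {f g : ℕ → ℕ}, Primrec f → Primrec g → Primrec (fun a => Nat.pair (f a) (g a)) :=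
    fun hf hg => Primrec₂.natPair.comp hf hg
  have lin : ∀ (c : ℕ) {f : ℕ → ℕ}, Primrec f → Primrec (fun a => 7 * f a + c) := fun c f hf =>
    Primrec.nat_add.comp (Primrec.nat_mul.comp (Primrec.const 7) hf) (Primrec.const c)
  unfold sc
  apply lin
  apply pairc (Primrec.const _)
  apply lin
  apply pairc (Primrec.const _)
  apply lin
  apply pairc (Primrec.const _)
  apply lin
  apply pairc (Primrec.const _)
  apply lin
  exact pairc (Primrec.const _) Primrec.id

theorem code_fQ_primrec : Primrec (fun n => (fQ n).code) := by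
  have h := Primrec.nat_rec' (α := ℕ) (f := id) (g := fun _ => (fQ 0).code)
    (h := fun _ p => sc p.2) Primrec.id (Primrec.const _)
    (sc_primrec.comp (Primrec.snd.comp Primrec.snd))
  refine h.of_eq (fun n => ?_)
  induction n with
  | zero => rfl
  | succ n ih => rw [code_fQ_succ, ← ih]; rfl

theorem code_fΦ_primrec : Primrec (fun n => (fΦ n).code) := by
  have pairc : ∀ {f g : ℕ → ℕ}, Primrec f → Primrec g → Primrec (fun a => Nat.pair (f a) (g a)) :=
    fun hf hg => Primrec₂.natPair.comp hf hg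
  have lin : ∀ (c : ℕ) {f : ℕ → ℕ}, Primrec f → Primrec (fun a => 7 * f a + c) := fun c f hf =>
    Primrec.nat_add.comp (Primrec.nat_mul.comp (Primrec.const 7) hf) (Primrec.const c)
  simp only [fΦ, allE, MSO.code]
  apply lin
  apply lin
  apply pairc (Primrec.const _)
  apply lin
  apply lin
  apply pairc (Primrec.const _)
  apply lin
  apply pairc (Primrec.const _)
  apply lin
  apply pairc (Primrec.const _)
  apply lin
  apply pairc (Primrec.const _)
  apply lin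
  apply pairc (Primrec.const _)
  apply lin
  apply pairc (Primrec.const _)
  apply lin
  exact pairc (Primrec.const _) code_fQ_primrec

end SchreierMSO
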