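import Mathlib
import Pool.Agent.H669R3.SMMso

/-!
Reading the sequence `ξ` from its Schreier graph.
-/

namespace SchreierMSO

open Equiv Relation

theorem idx_unique {v : ℕ → A4} {k l : ℕ} (h : Idx v k) (h' : Idx v l) : k = l := by
  by_contra hne
  rcases Nat.lt_or_gt_of_ne hne with hlt | hlt
  · have := h'.1 k hlt
    rw [h.2] at this
    exact absurd this (by decide)
  · have := h.1 l hlt
    rw [h'.2] at this
    exact absurd this (by decide)

theorem moves_b_iff (σ : Perm A4) (v v' : ℕ → A4) : Moves (bP σ) v v' ↔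
    (∃ k, Idx v k ∧ v' = Function.update v (k + 1) (σ (v (k + 1)))) ∨
      ((∀ k, ¬ Idx v k) ∧ v' = v) := by
  by_cases h : ∃ k, Idx v k
  · obtain ⟨k, hk⟩ := h
    constructor
    · intro hm
      exact Or.inl ⟨k, hk, moves_unique hm (moves_b_idx σ hk)⟩
    · rintro (⟨l, hl, rfl⟩ | ⟨h, _⟩)
      · exact moves_b_idx σ hl
      · exact absurd hk (h k)
  · push Not at h
    constructor
    · intro hm
      exact Or.inr ⟨h, moves_unique hm (moves_b_none σ h)⟩
    · rintro (⟨l, hl, rfl⟩ | ⟨_, rfl⟩)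
      · exact absurd hl (h l)
      · exact moves_b_none σ h

theorem moves_a_iff (σ : Perm A4) (v v' : ℕ → A4) : Moves (aP σ) v v' ↔
    v' = Function.update v 0 (σ (v 0)) :=
  ⟨fun h => moves_unique h (moves_a σ v), fun h => h ▸ moves_a σ v⟩

theorem moves_b_self_iff (σ : Perm A4) (v : ℕ → A4) : Moves (bP σ) v v ↔
    ∀ k, Idx v k → σ (v (k + 1)) = v (k + 1) := by
  rw [moves_b_iff]
  constructor
  · rintro (⟨k, hk, h⟩ | ⟨h, _⟩) l hl
    · rw [idx_unique hl hk]
      have := congrFun h (k + 1)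
      rw [Function.update_self] at this
      exact this.symm
    · exact absurd hl (h l)
  · intro h
    by_cases hk : ∃ k, Idx v k
    · obtain ⟨k, hk⟩ := hk
      left
      exact ⟨k, hk, by rw [h k hk, Function.update_eq_self]⟩
    · push Not at hk
      exact Or.inr ⟨hk, rfl⟩

theorem perm_facts : ρ 0 = swap 0 1 ∧ ρ 1 = swap 1 2 ∧ ρ 2 = swap 1 3 := ⟨rfl, rfl, rfl⟩

variable {ξ : ℕ → A4}

/-- The graph. -/
abbrev SE (ξ : ℕ → A4) := schreier GG gen ξ

theorem I2_iff (x : orb GG ξ) : I2 (SE ξ) x ↔ ∃ k, Idx x k ∧ (x : ℕ → A4) (k + 1) = 2 := by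
  have e3 : SE ξ 3 x x ↔ Moves (bP (ρ 0)) x x := Iff.rfl
  have e4 : SE ξ 4 x x ↔ Moves (bP (ρ 1)) x x := Iff.rfl
  rw [I2, e3, e4, moves_b_self_iff, moves_b_self_iff]
  have f : ∀ z : A4, (ρ 0 z = z ∧ ρ 1 z ≠ z) ↔ z = 2 := by decide
  constructor
  · rintro ⟨h1, h2⟩
    push Not at h2
    obtain ⟨k, hk, h2⟩ := h2
    exact ⟨k, hk, (f _).1 ⟨h1 k hk, h2⟩⟩
  · rintro ⟨k, hk, h⟩
    refine ⟨fun l hl => ?_, fun h2 => ?_⟩
    · rw [idx_unique hl hk]; exact ((f _).2 h).1
    · exact ((f _).2 h).2 (h2 k hk)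

theorem I3_iff (x : orb GG ξ) : I3 (SE ξ) x ↔ ∃ k, Idx x k ∧ (x : ℕ → A4) (k + 1) = 3 := by
  have e3 : SE ξ 3 x x ↔ Moves (bP (ρ 0)) x x := Iff.rfl
  have e4 : SE ξ 5 x x ↔ Moves (bP (ρ 2)) x x := Iff.rfl
  rw [I3, e3, e4, moves_b_self_iff, moves_b_self_iff]
  have f : ∀ z : A4, (ρ 0 z = z ∧ ρ 2 z ≠ z) ↔ z = 3 := by decide
  constructor
  · rintro ⟨h1, h2⟩
    push Not at h2
    obtain ⟨k, hk, h2⟩ := h2
    exact ⟨k, hk, (f _).1 ⟨h1 k hk, h2⟩⟩
  · rintro ⟨k, hk, h⟩
    refine ⟨fun l hl => ?_, fun h2 => ?_⟩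
    · rw [idx_unique hl hk]; exact ((f _).2 h).1
    · exact ((f _).2 h).2 (h2 k hk)

theorem Up_iff (x y : orb GG ξ) : Up (SE ξ) x y ↔
    ∃ k, Idx x k ∧ ((x : ℕ → A4) (k + 1) = 2 ∨ (x : ℕ → A4) (k + 1) = 3) ∧
      (y : ℕ → A4) = Function.update x (k + 1) 1 := by
  have e4 : SE ξ 4 x y ↔ Moves (bP (ρ 1)) x y := Iff.rfl
  have e5 : SE ξ 5 x y ↔ Moves (bP (ρ 2)) x y := Iff.rfl
  have r12 : ρ 1 2 = 1 := by decide
  have r23 : ρ 2 3 = 1 := by decide
  rw [Up, I2_iff, I3_iff, e4, e5, moves_b_iff, moves_b_iff]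
  constructor
  · rintro (⟨⟨k, hk, h⟩, h2⟩ | ⟨⟨k, hk, h⟩, h2⟩)
    · rcases h2 with ⟨l, hl, h2⟩ | ⟨h2, _⟩
      · rw [idx_unique hl hk] at h2
        exact ⟨k, hk, Or.inl h, by rw [h2, h, r12]⟩
      · exact absurd hk (h2 k)
    · rcases h2 with ⟨l, hl, h2⟩ | ⟨h2, _⟩
      · rw [idx_unique hl hk] at h2
        exact ⟨k, hk, Or.inr h, by rw [h2, h, r23]⟩
      · exact absurd hk (h2 k)
  · rintro ⟨k, hk, h | h, h2⟩
    · exact Or.inl ⟨⟨k, hk, h⟩, Or.inl ⟨k, hk, by rw [h2, h, r12]⟩⟩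
    · exact Or.inr ⟨⟨k, hk, h⟩, Or.inl ⟨k, hk, by rw [h2, h, r23]⟩⟩

/-- `v` has letters 0, 1 at the positions `1, ..., m - 1` and agrees with `η` from `m` on. -/
def J (η : ℕ → A4) (m : ℕ) (v : ℕ → A4) : Prop :=
  (∀ i, 1 ≤ i → i < m → v i = 0 ∨ v i = 1) ∧ ∀ i, m ≤ i → v i = η i

/-- `0^{m-1} 1 v_m v_{m+1} ...`. -/
def top (m : ℕ) (v : ℕ → A4) : ℕ → A4 := fun i => if i + 1 < m then 0 else if i + 1 = m then 1 else v i

theorem top_idx (m : ℕ) (v : ℕ → A4) : Idx (top (m + 1) v) m := by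
  refine ⟨fun i hi => ?_, ?_⟩
  · simp only [top]; rw [if_pos (by omega)]
  · simp [top]

theorem top_ge {m : ℕ} (v : ℕ → A4) {i : ℕ} (h : m ≤ i) : top m v i = v i := by
  simp only [top]; rw [if_neg (by omega), if_neg (by omega)]

theorem top_J (η v : ℕ → A4) {m : ℕ} (h : ∀ i, m ≤ i → v i = η i) : J η m (top m v) := by
  refine ⟨fun i h1 h2 => ?_, fun i hi => by rw [top_ge v hi, h i hi]⟩
  simp only [top]
  by_cases h3 : i + 1 < m
  · rw [if_pos h3]; exact Or.inl rfl
  · rw [if_neg h3, if_pos (by omega)]; exact Or.inr rfl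

theorem top_congr {m : ℕ} {v w : ℕ → A4} (h : ∀ i, m ≤ i → v i = w i) : top m v = top m w := by
  funext i
  simp only [top]
  by_cases h1 : i + 1 < m
  · rw [if_pos h1, if_pos h1]
  · by_cases h2 : i + 1 = m
    · rw [if_neg h1, if_neg h1, if_pos h2, if_pos h2]
    · rw [if_neg h1, if_neg h1, if_neg h2, if_neg h2, h i (by omega)]

theorem cof_top (m : ℕ) (v : ℕ → A4) : Cof v (top m v) := ⟨m, fun i hi => (top_ge v hi).symm⟩

theorem mem_of_J {η v : ℕ → A4} {m : ℕ} (hη : η ∈ orb GG ξ) (h : J η m v) : v ∈ orb GG ξ := by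
  rw [mem_orb_iff] at hη ⊢
  exact hη.trans ⟨m, fun i hi => (h.2 i hi).symm⟩

theorem mem_update {v : ℕ → A4} (hv : v ∈ orb GG ξ) (k : ℕ) (x : A4) :
    Function.update v k x ∈ orb GG ξ := by
  rw [mem_orb_iff] at hv ⊢
  exact hv.trans (cof_update _ _ _)

/-- An `a`-edge. -/
theorem E1_a (v : ℕ → A4) (hv : v ∈ orb GG ξ) (j : Fin 3) :
    E1 (SE ξ) ⟨v, hv⟩ ⟨Function.update v 0 (ρ j (v 0)), mem_update hv _ _⟩ := by
  fin_cases j
  · exact Or.inl (moves_a _ _)
  · exact Or.inr (Or.inl (moves_a _ _))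
  · exact Or.inr (Or.inr (Or.inl (moves_a _ _)))

theorem reach_first (v : ℕ → A4) (hv : v ∈ orb GG ξ) (x : A4) :
    ReflTransGen (E1 (SE ξ)) ⟨v, hv⟩ ⟨Function.update v 0 x, mem_update hv _ _⟩ := by
  have f1 : ∀ z : A4, z = 1 ∨ ∃ j, ρ j z = 1 := by decide
  have f2 : ∀ z : A4, z = 1 ∨ ∃ j, ρ j 1 = z := by decide
  have s1 : ReflTransGen (E1 (SE ξ)) ⟨v, hv⟩ ⟨Function.update v 0 1, mem_update hv _ _⟩ := by
    rcases f1 (v 0) with h | ⟨j, h⟩
    · have : (⟨Function.update v 0 1, mem_update hv _ _⟩ : orb GG ξ) = ⟨v, hv⟩ := by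
        apply Subtype.ext
        simp only
        rw [← h, Function.update_eq_self]
      rw [this]
    · have := E1_a v hv j
      simp only [h] at this
      exact ReflTransGen.single this
  refine s1.trans ?_
  rcases f2 x with h | ⟨j, h⟩
  · subst h; exact ReflTransGen.refl
  · have := E1_a (Function.update v 0 1) (mem_update hv _ _) j
    simp only [Function.update_self, h, Function.update_idem] at this
    exact ReflTransGen.single this

/-- The edge labelled `b_{01}` at a vertex with letter 0 or 1 at its special position. -/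
theorem E1_b (v : ℕ → A4) (hv : v ∈ orb GG ξ) {k : ℕ} (hk : Idx v k) :
    E1 (SE ξ) ⟨v, hv⟩ ⟨Function.update v (k + 1) (ρ 0 (v (k + 1))), mem_update hv _ _⟩ :=
  Or.inr (Or.inr (Or.inr (moves_b_idx _ hk)))

theorem reach_J (m : ℕ) : ∀ (η : ℕ → A4), η ∈ orb GG ξ → ∀ v w : ℕ → A4, ∀ (hv : v ∈ orb GG ξ)
    (hw : w ∈ orb GG ξ), J η (m + 1) v → J η (m + 1) w →
    ReflTransGen (E1 (SE ξ)) ⟨v, hv⟩ ⟨w, hw⟩ := by
  induction m with
  | zero =>
    intro η hη v w hv hw h1 h2
    have e : w = Function.update v 0 (w 0) := by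
      funext i
      rcases i with _ | i
      · rw [Function.update_self]
      · rw [Function.update_of_ne (by omega), h1.2 _ (by omega), h2.2 _ (by omega)]
    have : (⟨w, hw⟩ : orb GG ξ) = ⟨Function.update v 0 (w 0), mem_update hv _ _⟩ := Subtype.ext e
    rw [this]
    exact reach_first v hv _
  | succ m ih =>
    intro η hη v w hv hw h1 h2
    -- v → top (m+1) v → top (m+1) w → w
    have hJ : ∀ v : ℕ → A4, J η (m + 2) v → J v (m + 1) v := fun v h =>
      ⟨fun i h1 h2 => h.1 i h1 (by omega), fun _ _ => rfl⟩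
    have hJt : ∀ v : ℕ → A4, J v (m + 1) (top (m + 1) v) := fun v => top_J _ _ (fun _ _ => rfl)
    have mt : ∀ v : ℕ → A4, v ∈ orb GG ξ → top (m + 1) v ∈ orb GG ξ := fun v hv => mem_of_J hv (hJt v)
    have r1 := ih v hv v (top (m + 1) v) hv (mt v hv) (hJ v h1) (hJt v)
    have r3 := ih w hw (top (m + 1) w) w (mt w hw) hw (hJt w) (hJ w h2)
    have r2 : ReflTransGen (E1 (SE ξ)) ⟨top (m + 1) v, mt v hv⟩ ⟨top (m + 1) w, mt w hw⟩ := by
      by_cases hvw : v (m + 1) = w (m + 1)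
      · have : top (m + 1) v = top (m + 1) w := top_congr (fun i hi => by
          rcases Nat.eq_or_lt_of_le hi with h | h
          · rw [← h]; exact hvw
          · rw [h1.2 i (by omega), h2.2 i (by omega)])
        have : (⟨top (m + 1) w, mt w hw⟩ : orb GG ξ) = ⟨top (m + 1) v, mt v hv⟩ := Subtype.ext this.symm
        rw [this]
      · have hi := top_idx m v
        have hb := E1_b (top (m + 1) v) (mt v hv) hi
        have hval : ρ 0 (top (m + 1) v (m + 1)) = w (m + 1) := by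
          rw [top_ge v le_rfl]
          have f : ∀ x y : A4, (x = 0 ∨ x = 1) → (y = 0 ∨ y = 1) → x ≠ y → ρ 0 x = y := by decide
          exact f _ _ (h1.1 _ (by omega) (by omega)) (h2.1 _ (by omega) (by omega)) hvw
        have heq : Function.update (top (m + 1) v) (m + 1) (ρ 0 (top (m + 1) v (m + 1))) =
            top (m + 1) w := by
          rw [hval]
          funext i
          by_cases h : i = m + 1
          · subst h; rw [Function.update_self, top_ge w le_rfl]
          · rw [Function.update_of_ne h]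
            by_cases h' : i < m + 1
            · simp only [top]
              by_cases h3 : i + 1 < m + 1
              · rw [if_pos h3, if_pos h3]
              · rw [if_neg h3, if_neg h3, if_pos (by omega), if_pos (by omega)]
            · rw [top_ge v (by omega), top_ge w (by omega), h1.2 i (by omega), h2.2 i (by omega)]
        have : (⟨top (m + 1) w, mt w hw⟩ : orb GG ξ) =
            ⟨Function.update (top (m + 1) v) (m + 1) (ρ 0 (top (m + 1) v (m + 1))),
              mem_update (mt v hv) _ _⟩ := Subtype.ext heq.symm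
        rw [this]
        exact ReflTransGen.single hb
    exact (r1.trans r2).trans r3

/-- All letters of `ξ` are 2 or 3. -/
def Good (ξ : ℕ → A4) : Prop := ∀ i, ξ i = 2 ∨ ξ i = 3

theorem J_E1 (hξ : Good ξ) {m : ℕ} (hm : 1 ≤ m) {x y : orb GG ξ} (h : J ξ m x)
    (hxy : E1 (SE ξ) x y) : J ξ m y := by
  have ha : ∀ σ : Perm A4, Moves (aP σ) x y → J ξ m y := by
    intro σ hs
    rw [moves_a_iff] at hs
    rw [hs]
    exact ⟨fun i h1 h2 => by rw [Function.update_of_ne (by omega)]; exact h.1 i h1 h2,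
      fun i hi => by rw [Function.update_of_ne (by omega)]; exact h.2 i hi⟩
  rcases hxy with h1 | h1 | h1 | h1
  · exact ha _ h1
  · exact ha _ h1
  · exact ha _ h1
  · have h1' : Moves (bP (ρ 0)) x y := h1
    rw [moves_b_iff] at h1'
    rcases h1' with ⟨k, hk, he⟩ | ⟨_, he⟩
    · rw [he]
      have f1 : ∀ x : A4, (x = 2 ∨ x = 3) → ρ 0 x = x := by decide
      have f2 : ∀ x : A4, (x = 0 ∨ x = 1) → ρ 0 x = 0 ∨ ρ 0 x = 1 := by decide
      by_cases hkm : m ≤ k + 1
      · have hx := h.2 (k + 1) hkm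
        have : ρ 0 ((x : ℕ → A4) (k + 1)) = (x : ℕ → A4) (k + 1) := by
          apply f1; rw [hx]; exact hξ _
        rw [this, Function.update_eq_self]
        exact h
      · refine ⟨fun i hi1 hi2 => ?_, fun i hi => ?_⟩
        · by_cases hik : i = k + 1
          · subst hik
            rw [Function.update_self]
            exact f2 _ (h.1 _ hi1 hi2)
          · rw [Function.update_of_ne hik]; exact h.1 i hi1 hi2
        · rw [Function.update_of_ne (by omega)]; exact h.2 i hi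
    · rw [he]; exact h

theorem J_idx (hξ : Good ξ) {m : ℕ} {x : ℕ → A4} (h : J ξ m x) {k : ℕ} (hk : Idx x k)
    (h23 : x (k + 1) = 2 ∨ x (k + 1) = 3) : k + 1 = m := by
  have h1 : ¬ (k + 1 < m) := fun hlt => by
    rcases h.1 (k + 1) (by omega) hlt with h0 | h0 <;> rw [h0] at h23 <;> revert h23 <;> decide
  have h2 : ¬ (m ≤ k) := fun hle => by
    have e := h.2 k hle
    rw [hk.2] at e
    have := hξ k
    rw [← e] at this
    revert this
    decide
  omega

theorem J_Up (hξ : Good ξ) {m : ℕ} {x y : orb GG ξ} (h : J ξ m x)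
    (hxy : Up (SE ξ) x y) : J ξ (m + 1) y := by
  rw [Up_iff] at hxy
  obtain ⟨k, hk, h23, he⟩ := hxy
  have hkm := J_idx hξ h hk h23
  subst hkm
  rw [he]
  refine ⟨fun i hi1 hi2 => ?_, fun i hi => ?_⟩
  · by_cases hik : i = k + 1
    · subst hik; rw [Function.update_self]; exact Or.inr rfl
    · rw [Function.update_of_ne hik]; exact h.1 i hi1 (by omega)
  · rw [Function.update_of_ne (by omega)]; exact h.2 i (by omega)

theorem J_top (hξ : Good ξ) {m : ℕ} {x : ℕ → A4} (h : J ξ m x) {k : ℕ} (hk : Idx x k)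
    (h23 : x (k + 1) = 2 ∨ x (k + 1) = 3) : x = top m ξ := by
  have hkm := J_idx hξ h hk h23
  subst hkm
  funext i
  simp only [top]
  by_cases h1 : i + 1 < k + 1
  · rw [if_pos h1]; exact hk.1 i (by omega)
  · by_cases h2 : i + 1 = k + 1
    · rw [if_neg h1, if_pos h2]
      have : i = k := by omega
      rw [this]; exact hk.2
    · rw [if_neg h1, if_neg h2]; exact h.2 i (by omega)

theorem top_mem (m : ℕ) : top m ξ ∈ orb GG ξ := mem_orb_iff.2 (cof_top m ξ)

/-- The main chain of vertices. -/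
def tp (ξ : ℕ → A4) (m : ℕ) : orb GG ξ := ⟨top m ξ, top_mem m⟩

theorem I2_tp (m : ℕ) : I2 (SE ξ) (tp ξ (m + 1)) ↔ ξ (m + 1) = 2 := by
  rw [I2_iff]
  constructor
  · rintro ⟨k, hk, h⟩
    rw [idx_unique hk (top_idx m ξ)] at h
    rwa [← top_ge ξ (le_refl (m + 1))]
  · intro h
    refine ⟨m, top_idx m ξ, ?_⟩
    have : (tp ξ (m + 1) : ℕ → A4) (m + 1) = ξ (m + 1) := top_ge ξ le_rfl
    rw [this, h]

theorem I3_tp (m : ℕ) : I3 (SE ξ) (tp ξ (m + 1)) ↔ ξ (m + 1) = 3 := by
  rw [I3_iff]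
  constructor
  · rintro ⟨k, hk, h⟩
    rw [idx_unique hk (top_idx m ξ)] at h
    rwa [← top_ge ξ (le_refl (m + 1))]
  · intro h
    refine ⟨m, top_idx m ξ, ?_⟩
    have : (tp ξ (m + 1) : ℕ → A4) (m + 1) = ξ (m + 1) := top_ge ξ le_rfl
    rw [this, h]

theorem eq_tp (hξ : Good ξ) {m : ℕ} {x : orb GG ξ} (h : J ξ m x)
    (h23 : I2 (SE ξ) x ∨ I3 (SE ξ) x) : x = tp ξ m := by
  apply Subtype.ext
  rw [I2_iff, I3_iff] at h23
  rcases h23 with ⟨k, hk, h2⟩ | ⟨k, hk, h2⟩
  · exact J_top hξ h hk (Or.inl h2)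
  · exact J_top hξ h hk (Or.inr h2)

theorem J_reach (hξ : Good ξ) {m : ℕ} (hm : 1 ≤ m) {x y : orb GG ξ} (h : J ξ m x)
    (hxy : ReflTransGen (E1 (SE ξ)) x y) : J ξ m y := by
  induction hxy with
  | refl => exact h
  | tail _ h1 ih => exact J_E1 hξ hm ih h1

theorem Next_tp (hξ : Good ξ) (m : ℕ) (y : orb GG ξ) :
    Next (SE ξ) (tp ξ (m + 1)) y ↔ y = tp ξ (m + 2) := by
  have hJ0 : J ξ (m + 1) (tp ξ (m + 1)) := top_J _ _ (fun _ _ => rfl)
  have hJ1 : J ξ (m + 2) (tp ξ (m + 2)) := top_J _ _ (fun _ _ => rfl)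
  constructor
  · rintro ⟨x', h1, h2, h3⟩
    exact eq_tp hξ (J_reach hξ (by omega) (J_Up hξ hJ0 h1) h2) h3
  · rintro rfl
    have hmem : Function.update (tp ξ (m + 1) : ℕ → A4) (m + 1) 1 ∈ orb GG ξ :=
      mem_update (tp ξ (m + 1)).2 _ _
    have hup : Up (SE ξ) (tp ξ (m + 1)) ⟨_, hmem⟩ := by
      rw [Up_iff]
      refine ⟨m, top_idx m ξ, ?_, rfl⟩
      have : (tp ξ (m + 1) : ℕ → A4) (m + 1) = ξ (m + 1) := top_ge ξ le_rfl
      rw [this]
      exact hξ _
    refine ⟨_, hup, ?_, ?_⟩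
    · exact reach_J (m + 1) ξ (mem_orb_iff.2 (Cof.refl _)) _ _ hmem (tp ξ (m + 2)).2
        (J_Up hξ hJ0 hup) hJ1
    · rw [I2_tp, I3_tp]
      exact hξ _

theorem Q_tp (hξ : Good ξ) (n : ℕ) : ∀ m : ℕ, Q (SE ξ) n (tp ξ (m + 1)) ↔
    (∀ i < n, ξ (m + 1 + i) = 2) ∧ ξ (m + 1 + n) = 3 := by
  induction n with
  | zero =>
    intro m
    rw [Q, I3_tp]
    simp
  | succ n ih =>
    intro m
    simp only [Q, I2_tp, Next_tp hξ, exists_eq_left, ih]
    constructor
    · rintro ⟨h1, h2, h3⟩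
      refine ⟨fun i hi => ?_, ?_⟩
      · rcases i with _ | i
        · exact h1
        · have := h2 i (by omega)
          rwa [show m + 1 + 1 + i = m + 1 + (i + 1) by omega] at this
      · rwa [show m + 1 + 1 + n = m + 1 + (n + 1) by omega] at h3
    · rintro ⟨h1, h2⟩
      refine ⟨h1 0 (by omega), fun i hi => ?_, ?_⟩
      · rw [show m + 1 + 1 + i = m + 1 + (i + 1) by omega]
        exact h1 _ (by omega)
      · rwa [show m + 1 + 1 + n = m + 1 + (n + 1) by omega]

/-- The factor `3 2^n 3` occurs at position `m`. -/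
def Pat (ξ : ℕ → A4) (n m : ℕ) : Prop :=
  ξ m = 3 ∧ (∀ i < n, ξ (m + 1 + i) = 2) ∧ ξ (m + 1 + n) = 3

/-- Reaching the main chain. -/
theorem reach_top (m : ℕ) (v : ℕ → A4) (hv : v ∈ orb GG ξ) :
    ReflTransGen (Step (SE ξ)) ⟨v, hv⟩ ⟨top (m + 1) v, mem_orb_iff.2
      ((mem_orb_iff.1 hv).trans (cof_top _ _))⟩ := by
  have mono : ∀ {x y : orb GG ξ}, ReflTransGen (E1 (SE ξ)) x y → ReflTransGen (Step (SE ξ)) x y := by
    intro x y h
    induction h with
    | refl => exact ReflTransGen.refl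
    | tail _ h ih => exact ih.tail (Or.inl h)
  induction m with
  | zero =>
    have : (⟨top 1 v, mem_orb_iff.2 ((mem_orb_iff.1 hv).trans (cof_top _ _))⟩ : orb GG ξ) =
        ⟨Function.update v 0 1, mem_update hv _ _⟩ := by
      apply Subtype.ext
      funext i
      rcases i with _ | i
      · simp [top]
      · simp [top]
    rw [this]
    exact mono (reach_first v hv 1)
  | succ m ih =>
    refine ih.trans ?_
    have mt : top (m + 1) v ∈ orb GG ξ := mem_orb_iff.2 ((mem_orb_iff.1 hv).trans (cof_top _ _))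
    have mt2 : top (m + 2) v ∈ orb GG ξ := mem_orb_iff.2 ((mem_orb_iff.1 hv).trans (cof_top _ _))
    have mu : Function.update (top (m + 1) v) (m + 1) 1 ∈ orb GG ξ := mem_update mt _ _
    have s1 : ReflTransGen (Step (SE ξ)) ⟨top (m + 1) v, mt⟩
        ⟨Function.update (top (m + 1) v) (m + 1) 1, mu⟩ := by
      have f : ∀ z : A4, z = 1 ∨ z = 0 ∨ z = 2 ∨ z = 3 := by decide
      have hval : top (m + 1) v (m + 1) = v (m + 1) := top_ge v le_rfl
      rcases f (v (m + 1)) with h | h | h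
      · have : (⟨Function.update (top (m + 1) v) (m + 1) 1, mu⟩ : orb GG ξ) = ⟨top (m + 1) v, mt⟩ := by
          apply Subtype.ext
          simp only
          rw [← h, ← hval, Function.update_eq_self]
        rw [this]
      · have hb := E1_b (top (m + 1) v) mt (top_idx m v)
        have r00 : ρ 0 0 = 1 := by decide
        simp only [hval, h, r00] at hb
        exact ReflTransGen.single (Or.inl hb)
      · refine ReflTransGen.single (Or.inr ?_)
        rw [Up_iff]
        refine ⟨m, top_idx m v, ?_, rfl⟩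
        simp only [hval]
        exact h
    refine s1.trans (mono ?_)
    apply reach_J (m + 1) v hv
    · refine ⟨fun i h1 h2 => ?_, fun i hi => ?_⟩
      · by_cases hi : i = m + 1
        · subst hi; rw [Function.update_self]; exact Or.inr rfl
        · rw [Function.update_of_ne hi]
          exact (top_J v v (fun _ _ => rfl)).1 i h1 (by omega)
      · rw [Function.update_of_ne (by omega), top_ge v (by omega)]
    · exact top_J v v (fun _ _ => rfl)

theorem Φ_iff (hξ : Good ξ) (n : ℕ) : Φ (SE ξ) n ↔ ∀ N, ∃ m, N ≤ m ∧ Pat ξ n m := by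
  constructor
  · intro h N
    -- start from 0^{N+1} ξ_{N+1} ...
    let v : ℕ → A4 := fun i => if i < N + 1 then 0 else ξ i
    have hJv : J ξ (N + 1) v := by
      refine ⟨fun i _ h2 => Or.inl (by simp only [v]; rw [if_pos h2]), fun i hi => ?_⟩
      simp only [v]; rw [if_neg (by omega)]
    have hv : v ∈ orb GG ξ := mem_of_J (mem_orb_iff.2 (Cof.refl _)) hJv
    obtain ⟨x, h1, h2, y, h3, h4⟩ := h ⟨v, hv⟩
    have hx : ∃ m, N ≤ m ∧ J ξ (m + 1) x := by
      clear h2 h3 h4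
      induction h1 with
      | refl => exact ⟨N, le_rfl, hJv⟩
      | tail _ hs ih =>
        obtain ⟨m, hm, hJ⟩ := ih
        rcases hs with hs | hs
        · exact ⟨m, hm, J_E1 hξ (by omega) hJ hs⟩
        · exact ⟨m + 1, by omega, J_Up hξ hJ hs⟩
    obtain ⟨m, hm, hJ⟩ := hx
    have ex := eq_tp hξ hJ (Or.inr h2)
    subst ex
    rw [Next_tp hξ] at h3
    subst h3
    rw [Q_tp hξ] at h4
    rw [I3_tp] at h2
    exact ⟨m + 1, by omega, h2, h4⟩
  · intro h v
    obtain ⟨N, hN⟩ := mem_orb_iff.1 v.2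
    obtain ⟨m, hm, h1, h2⟩ := h (N + 1)
    obtain ⟨m, rfl⟩ : ∃ m', m = m' + 1 := ⟨m - 1, by omega⟩
    refine ⟨tp ξ (m + 1), ?_, (I3_tp m).2 h1, tp ξ (m + 2), (Next_tp hξ m _).2 rfl,
      (Q_tp hξ n (m + 1)).2 h2⟩
    have hr := reach_top (ξ := ξ) m v v.2
    have : (⟨top (m + 1) v, mem_orb_iff.2 ((mem_orb_iff.1 v.2).trans (cof_top _ _))⟩ : orb GG ξ) =
        tp ξ (m + 1) := by
      apply Subtype.ext
      exact top_congr (fun i hi => (hN i (by omega)).symm)
    rw [this] at hr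
    exact hr

/-! ### Coding an arbitrary set -/

/-- Positions of the letter 3. -/
def pos (g : ℕ → ℕ) : ℕ → ℕ
  | 0 => 0
  | t + 1 => pos g t + g t + 1

theorem pos_strictMono (g : ℕ → ℕ) : StrictMono (pos g) := by
  apply strictMono_nat_of_lt_succ
  intro t
  simp only [pos]
  omega

open Classical in
/-- The sequence with letters 3 at the positions `pos g t` and letters 2 elsewhere. -/
noncomputable def seq (g : ℕ → ℕ) : ℕ → A4 := fun i => if ∃ t, pos g t = i then 3 else 2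

theorem seq_good (g : ℕ → ℕ) : Good (seq g) := by
  intro i
  unfold seq
  split_ifs
  · exact Or.inr rfl
  · exact Or.inl rfl

theorem seq_three (g : ℕ → ℕ) (i : ℕ) : seq g i = 3 ↔ ∃ t, pos g t = i := by
  unfold seq
  split_ifs with h
  · simp [h]
  · simp only [h, iff_false]; decide

theorem seq_two (g : ℕ → ℕ) (i : ℕ) : seq g i = 2 ↔ ¬ ∃ t, pos g t = i := by
  unfold seq
  split_ifs with h
  · simp only [h, not_true_eq_false, iff_false]; decide
  · simp [h]

theorem pat_seq (g : ℕ → ℕ) (n m : ℕ) : Pat (seq g) n m ↔ ∃ t, pos g t = m ∧ g t = n := by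
  unfold Pat
  simp only [seq_three, seq_two]
  constructor
  · rintro ⟨⟨t, rfl⟩, h2, ⟨t', h3⟩⟩
    refine ⟨t, rfl, ?_⟩
    have hs : pos g (t + 1) = pos g t + g t + 1 := rfl
    have htt : t < t' := by
      by_contra hle
      have := (pos_strictMono g).monotone (Nat.not_lt.1 hle)
      omega
    have hle := (pos_strictMono g).monotone (show t + 1 ≤ t' from htt)
    by_contra hne
    have hlt : g t < n := by omega
    exact h2 (g t) hlt ⟨t + 1, by omega⟩
  · rintro ⟨t, rfl, rfl⟩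
    refine ⟨⟨t, rfl⟩, ?_, ⟨t + 1, by simp only [pos]; omega⟩⟩
    rintro i hi ⟨t', h⟩
    have hs : pos g (t + 1) = pos g t + g t + 1 := rfl
    have h1 : t < t' := by
      by_contra hle
      have := (pos_strictMono g).monotone (Nat.not_lt.1 hle)
      omega
    have hle := (pos_strictMono g).monotone (show t + 1 ≤ t' from h1)
    omega

theorem exists_seq (A : ℕ → Prop) : ∃ ξ : ℕ → A4, Good ξ ∧
    ∀ n, A n ↔ ∀ N, ∃ m, N ≤ m ∧ Pat ξ n m := by
  classical
  by_cases hA : ∃ a, A a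
  · obtain ⟨a, ha⟩ := hA
    let g : ℕ → ℕ := fun t => if A t.unpair.1 then t.unpair.1 else a
    refine ⟨seq g, seq_good g, fun n => ?_⟩
    constructor
    · intro hn N
      have hg : g (Nat.pair n N) = n := by
        simp only [g, Nat.unpair_pair]
        rw [if_pos hn]
      refine ⟨pos g (Nat.pair n N), ?_, (pat_seq g n _).2 ⟨_, rfl, hg⟩⟩
      exact (Nat.right_le_pair n N).trans ((pos_strictMono g).id_le _)
    · intro h
      obtain ⟨m, _, hp⟩ := h 0
      obtain ⟨t, _, hg⟩ := (pat_seq g n m).1 hp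
      rw [← hg]
      simp only [g]
      split_ifs with h
      · exact h
      · exact ha
  · push Not at hA
    refine ⟨fun _ => 2, fun _ => Or.inl rfl, fun n => ⟨fun h => absurd h (hA n), fun h => ?_⟩⟩
    obtain ⟨m, _, hp, _⟩ := h 0
    exact absurd (show (2 : A4) = 3 from hp) (by decide)

/-- Every set of natural numbers is many-one reducible to the monadic second-order theory of one
of the Schreier graphs. -/
theorem exists_hard (A : ℕ → Prop) : ∃ ξ : ℕ → A4, A ≤₀ MSOTheory (schreier GG gen ξ) := by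
  obtain ⟨ξ, hξ, h⟩ := exists_seq A
  refine ⟨ξ, fun n => (fΦ n).code, code_fΦ_primrec.to_comp, fun n => ?_⟩
  rw [theory_code, Φ_iff hξ, h]

theorem exists_undecidable : ∃ ξ : ℕ → A4, ¬ ComputablePred (MSOTheory (schreier GG gen ξ)) := by
  obtain ⟨ξ, hξ⟩ := exists_hard (fun c => (Nat.Partrec.Code.eval (Nat.Partrec.Code.ofNatCode c) 0).Dom)
  refine ⟨ξ, fun hc => ?_⟩
  have h1 := ComputablePred.computable_of_manyOneReducible hξ hc
  apply ComputablePred.halting_problem 0
  have h2 : ManyOneReducible (fun c : Nat.Partrec.Code => (c.eval 0).Dom)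
      (fun n : ℕ => (Nat.Partrec.Code.eval (Nat.Partrec.Code.ofNatCode n) 0).Dom) := by
    refine ⟨Encodable.encode, Computable.encode, fun c => ?_⟩
    have : Nat.Partrec.Code.ofNatCode (Encodable.encode c) = c := Denumerable.ofNat_encode c
    simp only [this]
  exact ComputablePred.computable_of_manyOneReducible h2 h1

end SchreierMSO
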