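import Mathlib

/-!
Substitutive subshifts, codes of context-free grammars, and a soundness principle for
context-free derivations.
-/

set_option autoImplicit false

namespace Pool.Agent.H669R3.SS

/-- A code of a context-free grammar with terminal alphabet `T`: the start symbol and the list of
rules; a rule is a nonterminal together with a word whose letters are terminals (`Sum.inl`) or
nonterminals (`Sum.inr`). Nonterminals are natural numbers. -/
abbrev GCode (T : Type) : Type := ℕ × List (ℕ × List (T ⊕ ℕ))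

/-- a coded symbol as a symbol in the sense of Mathlib -/
def toSym {T : Type} : T ⊕ ℕ → Symbol T ℕ
  | Sum.inl t => Symbol.terminal t
  | Sum.inr n => Symbol.nonterminal n

/-- the context-free grammar (in the sense of Mathlib) with a given code -/
def gram {T : Type} [DecidableEq T] (c : GCode T) : ContextFreeGrammar T where
  NT := ℕ
  initial := c.1
  rules := (c.2.map fun r => (⟨r.1, r.2.map toSym⟩ : ContextFreeRule T ℕ)).toFinset

/-- the extension of a substitution to words -/
def ext {S : Type} (τ : S → List S) (w : List S) : List S := w.flatMap τ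

/-- the subword `x_i ... x_(i+n-1)` of a two-sided infinite word -/
def window {S : Type} (x : ℤ → S) (i : ℤ) (n : ℕ) : List S :=
  (List.range n).map fun k : ℕ => x (i + k)

/-- the subshift generated by a substitution: the two-sided infinite words all of whose finite
subwords are subwords of some `τ^k(a)` -/
def subshift {S : Type} (τ : S → List S) : Set (ℤ → S) :=
  {x | ∀ (i : ℤ) (n : ℕ), ∃ (k : ℕ) (a : S), window x i n <:+: (ext τ)^[k] [a]}

/-- the language of a subshift: the finite subwords of its points -/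
def factors {S : Type} (X : Set (ℤ → S)) : Set (List S) :=
  {w | ∃ x ∈ X, ∃ (i : ℤ) (n : ℕ), w = window x i n}

/-! ### soundness principle -/

variable {T : Type}

/-- the words attached to a sentential form, given sets of words for the nonterminals -/
def sem {N : Type} (D : N → Set (List T)) : List (Symbol T N) → Set (List T)
  | [] => {[]}
  | Symbol.terminal t :: x => {w | ∃ u ∈ sem D x, w = t :: u}
  | Symbol.nonterminal n :: x => {w | ∃ u ∈ D n, ∃ v ∈ sem D x, w = u ++ v}

theorem sem_append {N : Type} (D : N → Set (List T)) (x y : List (Symbol T N)) (w : List T) :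
    w ∈ sem D (x ++ y) ↔ ∃ u ∈ sem D x, ∃ v ∈ sem D y, w = u ++ v := by
  induction x generalizing w with
  | nil =>
    simp [sem]
  | cons s x ih =>
    cases s with
    | terminal t =>
      simp only [List.cons_append, sem, Set.mem_ofPred_eq]
      constructor
      · rintro ⟨u, hu, rfl⟩
        obtain ⟨u1, h1, u2, h2, rfl⟩ := (ih u).1 hu
        exact ⟨t :: u1, ⟨u1, h1, rfl⟩, u2, h2, rfl⟩
      · rintro ⟨_, ⟨u1, h1, rfl⟩, u2, h2, rfl⟩
        exact ⟨u1 ++ u2, (ih _).2 ⟨u1, h1, u2, h2, rfl⟩, rfl⟩
    | nonterminal n =>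
      simp only [List.cons_append, sem, Set.mem_ofPred_eq]
      constructor
      · rintro ⟨u, hu, v, hv, rfl⟩
        obtain ⟨u1, h1, u2, h2, rfl⟩ := (ih v).1 hv
        exact ⟨u ++ u1, ⟨u, hu, u1, h1, rfl⟩, u2, h2, by simp⟩
      · rintro ⟨_, ⟨u, hu, u1, h1, rfl⟩, u2, h2, rfl⟩
        exact ⟨u, hu, u1 ++ u2, (ih _).2 ⟨u1, h1, u2, h2, rfl⟩, by simp⟩

theorem sem_terminal {N : Type} (D : N → Set (List T)) (w : List T) :
    w ∈ sem D (w.map Symbol.terminal) := by
  induction w with
  | nil => simp [sem]
  | cons a w ih => exact ⟨w, ih, rfl⟩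

theorem sound {g : ContextFreeGrammar T} (D : g.NT → Set (List T))
    (h : ∀ r ∈ g.rules, ∀ u ∈ sem D r.output, u ∈ D r.input) {x y : List (Symbol T g.NT)}
    (hd : g.Derives x y) : ∀ w ∈ sem D y, w ∈ sem D x := by
  induction hd with
  | refl => exact fun _ h => h
  | tail _ last ih =>
    intro w hw
    apply ih
    obtain ⟨r, hr, hrw⟩ := last
    obtain ⟨p, q, rfl, rfl⟩ := hrw.exists_parts
    rw [sem_append] at hw ⊢
    obtain ⟨u, hu, v, hv, rfl⟩ := hw
    rw [sem_append] at hu
    obtain ⟨u1, hu1, u2, hu2, rfl⟩ := hu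
    refine ⟨u1 ++ u2, ?_, v, hv, rfl⟩
    rw [sem_append]
    refine ⟨u1, hu1, u2, ?_, rfl⟩
    exact ⟨u2, h r hr u2 hu2, [], rfl, by simp⟩

theorem mem_of_language {g : ContextFreeGrammar T} (D : g.NT → Set (List T))
    (h : ∀ r ∈ g.rules, ∀ u ∈ sem D r.output, u ∈ D r.input) {w : List T}
    (hw : w ∈ g.language) : w ∈ D g.initial := by
  have h1 := sound D h hw w (sem_terminal D w)
  obtain ⟨u, hu, v, hv, rfl⟩ := h1
  rw [sem, Set.mem_singleton_iff] at hv
  subst hv
  simpa using hu

theorem mem_rules [DecidableEq T] {c : GCode T} {r : ContextFreeRule T ℕ} :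
    r ∈ (gram c).rules ↔ ∃ p ∈ c.2, (⟨p.1, p.2.map toSym⟩ : ContextFreeRule T ℕ) = r := by
  have : (gram c).rules =
    (c.2.map fun r => (⟨r.1, r.2.map toSym⟩ : ContextFreeRule T ℕ)).toFinset := rfl
  rw [this]
  exact (List.mem_toFinset).trans List.mem_map

/-- a single rule applied to its left-hand side -/
theorem derives_rule [DecidableEq T] {c : GCode T} {n : ℕ} {o : List (T ⊕ ℕ)}
    (h : (n, o) ∈ c.2) : (gram c).Derives [Symbol.nonterminal n] (o.map toSym) := by
  refine ContextFreeGrammar.Produces.single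
    ⟨(⟨n, o.map toSym⟩ : ContextFreeRule T ℕ), ?_, ?_⟩
  · exact mem_rules.2 ⟨(n, o), h, rfl⟩
  · exact ContextFreeRule.Rewrites.input_output

end Pool.Agent.H669R3.SS
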