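import Mathlib
import Pool.Agent.H669R3.SSDef
import Pool.Agent.Helper707.Num

/-!
A substitution whose subshift has undecidable context-free model checking.
-/

set_option autoImplicit false

namespace Pool.Agent.H669R3.SS

open List Pool.Agent.Helper707.Rel

/-- the alphabet is `Fin 5` with letters `c = 0`, `s = 1`, `a = 2`, `b = 3`, `d = 4`; the
substitution is `c → c`, `s → c s b d`, `a → a`, `b → a b`, `d → a d` -/
def tau : Fin 5 → List (Fin 5) := ![[0], [0, 1, 3, 4], [2], [2, 3], [2, 4]]

/-- the block `a^i b a^i d` -/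
def blk (i : ℕ) : List (Fin 5) := replicate i 2 ++ 3 :: (replicate i 2 ++ [4])

/-- `j` successive blocks starting with block `i` -/
def V (i : ℕ) : ℕ → List (Fin 5)
  | 0 => []
  | j + 1 => blk i ++ V (i + 1) j

theorem ext_append (u v : List (Fin 5)) : ext tau (u ++ v) = ext tau u ++ ext tau v := by
  simp [ext]

theorem ext_a (i : ℕ) : ext tau (replicate i 2) = replicate i 2 := by
  induction i with
  | zero => rfl
  | succ i ih =>
    rw [replicate_succ, show (2 : Fin 5) :: replicate i 2 = [2] ++ replicate i 2 from rfl,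
      ext_append, ih]
    rfl

theorem ext_c (i : ℕ) : ext tau (replicate i 0) = replicate i 0 := by
  induction i with
  | zero => rfl
  | succ i ih =>
    rw [replicate_succ, show (0 : Fin 5) :: replicate i 0 = [0] ++ replicate i 0 from rfl,
      ext_append, ih]
    rfl

theorem rep_snoc {α : Type} (i : ℕ) (x : α) (l : List α) :
    replicate i x ++ x :: l = replicate (i + 1) x ++ l := by
  rw [replicate_succ', append_assoc]; rfl

theorem ext_blk (i : ℕ) : ext tau (blk i) = blk (i + 1) := by
  unfold blk
  rw [ext_append, ext_a, show (3 : Fin 5) :: (replicate i 2 ++ [4]) = [3] ++ (replicate i 2 ++ [4])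
    from rfl, ext_append, ext_append, ext_a]
  have h3 : ext tau [3] = [2, 3] := rfl
  have h4 : ext tau [4] = [2, 4] := rfl
  rw [h3, h4, rep_snoc]
  have : ([2, 3] : List (Fin 5)) ++ (replicate (i + 1) 2 ++ [4])
    = 2 :: (3 :: (replicate (i + 1) 2 ++ [4])) := rfl
  rw [this, rep_snoc]

theorem ext_V (i j : ℕ) : ext tau (V i j) = V (i + 1) j := by
  induction j generalizing i with
  | zero => rfl
  | succ j ih => rw [V, ext_append, ext_blk, ih]; rfl

theorem iter_s (k : ℕ) : (ext tau)^[k] [1] = replicate k 0 ++ 1 :: V 0 k := by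
  induction k with
  | zero => rfl
  | succ k ih =>
    rw [Function.iterate_succ_apply', ih, ext_append, ext_c,
      show (1 : Fin 5) :: V 0 k = [1] ++ V 0 k from rfl, ext_append, ext_V]
    have : ext tau [1] = [0, 1, 3, 4] := rfl
    rw [this]
    have : ([0, 1, 3, 4] : List (Fin 5)) ++ V (0 + 1) k = 0 :: (1 :: V 0 (k + 1)) := rfl
    rw [this, rep_snoc]

theorem one_notMem_blk (i : ℕ) : (1 : Fin 5) ∉ blk i := by
  unfold blk
  simp only [mem_append, mem_cons, mem_replicate]
  rintro (⟨_, h⟩ | h | ⟨_, h⟩ | h | h) <;> revert h <;> simp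

theorem one_notMem_V (i j : ℕ) : (1 : Fin 5) ∉ V i j := by
  induction j generalizing i with
  | zero => simp [V]
  | succ j ih =>
    rw [V, mem_append]
    rintro (h | h)
    · exact one_notMem_blk _ h
    · exact ih _ h

theorem iter_c (k : ℕ) : (ext tau)^[k] [0] = [0] := by
  induction k with
  | zero => rfl
  | succ k ih => rw [Function.iterate_succ_apply', ih]; rfl

theorem iter_a (k : ℕ) : (ext tau)^[k] [2] = [2] := by
  induction k with
  | zero => rfl
  | succ k ih => rw [Function.iterate_succ_apply', ih]; rfl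

theorem iter_b (k : ℕ) : (ext tau)^[k] [3] = replicate k 2 ++ [3] := by
  induction k with
  | zero => rfl
  | succ k ih =>
    rw [Function.iterate_succ_apply', ih, ext_append, ext_a]
    have : ext tau [3] = [2, 3] := rfl
    rw [this, rep_snoc]

theorem iter_d (k : ℕ) : (ext tau)^[k] [4] = replicate k 2 ++ [4] := by
  induction k with
  | zero => rfl
  | succ k ih =>
    rw [Function.iterate_succ_apply', ih, ext_append, ext_a]
    have : ext tau [4] = [2, 4] := rfl
    rw [this, rep_snoc]

/-- factors of the subshift starting with `s` are `s` followed by a starting piece of the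
sequence of blocks -/
theorem start_of_factor {u : List (Fin 5)} (h : (1 :: u) ∈ factors (subshift tau)) :
    ∃ k, u <+: V 0 k := by
  obtain ⟨x, hx, i, n, hw⟩ := h
  obtain ⟨k, l, hl⟩ := hx i n
  rw [← hw] at hl
  have h1 : (1 : Fin 5) ∈ (ext tau)^[k] [l] := hl.subset (mem_cons_self)
  obtain ⟨p, q, hpq⟩ := hl
  fin_cases l
  · exfalso
    change (1 : Fin 5) ∈ (ext tau)^[k] [0] at h1
    rw [iter_c] at h1
    simp at h1
  · change p ++ 1 :: u ++ q = (ext tau)^[k] [1] at hpq
    rw [iter_s, append_assoc, cons_append] at hpq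
    have n1 : (1 : Fin 5) ∉ replicate k (0 : Fin 5) := by
      rw [mem_replicate]; rintro ⟨_, h⟩; revert h; simp
    have := (List.append_cons_inj_of_notMem n1 (one_notMem_V 0 k)).1 hpq.symm
    exact ⟨k, ⟨q, this.2.2.symm⟩⟩
  · exfalso
    change (1 : Fin 5) ∈ (ext tau)^[k] [2] at h1
    rw [iter_a] at h1
    simp at h1
  · exfalso
    change (1 : Fin 5) ∈ (ext tau)^[k] [3] at h1
    rw [iter_b, mem_append, mem_replicate] at h1
    simp at h1
  · exfalso
    change (1 : Fin 5) ∈ (ext tau)^[k] [4] at h1
    rw [iter_d, mem_append, mem_replicate] at h1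
    simp at h1

end Pool.Agent.H669R3.SS
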