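import Mathlib
import Pool.Agent.H669R3.SSMain

/-!
The point of the subshift containing the whole sequence of blocks.
-/

set_option autoImplicit false

namespace Pool.Agent.H669R3.SS

open List

theorem window_add {S : Type} (x : ℤ → S) (i : ℤ) (m n : ℕ) :
    window x i (m + n) = window x i m ++ window x (i + m) n := by
  unfold window
  rw [range_add, map_append, map_map]
  congr 1
  apply map_congr_left
  intro k _
  simp only [Function.comp]
  congr 1
  push_cast
  ring

theorem length_window {S : Type} (x : ℤ → S) (i : ℤ) (n : ℕ) : (window x i n).length = n := by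
  simp [window]

theorem window_infix {S : Type} (x : ℤ → S) (i i' : ℤ) (n n' : ℕ) (h1 : i' ≤ i)
    (h2 : i + n ≤ i' + n') : window x i n <:+: window x i' n' := by
  obtain ⟨p, hp⟩ : ∃ p : ℕ, i = i' + p := ⟨(i - i').toNat, by omega⟩
  obtain ⟨q, hq⟩ : ∃ q : ℕ, n' = p + (n + q) := ⟨n' - p - n, by omega⟩
  subst hp hq
  rw [window_add, window_add]
  exact ⟨window x i' p, window x (i' + p + n) q, by rw [append_assoc]⟩

theorem V_add (i j k : ℕ) : V i (j + k) = V i j ++ V (i + j) k := by
  induction j generalizing i with
  | zero => simp [V]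
  | succ j ih =>
    rw [show j + 1 + k = (j + k) + 1 by ring, V, ih (i + 1), V, append_assoc]
    congr 3
    ring

theorem le_length_V (i j : ℕ) : 2 * j ≤ (V i j).length := by
  induction j generalizing i with
  | zero => simp
  | succ j ih =>
    rw [V, length_append]
    have := ih (i + 1)
    have : 2 ≤ (blk i).length := by simp [blk]; omega
    omega

/-- the point -/
def pt : ℤ → Fin 5
  | Int.ofNat n => ((1 :: V 0 n)[n]?).getD 0
  | Int.negSucc _ => 0

theorem get_aux {k n : ℕ} (h : n < (1 :: V 0 k).length) :
    ((1 : Fin 5) :: V 0 k)[n]? = some (pt (n : ℤ)) := by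
  have hn : n < ((1 : Fin 5) :: V 0 n).length := by
    have := le_length_V 0 n
    simp only [length_cons]
    omega
  have key : ((1 : Fin 5) :: V 0 k)[n]? = ((1 : Fin 5) :: V 0 n)[n]? := by
    rcases le_total n k with hk | hk
    · obtain ⟨d, rfl⟩ := Nat.exists_eq_add_of_le hk
      rw [V_add, ← cons_append, getElem?_append_left hn]
    · obtain ⟨d, rfl⟩ := Nat.exists_eq_add_of_le hk
      rw [V_add, ← cons_append, getElem?_append_left h]
  rw [key]
  change _ = some ((((1 : Fin 5) :: V 0 n)[n]?).getD 0)
  rw [getElem?_eq_getElem hn]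
  rfl

theorem window_pos (k : ℕ) : window pt 0 (1 :: V 0 k).length = 1 :: V 0 k := by
  apply List.ext_getElem?
  intro n
  by_cases hn : n < ((1 : Fin 5) :: V 0 k).length
  · rw [get_aux hn]
    unfold window
    rw [getElem?_map, getElem?_range hn]
    simp
  · rw [getElem?_eq_none (by rw [length_window]; omega), getElem?_eq_none (by omega)]

theorem window_neg (k : ℕ) : window pt (-k) k = replicate k 0 := by
  apply List.ext_getElem?
  intro n
  by_cases hn : n < k
  · unfold window
    rw [getElem?_map, getElem?_range hn, getElem?_replicate, if_pos hn]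
    simp only [Option.map_some]
    congr 1
    obtain ⟨m, hm⟩ : ∃ m : ℕ, (-(k : ℤ) + n) = Int.negSucc m := by
      refine ⟨k - n - 1, ?_⟩
      rw [Int.negSucc_eq]
      omega
    rw [hm]
    rfl
  · rw [getElem?_eq_none (by rw [length_window]; omega),
      getElem?_eq_none (by rw [length_replicate]; omega)]

theorem window_all (k : ℕ) : window pt (-k) (k + (1 :: V 0 k).length)
    = replicate k 0 ++ 1 :: V 0 k := by
  rw [window_add, window_neg]
  congr 1
  rw [neg_add_cancel]
  exact window_pos k

theorem pt_mem : pt ∈ subshift tau := by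
  intro i n
  refine ⟨i.natAbs + n, 1, ?_⟩
  rw [iter_s, ← window_all]
  have := le_length_V 0 (i.natAbs + n)
  apply window_infix
  · omega
  · simp only [length_cons]
    omega

theorem start_mem (k : ℕ) : (1 :: V 0 k) ∈ factors (subshift tau) :=
  ⟨pt, pt_mem, 0, _, (window_pos k).symm⟩

end Pool.Agent.H669R3.SS
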