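import Mathlib
import Pool.Agent.H669R3.SSPoint

/-!
The grammars which simulate a generalised Collatz map on the sequence of blocks.
-/

set_option autoImplicit false

namespace Pool.Agent.H669R3.SS

open List Pool.Agent.Helper707.Rel

/-- the rules attached to a residue -/
def resRules (Y : Sys) (ρ : ℕ) : List (ℕ × List (Fin 5 ⊕ ℕ)) :=
  if Y.H ρ = true then [(5, replicate ρ (Sum.inl 2) ++ [Sum.inl 4])] else
    [(2, [Sum.inr 3, Sum.inr (6 + ρ), Sum.inr 2]),
      (6 + ρ, replicate Y.m (Sum.inl 2) ++ Sum.inr (6 + ρ) :: replicate (Y.a ρ) (Sum.inl 2)),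
      (6 + ρ, replicate ρ (Sum.inl 2) ++ Sum.inl 4 :: replicate (Y.e ρ) (Sum.inl 2))]

/-- the rules which do not depend on the input -/
def fixedRules (Y : Sys) : List (ℕ × List (Fin 5 ⊕ ℕ)) :=
  [(0, [Sum.inl 1, Sum.inr 1]),
    (1, [Sum.inr 3, Sum.inl 4, Sum.inr 1]),
    (1, [Sum.inr 3, Sum.inr 4, Sum.inr 2]),
    (2, [Sum.inr 3, Sum.inr 5]),
    (3, [Sum.inl 2, Sum.inr 3, Sum.inl 2]),
    (3, [Sum.inl 3]),
    (5, replicate Y.m (Sum.inl 2) ++ [Sum.inr 5])] ++ (range Y.m).flatMap (resRules Y)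

/-- the grammar code for the input `N` -/
def code (Y : Sys) (N : ℕ) : GCode (Fin 5) :=
  (0, (4, Sum.inl 4 :: replicate N (Sum.inl 2)) :: fixedRules Y)

/-- the meaning of the nonterminals -/
def D (Y : Sys) (N : ℕ) : ℕ → Set (List (Fin 5))
  | 0 => {w | ∃ u, w = 1 :: u ∧ ∀ i j, u <+: V i j → Y.Halts N}
  | 1 => {u | ∀ i j, u <+: V i j → Y.Halts N}
  | 2 => {u | ∀ i t j, (replicate t 2 ++ u) <+: V i j → Y.Halts t}
  | 3 => {u | ∃ m, u = replicate m 2 ++ 3 :: replicate m 2}
  | 4 => {u | u = 4 :: replicate N 2}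
  | 5 => {u | ∃ t, Y.H (t % Y.m) = true ∧ u = replicate t 2 ++ [4]}
  | ρ + 6 => {u | ∃ q, u = replicate (Y.m * q + ρ) 2 ++ 4 :: replicate (Y.a ρ * q + Y.e ρ) 2}

theorem sem_inl {N : ℕ → Set (List (Fin 5))} (t : Fin 5) (x : List (Fin 5 ⊕ ℕ))
    (w : List (Fin 5)) : w ∈ sem N ((Sum.inl t :: x).map toSym) ↔
      ∃ u ∈ sem N (x.map toSym), w = t :: u := Iff.rfl

theorem sem_inr {N : ℕ → Set (List (Fin 5))} (n : ℕ) (x : List (Fin 5 ⊕ ℕ))
    (w : List (Fin 5)) : w ∈ sem N ((Sum.inr n :: x).map toSym) ↔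
      ∃ u ∈ N n, ∃ v ∈ sem N (x.map toSym), w = u ++ v := Iff.rfl

theorem sem_nil {N : ℕ → Set (List (Fin 5))} (w : List (Fin 5)) :
    w ∈ sem N (([] : List (Fin 5 ⊕ ℕ)).map toSym) ↔ w = [] := Iff.rfl

theorem sem_rep {N : ℕ → Set (List (Fin 5))} (k : ℕ) (t : Fin 5) (x : List (Fin 5 ⊕ ℕ))
    (w : List (Fin 5)) : w ∈ sem N ((replicate k (Sum.inl t) ++ x).map toSym) ↔
      ∃ u ∈ sem N (x.map toSym), w = replicate k t ++ u := by
  induction k generalizing w with
  | zero => simp
  | succ k ih =>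
    rw [replicate_succ, cons_append, sem_inl]
    constructor
    · rintro ⟨u, hu, rfl⟩
      obtain ⟨v, hv, rfl⟩ := (ih u).1 hu
      exact ⟨v, hv, rfl⟩
    · rintro ⟨v, hv, rfl⟩
      exact ⟨replicate k t ++ v, (ih _).2 ⟨v, hv, rfl⟩, rfl⟩

/-- comparison of runs -/
theorem half {c c' : Fin 5} (hc : c ≠ 2) (hc' : c' ≠ 2) {u v : List (Fin 5)} :
    ∀ {k i : ℕ}, replicate k 2 ++ c :: u = replicate i 2 ++ c' :: v → k = i ∧ u = v
  | 0, 0, h => by
    simp only [replicate_zero, nil_append, cons.injEq] at h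
    exact ⟨rfl, h.2⟩
  | 0, i + 1, h => by
    simp only [replicate_zero, nil_append, replicate_succ, cons_append, cons.injEq] at h
    exact absurd h.1 hc
  | k + 1, 0, h => by
    simp only [replicate_zero, nil_append, replicate_succ, cons_append, cons.injEq] at h
    exact absurd h.1.symm hc'
  | k + 1, i + 1, h => by
    simp only [replicate_succ, cons_append, cons.injEq, true_and] at h
    obtain ⟨h1, h2⟩ := half hc hc' h
    exact ⟨by omega, h2⟩

theorem half2 {c c' : Fin 5} (hc : c ≠ 2) (hc' : c' ≠ 2) {u v : List (Fin 5)} {t m i : ℕ}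
    (h : replicate t 2 ++ (replicate m 2 ++ c :: u) = replicate i 2 ++ c' :: v) :
    t + m = i ∧ u = v := by
  rw [← append_assoc, replicate_append_replicate] at h
  exact half hc hc' h

/-- reading one pair of half blocks -/
theorem peel {t m k i j : ℕ} {u : List (Fin 5)}
    (h : (replicate t 2 ++ (replicate m 2 ++ 3 :: (replicate m 2 ++
      (replicate k 2 ++ 4 :: u)))) <+: V i j) :
    k = t ∧ ∃ j', u <+: V (i + 1) j' := by
  obtain ⟨z, hz⟩ := h
  cases j with
  | zero =>
    exfalso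
    simp [V] at hz
  | succ j =>
    simp only [V, blk, append_assoc, cons_append, nil_append] at hz
    obtain ⟨h1, h2⟩ := half2 (by decide) (by decide) hz
    obtain ⟨h3, h4⟩ := half2 (by decide) (by decide) h2
    exact ⟨by omega, j, z, h4⟩

theorem D_sound (Y : Sys) (N : ℕ) : ∀ r ∈ (gram (code Y N)).rules,
    ∀ u ∈ sem (D Y N) r.output, u ∈ D Y N r.input := by
  intro r hr
  obtain ⟨p, hp, rfl⟩ := mem_rules.1 hr
  simp only [code, fixedRules, mem_cons, mem_append, mem_flatMap, List.mem_range,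
    not_mem_nil, or_false, or_assoc] at hp
  rcases hp with rfl | rfl | rfl | rfl | rfl | rfl | rfl | rfl | ⟨ρ, hρ, hp⟩
  · -- J
    intro u hu
    simp only at hu ⊢
    rw [sem_inl] at hu
    obtain ⟨v, hv, rfl⟩ := hu
    have h2 := (sem_rep N 2 [] v).1 (by rwa [append_nil])
    obtain ⟨w, hw, rfl⟩ := h2
    rw [sem_nil] at hw
    subst hw
    simp [D]
  · -- start
    intro u hu
    simp only at hu ⊢
    rw [sem_inl] at hu
    obtain ⟨v, hv, rfl⟩ := hu
    rw [sem_inr] at hv
    obtain ⟨v, hv, w, hw, rfl⟩ := hv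
    rw [sem_nil] at hw
    subst hw
    exact ⟨v, by simp, hv⟩
  · -- A0 -> I d A0
    intro u hu
    simp only at hu ⊢
    rw [sem_inr] at hu
    obtain ⟨u1, ⟨m, rfl⟩, v, hv, rfl⟩ := hu
    rw [sem_inl] at hv
    obtain ⟨v, hv, rfl⟩ := hv
    rw [sem_inr] at hv
    obtain ⟨v, hv, w, hw, rfl⟩ := hv
    rw [sem_nil] at hw
    subst hw
    intro i j hij
    have : (replicate 0 2 ++ (replicate m 2 ++ 3 :: (replicate m 2 ++
      (replicate 0 2 ++ 4 :: v)))) <+: V i j := by
      simpa using hij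
    obtain ⟨_, j', hj⟩ := peel this
    exact hv _ _ hj
  · -- A0 -> I J A
    intro u hu
    simp only at hu ⊢
    rw [sem_inr] at hu
    obtain ⟨u1, ⟨m, rfl⟩, v, hv, rfl⟩ := hu
    rw [sem_inr] at hv
    obtain ⟨v1, hv1, v, hv, rfl⟩ := hv
    rw [sem_inr] at hv
    obtain ⟨v, hv, w, hw, rfl⟩ := hv
    rw [sem_nil] at hw
    subst hw
    have hv1' : v1 = 4 :: replicate N 2 := hv1
    subst hv1'
    intro i j hij
    have : (replicate 0 2 ++ (replicate m 2 ++ 3 :: (replicate m 2 ++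
      (replicate 0 2 ++ 4 :: (replicate N 2 ++ v))))) <+: V i j := by
      simpa using hij
    obtain ⟨_, j', hj⟩ := peel this
    exact hv _ _ _ hj
  · -- A -> I E
    intro u hu
    simp only at hu ⊢
    rw [sem_inr] at hu
    obtain ⟨u1, ⟨m, rfl⟩, v, hv, rfl⟩ := hu
    rw [sem_inr] at hv
    obtain ⟨v1, ⟨k, hk, rfl⟩, w, hw, rfl⟩ := hv
    rw [sem_nil] at hw
    subst hw
    intro i t j hij
    have : (replicate t 2 ++ (replicate m 2 ++ 3 :: (replicate m 2 ++
      (replicate k 2 ++ 4 :: [])))) <+: V i j := by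
      simpa using hij
    obtain ⟨rfl, _⟩ := peel this
    exact Sys.Halts.halt _ hk
  · -- I -> a I a
    intro u hu
    simp only at hu ⊢
    rw [sem_inl] at hu
    obtain ⟨u, hu, rfl⟩ := hu
    rw [sem_inr] at hu
    obtain ⟨u1, ⟨m, rfl⟩, v, hv, rfl⟩ := hu
    rw [sem_inl] at hv
    obtain ⟨v, hv, rfl⟩ := hv
    rw [sem_nil] at hv
    subst hv
    refine ⟨m + 1, ?_⟩
    have e : replicate (m + 1) (2 : Fin 5) ++ 3 :: replicate (m + 1) 2
        = (2 :: replicate m 2) ++ 3 :: (replicate m 2 ++ [2]) := by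
      rw [← replicate_succ, ← replicate_succ']
    rw [e]
    simp
  · -- I -> b
    intro u hu
    simp only at hu ⊢
    rw [sem_inl] at hu
    obtain ⟨v, hv, rfl⟩ := hu
    rw [sem_nil] at hv
    subst hv
    exact ⟨0, rfl⟩
  · -- E -> a^m E
    intro u hu
    simp only at hu ⊢
    rw [sem_rep] at hu
    obtain ⟨v, hv, rfl⟩ := hu
    rw [sem_inr] at hv
    obtain ⟨v1, ⟨k, hk, rfl⟩, w, hw, rfl⟩ := hv
    rw [sem_nil] at hw
    subst hw
    refine ⟨Y.m + k, by rw [Nat.add_mod_left]; exact hk, ?_⟩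
    rw [append_nil, ← append_assoc, replicate_append_replicate]
  · -- residue rules
    unfold resRules at hp
    split_ifs at hp with hH
    · rw [List.mem_singleton] at hp
      subst hp
      intro u hu
      simp only at hu ⊢
      rw [sem_rep] at hu
      obtain ⟨v, hv, rfl⟩ := hu
      rw [sem_inl] at hv
      obtain ⟨w, hw, rfl⟩ := hv
      rw [sem_nil] at hw
      subst hw
      exact ⟨ρ, by rw [Nat.mod_eq_of_lt hρ]; exact hH, rfl⟩
    · simp only [mem_cons, not_mem_nil, or_false] at hp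
      rcases hp with rfl | rfl | rfl
      · intro u hu
        simp only at hu ⊢
        rw [sem_inr] at hu
        obtain ⟨u1, ⟨m, rfl⟩, v, hv, rfl⟩ := hu
        rw [sem_inr] at hv
        obtain ⟨v1, hv1, v, hv, rfl⟩ := hv
        rw [sem_inr] at hv
        obtain ⟨v, hv, w, hw, rfl⟩ := hv
        rw [sem_nil] at hw
        subst hw
        rw [add_comm] at hv1
        obtain ⟨q, rfl⟩ := hv1
        intro i t j hij
        have : (replicate t 2 ++ (replicate m 2 ++ 3 :: (replicate m 2 ++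
          (replicate (Y.m * q + ρ) 2 ++ 4 :: (replicate (Y.a ρ * q + Y.e ρ) 2 ++ v))))) <+:
            V i j := by
          simpa using hij
        obtain ⟨rfl, j', hj⟩ := peel this
        have e1 : (Y.m * q + ρ) % Y.m = ρ := by
          rw [Nat.mul_add_mod, Nat.mod_eq_of_lt hρ]
        have e2 : (Y.m * q + ρ) / Y.m = q := by
          rw [Nat.mul_add_div (by omega), Nat.div_eq_of_lt hρ, add_zero]
        refine Sys.Halts.step _ (by rw [e1]; simpa using hH) ?_
        unfold Sys.next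
        rw [e1, e2]
        exact hv _ _ _ hj
      · intro u hu
        simp only at hu ⊢
        rw [sem_rep] at hu
        obtain ⟨v, hv, rfl⟩ := hu
        rw [sem_inr] at hv
        obtain ⟨v1, hv1, w, hw, rfl⟩ := hv
        have hw' := (sem_rep (Y.a ρ) 2 [] w).1 (by rwa [append_nil])
        obtain ⟨w, hw2, rfl⟩ := hw'
        rw [sem_nil] at hw2
        subst hw2
        rw [add_comm] at hv1 ⊢
        obtain ⟨q, rfl⟩ := hv1
        refine ⟨q + 1, ?_⟩
        rw [append_nil, append_assoc, cons_append, replicate_append_replicate, ← append_assoc,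
          replicate_append_replicate]
        congr 2
        · ring
        · congr 1
          ring
      · intro u hu
        simp only at hu ⊢
        rw [sem_rep] at hu
        obtain ⟨v, hv, rfl⟩ := hu
        rw [sem_inl] at hv
        obtain ⟨w, hw, rfl⟩ := hv
        have hw' := (sem_rep (Y.e ρ) 2 [] w).1 (by rwa [append_nil])
        obtain ⟨w, hw2, rfl⟩ := hw'
        rw [sem_nil] at hw2
        subst hw2
        rw [add_comm]
        exact ⟨0, by simp⟩

/-- soundness -/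
theorem halts_of_mem {Y : Sys} {N : ℕ} {w : List (Fin 5)}
    (h1 : w ∈ (gram (code Y N)).language) (h2 : w ∈ factors (subshift tau)) : Y.Halts N := by
  obtain ⟨u, rfl, hu⟩ := mem_of_language (g := gram (code Y N)) (D Y N) (D_sound Y N) h1
  obtain ⟨k, hk⟩ := start_of_factor h2
  exact hu _ _ hk

end Pool.Agent.H669R3.SS
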