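import Mathlib
import Pool.Agent.H669R3.SSGram

/-!
Completeness of the simulation, and the undecidability theorem.
-/

set_option autoImplicit false

namespace Pool.Agent.H669R3.SS

open List Pool.Agent.Helper707.Rel

theorem der_append {T : Type} {g : ContextFreeGrammar T} {x x' y y' : List (Symbol T g.NT)}
    (h : g.Derives x x') (h' : g.Derives y y') : g.Derives (x ++ y) (x' ++ y') :=
  (h.append_right y).trans (h'.append_left x')

/-- words as sentential forms -/
def tw (w : List (Fin 5)) : List (Symbol (Fin 5) ℕ) := w.map Symbol.terminal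

theorem tw_append (u v : List (Fin 5)) : tw (u ++ v) = tw u ++ tw v := by simp [tw]

theorem tw3 (u v w : List (Fin 5)) : tw (u ++ (v ++ w)) = tw u ++ (tw v ++ tw w) := by
  simp [tw]

section
variable {Y : Sys} {N : ℕ}

/-- derivations of the grammar -/
def Der (Y : Sys) (N : ℕ) (x y : List (Symbol (Fin 5) ℕ)) : Prop := (gram (code Y N)).Derives x y

theorem Der.append {x x' y y' : List (Symbol (Fin 5) ℕ)}
    (h : Der Y N x x') (h' : Der Y N y y') : Der Y N (x ++ y) (x' ++ y') :=
  der_append (g := gram (code Y N)) h h'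

theorem Der.trans {x y z : List (Symbol (Fin 5) ℕ)}
    (h : Der Y N x y) (h' : Der Y N y z) : Der Y N x z := Relation.ReflTransGen.trans h h'

theorem Der.refl (x : List (Symbol (Fin 5) ℕ)) : Der Y N x x := Relation.ReflTransGen.refl

theorem Der.rule {n : ℕ} {o : List (Fin 5 ⊕ ℕ)} (h : (n, o) ∈ (code Y N).2) :
    Der Y N [Symbol.nonterminal n] (o.map toSym) := derives_rule h

theorem map_rep (k : ℕ) (t : Fin 5) :
    (replicate k (Sum.inl t : Fin 5 ⊕ ℕ)).map toSym = tw (replicate k t) := by
  simp [tw, toSym]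

theorem I_der (m : ℕ) : Der Y N [Symbol.nonterminal 3] (tw (replicate m 2 ++ 3 :: replicate m 2)) := by
  induction m with
  | zero =>
    have : (3, [Sum.inl 3]) ∈ (code Y N).2 := by simp [code, fixedRules]
    exact Der.rule this
  | succ m ih =>
    have : (3, [Sum.inl 2, Sum.inr 3, Sum.inl 2]) ∈ (code Y N).2 := by simp [code, fixedRules]
    refine (Der.rule this).trans ?_
    have h := Der.append (Der.refl (Y := Y) (N := N) (tw [2])) (Der.append ih (Der.refl (tw [2])))
    have e : tw [2] ++ (tw (replicate m 2 ++ 3 :: replicate m 2) ++ tw [2])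
        = tw (replicate (m + 1) 2 ++ 3 :: replicate (m + 1) 2) := by
      rw [← tw_append, ← tw_append]
      congr 1
      have e : replicate (m + 1) (2 : Fin 5) ++ 3 :: replicate (m + 1) 2
          = (2 :: replicate m 2) ++ 3 :: (replicate m 2 ++ [2]) := by
        rw [← replicate_succ, ← replicate_succ']
      rw [e]
      simp
    rw [e] at h
    exact h

theorem mem_res {ρ : ℕ} (hρ : ρ < Y.m) {r : ℕ × List (Fin 5 ⊕ ℕ)} (h : r ∈ resRules Y ρ) :
    r ∈ (code Y N).2 := by
  simp only [code, fixedRules, mem_cons, mem_append, mem_flatMap, List.mem_range]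
  exact Or.inr (Or.inr ⟨ρ, hρ, h⟩)

theorem F_der {ρ : ℕ} (hρ : ρ < Y.m) (hH : Y.H ρ = false) (q : ℕ) :
    Der Y N [Symbol.nonterminal (6 + ρ)]
      (tw (replicate (Y.m * q + ρ) 2 ++ 4 :: replicate (Y.a ρ * q + Y.e ρ) 2)) := by
  induction q with
  | zero =>
    have : (6 + ρ, replicate ρ (Sum.inl 2) ++ Sum.inl 4 :: replicate (Y.e ρ) (Sum.inl 2))
        ∈ (code Y N).2 := mem_res hρ (by simp [resRules, hH])
    have h := Der.rule this
    rw [map_append, map_cons, map_rep, map_rep] at h
    simp only [mul_zero, zero_add]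
    rw [tw_append]
    exact h
  | succ q ih =>
    have : (6 + ρ, replicate Y.m (Sum.inl 2) ++ Sum.inr (6 + ρ) :: replicate (Y.a ρ) (Sum.inl 2))
        ∈ (code Y N).2 := mem_res hρ (by simp [resRules, hH])
    have h := Der.rule this
    rw [map_append, map_cons, map_rep, map_rep] at h
    refine h.trans ?_
    have h := Der.append (Der.refl (Y := Y) (N := N) (tw (replicate Y.m 2)))
      (Der.append ih (Der.refl (tw (replicate (Y.a ρ) 2))))
    have e : tw (replicate Y.m 2) ++ (tw (replicate (Y.m * q + ρ) 2 ++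
        4 :: replicate (Y.a ρ * q + Y.e ρ) 2) ++ tw (replicate (Y.a ρ) 2))
        = tw (replicate (Y.m * (q + 1) + ρ) 2 ++ 4 :: replicate (Y.a ρ * (q + 1) + Y.e ρ) 2) := by
      rw [← tw_append, ← tw_append]
      congr 1
      rw [append_assoc, cons_append, replicate_append_replicate, ← append_assoc,
        replicate_append_replicate]
      congr 2
      · ring
      · congr 1
        ring
    rw [e] at h
    exact h

theorem E_der {ρ : ℕ} (hρ : ρ < Y.m) (hH : Y.H ρ = true) (q : ℕ) :
    Der Y N [Symbol.nonterminal 5] (tw (replicate (Y.m * q + ρ) 2 ++ [4])) := by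
  induction q with
  | zero =>
    have : (5, replicate ρ (Sum.inl 2) ++ [Sum.inl 4]) ∈ (code Y N).2 :=
      mem_res hρ (by simp [resRules, hH])
    have h := Der.rule this
    rw [map_append, map_rep] at h
    simp only [mul_zero, zero_add]
    rw [tw_append]
    exact h
  | succ q ih =>
    have : (5, replicate Y.m (Sum.inl 2) ++ [Sum.inr 5]) ∈ (code Y N).2 := by
      simp [code, fixedRules]
    have h := Der.rule this
    rw [map_append, map_rep] at h
    refine h.trans ?_
    have h := Der.append (Der.refl (Y := Y) (N := N) (tw (replicate Y.m 2))) ih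
    have e : tw (replicate Y.m 2) ++ tw (replicate (Y.m * q + ρ) 2 ++ [4])
        = tw (replicate (Y.m * (q + 1) + ρ) 2 ++ [4]) := by
      rw [← tw_append, ← append_assoc, replicate_append_replicate]
      congr 3
      ring
    rw [e] at h
    exact h

theorem A_der (hm : 0 < Y.m) {t : ℕ} (ht : Y.Halts t) : ∃ M, ∀ i, M ≤ i → ∃ j u,
    Der Y N [Symbol.nonterminal 2] (tw u) ∧ replicate t 2 ++ u = V i j := by
  induction ht with
  | halt t hH =>
    refine ⟨t, fun i hi => ?_⟩
    obtain ⟨s, rfl⟩ := Nat.exists_eq_add_of_le hi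
    refine ⟨1, (replicate s 2 ++ 3 :: replicate s 2) ++ (replicate t 2 ++ [4]), ?_, ?_⟩
    · have : (2, [Sum.inr 3, Sum.inr 5]) ∈ (code Y N).2 := by simp [code, fixedRules]
      refine (Der.rule this).trans ?_
      have h1 := E_der (N := N) (Nat.mod_lt t hm) hH (t / Y.m)
      rw [Nat.div_add_mod] at h1
      rw [tw_append]
      exact Der.append (I_der s) h1
    · simp only [V, blk, append_assoc, cons_append, append_nil]
      rw [← append_assoc, replicate_append_replicate, ← append_assoc (replicate s 2),
        replicate_append_replicate, Nat.add_comm s t]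
  | step t hH _ ih =>
    obtain ⟨M, hM⟩ := ih
    refine ⟨max t M, fun i hi => ?_⟩
    obtain ⟨s, hs⟩ := Nat.exists_eq_add_of_le (le_trans (le_max_left _ _) hi)
    obtain ⟨j, u, hu, hj⟩ := hM (i + 1) (le_trans (le_trans (le_max_right _ _) hi) (by omega))
    refine ⟨j + 1, (replicate s 2 ++ 3 :: replicate s 2) ++ ((replicate t 2 ++
      4 :: replicate (Y.next t) 2) ++ u), ?_, ?_⟩
    · have : (2, [Sum.inr 3, Sum.inr (6 + t % Y.m), Sum.inr 2]) ∈ (code Y N).2 :=
        mem_res (Nat.mod_lt t hm) (by simp [resRules, hH])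
      refine (Der.rule this).trans ?_
      have h1 := F_der (N := N) (Nat.mod_lt t hm) hH (t / Y.m)
      rw [Nat.div_add_mod] at h1
      rw [tw3 (replicate s 2 ++ 3 :: replicate s 2)]
      exact Der.append (I_der s) (Der.append h1 hu)
    · subst hs
      simp only [V, blk, append_assoc, cons_append, nil_append]
      rw [hj, ← append_assoc, replicate_append_replicate, ← append_assoc (replicate s 2),
        replicate_append_replicate, Nat.add_comm s t]

theorem A0_der (k : ℕ) : ∀ (i : ℕ) (v : List (Fin 5)), Der Y N [Symbol.nonterminal 1] (tw v) →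
    Der Y N [Symbol.nonterminal 1] (tw (V i k ++ v)) := by
  induction k with
  | zero => intro i v h; exact h
  | succ k ih =>
    intro i v h
    have : (1, [Sum.inr 3, Sum.inl 4, Sum.inr 1]) ∈ (code Y N).2 := by simp [code, fixedRules]
    refine (Der.rule this).trans ?_
    have h1 := Der.append (I_der (Y := Y) (N := N) i) (Der.append (Der.refl (tw [4]))
      (ih (i + 1) v h))
    have e : V i (k + 1) ++ v = (replicate i 2 ++ 3 :: replicate i 2) ++ ([4] ++
        (V (i + 1) k ++ v)) := by simp [V, blk]
    rw [e, tw3 (replicate i 2 ++ 3 :: replicate i 2)]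
    exact h1

/-- completeness -/
theorem mem_of_halts (hm : 0 < Y.m) (h : Y.Halts N) :
    ∃ k, (1 :: V 0 k) ∈ (gram (code Y N)).language := by
  obtain ⟨M, hM⟩ := A_der (N := N) hm h
  obtain ⟨j, u, hu, hj⟩ := hM (M + 1) (by omega)
  refine ⟨M + (j + 1), ?_⟩
  have h0 : (0, [Sum.inl 1, Sum.inr 1]) ∈ (code Y N).2 := by simp [code, fixedRules]
  have h1 : (1, [Sum.inr 3, Sum.inr 4, Sum.inr 2]) ∈ (code Y N).2 := by simp [code, fixedRules]
  have h4 : (4, Sum.inl 4 :: replicate N (Sum.inl 2)) ∈ (code Y N).2 := by simp [code]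
  have dJ : Der Y N [Symbol.nonterminal 4] (tw (4 :: replicate N 2)) := by
    have := Der.rule h4
    rw [map_cons, map_rep] at this
    exact this
  have d1 : Der Y N [Symbol.nonterminal 1] (tw (V M (j + 1))) := by
    refine (Der.rule h1).trans ?_
    have e : V M (j + 1) = (replicate M 2 ++ 3 :: replicate M 2) ++ ((4 :: replicate N 2) ++ u) := by
      simp [V, blk, ← hj]
    rw [e, tw3 (replicate M 2 ++ 3 :: replicate M 2)]
    exact Der.append (I_der M) (Der.append dJ hu)
  have d2 := A0_der M 0 _ d1
  have e2 : V 0 M ++ V M (j + 1) = V 0 (M + (j + 1)) := by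
    rw [V_add 0 M (j + 1), Nat.zero_add]
  rw [e2] at d2
  exact (Der.rule h0).trans (Der.append (Der.refl (tw [1])) d2)

/-- the reduction -/
theorem halts_iff (hm : 0 < Y.m) : Y.Halts N ↔
    ∃ w ∈ (gram (code Y N)).language, w ∈ factors (subshift tau) := by
  constructor
  · intro h
    obtain ⟨k, hk⟩ := mem_of_halts hm h
    exact ⟨_, hk, start_mem k⟩
  · rintro ⟨w, h1, h2⟩
    exact halts_of_mem h1 h2

end

/-- the grammar code is computable from the input -/
theorem code_computable (Y : Sys) (S p : ℕ) : Computable (fun x : ℕ => code Y (S * p ^ x)) := by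
  apply Primrec.to_comp
  have hp : Primrec (fun x : ℕ => p ^ x) := by
    have : Primrec (fun x : ℕ => Nat.rec (motive := fun _ => ℕ) 1 (fun _ y => y * p) x) :=
      Primrec.nat_rec₁ 1 (Primrec.nat_mul.comp Primrec.snd (Primrec.const p)).to₂
    refine this.of_eq fun x => ?_
    induction x with
    | zero => rfl
    | succ x ih => rw [pow_succ, ← ih]
  have h0 : Primrec (fun x : ℕ => S * p ^ x) := Primrec.nat_mul.comp (Primrec.const S) hp
  have h1 : Primrec (fun x : ℕ => replicate x (Sum.inl 2 : Fin 5 ⊕ ℕ)) := by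
    have : Primrec (fun x : ℕ => (List.range x).map (fun _ => (Sum.inl 2 : Fin 5 ⊕ ℕ))) :=
      Primrec.list_map Primrec.list_range (Primrec.const _).to₂
    refine this.of_eq fun x => ?_
    simp
  have h2 := h1.comp h0
  exact Primrec.pair (Primrec.const 0) (Primrec.list_cons.comp (Primrec.pair (Primrec.const 4)
    (Primrec.list_cons.comp (Primrec.const _) h2)) (Primrec.const _))

theorem main : ¬ ComputablePred (fun c : GCode (Fin 5) =>
    ∃ w ∈ (gram c).language, w ∈ factors (subshift tau)) := by
  intro h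
  obtain ⟨Y, S, p, hm, hn⟩ := Pool.Agent.Helper707.Num.exists_undecidable_sys
  apply hn
  refine ComputablePred.computable_of_manyOneReducible ?_ h
  exact ⟨_, code_computable Y S p, fun x => halts_iff hm⟩

end Pool.Agent.H669R3.SS
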