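import Mathlib
import Pool.Agent.Helper844.DPRM

/-!
Existential definability of multiplication in the positive integers with `+` and `x * 2 ^ y`.
-/

set_option autoImplicit false

namespace Pool.Agent.H669R3.XP

/-- constraints `x = y + z`, `x = y * 2 ^ z`, `x = 1` -/
abbrev Con (V : Type) : Type := (V × V × V) ⊕ (V × V × V) ⊕ V

/-- truth of a constraint -/
def Holds {V : Type} (v : V → ℕ) : Con V → Prop
  | Sum.inl t => v t.1 = v t.2.1 + v t.2.2
  | Sum.inr (Sum.inl t) => v t.1 = v t.2.1 * 2 ^ v t.2.2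
  | Sum.inr (Sum.inr i) => v i = 1

/-- renaming of variables -/
def cmap {V W : Type} (f : V → W) : Con V → Con W
  | Sum.inl t => Sum.inl (f t.1, f t.2.1, f t.2.2)
  | Sum.inr (Sum.inl t) => Sum.inr (Sum.inl (f t.1, f t.2.1, f t.2.2))
  | Sum.inr (Sum.inr i) => Sum.inr (Sum.inr (f i))

theorem holds_cmap {V W : Type} (f : V → W) (c : Con V) (v : W → ℕ) :
    Holds v (cmap f c) ↔ Holds (v ∘ f) c := by
  rcases c with t | t | i <;> rfl

/-- positivity -/
def Pos {V : Type} (v : V → ℕ) : Prop := ∀ i, 0 < v i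

/-- definable predicates -/
def PD {α : Type} (S : (α → ℕ) → Prop) : Prop :=
  ∃ (β : Type) (_ : Fintype β) (L : List (Con (α ⊕ β))), ∀ v : α → ℕ, Pos v →
    (S v ↔ ∃ y : β → ℕ, Pos y ∧ ∀ c ∈ L, Holds (Sum.elim v y) c)

theorem PD.congr {α : Type} {S T : (α → ℕ) → Prop} (h : PD S)
    (e : ∀ v, Pos v → (T v ↔ S v)) : PD T := by
  obtain ⟨β, i, L, hL⟩ := h
  exact ⟨β, i, L, fun v hv => (e v hv).trans (hL v hv)⟩

theorem PD.base {α : Type} (c : Con α) : PD (fun v => Holds v c) := by
  refine ⟨Empty, inferInstance, [cmap Sum.inl c], fun v _ => ?_⟩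
  constructor
  · intro h
    refine ⟨Empty.elim, fun i => i.elim, ?_⟩
    intro c' hc'
    rw [List.mem_singleton] at hc'
    subst hc'
    rw [holds_cmap]
    exact h
  · rintro ⟨y, _, h⟩
    have := h _ (List.mem_singleton.2 rfl)
    rw [holds_cmap] at this
    exact this

theorem PD.and {α : Type} {S T : (α → ℕ) → Prop} (hS : PD S) (hT : PD T) :
    PD (fun v => S v ∧ T v) := by
  obtain ⟨β₁, i₁, L₁, h₁⟩ := hS
  obtain ⟨β₂, i₂, L₂, h₂⟩ := hT
  refine ⟨β₁ ⊕ β₂, inferInstance, L₁.map (cmap (Sum.map id Sum.inl)) ++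
    L₂.map (cmap (Sum.map id Sum.inr)), fun v hv => ?_⟩
  change (S v ∧ T v) ↔ _
  rw [h₁ v hv, h₂ v hv]
  constructor
  · rintro ⟨⟨y₁, p₁, q₁⟩, ⟨y₂, p₂, q₂⟩⟩
    refine ⟨Sum.elim y₁ y₂, ?_, ?_⟩
    · rintro (i | i)
      · exact p₁ i
      · exact p₂ i
    · intro c hc
      rw [List.mem_append, List.mem_map, List.mem_map] at hc
      rcases hc with ⟨c, hc, rfl⟩ | ⟨c, hc, rfl⟩
      · rw [holds_cmap]
        have := q₁ c hc
        convert this using 1
        funext i
        rcases i with i | i <;> rfl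
      · rw [holds_cmap]
        have := q₂ c hc
        convert this using 1
        funext i
        rcases i with i | i <;> rfl
  · rintro ⟨y, p, q⟩
    refine ⟨⟨y ∘ Sum.inl, fun i => p _, ?_⟩, ⟨y ∘ Sum.inr, fun i => p _, ?_⟩⟩
    · intro c hc
      have := q _ (List.mem_append_left _ (List.mem_map_of_mem hc))
      rw [holds_cmap] at this
      convert this using 1
      funext i
      rcases i with i | i <;> rfl
    · intro c hc
      have := q _ (List.mem_append_right _ (List.mem_map_of_mem hc))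
      rw [holds_cmap] at this
      convert this using 1
      funext i
      rcases i with i | i <;> rfl

theorem PD.exs {α δ : Type} [Fintype δ] {S : (α ⊕ δ → ℕ) → Prop} (h : PD S) :
    PD (fun v : α → ℕ => ∃ t : δ → ℕ, Pos t ∧ S (Sum.elim v t)) := by
  obtain ⟨β, i, L, hL⟩ := h
  refine ⟨δ ⊕ β, inferInstance, L.map (cmap (fun x => match x with
    | Sum.inl (Sum.inl a) => Sum.inl a
    | Sum.inl (Sum.inr d) => Sum.inr (Sum.inl d)
    | Sum.inr b => Sum.inr (Sum.inr b))), fun v hv => ?_⟩
  have pe : ∀ t : δ → ℕ, Pos t → Pos (Sum.elim v t) := by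
    intro t ht i
    rcases i with i | i
    · exact hv i
    · exact ht i
  constructor
  · rintro ⟨t, ht, hS⟩
    obtain ⟨y, hy, hc⟩ := (hL _ (pe t ht)).1 hS
    refine ⟨Sum.elim t y, ?_, ?_⟩
    · rintro (i | i)
      · exact ht i
      · exact hy i
    · intro c hc'
      rw [List.mem_map] at hc'
      obtain ⟨c, hc', rfl⟩ := hc'
      rw [holds_cmap]
      have := hc c hc'
      convert this using 1
      funext i
      rcases i with (i | i) | i <;> rfl
  · rintro ⟨y, hy, hc⟩
    refine ⟨y ∘ Sum.inl, fun i => hy _, ?_⟩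
    refine (hL _ (pe _ (fun i => hy _))).2 ⟨y ∘ Sum.inr, fun i => hy _, ?_⟩
    intro c hc'
    have := hc _ (List.mem_map_of_mem hc')
    rw [holds_cmap] at this
    convert this using 1
    funext i
    rcases i with (i | i) | i <;> rfl

theorem PD.reindex {α β : Type} {S : (α → ℕ) → Prop} (h : PD S) (f : α → β) :
    PD (fun v : β → ℕ => S (v ∘ f)) := by
  obtain ⟨γ, i, L, hL⟩ := h
  refine ⟨γ, i, L.map (cmap (Sum.map f id)), fun v hv => ?_⟩
  change S (v ∘ f) ↔ _
  rw [hL (v ∘ f) (fun i => hv _)]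
  constructor
  · rintro ⟨y, hy, hc⟩
    refine ⟨y, hy, ?_⟩
    intro c hc'
    rw [List.mem_map] at hc'
    obtain ⟨c, hc', rfl⟩ := hc'
    rw [holds_cmap]
    have := hc c hc'
    convert this using 1
    funext i
    rcases i with i | i <;> rfl
  · rintro ⟨y, hy, hc⟩
    refine ⟨y, hy, ?_⟩
    intro c hc'
    have := hc _ (List.mem_map_of_mem hc')
    rw [holds_cmap] at this
    convert this using 1
    funext i
    rcases i with i | i <;> rfl

/-- one existential variable -/
theorem PD.ex {α : Type} {S : ℕ → (α → ℕ) → Prop}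
    (h : PD (fun w : Option α → ℕ => S (w none) (w ∘ some))) :
    PD (fun v : α → ℕ => ∃ x, 0 < x ∧ S x v) := by
  have h' := PD.exs (α := α) (δ := Unit) (PD.reindex h
    (fun o : Option α => match o with | none => Sum.inr () | some a => Sum.inl a))
  refine h'.congr fun v _ => ?_
  constructor
  · rintro ⟨x, hx, hS⟩
    exact ⟨fun _ => x, fun _ => hx, hS⟩
  · rintro ⟨t, ht, hS⟩
    exact ⟨t (), ht (), hS⟩

/-- definable positive functions -/
def PF {α : Type} (f : (α → ℕ) → ℕ) : Prop :=
  (∀ v, Pos v → 0 < f v) ∧ PD (fun w : Option α → ℕ => w none = f (w ∘ some))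

/-- substituting a definable function -/
theorem PD.subst {α : Type} {S : ℕ → (α → ℕ) → Prop} {f : (α → ℕ) → ℕ}
    (h : PD (fun w : Option α → ℕ => S (w none) (w ∘ some))) (hf : PF f) :
    PD (fun v : α → ℕ => S (f v) v) := by
  have := PD.ex (S := fun x v => x = f v ∧ S x v) (PD.and hf.2 h)
  refine this.congr fun v hv => ?_
  constructor
  · intro h
    exact ⟨f v, hf.1 v hv, rfl, h⟩
  · rintro ⟨x, _, rfl, h⟩
    exact h

theorem PD.subst2 {α : Type} {S : ℕ → ℕ → Prop} {f g : (α → ℕ) → ℕ}
    (h : PD (fun w : Bool → ℕ => S (w true) (w false))) (hf : PF f) (hg : PF g) :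
    PD (fun v : α → ℕ => S (f v) (g v)) := by
  have hf' : PF (fun w : Option α → ℕ => f (w ∘ some)) := by
    refine ⟨fun v hv => hf.1 _ (fun i => hv _), ?_⟩
    have := PD.reindex hf.2 (fun o : Option α => match o with
      | none => (none : Option (Option α)) | some a => some (some a))
    exact this
  have h1 : PD (fun w : Option (Option α) → ℕ => S (w none) (w (some none))) := by
    have := PD.reindex h (fun b : Bool => if b then (none : Option (Option α)) else some none)
    exact this
  have h2 := PD.subst (α := Option α) (S := fun x w => S x (w none)) h1 hf'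
  have h3 := PD.subst (α := α) (S := fun x v => S (f v) x) h2 hg
  exact h3

theorem PF.var {α : Type} (i : α) : PF (fun v : α → ℕ => v i) := by
  refine ⟨fun v hv => hv i, ?_⟩
  -- x = y : x + 1 = y + 1
  have h1 : PD (fun w : Option (Option (Option α)) → ℕ => Holds w (Sum.inr (Sum.inr none))) :=
    PD.base _
  have h2 : PD (fun w : Option (Option (Option α)) → ℕ =>
      Holds w (Sum.inl (some none, some (some none), none))) := PD.base _
  have h3 : PD (fun w : Option (Option (Option α)) → ℕ =>
      Holds w (Sum.inl (some none, some (some (some i)), none))) := PD.base _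
  have h4 := PD.ex (α := Option (Option α)) (S := fun x w => x = 1 ∧
    (w none = w (some none) + x ∧ w none = w (some (some i)) + x)) (PD.and h1 (PD.and h2 h3))
  have h5 := PD.ex (α := Option α) (S := fun z w => ∃ x, 0 < x ∧ (x = 1 ∧
    (z = w none + x ∧ z = w (some i) + x))) h4
  refine h5.congr fun w hw => ?_
  constructor
  · intro h
    exact ⟨w none + 1, by omega, 1, by omega, rfl, rfl, by rw [h]; rfl⟩
  · rintro ⟨z, _, x, _, rfl, h1, h2⟩
    change w none = w (some i)
    omega

theorem PF.congr {α : Type} {f g : (α → ℕ) → ℕ} (h : PF f) (e : ∀ v, Pos v → g v = f v) :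
    PF g := by
  refine ⟨fun v hv => by rw [e v hv]; exact h.1 v hv, h.2.congr fun w hw => ?_⟩
  rw [e (w ∘ some) (fun i => hw _)]

theorem PF.lift {α : Type} {f : (α → ℕ) → ℕ} (hf : PF f) :
    PF (fun w : Option α → ℕ => f (w ∘ some)) := by
  refine ⟨fun v hv => hf.1 _ (fun i => hv _), ?_⟩
  have := PD.reindex hf.2 (fun o : Option α => match o with
    | none => (none : Option (Option α)) | some a => some (some a))
  exact this

theorem PF.op {α : Type} {f g : (α → ℕ) → ℕ} {o : ℕ → ℕ → ℕ}
    (ho : ∀ x y, 0 < x → 0 < y → 0 < o x y)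
    (h : PD (fun w : Fin 3 → ℕ => w 0 = o (w 1) (w 2))) (hf : PF f) (hg : PF g) :
    PF (fun v => o (f v) (g v)) := by
  refine ⟨fun v hv => ho _ _ (hf.1 v hv) (hg.1 v hv), ?_⟩
  have hf' := PF.lift hf
  have hg' := PF.lift hg
  have hf'' := PF.lift hf'
  have h1 : PD (fun w : Option (Option (Option α)) → ℕ =>
      w (some (some none)) = o (w none) (w (some none))) := by
    have := PD.reindex h (fun b : Fin 3 => (![some (some none), none, some none] b :
      Option (Option (Option α))))
    exact this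
  have h2 := PD.subst (α := Option (Option α)) (S := fun x w => w (some none) = o x (w none)) h1 hf''
  have h3 := PD.subst (α := Option α) (S := fun x v => v none = o (f (v ∘ some)) x) h2 hg'
  exact h3

theorem PF.add {α : Type} {f g : (α → ℕ) → ℕ} (hf : PF f) (hg : PF g) :
    PF (fun v => f v + g v) :=
  PF.op (o := fun x y => x + y) (fun _ _ h _ => by omega)
    (PD.base (α := Fin 3) (Sum.inl (0, 1, 2))) hf hg

theorem PF.sh {α : Type} {f g : (α → ℕ) → ℕ} (hf : PF f) (hg : PF g) :
    PF (fun v => f v * 2 ^ g v) :=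
  PF.op (o := fun x y => x * 2 ^ y) (fun _ _ h _ => by positivity)
    (PD.base (α := Fin 3) (Sum.inr (Sum.inl (0, 1, 2)))) hf hg

theorem PF.one {α : Type} : PF (fun _ : α → ℕ => 1) :=
  ⟨fun _ _ => Nat.one_pos, PD.base (α := Option α) (Sum.inr (Sum.inr none))⟩

theorem PF.const {α : Type} (n : ℕ) : PF (fun _ : α → ℕ => n + 1) := by
  induction n with
  | zero => exact PF.one
  | succ n ih => exact PF.add ih PF.one

theorem PD.eq {α : Type} {f g : (α → ℕ) → ℕ} (hf : PF f) (hg : PF g) :
    PD (fun v => f v = g v) := by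
  refine PD.subst2 (S := fun x y => x = y) ?_ hf hg
  have h := (PF.var (α := Unit) ()).2
  have := PD.reindex h (fun o : Option Unit => match o with | none => true | some _ => false)
  exact this

theorem PD.lt {α : Type} {f g : (α → ℕ) → ℕ} (hf : PF f) (hg : PF g) :
    PD (fun v => f v < g v) := by
  have h := PD.eq (PF.add (PF.lift hf) (PF.var (none : Option α))) (PF.lift hg)
  have h1 := PD.ex (α := α) (S := fun x v => f v + x = g v) h
  refine h1.congr fun v _ => ?_
  constructor
  · intro h
    exact ⟨g v - f v, by omega, by omega⟩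
  · rintro ⟨x, hx, h⟩
    omega

end Pool.Agent.H669R3.XP
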