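import Mathlib
import Pool.Agent.H669R3.XPDef

/-!
Squares, products and polynomials are definable with `+` and `x * 2 ^ y`.
-/

set_option autoImplicit false

namespace Pool.Agent.H669R3.XP

theorem two_pow_mod (a c : ℕ) : 2 ^ (a * c) ≡ 1 [MOD 2 ^ a - 1] := by
  rw [pow_mul]
  have h : 2 ^ a ≡ 1 [MOD 2 ^ a - 1] := by
    have h1 : 1 ≤ 2 ^ a := Nat.one_le_two_pow
    exact ((Nat.modEq_iff_dvd' h1).2 dvd_rfl).symm
  simpa using h.pow c

theorem dvd_of_pow {a b x : ℕ} (ha : 0 < a) (h : x * 2 ^ a + 1 = x + 2 ^ b) : a ∣ b := by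
  have h1 : 1 ≤ 2 ^ a := Nat.one_le_two_pow
  have h2 : 2 ^ b ≡ 1 [MOD 2 ^ a - 1] := by
    have e : x * (2 ^ a - 1) + 1 = 2 ^ b := by
      have : x * 2 ^ a = x * (2 ^ a - 1) + x := by
        rw [← Nat.mul_succ]; congr 1; omega
      omega
    rw [← e]
    have : x * (2 ^ a - 1) ≡ 0 [MOD 2 ^ a - 1] := (Nat.modEq_zero_iff_dvd).2 (Dvd.intro_left _ rfl)
    simpa using this.add_right 1
  have h3 : 2 ^ b ≡ 2 ^ (b % a) [MOD 2 ^ a - 1] := by
    have e : 2 ^ b = 2 ^ (a * (b / a)) * 2 ^ (b % a) := by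
      rw [← pow_add, Nat.div_add_mod]
    rw [e]
    simpa using (two_pow_mod a (b / a)).mul_right (2 ^ (b % a))
  have h4 : 2 ^ (b % a) ≡ 1 [MOD 2 ^ a - 1] := h3.symm.trans h2
  have hlt : b % a < a := Nat.mod_lt _ ha
  have h5 : 2 ^ (b % a) < 2 ^ a := Nat.pow_lt_pow_right (by norm_num) hlt
  have h6 : 1 ≤ 2 ^ (b % a) := Nat.one_le_two_pow
  have h7 : 2 ^ a - 1 ∣ 2 ^ (b % a) - 1 := (Nat.modEq_iff_dvd' h6).1 h4.symm
  have h8 : 2 ^ (b % a) - 1 = 0 := Nat.eq_zero_of_dvd_of_lt h7 (by omega)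
  have h9 : b % a = 0 := by
    by_contra hne
    have : 2 ^ 1 ≤ 2 ^ (b % a) := Nat.pow_le_pow_right (by norm_num) (by omega)
    omega
  exact Nat.dvd_of_mod_eq_zero h9

/-- the geometric sum -/
def geo (a : ℕ) : ℕ → ℕ
  | 0 => 0
  | c + 1 => geo a c * 2 ^ a + 1

theorem geo_eq (a c : ℕ) : geo a c * 2 ^ a + 1 = geo a c + 2 ^ (a * c) := by
  induction c with
  | zero => simp [geo]
  | succ c ih =>
    have e : 2 ^ (a * (c + 1)) = 2 ^ (a * c) * 2 ^ a := by rw [Nat.mul_succ, pow_add]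
    rw [e]
    simp only [geo]
    have : (geo a c * 2 ^ a + 1) * 2 ^ a = (geo a c + 2 ^ (a * c)) * 2 ^ a := by rw [ih]
    nlinarith

theorem geo_unique {a c x : ℕ} (ha : 0 < a) (h : x * 2 ^ a + 1 = x + 2 ^ (a * c)) :
    x = geo a c := by
  have h1 := geo_eq a c
  have h2 : 2 ≤ 2 ^ a := by
    calc 2 = 2 ^ 1 := rfl
      _ ≤ 2 ^ a := Nat.pow_le_pow_right (by norm_num) ha
  obtain ⟨d, hd⟩ : ∃ d, 2 ^ a = d + 2 := ⟨2 ^ a - 2, by omega⟩
  rw [hd] at h h1
  have : x * (d + 1) = geo a c * (d + 1) := by nlinarith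
  exact Nat.eq_of_mul_eq_mul_right (Nat.succ_pos _) this

theorem geo_mod (a c : ℕ) : geo a c ≡ c [MOD 2 ^ a - 1] := by
  induction c with
  | zero => rfl
  | succ c ih =>
    have h : 2 ^ a ≡ 1 [MOD 2 ^ a - 1] := by simpa using two_pow_mod a 1
    simp only [geo]
    have := (ih.mul h).add_right 1
    simpa using this

theorem lt_geo (a : ℕ) (ha : 0 < a) : ∀ c, 2 ≤ c → c < geo a c := by
  have h2 : 2 ≤ 2 ^ a := by
    calc 2 = 2 ^ 1 := rfl
      _ ≤ 2 ^ a := Nat.pow_le_pow_right (by norm_num) ha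
  intro c hc
  induction c, hc using Nat.le_induction with
  | base => simp only [geo]; omega
  | succ c hc ih => simp only [geo]; nlinarith

theorem sq_lt_pow : ∀ a, 5 ≤ a → a ^ 2 + 1 < 2 ^ a := by
  intro a ha
  induction a, ha using Nat.le_induction with
  | base => norm_num
  | succ a ha ih => rw [pow_succ 2 a]; nlinarith

/-- the key definition of squares -/
theorem sq_iff (a b : ℕ) (ha : 0 < a) (hb : 0 < b) : (4 < a ∧ b = a ^ 2) ↔
    ∃ x, 0 < x ∧ ∃ k, 0 < k ∧ (x * 2 ^ a + 1 = x + 1 * 2 ^ b ∧ (x + k = a + k * 2 ^ a ∧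
      (b + 1 < 1 * 2 ^ a ∧ 4 < a))) := by
  constructor
  · rintro ⟨h5, rfl⟩
    have h1 := geo_eq a a
    have h2 := geo_mod a a
    have h3 := lt_geo a ha a (by omega)
    have h4 := sq_lt_pow a (by omega)
    have h5' : 2 ^ a - 1 ∣ geo a a - a := (Nat.modEq_iff_dvd' (by omega)).1 h2.symm
    obtain ⟨k, hk⟩ := h5'
    have h1' : 1 ≤ 2 ^ a := Nat.one_le_two_pow
    refine ⟨geo a a, by omega, k, ?_, ?_, ?_, ?_, h5⟩
    · rcases Nat.eq_zero_or_pos k with rfl | h
      · rw [Nat.mul_zero] at hk; omega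
      · exact h
    · rw [one_mul, pow_two]; exact h1
    · have e : (2 ^ a - 1) * k + k = k * 2 ^ a := by
        rw [← Nat.succ_mul, mul_comm]; congr 1; omega
      omega
    · rw [one_mul]; exact h4
  · rintro ⟨x, hx, k, hk, e1, e2, e3, e4⟩
    rw [one_mul] at e1 e3
    obtain ⟨c, rfl⟩ := dvd_of_pow ha e1
    have ex := geo_unique ha e1
    have h2 := geo_mod a c
    rw [← ex] at h2
    have h1' : 1 ≤ 2 ^ a := Nat.one_le_two_pow
    have h3 : x ≡ a [MOD 2 ^ a - 1] := by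
      have e : (2 ^ a - 1) * k + k = k * 2 ^ a := by
        rw [← Nat.succ_mul, mul_comm]; congr 1; omega
      have e' : x = (2 ^ a - 1) * k + a := by omega
      rw [e']
      have : (2 ^ a - 1) * k ≡ 0 [MOD 2 ^ a - 1] := (Nat.modEq_zero_iff_dvd).2 (Dvd.intro _ rfl)
      simpa using this.add_right a
    have h4 : c ≡ a [MOD 2 ^ a - 1] := h2.symm.trans h3
    have hc : 0 < c := Nat.pos_of_ne_zero (by rintro rfl; simp at hb)
    have hca : c ≤ a * c := Nat.le_mul_of_pos_left c ha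
    have haa : a ≤ a * c := Nat.le_mul_of_pos_right a hc
    have h5 : c = a := Nat.ModEq.eq_of_lt_of_lt h4 (by omega) (by omega)
    subst h5
    exact ⟨e4, (pow_two _).symm⟩

theorem PD.sq {α : Type} {f g : (α → ℕ) → ℕ} (hf : PF f) (hg : PF g) :
    PD (fun v => 4 < f v ∧ g v = f v ^ 2) := by
  refine PD.subst2 (S := fun a b => 4 < a ∧ b = a ^ 2) ?_ hf hg
  have va : PF (fun w : Option (Option Bool) → ℕ => w (some (some true))) := PF.var _
  have vb : PF (fun w : Option (Option Bool) → ℕ => w (some (some false))) := PF.var _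
  have vx : PF (fun w : Option (Option Bool) → ℕ => w (some none)) := PF.var _
  have vk : PF (fun w : Option (Option Bool) → ℕ => w none) := PF.var _
  have c1 := PD.eq (PF.add (PF.sh vx va) PF.one) (PF.add vx (PF.sh PF.one vb))
  have c2 := PD.eq (PF.add vx vk) (PF.add va (PF.sh vk va))
  have c3 := PD.lt (PF.add vb PF.one) (PF.sh PF.one va)
  have c4 := PD.lt (PF.const 3) va
  have h1 := PD.ex (α := Option Bool) (S := fun k w =>
    (w none * 2 ^ w (some true) + 1 = w none + 1 * 2 ^ w (some false) ∧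
      (w none + k = w (some true) + k * 2 ^ w (some true) ∧
      (w (some false) + 1 < 1 * 2 ^ w (some true) ∧ 4 < w (some true)))))
    (PD.and c1 (PD.and c2 (PD.and c3 c4)))
  have h2 := PD.ex (α := Bool) (S := fun x w => ∃ k, 0 < k ∧
    (x * 2 ^ w true + 1 = x + 1 * 2 ^ w false ∧ (x + k = w true + k * 2 ^ w true ∧
      (w false + 1 < 1 * 2 ^ w true ∧ 4 < w true)))) h1
  exact h2.congr fun w hw => sq_iff _ _ (hw _) (hw _)

/-- squares shifted by five -/
theorem PF.sq5 {α : Type} {f : (α → ℕ) → ℕ} (hf : PF f) : PF (fun v => (f v + 5) ^ 2) := by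
  refine ⟨fun v _ => by positivity, ?_⟩
  refine (PD.sq (PF.add (PF.lift hf) (PF.const 4)) (PF.var (none : Option α))).congr fun w hw => ?_
  have := hf.1 (w ∘ some) (fun i => hw _)
  constructor
  · intro h
    exact ⟨by omega, h⟩
  · rintro ⟨_, h⟩
    exact h

theorem PF.mul {α : Type} {f g : (α → ℕ) → ℕ} (hf : PF f) (hg : PF g) :
    PF (fun v => f v * g v) := by
  refine PF.op (o := fun x y => x * y) (fun _ _ h h' => Nat.mul_pos h h') ?_ hf hg
  have va : PF (fun w : Fin 3 → ℕ => w 1) := PF.var _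
  have vb : PF (fun w : Fin 3 → ℕ => w 2) := PF.var _
  have vc : PF (fun w : Fin 3 → ℕ => w 0) := PF.var _
  have lhs := PF.sq5 (PF.add (PF.add va vb) (PF.const 4))
  have rhs := PF.add (PF.add (PF.sq5 va) (PF.sq5 vb))
    (PF.add (PF.add (PF.add vc (PF.add va (PF.add va (PF.add va (PF.add va va)))))
      (PF.add (PF.add vb (PF.add vb (PF.add vb (PF.add vb vb)))) (PF.const 24)))
      (PF.add (PF.add vc (PF.add va (PF.add va (PF.add va (PF.add va va)))))
      (PF.add (PF.add vb (PF.add vb (PF.add vb (PF.add vb vb)))) (PF.const 24))))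
  refine (PD.eq lhs rhs).congr fun w _ => ?_
  constructor
  · intro h
    rw [h]; ring
  · intro h
    nlinarith

/-- every integer polynomial is a difference of two definable positive functions -/
theorem poly_pf {γ : Type} (p : Poly γ) : ∃ F G : (γ → ℕ) → ℕ, PF F ∧ PF G ∧
    ∀ v : γ → ℕ, Pos v → p (fun i => v i - 1) = (F v : ℤ) - G v := by
  refine Poly.induction (C := fun p => ∃ F G : (γ → ℕ) → ℕ, PF F ∧ PF G ∧
    ∀ v : γ → ℕ, Pos v → p (fun i => v i - 1) = (F v : ℤ) - G v) ?_ ?_ ?_ ?_ p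
  · intro i
    refine ⟨fun v => v i, fun _ => 1, PF.var i, PF.one, fun v hv => ?_⟩
    have := hv i
    rw [Poly.proj_apply]
    push_cast [Nat.cast_sub (show 1 ≤ v i from this)]
    ring
  · intro n
    refine ⟨fun _ => n.toNat + 1, fun _ => (-n).toNat + 1, PF.const _, PF.const _, fun v _ => ?_⟩
    rw [Poly.const_apply]
    push_cast
    rcases le_total 0 n with h | h
    · rw [Int.toNat_of_nonneg h, Int.toNat_of_nonpos (by omega)]; ring
    · rw [Int.toNat_of_nonpos h, Int.toNat_of_nonneg (by omega)]; ring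
  · rintro p q ⟨F₁, G₁, f₁, g₁, h₁⟩ ⟨F₂, G₂, f₂, g₂, h₂⟩
    refine ⟨_, _, PF.add f₁ g₂, PF.add g₁ f₂, fun v hv => ?_⟩
    rw [Poly.sub_apply, h₁ v hv, h₂ v hv]
    push_cast
    ring
  · rintro p q ⟨F₁, G₁, f₁, g₁, h₁⟩ ⟨F₂, G₂, f₂, g₂, h₂⟩
    refine ⟨_, _, PF.add (PF.mul f₁ f₂) (PF.mul g₁ g₂), PF.add (PF.mul f₁ g₂) (PF.mul g₁ f₂),
      fun v hv => ?_⟩
    rw [Poly.mul_apply, h₁ v hv, h₂ v hv]
    push_cast
    ring

open Dioph in
/-- Diophantine sets are definable -/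
theorem pd_of_dioph {S : ℕ → Prop} (hS : Dioph {v : Unit → ℕ | S (v ())}) :
    PD (fun v : Unit → ℕ => S (v () - 1)) := by
  obtain ⟨δ, _, p, hp⟩ := Pool.Agent.Helper844.Dio.finite_dummies hS
  obtain ⟨F, G, hF, hG, h⟩ := poly_pf p
  refine (PD.exs (PD.eq hF hG)).congr fun v hv => ?_
  have h1 := hp (fun _ => v () - 1)
  change S (v () - 1) ↔ _ at h1
  rw [h1]
  constructor
  · rintro ⟨t, ht⟩
    refine ⟨fun i => t i + 1, fun i => Nat.succ_pos _, ?_⟩
    have h2 := h (Sum.elim v (fun i => t i + 1)) (by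
      rintro (i | i)
      · exact hv i
      · exact Nat.succ_pos _)
    have e : (fun i => Sum.elim v (fun i => t i + 1) i - 1) =
        Sum.elim (fun _ => v () - 1) t := by
      funext i
      rcases i with i | i
      · rfl
      · simp
    rw [e, ht] at h2
    omega
  · rintro ⟨t, ht, hFG⟩
    refine ⟨fun i => t i - 1, ?_⟩
    have h2 := h (Sum.elim v t) (by
      rintro (i | i)
      · exact hv i
      · exact ht i)
    have e : (fun i => Sum.elim v t i - 1) =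
        Sum.elim (fun _ => v () - 1) (fun i => t i - 1) := by
      funext i
      rcases i with i | i <;> rfl
    rw [e] at h2
    rw [h2, hFG]
    ring

end Pool.Agent.H669R3.XP
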