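import Mathlib
import Pool.Agent.H669R3.XPMul

/-!
Undecidability of systems of equations in the positive integers with `+` and `x * 2 ^ y`.
-/

set_option autoImplicit false

namespace Pool.Agent.H669R3.XP

open Pool.Agent.Helper844.Dio

/-- a recursively enumerable, not decidable set of natural numbers -/
theorem exists_re : ∃ p : ℕ → Prop, REPred p ∧ ¬ ComputablePred p := by
  refine ⟨fun n => ((Denumerable.ofNat Nat.Partrec.Code n).eval 0).Dom, ?_, ?_⟩
  · have h := Nat.Partrec.Code.eval_part.comp
      (Computable.ofNat Nat.Partrec.Code) (Computable.const (0 : ℕ))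
    exact Partrec.dom_re h
  · intro h
    refine ComputablePred.halting_problem 0 ?_
    have : ManyOneReducible (fun c : Nat.Partrec.Code => (Nat.Partrec.Code.eval c 0).Dom)
        (fun n => ((Denumerable.ofNat Nat.Partrec.Code n).eval 0).Dom) := by
      refine ⟨Encodable.encode, Computable.encode, ?_⟩
      intro c
      simp [Denumerable.ofNat_encode]
    exact ComputablePred.computable_of_manyOneReducible this h

/-- the system attached to `n` -/
def sysN (K f : ℕ) (L : List (Con ℕ)) (n : ℕ) : List (Con ℕ) :=
  (List.range n).map (fun i => (Sum.inl (K + i + 1, K + i, K) : Con ℕ)) ++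
    (Sum.inr (Sum.inr K) :: Sum.inl (K + n + 1, K + n, K) :: Sum.inl (K + n + 1, f, K) :: L)

theorem sysN_computable (K f : ℕ) (L : List (Con ℕ)) : Computable (sysN K f L) := by
  apply Primrec.to_comp
  have e1 : Primrec (fun n : ℕ => (List.range n).map
      (fun i => (Sum.inl (K + i + 1, K + i, K) : Con ℕ))) := by
    refine Primrec.list_map Primrec.list_range ?_
    have a1 : Primrec (fun i : ℕ => K + i) := Primrec.nat_add.comp (Primrec.const K) Primrec.id
    have a2 : Primrec (fun i : ℕ => K + i + 1) := Primrec.succ.comp a1
    have a3 : Primrec (fun i : ℕ => (Sum.inl (K + i + 1, K + i, K) : Con ℕ)) :=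
      Primrec.sumInl.comp (Primrec.pair a2 (Primrec.pair a1 (Primrec.const K)))
    exact (a3.comp Primrec.snd).to₂
  have a1 : Primrec (fun i : ℕ => K + i) := Primrec.nat_add.comp (Primrec.const K) Primrec.id
  have a2 : Primrec (fun i : ℕ => K + i + 1) := Primrec.succ.comp a1
  have a3 : Primrec (fun i : ℕ => (Sum.inl (K + i + 1, K + i, K) : Con ℕ)) :=
    Primrec.sumInl.comp (Primrec.pair a2 (Primrec.pair a1 (Primrec.const K)))
  have a4 : Primrec (fun i : ℕ => (Sum.inl (K + i + 1, f, K) : Con ℕ)) :=
    Primrec.sumInl.comp (Primrec.pair a2 (Primrec.pair (Primrec.const f) (Primrec.const K)))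
  exact Primrec.list_append.comp e1 (Primrec.list_cons.comp (Primrec.const _)
    (Primrec.list_cons.comp a3 (Primrec.list_cons.comp a4 (Primrec.const L))))

/-- the master reduction: an r.e. set reduces to solvability of systems of equations -/
theorem reduction (S : ℕ → Prop) (hS : REPred S) : ∃ (K f : ℕ) (L : List (Con ℕ)), ∀ n,
    S n ↔ ∃ v : ℕ → ℕ, (∀ i, 0 < v i) ∧ ∀ c ∈ sysN K f L n, Holds v c := by
  obtain ⟨β, _, L, hL⟩ := pd_of_dioph (dprm hS)
  let e := Fintype.equivFin (Unit ⊕ β)
  set K := Fintype.card (Unit ⊕ β) with hK
  let g : Unit ⊕ β → ℕ := fun x => (e x).val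
  refine ⟨K, g (Sum.inl ()), L.map (cmap g), fun n => ?_⟩
  have h1 := hL (fun _ => n + 1) (fun _ => Nat.succ_pos n)
  simp only [Nat.add_sub_cancel] at h1
  rw [h1]
  constructor
  · rintro ⟨y, hy, hc⟩
    let v : ℕ → ℕ := fun m => if h : m < K then
      Sum.elim (fun _ => n + 1) y (e.symm ⟨m, h⟩) else m - K + 1
    have vg : ∀ x, v (g x) = Sum.elim (fun _ => n + 1) y x := by
      intro x
      simp only [v, g]
      rw [dif_pos (e x).2]
      simp
    have vK : ∀ i, v (K + i) = i + 1 := by
      intro i
      simp only [v]
      rw [dif_neg (by omega)]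
      omega
    refine ⟨v, ?_, ?_⟩
    · intro i
      simp only [v]
      split_ifs with h
      · rcases e.symm ⟨i, h⟩ with u | b
        · simp
        · exact hy b
      · omega
    · intro c hc'
      simp only [sysN, List.mem_append, List.mem_map, List.mem_cons] at hc'
      rcases hc' with ⟨i, _, rfl⟩ | rfl | rfl | rfl | ⟨c, hc', rfl⟩
      · have a := vK (i + 1)
        have b := vK i
        have c := vK 0
        simp only [Holds]
        rw [← add_assoc] at a
        rw [a, b]
        simpa using c.symm
      · exact vK 0
      · have a := vK (n + 1)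
        have b := vK n
        have c := vK 0
        simp only [Holds]
        rw [← add_assoc] at a
        rw [a, b]
        simpa using c.symm
      · have a := vK (n + 1)
        have c := vK 0
        simp only [Holds]
        rw [← add_assoc] at a
        rw [a, vg]
        simpa using c.symm
      · rw [holds_cmap]
        have := hc c hc'
        convert this using 1
        funext x
        exact vg x
  · rintro ⟨v, hv, hc⟩
    have c0 : v K = 1 := hc (Sum.inr (Sum.inr K)) (by simp [sysN])
    have cn : ∀ i ≤ n, v (K + i) = i + 1 := by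
      intro i
      induction i with
      | zero => intro _; exact c0
      | succ i ih =>
        intro hi
        have a := hc (Sum.inl (K + i + 1, K + i, K)) (by
          simp only [sysN, List.mem_append, List.mem_map]
          exact Or.inl ⟨i, List.mem_range.2 (by omega), rfl⟩)
        simp only [Holds] at a
        rw [← add_assoc, a, ih (by omega), c0]
    have d1 : v (K + n + 1) = v (K + n) + v K :=
      hc (Sum.inl (K + n + 1, K + n, K)) (by simp [sysN])
    have d2 : v (K + n + 1) = v (g (Sum.inl ())) + v K :=
      hc (Sum.inl (K + n + 1, g (Sum.inl ()), K)) (by simp [sysN])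
    have d3 : v (g (Sum.inl ())) = n + 1 := by
      have := cn n le_rfl
      omega
    refine ⟨fun b => v (g (Sum.inr b)), fun b => hv _, ?_⟩
    intro c hc'
    have := hc (cmap g c) (by
      simp only [sysN, List.mem_append, List.mem_cons]
      exact Or.inr (Or.inr (Or.inr (Or.inr (List.mem_map_of_mem hc')))))
    rw [holds_cmap] at this
    convert this using 1
    funext x
    rcases x with x | x
    · exact d3.symm
    · rfl

/-- solvability of finite systems of equations `x = y + z`, `x = y * 2 ^ z`, `x = 1` in positive
integers is not decidable -/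
theorem system_undecidable : ¬ ComputablePred (fun L : List (Con ℕ) =>
    ∃ v : ℕ → ℕ, (∀ i, 0 < v i) ∧ ∀ c ∈ L, Holds v c) := by
  intro h
  obtain ⟨p, hp, hn⟩ := exists_re
  obtain ⟨K, f, L, hL⟩ := reduction p hp
  apply hn
  refine ComputablePred.computable_of_manyOneReducible ?_ h
  exact ⟨sysN K f L, sysN_computable K f L, hL⟩

end Pool.Agent.H669R3.XP
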